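import Pool.Agent.H12.CF.Def

/-!
# [H12 CF CYC] cyclic normal subgroups, 60-90 lines

`cyc_pow`: `MonoidHom.map_cyclic` for the conjugation on `W` (as `sq_pow` in H51/AG/Sq.lean). `cyc`: two power maps commute, so a commutator acts trivially (closure induction, `Subgroup.commutator_le`-like: the elements of `G` which centralise `W` are a subgroup which contains all commutators).
`cyc_sub`: a subgroup of a cyclic normal subgroup is normal (`cyc_pow`). `act_dvd`: `z y z⁻¹ = y ^ m`, `Y := zpowers y` of prime order `q`; `m ^ r = 1` modulo `q` (`r = orderOf z`), `m ≠ 1` modulo `q`, so `r` (prime) is the order of `m` in `(ZMod q)ˣ`, of order `q - 1`.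
-/

set_option autoImplicit false

open scoped commutatorElement

namespace H12.CF

variable {G : Type} [Group G] [Finite G]

theorem cyc_pow (W : Subgroup G) [W.Normal] [IsCyclic W] (g : G) :
    ∃ m : ℤ, ∀ w ∈ W, g * w * g⁻¹ = w ^ m := by
  obtain ⟨m, hm⟩ := MonoidHom.map_cyclic ((MulAut.conjNormal g : MulAut W).toMonoidHom)
  refine ⟨m, fun z hz => ?_⟩
  have := congrArg Subtype.val (hm ⟨z, hz⟩)
  simpa using this

theorem cyc (W : Subgroup G) [W.Normal] [IsCyclic W] (T : Subgroup G) :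
    ∀ d ∈ (⁅T, T⁆ : Subgroup G), ∀ w ∈ W, d * w = w * d := by
  have h : (⁅T, T⁆ : Subgroup G) ≤ Subgroup.centralizer (W : Set G) := by
    rw [Subgroup.commutator_le]
    intro g _ k _
    rw [Subgroup.mem_centralizer_iff]
    intro w hw
    obtain ⟨a, ha⟩ := cyc_pow W g
    obtain ⟨b, hb⟩ := cyc_pow W k
    have h1 : ∀ v ∈ W, g * (k * v * k⁻¹) * g⁻¹ = k * (g * v * g⁻¹) * k⁻¹ := by
      intro v hv
      rw [hb v hv, ha v hv, ha _ (W.zpow_mem hv _), hb _ (W.zpow_mem hv _), ← zpow_mul, ← zpow_mul, mul_comm]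
    have h2 : (k * g)⁻¹ * w * (k * g) ∈ W := by
      have h3 : W.Normal := inferInstance
      have h4 := h3.conj_mem w hw (k * g)⁻¹
      rwa [inv_inv] at h4
    have h3 := h1 _ h2
    have h4 : k * (g * ((k * g)⁻¹ * w * (k * g)) * g⁻¹) * k⁻¹ = w := by group
    rw [h4] at h3
    have h5 : g * (k * ((k * g)⁻¹ * w * (k * g)) * k⁻¹) * g⁻¹ = ⁅g, k⁆ * w * ⁅g, k⁆⁻¹ := by
      rw [commutatorElement_def]
      group
    rw [h5] at h3
    rw [mul_inv_eq_iff_eq_mul] at h3
    exact h3.symm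
  intro d hd w hw
  have h1 := (Subgroup.mem_centralizer_iff.mp (h hd)) w hw
  exact h1.symm

theorem cyc_sub (W : Subgroup G) [W.Normal] [IsCyclic W] (V : Subgroup G) (hV : V ≤ W) :
    V.Normal := by
  refine ⟨fun v hv g => ?_⟩
  obtain ⟨m, hm⟩ := cyc_pow W g
  rw [hm v (hV hv)]
  exact V.zpow_mem hv m

theorem act_dvd {y z : G} (hy : (orderOf y).Prime) (hY : (Subgroup.zpowers y).Normal)
    (hz : (orderOf z).Prime) (hne : z * y ≠ y * z) : orderOf z ∣ orderOf y - 1 := by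
  haveI := hY
  obtain ⟨m, hm⟩ := cyc_pow (Subgroup.zpowers y) z
  have hyY : y ∈ Subgroup.zpowers y := Subgroup.mem_zpowers y
  have hpw : ∀ k : ℕ, z ^ k * y * (z ^ k)⁻¹ = y ^ (m ^ k) := by
    intro k
    induction k with
    | zero => simp
    | succ k ih =>
      have h2 : z ^ (k + 1) * y * (z ^ (k + 1))⁻¹ = z * (z ^ k * y * (z ^ k)⁻¹) * z⁻¹ := by
        rw [pow_succ']
        group
      rw [h2, ih, hm _ ((Subgroup.zpowers y).zpow_mem hyY _), ← zpow_mul, pow_succ]
  have h3 := hpw (orderOf z)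
  rw [pow_orderOf_eq_one, one_mul, inv_one, mul_one] at h3
  have h4 : ((orderOf y : ℕ) : ℤ) ∣ m ^ orderOf z - 1 := by
    rw [orderOf_dvd_iff_zpow_eq_one, zpow_sub, zpow_one, ← h3, mul_inv_cancel]
  have h5 : ¬ ((orderOf y : ℕ) : ℤ) ∣ m - 1 := by
    intro h6
    rw [orderOf_dvd_iff_zpow_eq_one, zpow_sub, zpow_one, ← hm y hyY, mul_inv_eq_one,
      mul_inv_eq_iff_eq_mul] at h6
    exact hne h6
  haveI : Fact (orderOf y).Prime := ⟨hy⟩
  haveI : Fact (orderOf z).Prime := ⟨hz⟩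
  have h6 : ((m : ℤ) : ZMod (orderOf y)) ^ orderOf z = 1 := by
    have h7 := (ZMod.intCast_zmod_eq_zero_iff_dvd (m ^ orderOf z - 1) (orderOf y)).mpr h4
    push_cast at h7
    exact sub_eq_zero.mp h7
  have h7 : ((m : ℤ) : ZMod (orderOf y)) ≠ 1 := by
    intro h8
    apply h5
    rw [← ZMod.intCast_zmod_eq_zero_iff_dvd]
    push_cast
    rw [h8, sub_self]
  have h8 : orderOf ((m : ℤ) : ZMod (orderOf y)) = orderOf z := orderOf_eq_prime h6 h7
  have h9 : ((m : ℤ) : ZMod (orderOf y)) ≠ 0 := by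
    intro h10
    rw [h10, zero_pow hz.ne_zero] at h6
    exact zero_ne_one h6
  rw [← h8]
  exact ZMod.orderOf_dvd_card_sub_one h9

end H12.CF
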