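import Pool.Agent.H12.CF.Two
import Pool.Agent.H12.CF.Cyc

/-!
# [H12 CF A1] typed elements in the derived group centralise the normal `t`-subgroups, 100-140 lines

`n = #Ω`, `q = orderOf y`. `W = ⊥` is trivial; otherwise `t ∣ #T`, `dich` (`S.cf`). `W` cyclic: `cyc`. Otherwise `#W = t ^ 2`, exponent `t`; suppose that `y` does not centralise `W`; `R` from `exists_rp`, `two` with `f = y`: `t ≠ 2`, `z ∈ L` of order 2, `(ρ y)⁻¹ ≠ ρ y`, so `q ≠ 2`; `tge`: `5 ≤ t`.
`y w = w y`, `w ∈ W` gives `ρ y (e w) = e w` (`R.act` with `w' = w`), `m_one` (`rp_det`, `m = q`, `q ≠ 0` in `ZMod t`): `e w = 0`, `w = 1` (`rp_zero`) (`ρ y ≠ 1` by `rp_one`). `#(st W α) ≤ t`: it divides `t ^ 2` and is not `t ^ 2` (`nfix`: `W ≠ ⊥`). `orb2`: `t ^ 2 fx y ≤ t n`, so `t fx y ≤ n`.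
`ix y = (n - fx y)(1 - 1 / q) ≥ n (4 / 5)(2 / 3) > n / 2`, contradiction to `half` (`n > 0`).
-/

set_option autoImplicit false

open scoped commutatorElement

noncomputable section

namespace H12.CF

variable {G Ω : Type} [Group G] [Finite G] [MulAction G Ω] [Finite Ω] {L : Set G} {T : Subgroup G}

theorem a1 [Nonempty Ω] [FaithfulSMul G Ω] [MulAction.IsPretransitive G Ω] (S : St Ω L T) {y : G}
    (hy : y ∈ L) (hyD : y ∈ (⁅T, T⁆ : Subgroup G)) {t : ℕ} (ht : t.Prime) (hty : t ≠ orderOf y)
    (W : Subgroup G) [W.Normal] (hWT : W ≤ T) (hW : IsPGroup t W) : ∀ w ∈ W, y * w = w * y := by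
  have : Fact t.Prime := ⟨ht⟩
  by_cases hWb : W = ⊥
  · intro w hw
    rw [hWb, Subgroup.mem_bot] at hw
    rw [hw, mul_one, one_mul]
  · have hqp : (orderOf y).Prime := S.pr y hy
    have htW : t ∣ Nat.card W := by
      have : Nontrivial W := (Subgroup.nontrivial_iff_ne_bot W).2 hWb
      obtain ⟨k, hk, hk2⟩ := (IsPGroup.nontrivial_iff_card hW).1 inferInstance
      rw [hk2]
      exact dvd_pow_self t (by omega)
    have hc : ¬ t ^ 3 ∣ Nat.card G := S.cf t ht (htW.trans (Subgroup.card_dvd_of_le hWT))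
    rcases dich ht hc W hW with hcy | ⟨hW2, hex, hcom⟩
    · have := hcy
      exact cyc W T y hyD
    · by_contra hcon
      push Not at hcon
      obtain ⟨R⟩ := exists_rp W hW2 hex hcom
      obtain ⟨ht2, -, -, -, hne, z, -, hz2, -⟩ := two S W hWT hW2 hcom R hyD hcon
      have hq2 : orderOf y ≠ 2 := by
        intro h2
        apply hne
        have h4 : y ^ 2 = 1 := by
          have h5 := pow_orderOf_eq_one y
          rwa [h2] at h5
        have h3 : R.ρ y * R.ρ y = 1 := by
          rw [← map_mul, ← pow_two, h4, map_one]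
        exact (eq_inv_of_mul_eq_one_left h3).symm
      have hr1 : R.ρ y ≠ 1 := by
        intro h1
        obtain ⟨w, hw, hne1⟩ := hcon
        exact hne1 ((rp_one R y).1 h1 w hw)
      have h5 : 5 ≤ t := tge ht2 R hqp rfl hq2 (Ne.symm hty) hr1
      have hfix : ∀ w ∈ W, y * w = w * y → w = 1 := by
        intro w hw hyw
        by_contra hw1
        apply hr1
        have h1 := R.act y ⟨w, hw⟩ ⟨w, hw⟩ (by
          show w = y * w * y⁻¹
          rw [hyw, mul_inv_cancel_right])
        have h2 : R.e ⟨w, hw⟩ ≠ 0 := by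
          intro h3
          apply hw1
          exact congrArg Subtype.val ((rp_zero R ⟨w, hw⟩).1 h3)
        apply Units.ext
        rw [Units.val_one]
        refine m_one _ (rp_det R hyD) _ h2 h1.symm (orderOf y) ?_ ?_
        · intro h3
          rw [ZMod.natCast_eq_zero_iff] at h3
          exact hty ((Nat.prime_dvd_prime_iff_eq ht hqp).1 h3)
        · rw [← Units.val_pow_eq_pow_val, ← map_pow, pow_orderOf_eq_one, map_one, Units.val_one]
      have hst : ∀ α : Ω, Nat.card (st W α) ≤ t := by
        intro α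
        have hle : st W α ≤ W := inf_le_left
        have h1 := Subgroup.card_dvd_of_le hle
        rw [hW2] at h1
        obtain ⟨k, hk, hk2⟩ := (Nat.dvd_prime_pow ht).1 h1
        rcases Nat.lt_or_ge k 2 with hk1 | hk1
        · rw [hk2]
          calc t ^ k ≤ t ^ 1 := Nat.pow_le_pow_right ht.pos (by omega)
            _ = t := pow_one t
        · exfalso
          have hk3 : k = 2 := by omega
          rw [hk3] at hk2
          have h3 : st W α = W := Subgroup.eq_of_le_of_card_ge hle (by rw [hW2, hk2])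
          apply hWb
          refine nfix (Ω := Ω) W α fun w hw => ?_
          rw [← h3] at hw
          exact (Subgroup.mem_inf.1 hw).2
      have horb := orb2 (Ω := Ω) W hcom y hfix t hst
      rw [hW2] at horb
      have hfx : t * fx Ω y ≤ Nat.card Ω := by
        have h1 : t * (t * fx Ω y) ≤ t * Nat.card Ω := by
          calc t * (t * fx Ω y) = t ^ 2 * fx Ω y := by ring
            _ ≤ t * Nat.card Ω := horb
        exact Nat.le_of_mul_le_mul_left h1 ht.pos
      have hfx5 : 5 * fx Ω y ≤ Nat.card Ω := (Nat.mul_le_mul_right _ h5).trans hfx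
      have hn : 0 < Nat.card Ω := Nat.card_pos
      have hh := half S hy hz2
      unfold ix at hh
      have hq3 : 3 ≤ orderOf y := by
        have := hqp.two_le
        omega
      have hq3r : (3 : ℝ) ≤ (orderOf y : ℝ) := by exact_mod_cast hq3
      have hnr : (0 : ℝ) < (Nat.card Ω : ℝ) := by exact_mod_cast hn
      have hfr : 5 * (fx Ω y : ℝ) ≤ (Nat.card Ω : ℝ) := by exact_mod_cast hfx5
      have h1 : 1 / (orderOf y : ℝ) ≤ 1 / 3 := one_div_le_one_div_of_le (by norm_num) hq3r
      have h2 : (4 / 5 * (Nat.card Ω : ℝ)) * (2 / 3) ≤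
          ((Nat.card Ω : ℝ) - fx Ω y) * (1 - 1 / (orderOf y : ℝ)) := by
        refine mul_le_mul ?_ ?_ (by norm_num) ?_
        · linarith
        · linarith
        · linarith
      linarith

end H12.CF
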