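import Pool.Agent.H12.CF.Ab
import Mathlib.GroupTheory.Solvable

/-!
# [H12 CF FIT] a maximal abelian normal subgroup, 140-200 lines

`T` normal in `G`, solvable, with abelian Sylow subgroups. Let `F` be maximal among the commutative normal subgroups of `G` contained in `T`.
CLAIM `C_T(F) ≤ F`. `C := T ⊓ centralizer F` is normal in `G` and contains `F`. Suppose `C ≰ F`. Derived series of `C` (as subgroups of `G`: `D 0 = C`, `D (i+1) = ⁅D i, D i⁆`, normal in `G`, eventually `⊥`): let `i` be the last with `D i ≰ F`; `M := F ⊔ D i`, normal in `G`, `≤ C`, `F` is central in `M`, so `⁅M, M⁆ ≤ ⁅D i, D i⁆ ≤ F`.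
If `⁅M, M⁆ ≠ ⊥` it has an element `z` of prime order `r`, central in `M`, in the commutator subgroup of `M`: `H71.GT.cen` for the group `M` (`AbS r M`: `AbS.sub`; `r ∣ #T`) gives `z = 1`, contradiction. So `M` is commutative, contradiction to the maximality (`M ≰ F`).
`fitq`: for a prime `t` let `F_t = {x ∈ F : x ^ t ^ k = 1 for some k}`, a normal `t`-subgroup of `G` in `T`. By `h` the element `g` centralises all `F_t`, so it centralises `F` (a finite commutative group is generated by its `F_t`: every element is a product of powers of itself of prime power order), so `g ∈ F`, `g ∈ F_q =: W`, `q = orderOf g`.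
-/

set_option autoImplicit false

namespace H12.CF

open H71.GT

variable {G : Type} [Group G] [Finite G]

omit [Finite G] in
/-- the terms of the derived series of a normal subgroup are normal -/
private theorem dn (C : Subgroup G) [C.Normal] (n : ℕ) : ((derivedSeries C n).map C.subtype).Normal :=
  ConjAct.normal_of_characteristic_of_normal

/-- a commutative normal subgroup: Sylow subgroups are normal -/
private theorem syl (F : Subgroup G) [F.Normal] (hF : ∀ x ∈ F, ∀ y ∈ F, x * y = y * x) {t : ℕ} (ht : t.Prime)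
    (P : Sylow t F) : ((P : Subgroup F).map F.subtype).Normal ∧ IsPGroup t ((P : Subgroup F).map F.subtype) := by
  have : Fact t.Prime := ⟨ht⟩
  have hn : (P : Subgroup F).Normal := by
    refine ⟨fun n hn g => ?_⟩
    have h1 : g * n = n * g := Subtype.ext (hF g g.2 n n.2)
    rw [h1, mul_inv_cancel_right]
    exact hn
  have hc : (P : Subgroup F).Characteristic := P.characteristic_of_normal hn
  exact ⟨ConjAct.normal_of_characteristic_of_normal, P.isPGroup'.map F.subtype⟩

theorem fit (T : Subgroup G) [T.Normal] (hs : Group.IsSolvable T)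
    (hab : ∀ q : ℕ, q.Prime → q ∣ Nat.card T → AbS q G) :
    ∃ F : Subgroup G, F.Normal ∧ F ≤ T ∧ (∀ x ∈ F, ∀ y ∈ F, x * y = y * x) ∧
      ∀ g ∈ T, (∀ f ∈ F, g * f = f * g) → g ∈ F := by
  classical
  obtain ⟨F, ⟨hFn, hFT, hFc⟩, hmax⟩ := Set.exists_max_image
    {F : Subgroup G | F.Normal ∧ F ≤ T ∧ ∀ x ∈ F, ∀ y ∈ F, x * y = y * x} (fun F => Nat.card F)
    (Set.toFinite _) ⟨⊥, inferInstance, bot_le, fun x hx y hy => by
      rw [Subgroup.mem_bot] at hx hy
      rw [hx, hy]⟩
  refine ⟨F, hFn, hFT, hFc, ?_⟩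
  intro g hgT hgF
  by_contra hg
  let C : Subgroup G := T ⊓ Subgroup.centralizer (F : Set G)
  have hcn : (Subgroup.centralizer (F : Set G)).Normal := inferInstance
  have hCn : C.Normal := inferInstance
  have hgC : g ∈ C := ⟨hgT, Subgroup.mem_centralizer_iff.2 fun f hf => (hgF f hf).symm⟩
  have hCs : Group.IsSolvable C :=
    Group.isSolvable_of_isSolvable_injective (Subgroup.inclusion_injective (inf_le_left : C ≤ T))
  let D : ℕ → Subgroup G := fun n => (derivedSeries C n).map C.subtype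
  have hDC : ∀ n, D n ≤ C := fun n => by
    rintro _ ⟨x, -, rfl⟩
    exact x.2
  have hD0 : ¬ D 0 ≤ F := by
    intro h
    exact hg (h ⟨⟨g, hgC⟩, by
      rw [derivedSeries_zero]
      trivial, rfl⟩)
  have hex : ∃ n, D n ≤ F := by
    obtain ⟨n, hn⟩ := hCs.solvable
    refine ⟨n, ?_⟩
    show (derivedSeries C n).map C.subtype ≤ F
    rw [hn, Subgroup.map_bot]
    exact bot_le
  obtain ⟨i, hi, hi'⟩ : ∃ i, ¬ D i ≤ F ∧ D (i + 1) ≤ F := by
    have h1 := Nat.find_spec hex
    have h2 : Nat.find hex ≠ 0 := by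
      intro h0
      rw [h0] at h1
      exact hD0 h1
    obtain ⟨i, hi⟩ := Nat.exists_eq_succ_of_ne_zero h2
    refine ⟨i, Nat.find_min hex (by omega), ?_⟩
    rw [hi] at h1
    exact h1
  have hDn : (D i).Normal := dn C i
  let M : Subgroup G := F ⊔ D i
  have hMn : M.Normal := inferInstance
  have hMT : M ≤ T := sup_le hFT ((hDC i).trans inf_le_left)
  have hMF : ∀ x ∈ M, ∀ f ∈ F, x * f = f * x := by
    intro x hx f hf
    have h1 : M ≤ Subgroup.centralizer (F : Set G) := by
      refine sup_le (fun y hy => Subgroup.mem_centralizer_iff.2 fun z hz => hFc z hz y hy) ?_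
      exact (hDC i).trans inf_le_right
    exact (Subgroup.mem_centralizer_iff.1 (h1 hx) f hf).symm
  have hcomm : ∀ x ∈ M, ∀ y ∈ M, x * y * x⁻¹ * y⁻¹ ∈ F := by
    intro x hx y hy
    obtain ⟨f, hf, d, hd, rfl⟩ := (Subgroup.mem_sup_of_normal_left).1 hx
    obtain ⟨f', hf', d', hd', rfl⟩ := (Subgroup.mem_sup_of_normal_left).1 hy
    have hdM : d ∈ M := (le_sup_right : D i ≤ M) hd
    have hdM' : d' ∈ M := (le_sup_right : D i ≤ M) hd'
    have h1 : f * d * (f' * d') * (f * d)⁻¹ * (f' * d')⁻¹ = d * d' * d⁻¹ * d'⁻¹ := by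
      have e1 : d * f' = f' * d := hMF d hdM f' hf'
      have e2 : (d * d' * d⁻¹) * f⁻¹ = f⁻¹ * (d * d' * d⁻¹) :=
        hMF _ (mul_mem (mul_mem hdM hdM') (inv_mem hdM)) _ (inv_mem hf)
      have e3 : (d * d' * d⁻¹ * d'⁻¹) * f'⁻¹ = f'⁻¹ * (d * d' * d⁻¹ * d'⁻¹) :=
        hMF _ (mul_mem (mul_mem (mul_mem hdM hdM') (inv_mem hdM)) (inv_mem hdM')) _ (inv_mem hf')
      have e4 : f * f' = f' * f := hFc f hf f' hf'
      calc f * d * (f' * d') * (f * d)⁻¹ * (f' * d')⁻¹
          = f * (d * f') * d' * d⁻¹ * f⁻¹ * d'⁻¹ * f'⁻¹ := by group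
        _ = f * f' * ((d * d' * d⁻¹) * f⁻¹) * d'⁻¹ * f'⁻¹ := by
            rw [e1]
            group
        _ = f' * ((d * d' * d⁻¹ * d'⁻¹) * f'⁻¹) := by
            rw [e2, e4]
            group
        _ = d * d' * d⁻¹ * d'⁻¹ := by
            rw [e3]
            group
    rw [h1]
    apply hi'
    show d * d' * d⁻¹ * d'⁻¹ ∈ (derivedSeries C (i + 1)).map C.subtype
    rw [derivedSeries_succ, Subgroup.map_commutator]
    exact Subgroup.commutator_mem_commutator hd hd'
  have hMc : ∀ x ∈ M, ∀ y ∈ M, x * y = y * x := by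
    intro x hx y hy
    by_contra hxy
    let c : M := (⟨x, hx⟩ : M) * (⟨y, hy⟩ : M) * (⟨x, hx⟩ : M)⁻¹ * (⟨y, hy⟩ : M)⁻¹
    have hc1 : c ≠ 1 := by
      intro h
      have h2 := congrArg (Subtype.val : M → G) h
      have h3 : x * y * x⁻¹ * y⁻¹ = 1 := h2
      apply hxy
      rw [mul_inv_eq_one, mul_inv_eq_iff_eq_mul] at h3
      exact h3
    have hcF : (c : G) ∈ F := hcomm x hx y hy
    have hcc : c ∈ commutator M :=
      Subgroup.commutator_mem_commutator (Subgroup.mem_top (⟨x, hx⟩ : M)) (Subgroup.mem_top (⟨y, hy⟩ : M))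
    have ho : orderOf c ≠ 1 := fun h => hc1 (orderOf_eq_one_iff.1 h)
    obtain ⟨r, hr, hrd⟩ := Nat.exists_prime_and_dvd ho
    have hrf : Fact r.Prime := ⟨hr⟩
    have hop : 0 < orderOf c := orderOf_pos c
    let z : M := c ^ (orderOf c / r)
    have hz : orderOf z = r := by
      rw [orderOf_pow_of_dvd (Nat.div_pos (Nat.le_of_dvd hop hrd) hr.pos).ne' (Nat.div_dvd_of_dvd hrd)]
      exact Nat.div_div_self hrd hop.ne'
    have hzF : (z : G) ∈ F := by
      have h2 : (z : G) = (c : G) ^ (orderOf c / r) := rfl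
      rw [h2]
      exact pow_mem hcF _
    have hrT : r ∣ Nat.card T := by
      have h2 : orderOf (⟨(z : G), hMT z.2⟩ : T) = r := by
        rw [← Subgroup.orderOf_coe]
        show orderOf (z : G) = r
        rw [Subgroup.orderOf_coe, hz]
      rw [← h2]
      exact orderOf_dvd_natCard _
    have h1 := cen ((hab r hr hrT).sub M) (z := z) (fun w => Subtype.ext (hMF w w.2 z hzF))
      (pow_mem hcc _) (k := 1) (by
        rw [pow_one, ← hz]
        exact pow_orderOf_eq_one z)
    rw [h1, orderOf_one] at hz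
    exact hr.one_lt.ne hz
  have h2 := hmax M ⟨hMn, hMT, hMc⟩
  have h3 : F = M := Subgroup.eq_of_le_of_card_ge le_sup_left h2
  apply hi
  rw [h3]
  exact le_sup_right

theorem fitq (T : Subgroup G) [T.Normal] (hs : Group.IsSolvable T)
    (hab : ∀ q : ℕ, q.Prime → q ∣ Nat.card T → AbS q G) {g : G} (hgT : g ∈ T)
    (hg : (orderOf g).Prime)
    (h : ∀ t : ℕ, t.Prime → ∀ W : Subgroup G, W.Normal → W ≤ T → IsPGroup t W →
      ∀ w ∈ W, g * w = w * g) :
    ∃ W : Subgroup G, W.Normal ∧ W ≤ T ∧ IsPGroup (orderOf g) W ∧ g ∈ W := by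
  obtain ⟨F, hFn, hFT, hFc, hF⟩ := fit T hs hab
  have hgF : g ∈ F := by
    apply hF g hgT
    let S : Subgroup F := (Subgroup.centralizer {g}).subgroupOf F
    have hmem : ∀ x : F, x ∈ S ↔ g * (x : G) = (x : G) * g := by
      intro x
      rw [Subgroup.mem_subgroupOf, Subgroup.mem_centralizer_singleton_iff]
      exact eq_comm
    have hS : ∀ t : ℕ, t.Prime → ∀ P : Sylow t F, (P : Subgroup F) ≤ S := by
      intro t ht P x hx
      obtain ⟨h1, h2⟩ := syl F hFc ht P
      rw [hmem]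
      refine h t ht _ h1 ?_ h2 _ ⟨x, hx, rfl⟩
      rintro _ ⟨y, -, rfl⟩
      exact hFT y.2
    have hd : Nat.card F ∣ Nat.card S := by
      rw [← Nat.factorization_prime_le_iff_dvd Nat.card_pos.ne' Nat.card_pos.ne']
      intro t ht
      have hf : Fact t.Prime := ⟨ht⟩
      obtain ⟨P⟩ : Nonempty (Sylow t F) := inferInstance
      have h1 := Subgroup.card_dvd_of_le (hS t ht P)
      have h2 := P.card_eq_multiplicity
      rw [← ht.pow_dvd_iff_le_factorization Nat.card_pos.ne']
      rw [← h2]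
      exact h1
    have hT : S = ⊤ := Subgroup.eq_top_of_le_card S (Nat.le_of_dvd Nat.card_pos hd)
    intro f hf
    rw [← hmem ⟨f, hf⟩, hT]
    trivial
  have hf : Fact (orderOf g).Prime := ⟨hg⟩
  have hz : IsPGroup (orderOf g) (Subgroup.zpowers (⟨g, hgF⟩ : F)) := by
    apply IsPGroup.of_card (n := 1)
    rw [Nat.card_zpowers, pow_one, ← Subgroup.orderOf_coe]
  obtain ⟨P, hP⟩ := hz.exists_le_sylow
  obtain ⟨h1, h2⟩ := syl F hFc hg P
  refine ⟨_, h1, ?_, h2, ⟨⟨g, hgF⟩, hP (Subgroup.mem_zpowers _), rfl⟩⟩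
  rintro _ ⟨y, -, rfl⟩
  exact hFT y.2

end H12.CF
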