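import Pool.Agent.H12.CF.A1
import Pool.Agent.H12.CF.Fit

/-!
# [H12 CF A2] typed elements in the derived group: the normal Sylow subgroup, 100-150 lines

`q = orderOf y`, `D = ⁅T, T⁆`. `fitq` for `y` (`AbS` from `ab`, `S.cf`; the hypothesis: `t = q`: `same`; `t ≠ q`: `a1`): a normal `q`-subgroup `W₀ ≤ T` with `y ∈ W₀`. `W := W₀ ⊓ D`, normal, `y ∈ W`. `dich`: if `W` is not cyclic we are done.
`W` cyclic: `Y := zpowers y` is normal (`cyc_sub`). `y` has no fixed point (`nfix` for `Y`), `ix y = n (1 - 1 / q)`. `y` is not central in `T`: otherwise `H71.GT.cen` for the group `T` (`AbS q T`: `AbS.sub`; `y ∈ commutator T`, `y ^ q ^ 1 = 1`) gives `y = 1`. `T = closure L`: some `z ∈ L` does not commute with `y`; `r = orderOf z` divides `q - 1` (`act_dvd`), so `r < q`, and `ix y ≤ n (1 - 1 / r) < n (1 - 1 / q)` (`ix_le`): contradiction.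
-/

set_option autoImplicit false

open scoped commutatorElement

noncomputable section

namespace H12.CF

variable {G Ω : Type} [Group G] [Finite G] [MulAction G Ω] [Finite Ω] {L : Set G} {T : Subgroup G}

theorem a2 [Nonempty Ω] [FaithfulSMul G Ω] [MulAction.IsPretransitive G Ω] (S : St Ω L T) {y : G}
    (hy : y ∈ L) (hyD : y ∈ (⁅T, T⁆ : Subgroup G)) :
    ∃ W : Subgroup G, W.Normal ∧ W ≤ ⁅T, T⁆ ∧ Nat.card W = (orderOf y) ^ 2 ∧
      (∀ w ∈ W, w ^ orderOf y = 1) ∧ (∀ x ∈ W, ∀ w ∈ W, x * w = w * x) ∧ y ∈ W := by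
  have hq : (orderOf y).Prime := S.pr y hy
  have hqf : Fact (orderOf y).Prime := ⟨hq⟩
  have hTn : T.Normal := S.nor
  have hDn : (⁅T, T⁆ : Subgroup G).Normal := S.dn
  have hyT : y ∈ T := S.mem hy
  have hqT : orderOf y ∣ Nat.card T := by
    have h := orderOf_dvd_natCard (⟨y, hyT⟩ : T)
    rwa [← Subgroup.orderOf_coe] at h
  have hab : ∀ p : ℕ, p.Prime → p ∣ Nat.card T → H71.GT.AbS p G := fun p hp hpT => ab hp (S.cf p hp hpT)
  obtain ⟨W₀, hW₀n, hW₀T, hW₀p, hyW₀⟩ := fitq T S.sol hab hyT hq (by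
    intro t ht W hWn hWT hWp
    by_cases htq : t = orderOf y
    · subst htq
      exact same hq (hab _ hq hqT) W hWp (k := 1) (by rw [pow_one]; exact pow_orderOf_eq_one y)
    · exact a1 S hy hyD ht htq W hWT hWp)
  have hWn : (W₀ ⊓ ⁅T, T⁆ : Subgroup G).Normal := inferInstance
  have hWp : IsPGroup (orderOf y) (W₀ ⊓ ⁅T, T⁆ : Subgroup G) := hW₀p.to_le inf_le_left
  have hyW : y ∈ (W₀ ⊓ ⁅T, T⁆ : Subgroup G) := ⟨hyW₀, hyD⟩
  rcases dich hq (S.cf _ hq hqT) _ hWp with hcyc | ⟨h1, h2, h3⟩
  · exfalso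
    have hYn : (Subgroup.zpowers y).Normal :=
      cyc_sub (W₀ ⊓ ⁅T, T⁆ : Subgroup G) (Subgroup.zpowers y) (Subgroup.zpowers_le.2 hyW)
    have hy1 : y ≠ 1 := by
      intro h
      rw [h, orderOf_one] at hq
      exact Nat.not_prime_one hq
    have hfx : fx Ω y = 0 := by
      apply fx_zero
      intro α hα
      have h1 : Subgroup.zpowers y = ⊥ := by
        refine nfix (Ω := Ω) (Subgroup.zpowers y) α fun w hw => ?_
        have h2 : Subgroup.zpowers y ≤ MulAction.stabilizer G α := Subgroup.zpowers_le.2 hα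
        exact h2 hw
      exact hy1 (Subgroup.zpowers_eq_bot.1 h1)
    have hnc : ∃ z ∈ L, z * y ≠ y * z := by
      by_contra hcon
      push Not at hcon
      have h1 : T ≤ Subgroup.centralizer {y} := by
        rw [S.gen, Subgroup.closure_le]
        intro z hz
        exact Subgroup.mem_centralizer_singleton_iff.2 (hcon z hz)
      have h2 : (⟨y, hyT⟩ : T) ∈ commutator T := by
        have h3 := hyD
        rw [← Subgroup.map_subtype_commutator] at h3
        obtain ⟨x, hx, hxy⟩ := h3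
        have h4 : x = ⟨y, hyT⟩ := Subtype.ext hxy
        rw [← h4]
        exact hx
      have h5 := H71.GT.cen ((hab _ hq hqT).sub T) (z := (⟨y, hyT⟩ : T)) (fun g => by
        apply Subtype.ext
        have h6 := Subgroup.mem_centralizer_singleton_iff.1 (h1 g.2)
        first
          | exact h6
          | exact h6.symm) h2 (k := 1) (by
        apply Subtype.ext
        show y ^ orderOf y ^ 1 = 1
        rw [pow_one]
        exact pow_orderOf_eq_one y)
      exact hy1 (congrArg Subtype.val h5)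
    obtain ⟨z, hz, hne⟩ := hnc
    have hr : (orderOf z).Prime := S.pr z hz
    have hdv := act_dvd hq hYn hr hne
    have hlt : orderOf z < orderOf y := by
      have h2 := hq.two_le
      have h3 := Nat.le_of_dvd (by omega) hdv
      omega
    have h4 := ix_le (Ω := Ω) S hy hr
    unfold ix at h4
    rw [hfx, Nat.cast_zero, sub_zero] at h4
    have hn : (0 : ℝ) < Nat.card Ω := by exact_mod_cast Nat.card_pos
    have h5 := le_of_mul_le_mul_left h4 hn
    have hr0 : (0 : ℝ) < orderOf z := by exact_mod_cast hr.pos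
    have hlt' : (orderOf z : ℝ) < orderOf y := by exact_mod_cast hlt
    have h6 : 1 / (orderOf y : ℝ) < 1 / (orderOf z : ℝ) := one_div_lt_one_div_of_lt hr0 hlt'
    linarith
  · exact ⟨_, hWn, inf_le_right, h1, h2, h3, hyW⟩

end H12.CF
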