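import Pool.Agent.H12.CF.A1
import Mathlib.LinearAlgebra.Matrix.GeneralLinearGroup.Card
import Mathlib.GroupTheory.PGroup

/-!
# [H12 CF A3] the derived group centralises the typed normal Sylow subgroup, 140-200 lines

`q = orderOf y`, `n = #Ω`, `a = ix y`. Suppose `d ∈ D` does not centralise `W`. `R` from `exists_rp`, `two` with `f = d`, `t = q`: `q ≠ 2`, `z₀ ∈ L` of order 2: `a ≤ n / 2` (`half`).
`q ≠ 3`: for `q = 3` the range `M` of `ρ` on `T` has order dividing `48` (`Matrix.card_GL_field`), prime to 3 (`rp_cop`), so dividing `16`; `2 ∣ #T` (`z₀`), `#M ∣ #T`, `¬ 8 ∣ #G` (`S.cf`), so `#M ∣ 4`: commutative (`IsPGroup.commutative_of_card_eq_prime_sq` or cyclic): contradiction to `ρ d ≠ 1`, `d ∈ ⁅T, T⁆`. So `5 ≤ q`, `1 - 1 / q ≥ 4 / 5`.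
`a = (n - fx y)(1 - 1 / q) ≤ n / 2` gives `fx y ≥ 3 n / 8 > 0`. So `y` fixes some `α`: `st W α ≠ ⊥`, and `≠ W` (`nfix`): all `st W β` have order `q` (`st_card`, divisors of `q ^ 2`). By `cls_fix`, `cls` every class `{β | st W β = st W α'}` has `fx y > n / 3` elements: at most two classes: (*) for all `β₁ β₂ β₃` two of `st W βᵢ` are equal.
There are `β, z ∈ L` with `z (st W β) z⁻¹ ≠ st W β`: otherwise `T` normalises all `st W β` (closure), acts on each of them (order `q`) through a commutative group, so `D` centralises each `st W β` (as `cyc`: commuting power maps), and they generate `W` (two different ones exist: otherwise `st W β` is constant, fixes everything, `= ⊥` (faithful)); contradiction to `d`.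
By (*) the conjugation with `z` permutes the two classes of stabilisers (`st_smul`) and exchanges them, so `z` has no fixed point (a fixed point `γ` has `z (st W γ) z⁻¹ = st W γ`), and `z ^ 2` normalises both; `orderOf z` is not odd (otherwise `z` is a power of `z ^ 2`): `orderOf z = 2`. So `ix z = n / 2`.
The two classes have the same size: `fx y ≥ n / 2` (two classes cover `Ω`): `a = ix y ≤ (n / 2)(1 - 1 / q) < n / 2 = ix z ≤ ix y` (`S.mn` for `z ∈ L`): contradiction.
-/

set_option autoImplicit false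

open scoped commutatorElement

noncomputable section

namespace H12.CF

variable {G Ω : Type} [Group G] [Finite G] [MulAction G Ω] [Finite Ω] {L : Set G} {T : Subgroup G}

private theorem a3_cc {G : Type} [Group G] {T : Subgroup G} {y : G}
    (h : ∀ g ∈ T, ∃ m : ℤ, g * y * g⁻¹ = y ^ m) :
    ∀ d ∈ (⁅T, T⁆ : Subgroup G), d * y = y * d := by
  have h0 : (⁅T, T⁆ : Subgroup G) ≤ Subgroup.centralizer ({y} : Set G) := by
    rw [Subgroup.commutator_le]
    intro g hg k hk
    have h1 : ∀ u ∈ T, ∀ v ∈ T, ∃ c : ℤ, (u * v) * y * (u * v)⁻¹ = y ^ c ∧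
        (v * u) * y * (v * u)⁻¹ = y ^ c := by
      intro u hu v hv
      obtain ⟨a, ha⟩ := h u hu
      obtain ⟨b, hb⟩ := h v hv
      refine ⟨a * b, ?_, ?_⟩
      · have h2 : (u * v) * y * (u * v)⁻¹ = u * (v * y * v⁻¹) * u⁻¹ := by group
        rw [h2, hb, ← conj_zpow, ha, zpow_mul]
      · have h2 : (v * u) * y * (v * u)⁻¹ = v * (u * y * u⁻¹) * v⁻¹ := by group
        rw [h2, ha, ← conj_zpow, hb, mul_comm a b, zpow_mul]
    obtain ⟨c, hc1, hc2⟩ := h1 g⁻¹ (T.inv_mem hg) k⁻¹ (T.inv_mem hk)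
    have h3 := hc1.trans hc2.symm
    rw [Subgroup.mem_centralizer_singleton_iff]
    have h4 : ⁅g, k⁆ = (k⁻¹ * g⁻¹)⁻¹ * (g⁻¹ * k⁻¹) := by
      rw [commutatorElement_def]
      group
    rw [h4]
    obtain ⟨u, hu⟩ : ∃ u, u = g⁻¹ * k⁻¹ := ⟨_, rfl⟩
    obtain ⟨v, hv⟩ : ∃ v, v = k⁻¹ * g⁻¹ := ⟨_, rfl⟩
    rw [← hu, ← hv] at h3 ⊢
    calc v⁻¹ * u * y = v⁻¹ * (u * y * u⁻¹) * u := by group
      _ = v⁻¹ * (v * y * v⁻¹) * u := by rw [h3]
      _ = y * (v⁻¹ * u) := by group
  intro d hd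
  exact Subgroup.mem_centralizer_singleton_iff.1 (h0 hd)

private theorem a3_four {M : Type} [Group M] [Finite M] (h : Nat.card M ∣ 48)
    (h3 : ¬ 3 ∣ Nat.card M) (h8 : ¬ 8 ∣ Nat.card M) : ∀ a b : M, a * b = b * a := by
  have h0 : ∀ c ≤ 48, c ∣ 48 → ¬ 3 ∣ c → ¬ 8 ∣ c → c = 1 ∨ c = 2 ∨ c = 4 := by decide
  rcases h0 _ (Nat.le_of_dvd (by norm_num) h) h h3 h8 with h1 | h1 | h1
  · have h2 : Subsingleton M := (Nat.card_eq_one_iff_unique.1 h1).1
    intro a b
    exact Subsingleton.elim _ _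
  · haveI : Fact (Nat.Prime 2) := ⟨Nat.prime_two⟩
    haveI : IsCyclic M := isCyclic_of_prime_card h1
    exact fun a b => (IsCyclic.commutative (α := M)).is_comm.comm a b
  · haveI : Fact (Nat.Prime 2) := ⟨Nat.prime_two⟩
    exact IsPGroup.commutative_of_card_eq_prime_sq (p := 2) (by rw [h1]; norm_num)

private theorem a3_gl : Nat.card (Matrix.GeneralLinearGroup (Fin 2) (ZMod 3)) = 48 := by
  haveI : Fact (Nat.Prime 3) := ⟨Nat.prime_three⟩
  rw [Matrix.card_GL_field, Fin.prod_univ_two, ZMod.card]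
  norm_num

private theorem a3_cls {Ω ι : Type} [Finite Ω] (f : Ω → ι) (m : ℕ)
    (hm : ∀ α, m = Nat.card {β // f β = f α}) (h : Nat.card Ω < 3 * m) (a b c : Ω)
    (hab : f a ≠ f b) : f c = f a ∨ f c = f b := by
  by_contra hc
  rw [not_or] at hc
  have h1 : Function.Injective (Sum.elim (Subtype.val : {β // f β = f a} → Ω)
      (Sum.elim (Subtype.val : {β // f β = f b} → Ω) (Subtype.val : {β // f β = f c} → Ω))) := by
    rintro (⟨x, hx⟩ | ⟨x, hx⟩ | ⟨x, hx⟩) (⟨z, hz⟩ | ⟨z, hz⟩ | ⟨z, hz⟩) hxz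
    · have h2 : x = z := hxz
      subst h2
      rfl
    · have h2 : x = z := hxz
      subst h2
      exact absurd (hx.symm.trans hz) hab
    · have h2 : x = z := hxz
      subst h2
      exact absurd (hz.symm.trans hx) hc.1
    · have h2 : x = z := hxz
      subst h2
      exact absurd (hz.symm.trans hx) hab
    · have h2 : x = z := hxz
      subst h2
      rfl
    · have h2 : x = z := hxz
      subst h2
      exact absurd (hz.symm.trans hx) hc.2
    · have h2 : x = z := hxz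
      subst h2
      exact absurd (hx.symm.trans hz) hc.1
    · have h2 : x = z := hxz
      subst h2
      exact absurd (hx.symm.trans hz) hc.2
    · have h2 : x = z := hxz
      subst h2
      rfl
  have h2 := Nat.card_le_card_of_injective _ h1
  rw [Nat.card_sum, Nat.card_sum, ← hm a, ← hm b, ← hm c] at h2
  omega

private theorem a3_cov {Ω ι : Type} [Finite Ω] (f : Ω → ι) (m : ℕ)
    (hm : ∀ α, m = Nat.card {β // f β = f α}) (a b : Ω)
    (hab : ∀ c, f c = f a ∨ f c = f b) : Nat.card Ω ≤ 2 * m := by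
  classical
  have h1 : Function.Injective (fun x : Ω => if h : f x = f a then
      (Sum.inl ⟨x, h⟩ : {β // f β = f a} ⊕ {β // f β = f b})
      else Sum.inr ⟨x, (hab x).resolve_left h⟩) := by
    intro x z hxz
    simp only at hxz
    by_cases hx : f x = f a
    · by_cases hz : f z = f a
      · rw [dif_pos hx, dif_pos hz, Sum.inl.injEq] at hxz
        exact congrArg Subtype.val hxz
      · rw [dif_pos hx, dif_neg hz] at hxz
        exact absurd hxz Sum.inl_ne_inr
    · by_cases hz : f z = f a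
      · rw [dif_neg hx, dif_pos hz] at hxz
        exact absurd hxz Sum.inr_ne_inl
      · rw [dif_neg hx, dif_neg hz, Sum.inr.injEq] at hxz
        exact congrArg Subtype.val hxz
  have h2 := Nat.card_le_card_of_injective _ h1
  rw [Nat.card_sum, ← hm a, ← hm b] at h2
  omega

/-- `q ≠ 3` -/
private theorem a3_three (S : St Ω L T) (W : Subgroup G) [W.Normal] (hWT : W ≤ T)
    (hW : Nat.card W = 3 ^ 2) (hWc : ∀ x ∈ W, ∀ w ∈ W, x * w = w * x) (R : Rp 3 W)
    (h2 : 2 ∣ Nat.card T) {d : G} (hd : d ∈ (⁅T, T⁆ : Subgroup G)) : R.ρ d = 1 := by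
  haveI : Fact (Nat.Prime 3) := ⟨Nat.prime_three⟩
  have h3T : 3 ∣ Nat.card T := by
    have h1 := Subgroup.card_dvd_of_le hWT
    rw [hW] at h1
    exact (Dvd.intro_left 3 rfl).trans h1
  have hco := rp_cop R hW hWc (S.cf 3 Nat.prime_three h3T) T hWT
  have h8 : ¬ 8 ∣ Nat.card (R.ρ.comp T.subtype).range := by
    intro h
    have h1 : Nat.card (R.ρ.comp T.subtype).range ∣ Nat.card T :=
      Subgroup.card_range_dvd (R.ρ.comp T.subtype)
    exact S.cf 2 Nat.prime_two h2 ((h.trans h1).trans (Subgroup.card_subgroup_dvd_card T))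
  have h48 : Nat.card (R.ρ.comp T.subtype).range ∣ 48 := by
    rw [← a3_gl]
    exact Subgroup.card_subgroup_dvd_card _
  have hcm := a3_four h48 hco h8
  have hcm2 : ∀ a ∈ T, ∀ b ∈ T, R.ρ a * R.ρ b = R.ρ b * R.ρ a := by
    intro a ha b hb
    exact congrArg Subtype.val (hcm ⟨R.ρ a, ⟨⟨a, ha⟩, rfl⟩⟩ ⟨R.ρ b, ⟨⟨b, hb⟩, rfl⟩⟩)
  have hle : (⁅T, T⁆ : Subgroup G) ≤ R.ρ.ker := by
    rw [Subgroup.commutator_le]
    intro g hg k hk
    rw [MonoidHom.mem_ker, map_commutatorElement, commutatorElement_eq_one_iff_mul_comm]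
    exact hcm2 g hg k hk
  exact MonoidHom.mem_ker.1 (hle hd)

private theorem a3_nor {G : Type} [Group G] [Finite G] (H : Subgroup G) (z : G)
    (h : ∀ x ∈ H, z * x * z⁻¹ ∈ H) : z ∈ Subgroup.normalizer (H : Set G) := by
  rw [Subgroup.mem_normalizer_iff]
  intro x
  refine ⟨h x, fun hx => ?_⟩
  have h1 : Function.Injective (fun x : H => (⟨z * x * z⁻¹, h x x.2⟩ : H)) := by
    intro a b hab
    have h2 : z * (a : G) * z⁻¹ = z * (b : G) * z⁻¹ := congrArg Subtype.val hab
    exact Subtype.ext (mul_left_cancel (mul_right_cancel h2))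
  obtain ⟨w, hw⟩ := (Finite.injective_iff_surjective.1 h1) ⟨z * x * z⁻¹, hx⟩
  have h2 : z * (w : G) * z⁻¹ = z * x * z⁻¹ := congrArg Subtype.val hw
  rw [← mul_left_cancel (mul_right_cancel h2)]
  exact w.2

theorem a3 [Nonempty Ω] [FaithfulSMul G Ω] [MulAction.IsPretransitive G Ω] (S : St Ω L T) {y : G}
    (hy : y ∈ L) (W : Subgroup G) [W.Normal] (hWD : W ≤ ⁅T, T⁆)
    (hW : Nat.card W = (orderOf y) ^ 2) (hWe : ∀ w ∈ W, w ^ orderOf y = 1)
    (hWc : ∀ x ∈ W, ∀ w ∈ W, x * w = w * x) (hyW : y ∈ W) :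
    ∀ d ∈ (⁅T, T⁆ : Subgroup G), ∀ w ∈ W, d * w = w * d := by
  obtain ⟨q, hq⟩ : ∃ q, q = orderOf y := ⟨_, rfl⟩
  have hqp : q.Prime := by
    rw [hq]
    exact S.pr y hy
  rw [← hq] at hW hWe
  haveI : Fact q.Prime := ⟨hqp⟩
  by_contra hcon
  push Not at hcon
  obtain ⟨d, hd, w0, hw0, hne⟩ := hcon
  have hWT : W ≤ T := hWD.trans S.dle
  obtain ⟨R⟩ := exists_rp W hW hWe hWc
  obtain ⟨hq2, -, -, -, -, z0, hz0L, hz0, -⟩ := two S W hWT hW hWc R hd ⟨w0, hw0, hne⟩
  have hρ : R.ρ d ≠ 1 := fun h => hne ((rp_one R d).1 h w0 hw0)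
  have hqT : q ∣ Nat.card T := by
    have h1 := Subgroup.card_dvd_of_le hWT
    rw [hW] at h1
    exact (dvd_pow_self q two_ne_zero).trans h1
  have hcf := S.cf q hqp hqT
  have h2T : 2 ∣ Nat.card T := by
    have h1 : orderOf (⟨z0, S.mem hz0L⟩ : T) = 2 := by
      rw [Subgroup.orderOf_mk, hz0]
    rw [← h1]
    exact orderOf_dvd_natCard _
  have hq3 : q ≠ 3 := by
    intro h3
    subst h3
    exact hρ (a3_three S W hWT hW hWc R h2T hd)
  have hq5 : 5 ≤ q := by
    have h1 := hqp.two_le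
    have h4 : q ≠ 4 := by
      intro h4
      rw [h4] at hqp
      exact absurd hqp (by norm_num)
    omega
  -- fixed points
  have hn : 0 < Nat.card Ω := Nat.card_pos
  have hqR : (5 : ℝ) ≤ (q : ℝ) := by exact_mod_cast hq5
  have hfx : Nat.card Ω < 3 * fx Ω y := by
    have h1 := half S hy hz0
    unfold ix at h1
    rw [← hq] at h1
    have h2 : (fx Ω y : ℝ) ≤ (Nat.card Ω : ℝ) := by exact_mod_cast fx_le (Ω := Ω) y
    have h3 : (1 : ℝ) / (q : ℝ) ≤ 1 / 5 := one_div_le_one_div_of_le (by norm_num) hqR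
    have h4 : ((Nat.card Ω : ℝ) - fx Ω y) * (4 / 5) ≤
        ((Nat.card Ω : ℝ) - fx Ω y) * (1 - 1 / (q : ℝ)) :=
      mul_le_mul_of_nonneg_left (by linarith) (by linarith)
    have h5 : (0 : ℝ) < (Nat.card Ω : ℝ) := by exact_mod_cast hn
    have h6 : (Nat.card Ω : ℝ) < 3 * (fx Ω y : ℝ) := by linarith
    exact_mod_cast h6
  obtain ⟨α, hα⟩ := fx_ne (Ω := Ω) (g := y) (by omega)
  have hy1 : y ≠ 1 := by
    intro h
    rw [h, orderOf_one] at hq
    rw [hq] at hqp
    exact Nat.not_prime_one hqp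
  have hyA : y ∈ st W α := Subgroup.mem_inf.2 ⟨hyW, hα⟩
  have hleA : st W α ≤ W := inf_le_left
  have hcA : Nat.card (st W α) = q := by
    have h1 : Nat.card (st W α) ∣ q ^ 2 := by
      rw [← hW]
      exact Subgroup.card_dvd_of_le hleA
    obtain ⟨k, hk, hk1⟩ := (Nat.dvd_prime_pow hqp).1 h1
    have h2 : k ≠ 0 := by
      intro h
      rw [h, pow_zero, Subgroup.card_eq_one] at hk1
      rw [hk1, Subgroup.mem_bot] at hyA
      exact hy1 hyA
    have h3 : k ≠ 2 := by
      intro h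
      have h4 : st W α = W := Subgroup.eq_of_le_of_card_ge hleA (by rw [hk1, h, hW])
      have h5 : W = ⊥ := nfix W α fun w hw => by
        have h6 : w ∈ st W α := by
          rw [h4]
          exact hw
        exact (Subgroup.mem_inf.1 h6).2
      rw [h5, Subgroup.card_bot] at hW
      have h6 := Nat.one_lt_pow two_ne_zero hqp.one_lt
      omega
    have h4 : k = 1 := by omega
    rw [hk1, h4, pow_one]
  have hcard : ∀ β : Ω, Nat.card (st W β) = orderOf y := fun β => by
    rw [← hq, ← hcA]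
    exact st_card W β α
  have hAz : Subgroup.zpowers y = st W α := by
    refine Subgroup.eq_of_le_of_card_ge ?_ ?_
    · rw [Subgroup.zpowers_le]
      exact hyA
    · rw [hcard α, Nat.card_zpowers]
  have hcls : ∀ β : Ω, fx Ω y = Nat.card {γ : Ω // st W γ = st W β} := by
    intro β
    rw [cls_fix W hyW (S.pr y hy) hcard α hα]
    exact cls W α β
  have hstar := a3_cls (fun β : Ω => st W β) (fx Ω y) hcls hfx
  -- an element of `L` which does not normalise the stabiliser
  have hz : ∃ z ∈ L, z * y * z⁻¹ ∉ Subgroup.zpowers y := by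
    by_contra hcon2
    push Not at hcon2
    have h1 : T ≤ Subgroup.normalizer (Subgroup.zpowers y : Set G) := by
      rw [S.gen, Subgroup.closure_le]
      intro z hz
      have h2 : ∀ x ∈ Subgroup.zpowers y, z * x * z⁻¹ ∈ Subgroup.zpowers y := by
        intro x hx
        obtain ⟨k, rfl⟩ := Subgroup.mem_zpowers_iff.1 hx
        rw [← conj_zpow]
        exact Subgroup.zpow_mem _ (hcon2 z hz) k
      exact a3_nor (Subgroup.zpowers y) z h2
    have h2 : ∀ g ∈ T, ∃ m : ℤ, g * y * g⁻¹ = y ^ m := by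
      intro g hg
      have h3 := (Subgroup.mem_normalizer_iff.1 (h1 hg) y).1 (Subgroup.mem_zpowers y)
      obtain ⟨k, hk⟩ := Subgroup.mem_zpowers_iff.1 h3
      exact ⟨k, hk.symm⟩
    have h3 := a3_cc h2 d hd
    have h4 := R.act d ⟨y, hyW⟩ ⟨y, hyW⟩ (by
      show y = d * y * d⁻¹
      rw [h3, mul_inv_cancel_right])
    have hco := rp_cop R hW hWc hcf T hWT
    have hdT : d ∈ T := S.dle hd
    have h5 : (R.ρ d) ^ Nat.card (R.ρ.comp T.subtype).range = 1 := by
      have h6 : (⟨R.ρ d, ⟨⟨d, hdT⟩, rfl⟩⟩ : (R.ρ.comp T.subtype).range) ^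
          Nat.card (R.ρ.comp T.subtype).range = 1 := pow_card_eq_one'
      exact congrArg Subtype.val h6
    apply hρ
    apply Units.ext
    refine m_one _ (rp_det R hd) (R.e ⟨y, hyW⟩) ?_ h4.symm
      (Nat.card (R.ρ.comp T.subtype).range) ?_ ?_
    · intro h6
      rw [rp_zero] at h6
      exact hy1 (congrArg Subtype.val h6)
    · intro h6
      rw [ZMod.natCast_eq_zero_iff] at h6
      exact hco h6
    · rw [← Units.val_pow_eq_pow_val, h5, Units.val_one]
  obtain ⟨z, hzL, hzy⟩ := hz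
  -- conjugation with `z` exchanges the two stabilisers
  have hmem : z * y * z⁻¹ ∈ st W (z • α) := by
    rw [st_smul]
    have h1 : z⁻¹ * (z * y * z⁻¹) * z = y := by group
    rw [h1]
    exact hyA
  have hAB : st W α ≠ st W (z • α) := by
    intro h
    rw [← h, ← hAz] at hmem
    exact hzy hmem
  have hinj : ∀ β γ : Ω, st W (z • β) = st W (z • γ) → st W β = st W γ := by
    intro β γ h
    ext w
    have h1 := st_smul W z (z * w * z⁻¹) β
    have h2 := st_smul W z (z * w * z⁻¹) γ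
    have h3 : z⁻¹ * (z * w * z⁻¹) * z = w := by group
    rw [h3] at h1 h2
    rw [← h1, ← h2, h]
  have hmap : ∀ β γ : Ω, st W β = st W γ → st W (z • β) = st W (z • γ) := by
    intro β γ h
    ext w
    rw [st_smul, st_smul, h]
  have hBA : st W (z • z • α) = st W α := by
    rcases hstar α (z • α) (z • z • α) hAB with h | h
    · exact h
    · exact absurd (hinj _ _ h).symm hAB
  have hfix : ∀ γ : Ω, z • γ ≠ γ := by
    intro γ hγ
    rcases hstar α (z • α) γ hAB with h | h
    · have h1 := hmap _ _ h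
      rw [hγ] at h1
      exact hAB (h.symm.trans h1)
    · have h1 := hmap _ _ h
      rw [hγ, hBA] at h1
      exact hAB (h1.symm.trans h)
  have hzp : (orderOf z).Prime := S.pr z hzL
  have hz2 : orderOf z = 2 := by
    rcases hzp.eq_two_or_odd' with h | h
    · exact h
    · exfalso
      obtain ⟨k, hk⟩ := h
      have h1 : ∀ j : ℕ, st W ((z ^ (2 * j)) • α) = st W α := by
        intro j
        induction j with
        | zero => rw [mul_zero, pow_zero, one_smul]
        | succ j ih =>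
          have h2 : z ^ (2 * (j + 1)) = z * (z * z ^ (2 * j)) := by
            have h2a : 2 * (j + 1) = (2 * j + 1) + 1 := by ring
            rw [h2a, pow_succ', pow_succ']
          rw [h2, mul_smul, mul_smul, hmap _ _ (hmap _ _ ih), hBA]
      have h3 : z ^ (2 * (k + 1)) = z := by
        have h4 : 2 * (k + 1) = orderOf z + 1 := by omega
        rw [h4, pow_succ, pow_orderOf_eq_one, one_mul]
      have h4 := h1 (k + 1)
      rw [h3] at h4
      exact hAB h4.symm
  have hcov := a3_cov (fun β : Ω => st W β) (fx Ω y) hcls α (z • α)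
    (fun c => hstar α (z • α) c hAB)
  -- the indices
  have h1 := S.mn z hzL y (S.pr y hy)
  unfold ix at h1
  rw [fx_zero hfix, hz2, ← hq] at h1
  have h2 : (Nat.card Ω : ℝ) ≤ 2 * (fx Ω y : ℝ) := by exact_mod_cast hcov
  have h3 : (0 : ℝ) < (Nat.card Ω : ℝ) := by exact_mod_cast hn
  have h4 : (0 : ℝ) < 1 / (q : ℝ) := by positivity
  have h5 : (1 : ℝ) / (q : ℝ) ≤ 1 / 5 := one_div_le_one_div_of_le (by norm_num) hqR
  have h6 : ((Nat.card Ω : ℝ) - fx Ω y) * (1 - 1 / (q : ℝ)) ≤
      ((Nat.card Ω : ℝ) / 2) * (1 - 1 / (q : ℝ)) :=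
    mul_le_mul_of_nonneg_right (by linarith) (by linarith)
  have h7 : ((Nat.card Ω : ℝ) / 2) * (1 - 1 / (q : ℝ)) < (Nat.card Ω : ℝ) / 2 := by
    have h8 : 0 < ((Nat.card Ω : ℝ) / 2) * (1 / (q : ℝ)) := by positivity
    linarith
  push_cast at h1
  linarith

end H12.CF
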