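import Pool.Agent.H12.CF.Def

/-!
# [H12 CF AB] groups with small Sylow subgroups, 80-120 lines

`ab`: a Sylow `q`-subgroup has order `q ^ k`, `k ≤ 2` (its order divides `#G`): cyclic or of order `q ^ 2` (`IsPGroup.commutative_of_card_eq_prime_sq`); `H71.GT.abs_of_sylow`.
`ab2`: as `ab` if `q ∣ #G`-part of `T`: for `q ∤ #T` all `q`-subgroups of `T` are trivial (used for `q = 2`).
`dich`: `#W = q ^ k`, `k ≤ 2`; if `W` is not cyclic then `k = 2` and every `w ≠ 1` has order `q` (order `q ^ 2` would give a generator; `isCyclic_of_orderOf_eq_card`); commutative as before.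
`sylm`: `W` of order `q ^ 2` is a Sylow subgroup (`¬ q ^ 3 ∣ #G`), normal, so it contains all `q`-subgroups (`IsPGroup.exists_le_sylow`, Sylow subgroups are conjugate; or: the image of `x` in `G ⧸ W` has order a power of `q` and divides the index, which is prime to `q`). `ntd`: `#W ∣ #Z`.
`same`: `zpowers g` is a `q`-group, contained in a Sylow subgroup `P`; the normal `q`-subgroup `W` is contained in `P`; `AbS`.
-/

set_option autoImplicit false

namespace H12.CF

open H71.GT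

variable {G : Type} [Group G] [Finite G] {q : ℕ}

private theorem comm_of (hq : q.Prime) (hc : ¬ q ^ 3 ∣ Nat.card G) (W : Subgroup G) (hW : IsPGroup q W) :
    ∀ x ∈ W, ∀ y ∈ W, x * y = y * x := by
  have : Fact q.Prime := ⟨hq⟩
  obtain ⟨k, hk⟩ := IsPGroup.iff_card.1 hW
  have h1 : k ≤ 2 := by
    by_contra h
    exact hc (((pow_dvd_pow q (by omega : 3 ≤ k)).trans (by rw [hk])).trans (Subgroup.card_subgroup_dvd_card W))
  have h2 : ∀ a b : W, a * b = b * a := by
    rcases (by omega : k = 0 ∨ k = 1 ∨ k = 2) with h3 | h3 | h3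
    · rw [h3, pow_zero] at hk
      have : Subsingleton W := (Nat.card_eq_one_iff_unique.1 hk).1
      intro a b
      exact Subsingleton.elim _ _
    · rw [h3, pow_one] at hk
      have : IsCyclic W := isCyclic_of_prime_card hk
      intro a b
      exact (IsCyclic.isMulCommutative (α := W)).is_comm.comm a b
    · rw [h3] at hk
      intro a b
      exact (IsPGroup.isMulCommutative_of_card_eq_prime_sq hk).is_comm.comm a b
  intro x hx y hy
  exact congrArg Subtype.val (h2 ⟨x, hx⟩ ⟨y, hy⟩)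

theorem ab (hq : q.Prime) (hc : ¬ q ^ 3 ∣ Nat.card G) : AbS q G := by
  intro P hP x hx y hy
  exact comm_of hq hc P hP x hx y hy

theorem ab_triv {T : Type} [Group T] [Finite T] (hq : q.Prime) (hc : ¬ q ∣ Nat.card T) : AbS q T := by
  intro P hP x hx y hy
  have : Fact q.Prime := ⟨hq⟩
  obtain ⟨k, hk⟩ := IsPGroup.iff_card.1 hP
  have h1 : k = 0 := by
    by_contra h
    exact hc (((dvd_pow_self q h).trans (by rw [hk])).trans (Subgroup.card_subgroup_dvd_card P))
  rw [h1, pow_zero] at hk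
  have h2 : P = ⊥ := Subgroup.card_eq_one.1 hk
  rw [h2, Subgroup.mem_bot] at hx hy
  rw [hx, hy]

theorem dich (hq : q.Prime) (hc : ¬ q ^ 3 ∣ Nat.card G) (W : Subgroup G) (hW : IsPGroup q W) :
    IsCyclic W ∨ (Nat.card W = q ^ 2 ∧ (∀ w ∈ W, w ^ q = 1) ∧ ∀ x ∈ W, ∀ y ∈ W, x * y = y * x) := by
  have : Fact q.Prime := ⟨hq⟩
  obtain ⟨k, hk⟩ := IsPGroup.iff_card.1 hW
  have h1 : k ≤ 2 := by
    by_contra h
    exact hc (((pow_dvd_pow q (by omega : 3 ≤ k)).trans (by rw [hk])).trans (Subgroup.card_subgroup_dvd_card W))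
  by_cases hcy : IsCyclic W
  · exact Or.inl hcy
  right
  have h2 : k = 2 := by
    by_contra h
    rcases (by omega : k = 0 ∨ k = 1) with h3 | h3
    · rw [h3, pow_zero] at hk
      have : Subsingleton W := (Nat.card_eq_one_iff_unique.1 hk).1
      exact hcy inferInstance
    · rw [h3, pow_one] at hk
      exact hcy (isCyclic_of_prime_card hk)
  rw [h2] at hk
  refine ⟨hk, fun w hw => ?_, comm_of hq hc W hW⟩
  have h3 : orderOf (⟨w, hw⟩ : W) ∣ q ^ 2 := by
    rw [← hk]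
    exact orderOf_dvd_natCard _
  obtain ⟨j, hj, h4⟩ := (Nat.dvd_prime_pow hq).1 h3
  have h5 : j ≠ 2 := by
    intro h6
    rw [h6, ← hk] at h4
    exact hcy (isCyclic_of_orderOf_eq_card _ h4)
  have h6 : (⟨w, hw⟩ : W) ^ q = 1 := by
    rw [← orderOf_dvd_iff_pow_eq_one, h4]
    calc q ^ j ∣ q ^ 1 := pow_dvd_pow q (by omega)
      _ = q := pow_one q
  exact congrArg Subtype.val h6

theorem sylm (hq : q.Prime) (hc : ¬ q ^ 3 ∣ Nat.card G) (W : Subgroup G) [W.Normal]
    (hW : Nat.card W = q ^ 2) {x : G} {k : ℕ} (hx : x ^ q ^ k = 1) : x ∈ W := by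
  have h1 : Nat.card G = Nat.card W * Nat.card (G ⧸ W) := (Subgroup.card_mul_index W).symm
  have h2 : ¬ q ∣ Nat.card (G ⧸ W) := by
    rintro ⟨c, hc'⟩
    refine hc ⟨c, ?_⟩
    rw [h1, hW, hc']
    ring
  have h3 : orderOf (QuotientGroup.mk x : G ⧸ W) ∣ q ^ k := by
    rw [orderOf_dvd_iff_pow_eq_one, ← QuotientGroup.mk_pow, hx]
    rfl
  have h4 : orderOf (QuotientGroup.mk x : G ⧸ W) ∣ Nat.card (G ⧸ W) := orderOf_dvd_natCard _
  have h5 : Nat.Coprime (q ^ k) (Nat.card (G ⧸ W)) :=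
    Nat.Coprime.pow_left _ ((Nat.Prime.coprime_iff_not_dvd hq).2 h2)
  have h6 := Nat.dvd_gcd h3 h4
  rw [h5, Nat.dvd_one, orderOf_eq_one_iff] at h6
  exact (QuotientGroup.eq_one_iff x).1 h6

theorem ntd (hq : q.Prime) (hc : ¬ q ^ 3 ∣ Nat.card G) (W Z : Subgroup G)
    (hW : Nat.card W = q ^ 2) (hWZ : W ≤ Z) : ¬ q ∣ Z.index := by
  rintro ⟨c, hc'⟩
  obtain ⟨d, hd⟩ := Subgroup.card_dvd_of_le hWZ
  refine hc ⟨d * c, ?_⟩
  rw [← Subgroup.card_mul_index Z, hc', hd, hW]
  ring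

theorem same (hq : q.Prime) (hab : AbS q G) (W : Subgroup G) [W.Normal] (hW : IsPGroup q W) {g : G}
    {k : ℕ} (hg : g ^ q ^ k = 1) : ∀ w ∈ W, g * w = w * g := by
  intro w hw
  have : Fact q.Prime := ⟨hq⟩
  have h1 : IsPGroup q (Subgroup.zpowers g) := by
    have h2 : Nat.card (Subgroup.zpowers g) ∣ q ^ k := by
      rw [Nat.card_zpowers]
      exact orderOf_dvd_of_pow_eq_one hg
    obtain ⟨j, -, h3⟩ := (Nat.dvd_prime_pow hq).1 h2
    exact IsPGroup.of_card h3
  have h2 : IsPGroup q (W ⊔ Subgroup.zpowers g : Subgroup G) := hW.to_sup_of_normal_left h1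
  exact hab _ h2 g (Subgroup.mem_sup_right (Subgroup.mem_zpowers g)) w (Subgroup.mem_sup_left hw)

end H12.CF
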