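import Pool.Agent.H12.CF.Def
import Mathlib.GroupTheory.GroupAction.Quotient

/-!
# [H12 CF ORB] fixed points and normal subgroups, 140-200 lines

`nfix`: a normal subgroup which fixes one point fixes all (`exists_smul_eq`), so it is trivial (faithful). `st_smul`: direct. `st_card`: conjugation. `fx_conj`: `α ↦ g α`. `st_ne`: `W ≠ ⊥`: by `nfix`.
`orb`: the map `(α, w) ↦ w • α` from `{α // s • α = α} × W` to `Ω`; the fibre over `β`: the `w ∈ W` with `s • (w⁻¹ • β) = w⁻¹ • β`; if `w₀` is one of them, `α₀ = w₀⁻¹ • β`, then `w ↦ w⁻¹ * w₀` is an injection of the fibre into `{u : W // s • (u • α₀) = u • α₀}`. So `#W * fx s ≤ c * n` (`Finset.card_le_mul_card_image`-like or `Nat.card_sigma`).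
`orb2`: `W` normal, commutative, `s` commutes with no element `≠ 1` of `W`: for `s • α = α`: `s • (w • α) = w • α` iff `w⁻¹ * (s * w * s⁻¹) ∈ st W α`; `w ↦ w⁻¹ * (s * w * s⁻¹)` is injective on `W` (commutative).
`cls`: for `g • α = α'` the map `β ↦ g • β` maps `{β | st W β = st W α}` onto `{β | st W β = st W α'}`. `cls_fix`: if `y ∈ W` generates `st W α` (`st W α = zpowers y`), all `st W β` of the same prime order `orderOf y`: `y • β = β` iff `st W β = st W α`.
-/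

set_option autoImplicit false

namespace H12.CF

variable {G Ω : Type} [Group G] [Finite G] [MulAction G Ω] [Finite Ω]

theorem fx_le (g : G) : fx Ω g ≤ Nat.card Ω :=
  Nat.card_le_card_of_injective (fun x : {α : Ω // g • α = α} => (x : Ω)) Subtype.val_injective

theorem fx_conj (g s : G) : fx Ω (g * s * g⁻¹) = fx Ω s := by
  refine Nat.card_congr (Equiv.subtypeEquiv (MulAction.toPerm g⁻¹) fun α => ?_)
  show (g * s * g⁻¹) • α = α ↔ s • (g⁻¹ • α) = g⁻¹ • α
  rw [mul_smul, mul_smul, eq_inv_smul_iff]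

theorem fx_zero {g : G} (h : ∀ α : Ω, g • α ≠ α) : fx Ω g = 0 :=
  Nat.card_eq_zero.2 (Or.inl ⟨fun x => h x.1 x.2⟩)

theorem fx_ne {g : G} (h : fx Ω g ≠ 0) : ∃ α : Ω, g • α = α := by
  by_contra h1
  push Not at h1
  exact h (fx_zero h1)

theorem nfix [FaithfulSMul G Ω] [MulAction.IsPretransitive G Ω] (W : Subgroup G) [W.Normal] (α : Ω)
    (h : ∀ w ∈ W, w • α = α) : W = ⊥ := by
  rw [eq_bot_iff]
  intro w hw
  rw [Subgroup.mem_bot]
  refine FaithfulSMul.eq_of_smul_eq_smul (α := Ω) fun β => ?_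
  obtain ⟨g, rfl⟩ := MulAction.exists_smul_eq G α β
  have h1 : g⁻¹ * w * g ∈ W := by
    have h2 := (inferInstance : W.Normal).conj_mem w hw g⁻¹
    rwa [inv_inv] at h2
  have h2 := h _ h1
  rw [one_smul]
  calc w • g • α = g • ((g⁻¹ * w * g) • α) := by
        rw [← mul_smul, ← mul_smul]
        congr 1
        group
    _ = g • α := by rw [h2]

theorem st_smul (W : Subgroup G) [W.Normal] (g w : G) (α : Ω) :
    w ∈ st W (g • α) ↔ g⁻¹ * w * g ∈ st W α := by
  unfold st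
  rw [Subgroup.mem_inf, Subgroup.mem_inf, MulAction.mem_stabilizer_iff, MulAction.mem_stabilizer_iff]
  have h1 : (g⁻¹ * w * g) • α = α ↔ w • g • α = g • α := by
    rw [mul_smul, mul_smul, inv_smul_eq_iff]
  have h2 : g⁻¹ * w * g ∈ W ↔ w ∈ W := by
    constructor
    · intro h3
      have h4 := (inferInstance : W.Normal).conj_mem _ h3 g
      have h5 : g * (g⁻¹ * w * g) * g⁻¹ = w := by group
      rwa [h5] at h4
    · intro h3
      have h4 := (inferInstance : W.Normal).conj_mem _ h3 g⁻¹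
      rwa [inv_inv] at h4
  rw [h1, h2]

theorem st_card [MulAction.IsPretransitive G Ω] (W : Subgroup G) [W.Normal] (α β : Ω) :
    Nat.card (st W α) = Nat.card (st W β) := by
  obtain ⟨g, rfl⟩ := MulAction.exists_smul_eq G α β
  refine Nat.card_congr (Equiv.subtypeEquiv (MulAut.conj g).toEquiv fun w => ?_)
  show w ∈ st W α ↔ g * w * g⁻¹ ∈ st W (g • α)
  rw [st_smul]
  have h1 : g⁻¹ * (g * w * g⁻¹) * g = w := by group
  rw [h1]

theorem orb (W : Subgroup G) (s : G) (c : ℕ)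
    (h : ∀ α : Ω, s • α = α → Nat.card {w : W // s • ((w : G) • α) = (w : G) • α} ≤ c) :
    Nat.card W * fx Ω s ≤ c * Nat.card Ω := by
  classical
  have hΩ : Fintype Ω := Fintype.ofFinite Ω
  have hG : Fintype G := Fintype.ofFinite G
  let f : W × {α : Ω // s • α = α} → Ω := fun p => (p.1 : G) • (p.2 : Ω)
  have h1 := Finset.card_le_mul_card_image (f := f) Finset.univ c (by
    intro β hβ
    obtain ⟨⟨w₀, α₀⟩, -, rfl⟩ := Finset.mem_image.1 hβ
    refine le_trans ?_ (h α₀ α₀.2)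
    rw [Nat.card_eq_fintype_card, ← Finset.card_univ]
    have hkey : ∀ p ∈ Finset.univ.filter (fun x : W × {α : Ω // s • α = α} => f x = f (w₀, α₀)),
        ((p.1⁻¹ * w₀ : W) : G) • (α₀ : Ω) = (p.2 : Ω) := by
      intro p hp
      have h2 : (p.1 : G) • (p.2 : Ω) = (w₀ : G) • (α₀ : Ω) := (Finset.mem_filter.1 hp).2
      rw [Subgroup.coe_mul, Subgroup.coe_inv, mul_smul, ← h2, inv_smul_smul]
    refine Finset.card_le_card_of_injOn
      (fun p => if hp : s • (((p.1⁻¹ * w₀ : W) : G) • (α₀ : Ω)) = ((p.1⁻¹ * w₀ : W) : G) • (α₀ : Ω)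
        then ⟨p.1⁻¹ * w₀, hp⟩ else ⟨1, by
          rw [Subgroup.coe_one, one_smul]
          exact α₀.2⟩) (fun p _ => Finset.mem_univ _) ?_
    intro p hp p' hp' hpp
    have h3 := hkey p hp
    have h4 := hkey p' hp'
    have h5 : s • (((p.1⁻¹ * w₀ : W) : G) • (α₀ : Ω)) = ((p.1⁻¹ * w₀ : W) : G) • (α₀ : Ω) := by
      rw [h3]
      exact p.2.2
    have h6 : s • (((p'.1⁻¹ * w₀ : W) : G) • (α₀ : Ω)) = ((p'.1⁻¹ * w₀ : W) : G) • (α₀ : Ω) := by
      rw [h4]
      exact p'.2.2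
    simp only at hpp
    rw [dif_pos h5, dif_pos h6] at hpp
    have h7 : p.1⁻¹ * w₀ = p'.1⁻¹ * w₀ := congrArg Subtype.val hpp
    have h8 : p.1 = p'.1 := inv_injective (mul_right_cancel h7)
    refine Prod.ext h8 (Subtype.ext ?_)
    rw [← h3, ← h4, h7])
  rw [Finset.card_univ, Fintype.card_prod] at h1
  unfold fx
  rw [Nat.card_eq_fintype_card, Nat.card_eq_fintype_card, Nat.card_eq_fintype_card]
  refine h1.trans (Nat.mul_le_mul_left _ ?_)
  exact Finset.card_le_univ _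

theorem orb2 (W : Subgroup G) [W.Normal] (hW : ∀ x ∈ W, ∀ y ∈ W, x * y = y * x) (s : G)
    (hs : ∀ w ∈ W, s * w = w * s → w = 1) (c : ℕ) (h : ∀ α : Ω, Nat.card (st W α) ≤ c) :
    Nat.card W * fx Ω s ≤ c * Nat.card Ω := by
  refine orb W s c fun α hα => le_trans ?_ (h α)
  have hm : ∀ w : {w : W // s • ((w : G) • α) = (w : G) • α},
      (w.1 : G)⁻¹ * (s * (w.1 : G) * s⁻¹) ∈ st W α := by
    intro w
    refine Subgroup.mem_inf.2 ⟨W.mul_mem (W.inv_mem w.1.2)
      ((inferInstance : W.Normal).conj_mem _ w.1.2 s), ?_⟩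
    rw [MulAction.mem_stabilizer_iff]
    have h1 : s⁻¹ • α = α := by
      rw [inv_smul_eq_iff]
      exact hα.symm
    rw [mul_smul, mul_smul, mul_smul, h1, w.2, inv_smul_smul]
  refine Nat.card_le_card_of_injective (fun w => (⟨_, hm w⟩ : st W α)) ?_
  intro w w' hww
  have h1 : (w.1 : G)⁻¹ * (s * (w.1 : G) * s⁻¹) = (w'.1 : G)⁻¹ * (s * (w'.1 : G) * s⁻¹) :=
    congrArg Subtype.val hww
  have ha : s * (w.1 : G) * s⁻¹ ∈ W := (inferInstance : W.Normal).conj_mem _ w.1.2 s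
  have hb : s * (w'.1 : G) * s⁻¹ ∈ W := (inferInstance : W.Normal).conj_mem _ w'.1.2 s
  have h2 : s * ((w'.1 : G) * (w.1 : G)⁻¹) = ((w'.1 : G) * (w.1 : G)⁻¹) * s := by
    have h3 : (w'.1 : G) * (w.1 : G)⁻¹ * (s * (w.1 : G) * s⁻¹) = s * (w'.1 : G) * s⁻¹ := by
      rw [mul_assoc, h1, mul_inv_cancel_left]
    have h4 : (s * (w.1 : G) * s⁻¹) * ((w'.1 : G) * (w.1 : G)⁻¹) = s * (w'.1 : G) * s⁻¹ := by
      rw [hW _ ha _ (W.mul_mem w'.1.2 (W.inv_mem w.1.2)), h3]
    have h5 : (w'.1 : G) * (w.1 : G)⁻¹ = s * ((w'.1 : G) * (w.1 : G)⁻¹) * s⁻¹ := by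
      have h6 : (s * (w.1 : G) * s⁻¹) * ((w'.1 : G) * (w.1 : G)⁻¹) =
          (s * (w.1 : G) * s⁻¹) * (s * ((w.1 : G)⁻¹ * (w'.1 : G)) * s⁻¹) := by
        rw [h4]
        group
      have h7 := mul_left_cancel h6
      exact h7.trans (by rw [hW _ (W.inv_mem w.1.2) _ w'.1.2])
    calc s * ((w'.1 : G) * (w.1 : G)⁻¹) = s * ((w'.1 : G) * (w.1 : G)⁻¹) * s⁻¹ * s := by group
      _ = ((w'.1 : G) * (w.1 : G)⁻¹) * s := by rw [← h5]
  have h3 := hs _ (W.mul_mem w'.1.2 (W.inv_mem w.1.2)) h2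
  exact Subtype.ext (Subtype.ext (mul_inv_eq_one.1 h3).symm)

theorem cls [MulAction.IsPretransitive G Ω] (W : Subgroup G) [W.Normal] (α α' : Ω) :
    Nat.card {β : Ω // st W β = st W α} = Nat.card {β : Ω // st W β = st W α'} := by
  obtain ⟨g, rfl⟩ := MulAction.exists_smul_eq G α α'
  refine Nat.card_congr (Equiv.subtypeEquiv (MulAction.toPerm g) fun β => ?_)
  show st W β = st W α ↔ st W (g • β) = st W (g • α)
  constructor
  · intro h1
    ext w
    rw [st_smul, st_smul, h1]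
  · intro h1
    ext w
    have h2 : g⁻¹ * (g * w * g⁻¹) * g = w := by group
    have h3 := st_smul W g (g * w * g⁻¹) β
    have h4 := st_smul W g (g * w * g⁻¹) α
    rw [h2] at h3 h4
    rw [← h3, ← h4, h1]

theorem cls_fix [MulAction.IsPretransitive G Ω] (W : Subgroup G) [W.Normal] {y : G}
    (hy : y ∈ W) (hq : (orderOf y).Prime) (h : ∀ α : Ω, Nat.card (st W α) = orderOf y) (α : Ω)
    (hα : y • α = α) : fx Ω y = Nat.card {β : Ω // st W β = st W α} := by
  have hz : ∀ β : Ω, y • β = β → Subgroup.zpowers y = st W β := by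
    intro β hβ
    refine Subgroup.eq_of_le_of_card_ge ?_ ?_
    · rw [Subgroup.zpowers_le]
      exact Subgroup.mem_inf.2 ⟨hy, hβ⟩
    · rw [h β, Nat.card_zpowers]
  refine Nat.card_congr (Equiv.subtypeEquivRight fun β => ?_)
  constructor
  · intro hβ
    rw [← hz β hβ, ← hz α hα]
  · intro hβ
    have h1 : y ∈ st W β := by
      rw [hβ, ← hz α hα]
      exact Subgroup.mem_zpowers y
    exact (Subgroup.mem_inf.1 h1).2

end H12.CF
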