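import Pool.Agent.H12.CF.Def
import Mathlib.LinearAlgebra.Basis.VectorSpace
import Mathlib.Algebra.Module.ZMod
import Mathlib.LinearAlgebra.Matrix.ToLin
import Mathlib.FieldTheory.Finiteness

/-!
# [H12 CF REP] the representation on a normal subgroup of order `t ^ 2` and exponent `t`, 100-160 lines

`exists_rp`: `Additive W` is a vector space over `ZMod t` (`AddCommGroup.zmodModule`) with `t ^ 2` elements, so of dimension 2 (`Module.card_eq_pow_finrank`); a basis (`Module.finBasisOfFinrankEq`) gives `e`. Conjugation with `g` is an automorphism of `W` (`MulAut.conjNormal`), linear (`AddMonoidHom.toZModLinearMap`), its matrix (`LinearMap.toMatrix`) is `ρ g`: a homomorphism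
`G → GL 2` (`LinearMap.toMatrix_comp` or from `G →* (V →ₗ V)ˣ`; `Matrix.GeneralLinearGroup.toLin`).
`rp_one`: `ρ g = 1` iff `e (g w g⁻¹) = e w` for all `w`. `rp_det`: `det ∘ ρ` is a homomorphism to a commutative group. `rp_cop`: `ρ` is trivial on `W` (commutative), `#W = t ^ 2`, `¬ t ^ 3 ∣ #G`: `#(range of ρ on T) = [T : ker]` and `W ≤ T` is in the kernel: `ntd`-like. `rp_pow`: `t` is not the order.
-/

set_option autoImplicit false

open scoped commutatorElement

noncomputable section

namespace H12.CF

variable {G : Type} [Group G] [Finite G] {t : ℕ}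

/-- the matrices of an action by additive maps -/
private theorem rep_mat (t : ℕ) {V : Type} [AddCommGroup V] [Module (ZMod t) V]
    (b : Module.Basis (Fin 2) (ZMod t) V) {G : Type} [Group G] (A : G → V →+ V) (h1 : A 1 = AddMonoidHom.id V)
    (hm : ∀ g h, A (g * h) = (A g).comp (A h)) :
    ∃ ρ : G →* Matrix.GeneralLinearGroup (Fin 2) (ZMod t), ∀ g v,
      b.equivFun (A g v) = Matrix.mulVec (ρ g : Matrix (Fin 2) (Fin 2) (ZMod t)) (b.equivFun v) := by
  let f : G →* Matrix (Fin 2) (Fin 2) (ZMod t) :=
    { toFun := fun g => LinearMap.toMatrix b b ((A g).toZModLinearMap t)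
      map_one' := by
        rw [h1]
        exact LinearMap.toMatrix_one b
      map_mul' := by
        intro g h
        rw [hm]
        exact LinearMap.toMatrix_mul b ((A g).toZModLinearMap t) ((A h).toZModLinearMap t) }
  refine ⟨f.toHomUnits, fun g v => ?_⟩
  have h2 := LinearMap.toMatrix_mulVec_repr b b ((A g).toZModLinearMap t) v
  exact h2.symm

/-- a basis -/
private theorem rep_bas (t : ℕ) [Fact t.Prime] {V : Type} [AddCommGroup V] [Module (ZMod t) V] [Finite V]
    (h : Nat.card V = t ^ 2) : Nonempty (Module.Basis (Fin 2) (ZMod t) V) := by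
  have hmf : Module.Finite (ZMod t) V := Module.Finite.of_finite
  have hrk : Module.finrank (ZMod t) V = 2 := by
    have h1 := Module.natCard_eq_pow_finrank (K := ZMod t) (V := V)
    rw [Nat.card_zmod, h] at h1
    exact (Nat.pow_right_injective (Fact.out : t.Prime).two_le h1).symm
  exact ⟨Module.finBasisOfFinrankEq (ZMod t) V hrk⟩

theorem exists_rp [Fact t.Prime] (W : Subgroup G) [W.Normal] (hW : Nat.card W = t ^ 2)
    (he : ∀ w ∈ W, w ^ t = 1) (hab : ∀ x ∈ W, ∀ y ∈ W, x * y = y * x) : Nonempty (Rp t W) := by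
  let _ : CommGroup W :=
    { (inferInstance : Group W) with
      mul_comm := fun x y => Subtype.ext (hab x x.2 y y.2) }
  let _ : Module (ZMod t) (Additive W) := AddCommGroup.zmodModule (n := t) (by
    intro x
    have h1 : (Additive.toMul x : W) ^ t = 1 := Subtype.ext (he _ (Additive.toMul x).2)
    exact h1)
  have hfin : Finite (Additive W) := inferInstanceAs (Finite W)
  obtain ⟨b⟩ := rep_bas t (V := Additive W) hW
  obtain ⟨ρ, hρ⟩ := rep_mat t b (fun g : G => MonoidHom.toAdditive (MulAut.conjNormal (H := W) g).toMonoidHom)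
    (by
      ext x
      show ((MulAut.conjNormal (H := W) (1 : G)) (Additive.toMul x) : G) = _
      rw [map_one]
      rfl)
    (by
      intro g h
      ext x
      show ((MulAut.conjNormal (H := W) (g * h)) (Additive.toMul x) : G) = _
      rw [map_mul]
      rfl)
  refine ⟨⟨ρ, Additive.ofMul.trans b.equivFun.toEquiv, ?_, ?_⟩⟩
  · intro x y
    exact b.equivFun.map_add (Additive.ofMul x) (Additive.ofMul y)
  · intro g w w' hw
    have h1 : w' = MulAut.conjNormal (H := W) g w := by
      apply Subtype.ext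
      rw [MulAut.conjNormal_apply]
      exact hw
    rw [h1]
    exact hρ g (Additive.ofMul w)

theorem rp_zero {W : Subgroup G} (R : Rp t W) (w : W) : R.e w = 0 ↔ w = 1 := by
  have h1 : R.e 1 = 0 := by
    have h2 := R.add 1 1
    rw [mul_one] at h2
    exact left_eq_add.1 h2
  constructor
  · intro h
    rw [← h1] at h
    exact R.e.injective h
  · intro h
    rw [h, h1]

theorem rp_one {W : Subgroup G} [W.Normal] (R : Rp t W) (g : G) :
    R.ρ g = 1 ↔ ∀ w ∈ W, g * w = w * g := by
  constructor
  · intro h w hw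
    have h1 := R.act g ⟨w, hw⟩ ⟨g * w * g⁻¹, Subgroup.Normal.conj_mem inferInstance w hw g⟩ rfl
    rw [h, Units.val_one, Matrix.one_mulVec] at h1
    have h2 := congrArg Subtype.val (R.e.injective h1)
    have h3 : g * w * g⁻¹ = w := h2
    rw [mul_inv_eq_iff_eq_mul] at h3
    exact h3
  · intro h
    apply Units.ext
    rw [Units.val_one]
    apply Matrix.ext_of_mulVec_single
    intro i
    obtain ⟨w, hw⟩ := R.e.surjective (Pi.single i 1)
    have h1 := R.act g w w (by rw [h w w.2, mul_inv_cancel_right])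
    rw [Matrix.one_mulVec, ← hw, ← h1]

theorem rp_det {W : Subgroup G} (R : Rp t W) {T : Subgroup G} {d : G} (hd : d ∈ ⁅T, T⁆) :
    (R.ρ d : Matrix (Fin 2) (Fin 2) (ZMod t)).det = 1 := by
  have h1 : d ∈ commutator G := by
    rw [commutator_def]
    exact Subgroup.commutator_mono le_top le_top hd
  have h2 := Abelianization.commutator_subset_ker (Matrix.GeneralLinearGroup.det.comp R.ρ) h1
  rw [MonoidHom.mem_ker, MonoidHom.comp_apply] at h2
  rw [← Matrix.GeneralLinearGroup.val_det_apply, h2, Units.val_one]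

theorem rp_cop [Fact t.Prime] {W : Subgroup G} [W.Normal] (R : Rp t W) (hW : Nat.card W = t ^ 2)
    (hab : ∀ x ∈ W, ∀ y ∈ W, x * y = y * x) (hc : ¬ t ^ 3 ∣ Nat.card G) (T : Subgroup G)
    (hWT : W ≤ T) : ¬ t ∣ Nat.card (R.ρ.comp T.subtype).range := by
  intro hd
  apply hc
  have h1 : W.subgroupOf T ≤ (R.ρ.comp T.subtype).ker := by
    intro x hx
    rw [MonoidHom.mem_ker, MonoidHom.comp_apply]
    rw [Subgroup.mem_subgroupOf] at hx
    exact (rp_one R x).2 fun w hw => hab x hx w hw
  have h2 : t ^ 2 ∣ Nat.card (R.ρ.comp T.subtype).ker := by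
    have h3 := Subgroup.card_dvd_of_le h1
    rw [Nat.card_congr (Subgroup.subgroupOfEquivOfLe hWT).toEquiv, hW] at h3
    exact h3
  have h4 : Nat.card (R.ρ.comp T.subtype).ker * Nat.card (R.ρ.comp T.subtype).range = Nat.card T := by
    rw [← Subgroup.index_ker, Subgroup.card_mul_index]
  have h5 : t ^ 3 ∣ Nat.card T := by
    rw [← h4, pow_succ]
    exact mul_dvd_mul h2 hd
  exact h5.trans (Subgroup.card_subgroup_dvd_card T)

end H12.CF
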