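import Pool.Agent.H12.CF.Gl2
import Pool.Agent.H12.CF.Rep
import Pool.Agent.H12.CF.Orb

/-!
# [H12 CF TWO] the setting and representations of degree 2, 80-120 lines

`two`: `gl2` for `H := T`, `R.ρ.comp T.subtype`, the elements of `L` as a subset of `T` (`closure = ⊤`: map to `G`, `S.gen`), `commutator T` maps onto `⁅T, T⁆` (`Subgroup.map_subtype_commutator`). `R.ρ f ≠ 1` by `rp_one`. `¬ t ∣` order of the range: `rp_cop` with `S.cf` (`t ∣ #W ∣ #T`). `AbS 2 T`: `ab` and `AbS.sub` if `2 ∣ #T`, `ab_triv` otherwise. `t ≠ 2`: `gl22` would give that `ρ` is commutative on `T`, so trivial on `⁅T, T⁆`.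
`tge`: `R.ρ g` has order `q`; if `t = 3` then `q` divides `#GL 2 = 48` (`Matrix.card_GL_field`), so `q = 2` or `3`. `t ≠ 4`.
`half`: `S.mn`, `fx_le`.
-/

set_option autoImplicit false

open scoped commutatorElement

noncomputable section

namespace H12.CF

open H71.GT

variable {G Ω : Type} [Group G] [Finite G] [MulAction G Ω] [Finite Ω] {L : Set G} {T : Subgroup G}

omit [Finite G] [Finite Ω] in
private theorem cls_top (S : St Ω L T) : Subgroup.closure {x : T | (x : G) ∈ L} = ⊤ := by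
  have h1 : (Subgroup.closure {x : T | (x : G) ∈ L}).map T.subtype = T := by
    rw [MonoidHom.map_closure]
    have h2 : T.subtype '' {x : T | (x : G) ∈ L} = L := by
      ext x
      constructor
      · rintro ⟨y, hy, rfl⟩
        exact hy
      · intro hx
        exact ⟨⟨x, S.mem hx⟩, hx, rfl⟩
    rw [h2, S.gen]
  refine eq_top_iff.2 fun x _ => ?_
  have h3 : (x : G) ∈ (Subgroup.closure {x : T | (x : G) ∈ L}).map T.subtype := by
    rw [h1]
    exact x.2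
  obtain ⟨y, hy, hyx⟩ := h3
  have h4 : y = x := Subtype.ext hyx
  rwa [h4] at hy

omit [Finite G] in
private theorem com_mem {g : G} (hg : g ∈ (⁅T, T⁆ : Subgroup G)) (hgT : g ∈ T) :
    (⟨g, hgT⟩ : T) ∈ commutator T := by
  have h1 : g ∈ (commutator T).map T.subtype := by
    rw [Subgroup.map_subtype_commutator]
    exact hg
  obtain ⟨y, hy, hyx⟩ := h1
  have h2 : y = ⟨g, hgT⟩ := Subtype.ext hyx
  rwa [h2] at hy

theorem two (S : St Ω L T) {t : ℕ} [Fact t.Prime] (W : Subgroup G) [W.Normal] (hWT : W ≤ T)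
    (hW : Nat.card W = t ^ 2) (hWc : ∀ x ∈ W, ∀ y ∈ W, x * y = y * x) (R : Rp t W) {f : G}
    (hf : f ∈ (⁅T, T⁆ : Subgroup G)) (hf1 : ∃ w ∈ W, f * w ≠ w * f) :
    t ≠ 2 ∧ (∀ c : ZMod t, (R.ρ f : Matrix (Fin 2) (Fin 2) (ZMod t)) ≠ c • 1) ∧
      (∀ g ∈ (⁅T, T⁆ : Subgroup G), R.ρ g * R.ρ f = R.ρ f * R.ρ g) ∧
      (∀ g ∈ T, R.ρ (g * f * g⁻¹) = R.ρ f ∨ R.ρ (g * f * g⁻¹) = (R.ρ f)⁻¹) ∧
      (R.ρ f)⁻¹ ≠ R.ρ f ∧ ∃ z ∈ L, orderOf z = 2 ∧ R.ρ (z * f * z⁻¹) = (R.ρ f)⁻¹ := by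
  have hle : (⁅T, T⁆ : Subgroup G) ≤ T := S.dle
  have hab : AbS 2 T := by
    by_cases h2 : 2 ∣ Nat.card T
    · exact (ab Nat.prime_two (S.cf 2 Nat.prime_two h2)).sub T
    · exact ab_triv Nat.prime_two h2
  have htT : t ∣ Nat.card T := by
    have h1 : Nat.card W ∣ Nat.card T := Subgroup.card_dvd_of_le hWT
    rw [hW] at h1
    exact (dvd_pow_self t two_ne_zero).trans h1
  have hco : ¬ t ∣ Nat.card (R.ρ.comp T.subtype).range :=
    rp_cop R hW hWc (S.cf t Fact.out htT) T hWT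
  have hf2 : R.ρ f ≠ 1 := by
    intro h
    obtain ⟨w, hw, hne⟩ := hf1
    exact hne ((rp_one R f).1 h w hw)
  have ht2 : t ≠ 2 := by
    intro ht
    subst ht
    have h1 : ∀ g h : T, R.ρ (g : G) * R.ρ (h : G) = R.ρ (h : G) * R.ρ (g : G) :=
      gl22 (R.ρ.comp T.subtype) hco
    have h2 : (⁅T, T⁆ : Subgroup G) ≤ R.ρ.ker := by
      rw [Subgroup.commutator_le]
      intro x hx y hy
      have h3 : R.ρ x * R.ρ y = R.ρ y * R.ρ x := h1 ⟨x, hx⟩ ⟨y, hy⟩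
      rw [MonoidHom.mem_ker, commutatorElement_def, map_mul, map_mul, map_mul, map_inv, map_inv,
        h3, mul_inv_cancel_right, mul_inv_cancel]
    exact hf2 (h2 hf)
  obtain ⟨h1, h2, h3, h4, z, hz, h5, h6⟩ := gl2 ht2 S.sol hab (R.ρ.comp T.subtype) hco
    {x : T | (x : G) ∈ L} (cls_top S) (fun x hx => by
      rw [← Subgroup.orderOf_coe]
      exact S.pr x hx) (f := ⟨f, hle hf⟩) (com_mem hf (hle hf)) hf2
  refine ⟨ht2, h1, fun g hg => h2 ⟨g, hle hg⟩ (com_mem hg (hle hg)), fun g hg => h3 ⟨g, hg⟩, h4,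
    z, hz, ?_, h6⟩
  rw [Subgroup.orderOf_coe]
  exact h5

theorem tge {t : ℕ} [Fact t.Prime] (ht2 : t ≠ 2) {W : Subgroup G} (R : Rp t W) {g : G} {q : ℕ}
    (hq : q.Prime) (hg : orderOf g = q) (hq2 : q ≠ 2) (hqt : q ≠ t) (h1 : R.ρ g ≠ 1) : 5 ≤ t := by
  by_contra hlt
  have hpt : t.Prime := Fact.out
  have ht3 : t = 3 := by
    have h2 := hpt.two_le
    have h3 : t ≠ 4 := by
      rintro rfl
      exact absurd hpt (by decide)
    omega
  subst ht3
  haveI : Fact q.Prime := ⟨hq⟩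
  have h2 : orderOf (R.ρ g) = q := by
    refine orderOf_eq_prime ?_ h1
    rw [← map_pow, ← hg, pow_orderOf_eq_one, map_one]
  have h3 : q ∣ 48 := by
    have h4 := orderOf_dvd_natCard (R.ρ g)
    rw [h2, Matrix.card_GL_field] at h4
    rwa [show (∏ i : Fin 2, (Fintype.card (ZMod 3) ^ 2 - Fintype.card (ZMod 3) ^ (i : ℕ))) = 48 by
      rw [Fin.prod_univ_two, ZMod.card]
      rfl] at h4
  have h4 : q ∣ 2 ^ 4 * 3 := h3
  rcases (Nat.Prime.dvd_mul hq).1 h4 with h5 | h5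
  · exact hq2 ((Nat.prime_dvd_prime_iff_eq hq Nat.prime_two).1 (hq.dvd_of_dvd_pow h5))
  · exact hqt ((Nat.prime_dvd_prime_iff_eq hq Nat.prime_three).1 h5)

theorem ix_le (S : St Ω L T) {y z : G} (hy : y ∈ L) (hz : (orderOf z).Prime) :
    ix Ω y ≤ (Nat.card Ω : ℝ) * (1 - 1 / (orderOf z : ℝ)) := by
  refine (S.mn y hy z hz).trans ?_
  unfold ix
  have h1 : (0 : ℝ) ≤ 1 - 1 / (orderOf z : ℝ) := by
    have h2 : (1 : ℝ) ≤ (orderOf z : ℝ) := by exact_mod_cast hz.one_lt.le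
    rw [sub_nonneg, div_le_one (by linarith only [h2])]
    exact h2
  refine mul_le_mul_of_nonneg_right ?_ h1
  have h2 : (0 : ℝ) ≤ (fx Ω z : ℝ) := Nat.cast_nonneg _
  linarith only [h2]

theorem half (S : St Ω L T) {y z : G} (hy : y ∈ L) (hz : orderOf z = 2) :
    ix Ω y ≤ (Nat.card Ω : ℝ) / 2 := by
  have h1 := ix_le S hy (z := z) (by rw [hz]; exact Nat.prime_two)
  rw [hz] at h1
  refine h1.trans (le_of_eq ?_)
  push_cast
  ring

end H12.CF
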