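import Pool.Agent.H12.CF.Bd
import Pool.Agent.H12.CF.Two
import Pool.Agent.H12.CF.Cyc

/-!
# [H12 CF B1] the mixed case, `v` acts nontrivially on a normal `t`-subgroup: impossible, 200-280 lines

`q = orderOf x`, `n = #Ω`, `a = ix x`. `t ≠ q` (`same`: `v ^ q ^ 1 = 1`). `t ∣ #T`, `dich` (`S.cf`), `W` not cyclic (`cyc`, `v ∈ D`), so `#W = t ^ 2`, exponent `t`; `R` from `exists_rp`, `two` with `f = v`: `t ≠ 2`, `A := ρ v` not scalar, `D` commutes with `A`, `ρ (g v g⁻¹) = A` or `A⁻¹` for `g ∈ T`, `A⁻¹ ≠ A`, `z ∈ L` of order 2 with `ρ (z v z⁻¹) = A⁻¹`. `q ≠ 2` (`A⁻¹ ≠ A`), `5 ≤ t` (`tge`), `a ≤ n / 2` (`half`).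
`ρ p` is scalar: `ρ p` commutes with `A` (`Pc`), `ρ p = b + c A` (`m_com`). `h` from `nv`: `h v h⁻¹ ∈ zpowers v` (`PD`: in `P` as `h` normalises `P`, in `D`), `≠ v`, and `ρ` is injective on `zpowers v` (prime order, `A ≠ 1`), so `ρ h A (ρ h)⁻¹ = A⁻¹`; `h` commutes with `p` (`nc`): `b + c A = b + c A⁻¹`; `A ≠ A⁻¹` so (entries) `c = 0`: `c (A - A⁻¹) = 0`.
So `ρ x = b A` with `b ≠ 0` (invertible). `n - fx x = a / (1 - 1 / q) ≤ (n / 2)(3 / 2)`, so `fx x ≥ n / 4`, there is a fixed point `α`.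
For `w ∈ W`: `x w = w x` means `ρ x (e w) = e w`. `#(st W β)` is `1` or `t` (divides `t ^ 2`, not `t ^ 2` by `nfix`), the same for all `β` (`st_card`).
CASE `1`: `orb` with `c = t`: for `x • α = α`: `x • w • α = w • α` iff `w` commutes with `x` (`st W α = ⊥`): the `w` with `ρ x (e w) = e w` are not all (`ρ x` is not scalar), so they are a proper subgroup of `W`, at most `t`: `t ^ 2 fx x ≤ t n`, `fx x ≤ n / 5 < n / 4`: contradiction.
CASE `t`: (a) call `E ≤ W` stable if `v E v⁻¹ = E`. `st W α` is normalised by `x`, so `ρ x` maps the line `e (st W α)` to itself, so does `A = b⁻¹ ρ x`: `st W α` is stable. (b) every `st W β` is stable: `β = g α`, `st W β = g (st W α) g⁻¹` (`st_smul`), `g⁻¹ v g ∈ D` so `ρ (g⁻¹ v g)` commutes with `A`, `= b' + c' A` (`m_com`), maps the line of `st W α` to itself: `g⁻¹ v g` normalises `st W α`.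
(c) two stable subgroups of order `t` at most (of any three two are equal): eigenvectors, `m_thr`. (d) `z` normalises no stable subgroup `E` of order `t`: `e w = u ≠ 0`, `A u = c u`, `ρ z u = c' u` (`E` is a line): `A⁻¹ = ρ z A (ρ z)⁻¹` gives `c⁻¹ = c`: contradiction to `m_eig` (`det A = 1`: `rp_det`, `m = q`).
So `z` has no fixed point (a fixed point `β`: `z` normalises `st W β`): `ix z = n / 2`, `a = n / 2` (`S.mn`, `z ∈ L`). `E₁ := st W α`, `1 ≠ u ∈ E₁` of order `t`: by (c), (d) conjugation with `z` exchanges the two stable stabilisers, `β ↦ z β` is a bijection of `{β | st W β = E₁}` with its complement (use that a stable stabiliser `≠ E₁` is unique; `z E z⁻¹` is a stabiliser `≠ E`), so the class has `n / 2` elements, all fixed by `u`: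
`ix u ≤ (n / 2)(1 - 1 / t) < n / 2 = a ≤ ix u`: contradiction.
-/

set_option autoImplicit false

open scoped commutatorElement

noncomputable section

namespace H12.CF

variable {G Ω : Type} [Group G] [Finite G] [MulAction G Ω] [Finite Ω] {L : Set G} {T : Subgroup G}

/-- powers -/
private theorem b1_pow {t : ℕ} {W : Subgroup G} (R : Rp t W) (w : W) (k : ℕ) :
    R.e (w ^ k) = (k : ZMod t) • R.e w := by
  induction k with
  | zero => rw [pow_zero, Nat.cast_zero, zero_smul, (rp_zero R 1).2 rfl]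
  | succ k ih => rw [pow_succ, R.add, ih, Nat.cast_succ, add_smul, one_smul]

/-- a subgroup of prime order is a line -/
private theorem b1_line {t : ℕ} [Fact t.Prime] {W E : Subgroup G} (R : Rp t W) (hc : Nat.card E = t)
    (w w' : W) (hw : (w : G) ∈ E) (hw' : (w' : G) ∈ E) (h1 : w ≠ 1) :
    ∃ c : ZMod t, R.e w' = c • R.e w := by
  obtain ⟨k, hk⟩ := mem_powers_of_prime_card (g := (⟨w, hw⟩ : E)) (g' := ⟨w', hw'⟩) hc (by
    intro h
    apply h1
    have h2 := congrArg Subtype.val h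
    exact Subtype.ext h2)
  have h2 : w ^ k = w' := by
    have h3 := congrArg Subtype.val hk
    exact Subtype.ext h3
  exact ⟨k, by rw [← h2, b1_pow]⟩

/-- proportional generators -/
private theorem b1_eq {t : ℕ} [Fact t.Prime] {W E E' : Subgroup G} (R : Rp t W)
    (hc : Nat.card E = t) (hc' : Nat.card E' = t) (w w' : W) (hw : (w : G) ∈ E)
    (hw' : (w' : G) ∈ E') (h1' : w' ≠ 1) (k : ZMod t) (h : R.e w' = k • R.e w) : E' = E := by
  have h2 : w ^ k.val = w' := by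
    apply R.e.injective
    rw [b1_pow, ZMod.natCast_zmod_val, h]
  have h3 : (w' : G) ∈ E := by
    rw [← h2]
    exact E.pow_mem hw _
  refine Subgroup.eq_of_le_of_card_ge ?_ (by rw [hc, hc'])
  intro y hy
  obtain ⟨j, hj⟩ := mem_powers_of_prime_card (g := (⟨w', hw'⟩ : E')) (g' := ⟨y, hy⟩) hc' (by
    intro h
    apply h1'
    have h2 := congrArg Subtype.val h
    exact Subtype.ext h2)
  have h4 : (w' : G) ^ j = y := congrArg Subtype.val hj
  rw [← h4]
  exact E.pow_mem h3 _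

/-- an involution which inverts moves the eigenlines -/
private theorem b1_z {t : ℕ} [Fact t.Prime] (ht2 : t ≠ 2) {W : Subgroup G} [W.Normal] (R : Rp t W)
    {v z : G} {q : ℕ} (hvq : v ^ q = 1) (hq : (q : ZMod t) ≠ 0)
    (hd : (R.ρ v : Matrix (Fin 2) (Fin 2) (ZMod t)).det = 1)
    (hs : ∀ c : ZMod t, (R.ρ v : Matrix (Fin 2) (Fin 2) (ZMod t)) ≠ c • 1)
    (hz : R.ρ (z * v * z⁻¹) = (R.ρ v)⁻¹) {E : Subgroup G} (hc : Nat.card E = t)
    (hE : ∀ w : W, (w : G) ∈ E → ∃ c : ZMod t,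
      Matrix.mulVec (R.ρ v : Matrix (Fin 2) (Fin 2) (ZMod t)) (R.e w) = c • R.e w)
    (w : W) (hw : (w : G) ∈ E) (hw1 : w ≠ 1) (hzE : z * w * z⁻¹ ∈ E) : False := by
  have hu : R.e w ≠ 0 := fun h => hw1 ((rp_zero R w).1 h)
  obtain ⟨c, hcA⟩ := hE w hw
  have hzW : z * w * z⁻¹ ∈ W := (inferInstance : W.Normal).conj_mem _ w.2 z
  obtain ⟨c', hc'⟩ := b1_line R hc w ⟨_, hzW⟩ hw hzE hw1
  have hact := R.act z w ⟨_, hzW⟩ rfl
  rw [hc'] at hact
  have hc0 : c' ≠ 0 := by
    intro h0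
    rw [h0, zero_smul] at hc'
    have h1 := (rp_zero R _).1 hc'
    have h2 : z * (w : G) * z⁻¹ = 1 := congrArg Subtype.val h1
    apply hw1
    apply Subtype.ext
    rw [mul_inv_eq_one, mul_eq_left] at h2
    exact h2
  have h1 : R.ρ v * R.ρ z * R.ρ v = R.ρ z := by
    rw [map_mul, map_mul, map_inv, mul_inv_eq_iff_eq_mul] at hz
    rw [mul_assoc, hz, mul_inv_cancel_left]
  have h2 : Matrix.mulVec (R.ρ v : Matrix (Fin 2) (Fin 2) (ZMod t))
      (Matrix.mulVec (R.ρ z : Matrix (Fin 2) (Fin 2) (ZMod t))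
        (Matrix.mulVec (R.ρ v : Matrix (Fin 2) (Fin 2) (ZMod t)) (R.e w))) =
      Matrix.mulVec (R.ρ z : Matrix (Fin 2) (Fin 2) (ZMod t)) (R.e w) := by
    rw [Matrix.mulVec_mulVec, Matrix.mulVec_mulVec, ← Units.val_mul, ← Units.val_mul, h1]
  rw [hcA, Matrix.mulVec_smul, ← hact, Matrix.mulVec_smul, Matrix.mulVec_smul, hcA, smul_smul, smul_smul] at h2
  have h3 : (c * c' * c - c') • R.e w = 0 := by rw [sub_smul, h2, sub_self]
  have h4 : c * c' * c - c' = 0 := (smul_eq_zero.1 h3).resolve_right hu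
  have h20 : (2 : ZMod t) ≠ 0 := by
    intro h
    have h5 : ((2 : ℕ) : ZMod t) = 0 := by exact_mod_cast h
    rw [ZMod.natCast_eq_zero_iff] at h5
    exact ht2 ((Nat.prime_dvd_prime_iff_eq Fact.out Nat.prime_two).1 h5)
  refine m_eig _ hs hd h20 q hq ?_ (R.e w) hu c hcA ?_
  · rw [← Units.val_pow_eq_pow_val, ← map_pow, hvq, map_one, Units.val_one]
  · apply mul_left_cancel₀ hc0
    linear_combination h4

omit [Finite G] in
/-- the central part acts as a scalar -/
private theorem b1_p {t : ℕ} [Fact t.Prime] {x v p : G} {P : Subgroup G} (B : Bd L T x v p P)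
    (hqp : (orderOf x).Prime) {W : Subgroup G} (R : Rp t W)
    (hs : ∀ c : ZMod t, (R.ρ v : Matrix (Fin 2) (Fin 2) (ZMod t)) ≠ c • 1)
    (hcj : ∀ g ∈ T, R.ρ (g * v * g⁻¹) = R.ρ v ∨ R.ρ (g * v * g⁻¹) = (R.ρ v)⁻¹)
    (hne : (R.ρ v)⁻¹ ≠ R.ρ v) (hD : (⁅T, T⁆ : Subgroup G).Normal) :
    ∃ b : ZMod t, b ≠ 0 ∧ (R.ρ x : Matrix (Fin 2) (Fin 2) (ZMod t)) =
      b • (R.ρ v : Matrix (Fin 2) (Fin 2) (ZMod t)) := by
  obtain ⟨h, hT, hN, hnv⟩ := B.nv
  have h1 : R.ρ (h * v * h⁻¹) = (R.ρ v)⁻¹ := by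
    refine (hcj h hT).resolve_left fun h2 => ?_
    have h3 : h * v * h⁻¹ ∈ P := (Subgroup.mem_normalizer_iff.1 hN v).1 B.vP
    obtain ⟨k, hk⟩ := Subgroup.mem_zpowers_iff.1 (B.PD _ h3 (hD.conj_mem v B.vD h))
    have h4 : (R.ρ v) ^ (k - 1) = 1 := by
      rw [← hk, map_zpow] at h2
      rw [zpow_sub, zpow_one, h2, mul_inv_cancel]
    have h5 : orderOf (R.ρ v) = orderOf x := by
      have : Fact (orderOf x).Prime := ⟨hqp⟩
      refine orderOf_eq_prime ?_ ?_
      · rw [← map_pow, ← B.vo, pow_orderOf_eq_one, map_one]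
      · intro h6
        apply hne
        rw [h6, inv_one]
    have h6 : v ^ (k - 1) = 1 := by
      rw [← orderOf_dvd_iff_zpow_eq_one] at h4 ⊢
      rw [B.vo, ← h5]
      exact h4
    apply hnv
    rw [zpow_sub, zpow_one, hk, mul_inv_eq_one, mul_inv_eq_iff_eq_mul] at h6
    exact h6
  have h2 : (R.ρ v : Matrix (Fin 2) (Fin 2) (ZMod t)) * (R.ρ p : Matrix (Fin 2) (Fin 2) (ZMod t)) =
      (R.ρ p : Matrix (Fin 2) (Fin 2) (ZMod t)) * (R.ρ v : Matrix (Fin 2) (Fin 2) (ZMod t)) := by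
    rw [← Units.val_mul, ← Units.val_mul, ← map_mul, ← map_mul, B.Pc v B.vP p B.pP]
  obtain ⟨b, c, hbc⟩ := m_com _ _ hs h2
  have h3 : R.ρ h * R.ρ p = R.ρ p * R.ρ h := by
    rw [← map_mul, ← map_mul, B.nc h hT hN]
  have h4 : R.ρ h * R.ρ v = (R.ρ v)⁻¹ * R.ρ h := by
    rw [map_mul, map_mul, map_inv, mul_inv_eq_iff_eq_mul] at h1
    exact h1
  have h5 : c • ((R.ρ v : Matrix (Fin 2) (Fin 2) (ZMod t)) -
      (((R.ρ v)⁻¹ : Matrix.GeneralLinearGroup (Fin 2) (ZMod t)) : Matrix (Fin 2) (Fin 2) (ZMod t))) = 0 := by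
    have h6 := congrArg (fun M : Matrix.GeneralLinearGroup (Fin 2) (ZMod t) =>
      (M : Matrix (Fin 2) (Fin 2) (ZMod t))) h3
    have h7 := congrArg (fun M : Matrix.GeneralLinearGroup (Fin 2) (ZMod t) =>
      (M : Matrix (Fin 2) (Fin 2) (ZMod t))) h4
    simp only [Units.val_mul] at h6 h7
    rw [hbc, mul_add, add_mul, mul_smul_comm, mul_smul_comm, smul_mul_assoc, smul_mul_assoc, mul_one, one_mul,
      h7, add_right_inj] at h6
    have h8 : (c • ((R.ρ v : Matrix (Fin 2) (Fin 2) (ZMod t)) -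
      (((R.ρ v)⁻¹ : Matrix.GeneralLinearGroup (Fin 2) (ZMod t)) : Matrix (Fin 2) (Fin 2) (ZMod t)))) *
      (R.ρ h : Matrix (Fin 2) (Fin 2) (ZMod t)) = 0 := by
      rw [smul_mul_assoc, sub_mul, smul_sub, h6, sub_self]
    have h9 := congrArg (fun M => M * (((R.ρ h)⁻¹ : Matrix.GeneralLinearGroup (Fin 2) (ZMod t)) :
      Matrix (Fin 2) (Fin 2) (ZMod t))) h8
    simp only [mul_assoc, zero_mul] at h9
    rw [← Units.val_mul, mul_inv_cancel, Units.val_one, mul_one] at h9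
    exact h9
  have h6 : c = 0 := by
    refine (smul_eq_zero.1 h5).resolve_right fun h7 => hne ?_
    exact (Units.ext (sub_eq_zero.1 h7)).symm
  rw [h6, zero_smul, add_zero] at hbc
  refine ⟨b, ?_, ?_⟩
  · intro hb
    rw [hb, zero_smul] at hbc
    have h7 : (R.ρ p : Matrix (Fin 2) (Fin 2) (ZMod t)) *
        (((R.ρ p)⁻¹ : Matrix.GeneralLinearGroup (Fin 2) (ZMod t)) : Matrix (Fin 2) (Fin 2) (ZMod t)) = 1 := by
      rw [← Units.val_mul, mul_inv_cancel, Units.val_one]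
    rw [hbc, zero_mul] at h7
    exact zero_ne_one h7
  · have h7 : R.ρ x = R.ρ v * R.ρ p := by rw [← map_mul, ← B.eq]
    rw [h7, Units.val_mul, hbc, mul_smul_comm, mul_one]

/-- trivial stabilisers -/
private theorem b1_one {t : ℕ} (ht : t.Prime) (W : Subgroup G) [W.Normal]
    (hW : Nat.card W = t ^ 2) {x : G} (hx : ∃ w ∈ W, x * w ≠ w * x) (h : ∀ α : Ω, st W α = ⊥) :
    t * fx Ω x ≤ Nat.card Ω := by
  obtain ⟨C, hC⟩ : ∃ C : Subgroup G, C = W ⊓ Subgroup.centralizer {x} := ⟨_, rfl⟩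
  have hmem : ∀ w : G, w ∈ C ↔ w ∈ W ∧ x * w = w * x := by
    intro w
    rw [hC, Subgroup.mem_inf, Subgroup.mem_centralizer_singleton_iff]
    exact and_congr_right fun _ => eq_comm
  have hCW : C ≤ W := fun w hw => ((hmem w).1 hw).1
  have hCt : Nat.card C ≤ t := by
    have h1 := Subgroup.card_dvd_of_le hCW
    rw [hW] at h1
    obtain ⟨k, hk, hk2⟩ := (Nat.dvd_prime_pow ht).1 h1
    rcases Nat.lt_or_ge k 2 with hk1 | hk1
    · rw [hk2]
      calc t ^ k ≤ t ^ 1 := Nat.pow_le_pow_right ht.pos (by omega)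
        _ = t := pow_one t
    · exfalso
      have hk3 : k = 2 := by omega
      rw [hk3] at hk2
      have h3 : C = W := Subgroup.eq_of_le_of_card_ge hCW (by rw [hW, hk2])
      obtain ⟨w, hw, hne⟩ := hx
      rw [← h3] at hw
      exact hne ((hmem w).1 hw).2
  have h1 := orb (Ω := Ω) W x t fun α hα => le_trans ?_ hCt
  · rw [hW] at h1
    have h2 : t * (t * fx Ω x) ≤ t * Nat.card Ω := by
      calc t * (t * fx Ω x) = t ^ 2 * fx Ω x := by ring
        _ ≤ t * Nat.card Ω := h1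
    exact Nat.le_of_mul_le_mul_left h2 ht.pos
  · have hm : ∀ w : {w : W // x • ((w : G) • α) = (w : G) • α}, (w.1 : G) ∈ C := by
      intro w
      rw [hmem]
      refine ⟨w.1.2, ?_⟩
      have h2 : (w.1 : G)⁻¹ * (x * (w.1 : G) * x⁻¹) ∈ st W α := by
        refine Subgroup.mem_inf.2 ⟨W.mul_mem (W.inv_mem w.1.2)
          ((inferInstance : W.Normal).conj_mem _ w.1.2 x), ?_⟩
        rw [MulAction.mem_stabilizer_iff]
        have h3 : x⁻¹ • α = α := by
          rw [inv_smul_eq_iff]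
          exact hα.symm
        rw [mul_smul, mul_smul, mul_smul, h3, w.2, inv_smul_smul]
      rw [h α, Subgroup.mem_bot, inv_mul_eq_one] at h2
      exact mul_inv_eq_iff_eq_mul.1 h2.symm
    refine Nat.card_le_card_of_injective (fun w => (⟨_, hm w⟩ : C)) ?_
    intro w w' hww
    have h2 : (w.1 : G) = (w'.1 : G) := congrArg (fun y : C => (y : G)) hww
    exact Subtype.ext (Subtype.ext h2)

/-- the stabilisers of order `t` -/
private theorem b1_two [Nonempty Ω] [MulAction.IsPretransitive G Ω] (S : St Ω L T) {t : ℕ}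
    [Fact t.Prime] (ht2 : t ≠ 2) {W : Subgroup G} [W.Normal] (R : Rp t W) {x v z : G} {q : ℕ}
    (hvq : v ^ q = 1) (hq : (q : ZMod t) ≠ 0)
    (hd : (R.ρ v : Matrix (Fin 2) (Fin 2) (ZMod t)).det = 1)
    (hs : ∀ c : ZMod t, (R.ρ v : Matrix (Fin 2) (Fin 2) (ZMod t)) ≠ c • 1)
    (hcD : ∀ g : G, R.ρ (g⁻¹ * v * g) * R.ρ v = R.ρ v * R.ρ (g⁻¹ * v * g))
    (hzL : z ∈ L) (hz2 : orderOf z = 2) (hz : R.ρ (z * v * z⁻¹) = (R.ρ v)⁻¹)
    (hst : ∀ β : Ω, Nat.card (st W β) = t) {b : ZMod t} (hb : b ≠ 0)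
    (hbx : (R.ρ x : Matrix (Fin 2) (Fin 2) (ZMod t)) = b • (R.ρ v : Matrix (Fin 2) (Fin 2) (ZMod t)))
    {α : Ω} (hα : x • α = α) : False := by
  have ht : t.Prime := Fact.out
  have hcl : ∀ (g : G) (β : Ω), g • β = β → ∀ w ∈ st W β, g * w * g⁻¹ ∈ st W β := by
    intro g β hβ w hw
    have h1 := (st_smul W g (g * w * g⁻¹) β).2 (by
      have h2 : g⁻¹ * (g * w * g⁻¹) * g = w := by group
      rw [h2]
      exact hw)
    rwa [hβ] at h1
  have hgen : ∀ β : Ω, ∃ w : W, (w : G) ∈ st W β ∧ w ≠ 1 := by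
    intro β
    by_contra hcon
    push Not at hcon
    have h1 : st W β = ⊥ := by
      rw [eq_bot_iff]
      intro w hw
      have h2 := hcon ⟨w, (Subgroup.mem_inf.1 hw).1⟩ hw
      rw [Subgroup.mem_bot]
      exact congrArg Subtype.val h2
    have h2 := hst β
    rw [h1, Subgroup.card_bot] at h2
    exact ht.one_lt.ne h2
  have hEα : ∀ w : W, (w : G) ∈ st W α → ∃ c : ZMod t,
      Matrix.mulVec (R.ρ v : Matrix (Fin 2) (Fin 2) (ZMod t)) (R.e w) = c • R.e w := by
    intro w hw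
    by_cases hw1 : w = 1
    · refine ⟨0, ?_⟩
      rw [(rp_zero R w).2 hw1, Matrix.mulVec_zero, smul_zero]
    · have h1 := hcl x α hα w hw
      obtain ⟨c, hc⟩ := b1_line R (hst α) w ⟨_, (Subgroup.mem_inf.1 h1).1⟩ hw h1 hw1
      have h2 := R.act x w ⟨_, (Subgroup.mem_inf.1 h1).1⟩ rfl
      rw [hc, hbx, Matrix.smul_mulVec] at h2
      refine ⟨b⁻¹ * c, ?_⟩
      rw [mul_smul, h2, smul_smul, inv_mul_cancel₀ hb, one_smul]
  have hE : ∀ β : Ω, ∀ w : W, (w : G) ∈ st W β → ∃ c : ZMod t,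
      Matrix.mulVec (R.ρ v : Matrix (Fin 2) (Fin 2) (ZMod t)) (R.e w) = c • R.e w := by
    intro β w hw
    obtain ⟨g, rfl⟩ := MulAction.exists_smul_eq G α β
    have h1 : g⁻¹ * (w : G) * g ∈ st W α := (st_smul W g w α).1 hw
    obtain ⟨w0, hw0⟩ : ∃ w0 : W, (w0 : G) = g⁻¹ * (w : G) * g := ⟨⟨_, (Subgroup.mem_inf.1 h1).1⟩, rfl⟩
    rw [← hw0] at h1
    obtain ⟨c0, hc0⟩ := hEα w0 h1
    have h2 : R.e w = Matrix.mulVec (R.ρ g : Matrix (Fin 2) (Fin 2) (ZMod t)) (R.e w0) :=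
      R.act g w0 w (by
        rw [hw0]
        group)
    obtain ⟨b', c', hbc⟩ := m_com (R.ρ v : Matrix (Fin 2) (Fin 2) (ZMod t))
      (R.ρ (g⁻¹ * v * g) : Matrix (Fin 2) (Fin 2) (ZMod t)) hs (by
        rw [← Units.val_mul, ← Units.val_mul, hcD g])
    have h3 : R.ρ v * R.ρ g = R.ρ g * R.ρ (g⁻¹ * v * g) := by
      rw [← map_mul, ← map_mul]
      congr 1
      group
    refine ⟨b' + c' * c0, ?_⟩
    rw [h2, Matrix.mulVec_mulVec, ← Units.val_mul, h3, Units.val_mul, ← Matrix.mulVec_mulVec, hbc,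
      Matrix.add_mulVec, Matrix.smul_mulVec, Matrix.smul_mulVec, Matrix.one_mulVec, hc0,
      smul_smul, ← add_smul, Matrix.mulVec_smul]
  have hzz : ∀ β : Ω, st W (z • β) ≠ st W β := by
    intro β h1
    obtain ⟨w, hw, hw1⟩ := hgen β
    refine b1_z ht2 R hvq hq hd hs hz (hst β) (hE β) w hw hw1 ?_
    rw [← h1, st_smul]
    have h2 : z⁻¹ * (z * (w : G) * z⁻¹) * z = w := by group
    rw [h2]
    exact hw
  have hfz : fx Ω z = 0 := fx_zero fun β hβ => hzz β (by rw [hβ])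
  have hthr : ∀ β : Ω, st W β ≠ st W α → st W (z • β) = st W α := by
    intro β hβ
    obtain ⟨w1, hw1, hw11⟩ := hgen α
    obtain ⟨w2, hw2, hw21⟩ := hgen β
    obtain ⟨w3, hw3, hw31⟩ := hgen (z • β)
    obtain ⟨c1, hc1⟩ := hE α w1 hw1
    obtain ⟨c2, hc2⟩ := hE β w2 hw2
    obtain ⟨c3, hc3⟩ := hE (z • β) w3 hw3
    rcases m_thr _ hs (R.e w1) (R.e w2) (R.e w3) c1 c2 c3 hc1 hc2 hc3
      (fun h => hw11 ((rp_zero R _).1 h)) (fun h => hw21 ((rp_zero R _).1 h))
      (fun h => hw31 ((rp_zero R _).1 h)) with ⟨k, hk⟩ | ⟨k, hk⟩ | ⟨k, hk⟩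
    · exact absurd (b1_eq R (hst α) (hst β) w1 w2 hw1 hw2 hw21 k hk) hβ
    · exact b1_eq R (hst α) (hst _) w1 w3 hw1 hw3 hw31 k hk
    · exact absurd (b1_eq R (hst β) (hst _) w2 w3 hw2 hw3 hw31 k hk) (hzz β)
  obtain ⟨u, hu, hu1⟩ := hgen α
  have hut : orderOf (u : G) = t := by
    have h1 : orderOf (⟨(u : G), hu⟩ : st W α) = t := by
      refine orderOf_eq_prime ?_ ?_
      · have h2 := pow_card_eq_one' (x := (⟨(u : G), hu⟩ : st W α))
        rwa [hst α] at h2
      · intro h2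
        apply hu1
        have h3 := congrArg Subtype.val h2
        exact Subtype.ext h3
    rw [← h1, Subgroup.orderOf_mk]
  have hfu : Nat.card Ω ≤ 2 * fx Ω (u : G) := by
    classical
    have hΩ : Fintype Ω := Fintype.ofFinite Ω
    have h1 : Nat.card {β : Ω // st W β = st W α} ≤ fx Ω (u : G) := by
      refine Nat.card_le_card_of_injective (fun β => (⟨β.1, ?_⟩ : {β : Ω // (u : G) • β = β})) ?_
      · have h2 : (u : G) ∈ st W β.1 := by
          rw [β.2]
          exact hu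
        exact (Subgroup.mem_inf.1 h2).2
      · intro β β' h
        have h2 := congrArg Subtype.val h
        exact Subtype.ext h2
    have h2 : Nat.card {β : Ω // ¬ st W β = st W α} ≤ Nat.card {β : Ω // st W β = st W α} := by
      refine Nat.card_le_card_of_injective
        (fun β => (⟨z • β.1, hthr β.1 β.2⟩ : {β : Ω // st W β = st W α})) ?_
      intro β β' h
      have h2 : z • β.1 = z • β'.1 := congrArg Subtype.val h
      exact Subtype.ext (MulAction.injective z h2)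
    have h3 : Nat.card Ω = Nat.card {β : Ω // st W β = st W α} +
        Nat.card {β : Ω // ¬ st W β = st W α} := by
      rw [← Nat.card_sum]
      exact Nat.card_congr (Equiv.sumCompl fun β : Ω => st W β = st W α).symm
    omega
  have h1 := S.mn z hzL (u : G) (by rw [hut]; exact ht)
  unfold ix at h1
  rw [hfz, hz2, hut] at h1
  have hn : 0 < Nat.card Ω := Nat.card_pos
  have hnr : (0 : ℝ) < (Nat.card Ω : ℝ) := by exact_mod_cast hn
  have hfr : (Nat.card Ω : ℝ) ≤ 2 * (fx Ω (u : G) : ℝ) := by exact_mod_cast hfu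
  have htr : (0 : ℝ) < 1 / (t : ℝ) := by
    have h2 : (0 : ℝ) < (t : ℝ) := by exact_mod_cast ht.pos
    positivity
  have ht1 : 1 / (t : ℝ) ≤ 1 := by
    have h2 : (1 : ℝ) ≤ (t : ℝ) := by exact_mod_cast ht.one_le
    rw [div_le_one (by linarith)]
    exact h2
  have h2 : ((Nat.card Ω : ℝ) - fx Ω (u : G)) * (1 - 1 / (t : ℝ)) ≤
      ((Nat.card Ω : ℝ) / 2) * (1 - 1 / (t : ℝ)) := by
    refine mul_le_mul_of_nonneg_right ?_ ?_
    · linarith
    · linarith
  have h3 : ((Nat.card Ω : ℝ) / 2) * (1 - 1 / (t : ℝ)) < (Nat.card Ω : ℝ) / 2 := by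
    have h4 : 0 < ((Nat.card Ω : ℝ) / 2) * (1 / (t : ℝ)) := by positivity
    linarith
  push_cast at h1
  linarith

theorem b1 [Nonempty Ω] [FaithfulSMul G Ω] [MulAction.IsPretransitive G Ω] (S : St Ω L T)
    {x v p : G} {P : Subgroup G} (B : Bd L T x v p P) {t : ℕ} (ht : t.Prime) (W : Subgroup G)
    [W.Normal] (hWT : W ≤ T) (hW : IsPGroup t W) : ∀ w ∈ W, v * w = w * v := by
  have : Fact t.Prime := ⟨ht⟩
  by_cases hWb : W = ⊥
  · intro w hw
    rw [hWb, Subgroup.mem_bot] at hw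
    rw [hw, mul_one, one_mul]
  · have hqp : (orderOf x).Prime := S.pr x B.xL
    have htW : t ∣ Nat.card W := by
      have : Nontrivial W := (Subgroup.nontrivial_iff_ne_bot W).2 hWb
      obtain ⟨k, hk, hk2⟩ := (IsPGroup.nontrivial_iff_card hW).1 inferInstance
      rw [hk2]
      exact dvd_pow_self t (by omega)
    have hc : ¬ t ^ 3 ∣ Nat.card G := S.cf t ht (htW.trans (Subgroup.card_dvd_of_le hWT))
    by_cases htq : t = orderOf x
    · refine same ht (ab ht hc) W hW (k := 1) ?_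
      rw [pow_one, htq, ← B.vo, pow_orderOf_eq_one]
    rcases dich ht hc W hW with hcy | ⟨hW2, hex, hcom⟩
    · have := hcy
      exact cyc W T v B.vD
    · by_contra hcon
      push Not at hcon
      obtain ⟨R⟩ := exists_rp W hW2 hex hcom
      obtain ⟨ht2, hs, hDc, hcj, hne, z, hzL, hz2, hz⟩ := two S W hWT hW2 hcom R B.vD hcon
      have hDn := S.dn
      obtain ⟨b, hb, hbx⟩ := b1_p B hqp R hs hcj hne hDn
      have hvq : v ^ orderOf x = 1 := by
        rw [← B.vo, pow_orderOf_eq_one]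
      have hq2 : orderOf x ≠ 2 := by
        intro h2
        apply hne
        rw [h2, pow_two] at hvq
        have h3 : R.ρ v * R.ρ v = 1 := by
          rw [← map_mul, hvq, map_one]
        exact (eq_inv_of_mul_eq_one_left h3).symm
      have hr1 : R.ρ v ≠ 1 := by
        intro h1
        obtain ⟨w, hw, hne1⟩ := hcon
        exact hne1 ((rp_one R v).1 h1 w hw)
      have h5 : 5 ≤ t := tge ht2 R hqp B.vo hq2 (Ne.symm htq) hr1
      have hn : 0 < Nat.card Ω := Nat.card_pos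
      have hnr : (0 : ℝ) < (Nat.card Ω : ℝ) := by exact_mod_cast hn
      have hfx : (Nat.card Ω : ℝ) ≤ 4 * (fx Ω x : ℝ) := by
        have hh := half S B.xL hz2
        unfold ix at hh
        have hq3 : 3 ≤ orderOf x := by
          have := hqp.two_le
          omega
        have hq3r : (3 : ℝ) ≤ (orderOf x : ℝ) := by exact_mod_cast hq3
        have h1 : 1 / (orderOf x : ℝ) ≤ 1 / 3 := one_div_le_one_div_of_le (by norm_num) hq3r
        have hle : (fx Ω x : ℝ) ≤ (Nat.card Ω : ℝ) := by exact_mod_cast fx_le (Ω := Ω) x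
        have h2 : ((Nat.card Ω : ℝ) - fx Ω x) * (2 / 3) ≤
            ((Nat.card Ω : ℝ) - fx Ω x) * (1 - 1 / (orderOf x : ℝ)) := by
          refine mul_le_mul_of_nonneg_left ?_ ?_
          · linarith
          · linarith
        linarith
      have hfx0 : fx Ω x ≠ 0 := by
        intro h0
        rw [h0, Nat.cast_zero, mul_zero] at hfx
        linarith
      obtain ⟨α, hα⟩ := fx_ne hfx0
      have hst : ∀ β : Ω, Nat.card (st W β) = Nat.card (st W α) := fun β => st_card W β α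
      have hle : st W α ≤ W := inf_le_left
      have hdv := Subgroup.card_dvd_of_le hle
      rw [hW2] at hdv
      obtain ⟨k, hk, hk2⟩ := (Nat.dvd_prime_pow ht).1 hdv
      have hk3 : k = 0 ∨ k = 1 ∨ k = 2 := by omega
      rcases hk3 with hk3 | hk3 | hk3
      · rw [hk3, pow_zero] at hk2
        have hx : ∃ w ∈ W, x * w ≠ w * x := by
          by_contra hcon2
          push Not at hcon2
          have h1 := (rp_one R x).2 hcon2
          rw [h1, Units.val_one] at hbx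
          apply hs b⁻¹
          rw [hbx, smul_smul, inv_mul_cancel₀ hb, one_smul]
        have h1 := b1_one (Ω := Ω) ht W hW2 hx fun β => by
          have h2 := hst β
          rw [hk2] at h2
          exact Subgroup.card_eq_one.1 h2
        have h2 : 5 * fx Ω x ≤ Nat.card Ω := (Nat.mul_le_mul_right _ h5).trans h1
        have h3 : 5 * (fx Ω x : ℝ) ≤ (Nat.card Ω : ℝ) := by exact_mod_cast h2
        linarith
      · rw [hk3, pow_one] at hk2
        have hq0 : ((orderOf x : ℕ) : ZMod t) ≠ 0 := by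
          intro h3
          rw [ZMod.natCast_eq_zero_iff] at h3
          exact htq ((Nat.prime_dvd_prime_iff_eq ht hqp).1 h3)
        refine b1_two (Ω := Ω) S ht2 R hvq hq0 (rp_det R B.vD) hs ?_ hzL hz2 hz ?_ hb hbx hα
        · intro g
          apply hDc
          have h1 := hDn.conj_mem v B.vD g⁻¹
          rwa [inv_inv] at h1
        · intro β
          rw [hst β, hk2]
      · rw [hk3] at hk2
        have h3 : st W α = W := Subgroup.eq_of_le_of_card_ge hle (by rw [hW2, hk2])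
        apply hWb
        refine nfix (Ω := Ω) W α fun w hw => ?_
        rw [← h3] at hw
        exact (Subgroup.mem_inf.1 hw).2

end H12.CF
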