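import Pool.Agent.H12.CF.Bd
import Pool.Agent.H12.CF.Two
import Pool.Agent.H12.CF.Cyc

/-!
# [H12 CF B2] the mixed case, `zpowers v` normal: fixed points, 140-200 lines

`q = orderOf x`, `n = #Ω`, `V = zpowers v`, order `q`, normal; `v` fixes no point (`nfix`). `p` commutes with `v` (`Pc`).
`b2a`: suppose `z` fixes `β`; `x` fixes some `α` (`fx_ne`), `β = g α`; replace `z` by `g⁻¹ z g` (in `T`, fixes `α`, does not commute with `v`: `V` is normal, `g v g⁻¹` is a generator of `V`). `M := T ⊓ stabilizer α`, `M₀ := {m ∈ M : m v = v m}`, normal in `M` (`V` cyclic normal), `x ∈ M₀` (`Pc`). `V ⊓ M = ⊥`, so `q ∣ #M` only once: `#(V M) = q #M` divides `#G`, `¬ q ^ 3 ∣ #G` (`S.cf`, `q ∣ #T`), so `¬ q ^ 2 ∣ #M`: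
`zpowers x` is a Sylow `q`-subgroup of `M₀`. Frattini (`Sylow.normalizer_sup_eq_top` for `M₀` in `M`): `z = m₀ g'`, `m₀ ∈ M₀`, `g' ∈ M` normalises `zpowers x`; `g'` does not commute with `v`. `g' x g'⁻¹ = x ^ i`, and `x ^ i x⁻¹ ∈ D` (a commutator of elements of `T`), `x ∉ D` has order `q` modulo `D`, so `x ^ i = x`: `g'` commutes with `x`. `g'` normalises `P = ⟨v, x⟩` (`#P = q ^ 2`, `x ∉ V`), so it commutes with `p` (`nc`), so with `v = x p⁻¹`: contradiction.
`b2b`: `nv` and `T = closure L` give `z ∈ L` which does not commute with `v`; `r = orderOf z` divides `q - 1` (`act_dvd`), `r < q`. `ix x ≤ n (1 - 1 / r)` (`ix_le`), so `fx x ≠ 0` (otherwise `ix x = n (1 - 1 / q)`). `fx z = 0` (`b2a`), `ix z = n (1 - 1 / r)`, `ix x = ix z` (`S.mn` twice): `(n - fx x)(1 - 1 / q) = n (1 - 1 / r)`; multiply by `r q`.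
-/

set_option autoImplicit false

open scoped commutatorElement

noncomputable section

namespace H12.CF

variable {G Ω : Type} [Group G] [Finite G] [MulAction G Ω] [Finite Ω] {L : Set G} {T : Subgroup G}

private theorem pow_mem_D {q : ℕ} (hq : q.Prime) {x : G} (hx : orderOf x = q) {D : Subgroup G}
    (hxD : x ∉ D) {j : ℤ} (hj : x ^ j ∈ D) : x ^ j = 1 := by
  by_contra h1
  apply hxD
  have h2 : ¬ (q : ℤ) ∣ j := by
    intro h3
    apply h1
    rw [← orderOf_dvd_iff_zpow_eq_one, hx]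
    exact h3
  have h3 : Int.gcd j (q : ℤ) = 1 := by
    rw [← Int.isCoprime_iff_gcd_eq_one]
    exact ((Prime.coprime_iff_not_dvd (Nat.prime_iff_prime_int.mp hq)).mpr h2).symm
  have h4 : x = (x ^ j) ^ (Int.gcdA j (q : ℤ)) := by
    have h5 := Int.gcd_eq_gcd_ab j (q : ℤ)
    rw [h3] at h5
    have h6 : x ^ ((q : ℤ) * Int.gcdB j (q : ℤ)) = 1 := by
      rw [zpow_mul, zpow_natCast, ← hx, pow_orderOf_eq_one, one_zpow]
    calc x = x ^ (1 : ℤ) := (zpow_one x).symm
      _ = x ^ (j * Int.gcdA j (q : ℤ) + (q : ℤ) * Int.gcdB j (q : ℤ)) := by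
          rw [← h5]
          norm_num
      _ = (x ^ j) ^ (Int.gcdA j (q : ℤ)) := by
          rw [zpow_add, h6, mul_one, zpow_mul]
  rw [h4]
  exact D.zpow_mem hj _

private theorem com_conj {v : G} (hV : (Subgroup.zpowers v).Normal) (g : G) {y : G}
    (hy : y * v = v * y) : (g * y * g⁻¹) * v = v * (g * y * g⁻¹) := by
  have h1 : g⁻¹ * v * g⁻¹⁻¹ ∈ Subgroup.zpowers v := hV.conj_mem v (Subgroup.mem_zpowers v) g⁻¹
  obtain ⟨k, hk⟩ := Subgroup.mem_zpowers_iff.mp h1
  have h2 : y * v ^ k = v ^ k * y := (Commute.zpow_right (show Commute y v from hy) k).eq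
  rw [hk, inv_inv] at h2
  have h3 : (g * y * g⁻¹) * v = g * (y * (g⁻¹ * v * g)) * g⁻¹ := by group
  have h4 : v * (g * y * g⁻¹) = g * ((g⁻¹ * v * g) * y) * g⁻¹ := by group
  rw [h3, h4, h2]

private theorem disj_st [Nonempty Ω] [FaithfulSMul G Ω] [MulAction.IsPretransitive G Ω] {v : G}
    (hv : (orderOf v).Prime) (hV : (Subgroup.zpowers v).Normal) (α : Ω) {w : G}
    (hw : w ∈ Subgroup.zpowers v) (hwα : w • α = α) : w = 1 := by
  by_contra h1
  have h2 : v ∈ Subgroup.zpowers w := by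
    haveI : Fact (Nat.card (Subgroup.zpowers v)).Prime := ⟨by rw [Nat.card_zpowers]; exact hv⟩
    have h3 : Subgroup.zpowers (⟨w, hw⟩ : Subgroup.zpowers v) = ⊤ :=
      (Subgroup.eq_bot_or_eq_top_of_prime_card _).resolve_left (by
        intro h4
        apply h1
        rw [Subgroup.zpowers_eq_bot] at h4
        exact congrArg Subtype.val h4)
    have h4 : (⟨v, Subgroup.mem_zpowers v⟩ : Subgroup.zpowers v) ∈
        Subgroup.zpowers (⟨w, hw⟩ : Subgroup.zpowers v) := by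
      rw [h3]
      exact Subgroup.mem_top _
    obtain ⟨k, hk⟩ := Subgroup.mem_zpowers_iff.mp h4
    refine Subgroup.mem_zpowers_iff.mpr ⟨k, ?_⟩
    have h5 := congrArg Subtype.val hk
    simpa using h5
  have h3 : v • α = α := by
    have h4 : w ∈ MulAction.stabilizer G α := hwα
    have h5 : Subgroup.zpowers w ≤ MulAction.stabilizer G α := by
      rw [Subgroup.zpowers_le]
      exact h4
    exact h5 h2
  haveI := hV
  have h4 : Subgroup.zpowers v = ⊥ := by
    refine nfix (Subgroup.zpowers v) α fun u hu => ?_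
    have h5 : Subgroup.zpowers v ≤ MulAction.stabilizer G α := by
      rw [Subgroup.zpowers_le]
      exact h3
    exact h5 hu
  rw [Subgroup.zpowers_eq_bot] at h4
  rw [h4, orderOf_one] at hv
  exact Nat.not_prime_one hv

/-- the Sylow subgroups of the centraliser of `v` in the stabiliser -/
private theorem no_sq [Nonempty Ω] [FaithfulSMul G Ω] [MulAction.IsPretransitive G Ω] {v : G}
    (hv : (orderOf v).Prime) (hV : (Subgroup.zpowers v).Normal)
    (hc : ¬ orderOf v ^ 3 ∣ Nat.card G) (α : Ω) (M : Subgroup G)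
    (hM : ∀ m ∈ M, m • α = α) (hMv : ∀ m ∈ M, m * v = v * m) :
    ¬ orderOf v ^ 2 ∣ Nat.card M := by
  intro h1
  apply hc
  have hcomm : ∀ (a : Subgroup.zpowers v) (m : M),
      Commute ((Subgroup.zpowers v).subtype a) (M.subtype m) := by
    intro a m
    obtain ⟨k, hk⟩ := Subgroup.mem_zpowers_iff.mp a.2
    show (a : G) * (m : G) = (m : G) * (a : G)
    rw [← hk]
    exact (Commute.zpow_right (show Commute (m : G) v from hMv m m.2) k).eq.symm
  have hinj : Function.Injective (MonoidHom.noncommCoprod (Subgroup.zpowers v).subtype M.subtype hcomm) := by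
    rw [injective_iff_map_eq_one]
    rintro ⟨a, m⟩ h2
    have h3 : (a : G) * (m : G) = 1 := h2
    have h4 : (a : G) = (m : G)⁻¹ := eq_inv_of_mul_eq_one_left h3
    have h5 : (a : G) = 1 := by
      refine disj_st hv hV α a.2 ?_
      rw [h4, inv_smul_eq_iff]
      exact (hM m m.2).symm
    have h6 : (m : G) = 1 := by
      rw [h5, one_mul] at h3
      exact h3
    exact Prod.ext (Subtype.ext h5) (Subtype.ext h6)
  have h2 := Subgroup.card_dvd_of_injective _ hinj
  rw [Nat.card_prod, Nat.card_zpowers] at h2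
  refine dvd_trans ?_ h2
  rw [pow_succ']
  exact Nat.mul_dvd_mul_left _ h1

private theorem syl_eq {q : ℕ} [Fact q.Prime] {H : Type} [Group H] [Finite H]
    (hn : ¬ q ^ 2 ∣ Nat.card H) (Q : Sylow q H) {y : H} (hy : y ∈ (Q : Subgroup H))
    (hyq : orderOf y = q) : (Q : Subgroup H) = Subgroup.zpowers y := by
  have hqp : q.Prime := Fact.out
  symm
  refine Subgroup.eq_of_le_of_card_ge ?_ ?_
  · rw [Subgroup.zpowers_le]
    exact hy
  · rw [Nat.card_zpowers, hyq]
    obtain ⟨n, hn1⟩ := IsPGroup.iff_card.mp Q.isPGroup'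
    rw [hn1]
    have h1 : n < 2 := by
      by_contra h2
      apply hn
      have h3 : q ^ 2 ∣ q ^ n := pow_dvd_pow q (not_lt.mp h2)
      refine dvd_trans h3 ?_
      rw [← hn1]
      exact Subgroup.card_subgroup_dvd_card _
    have h2 : n ≤ 1 := by omega
    calc q ^ n ≤ q ^ 1 := Nat.pow_le_pow_right hqp.pos h2
      _ = q := pow_one q

private theorem exists_conj {q : ℕ} [Fact q.Prime] (M : Subgroup G) (hn : ¬ q ^ 2 ∣ Nat.card M)
    {x y : G} (hx : x ∈ M) (hy : y ∈ M) (hxq : orderOf x = q) (hyq : orderOf y = q) :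
    ∃ m ∈ M, m * y * m⁻¹ ∈ Subgroup.zpowers x := by
  have hxo : orderOf (⟨x, hx⟩ : M) = q := by
    rw [← hxq]
    exact Subgroup.orderOf_mk x hx
  have hyo : orderOf (⟨y, hy⟩ : M) = q := by
    rw [← hyq]
    exact Subgroup.orderOf_mk y hy
  obtain ⟨P₁, hP₁⟩ := exists_pst hxo
  obtain ⟨P₂, hP₂⟩ := exists_pst hyo
  obtain ⟨m, hm⟩ := MulAction.exists_smul_eq M P₂ P₁
  refine ⟨m, m.2, ?_⟩
  have h1 : m * ⟨y, hy⟩ * m⁻¹ ∈ (P₁ : Subgroup M) := by
    rw [← hm]
    exact Subgroup.smul_mem_pointwise_smul _ _ _ hP₂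
  rw [syl_eq hn P₁ hP₁ hxo] at h1
  obtain ⟨k, hk⟩ := Subgroup.mem_zpowers_iff.mp h1
  refine Subgroup.mem_zpowers_iff.mpr ⟨k, ?_⟩
  have h2 := congrArg Subtype.val hk
  simpa using h2

private theorem P_conj {x v p : G} {P : Subgroup G} (B : Bd L T x v p P)
    (hq : (orderOf x).Prime) {h : G} (hv : h * v * h⁻¹ ∈ Subgroup.zpowers v)
    (hx : h * x * h⁻¹ = x) {y : G} (hy : y ∈ P) : h * y * h⁻¹ ∈ P := by
  have hxP : x ∈ P := by
    rw [B.eq]
    exact P.mul_mem B.vP B.pP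
  have hVP : Subgroup.zpowers v ≤ P := by
    rw [Subgroup.zpowers_le]
    exact B.vP
  have hd : Disjoint (Subgroup.zpowers v) (Subgroup.zpowers x) := by
    rw [Subgroup.disjoint_def]
    intro a ha hb
    obtain ⟨j, hj⟩ := Subgroup.mem_zpowers_iff.mp hb
    have h1 : x ^ j ∈ (⁅T, T⁆ : Subgroup G) := by
      rw [hj]
      have h2 : Subgroup.zpowers v ≤ ⁅T, T⁆ := by
        rw [Subgroup.zpowers_le]
        exact B.vD
      exact h2 ha
    rw [← hj]
    exact pow_mem_D hq rfl B.xD h1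
  have hinj := Subgroup.mul_injective_of_disjoint hd
  let f : Subgroup.zpowers v × Subgroup.zpowers x → P := fun a =>
    ⟨(a.1 : G) * (a.2 : G), P.mul_mem (hVP a.1.2) ((by
      rw [Subgroup.zpowers_le]
      exact hxP : Subgroup.zpowers x ≤ P) a.2.2)⟩
  have hf : Function.Injective f := by
    intro a b hab
    exact hinj (congrArg Subtype.val hab)
  have hs : Function.Surjective f := by
    refine ((Nat.bijective_iff_injective_and_card f).mpr ⟨hf, ?_⟩).2
    rw [Nat.card_prod, Nat.card_zpowers, Nat.card_zpowers, B.vo, B.cP, sq]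
  obtain ⟨a, ha⟩ := hs ⟨y, hy⟩
  have h1 : (a.1 : G) * (a.2 : G) = y := congrArg Subtype.val ha
  obtain ⟨i, hi⟩ := Subgroup.mem_zpowers_iff.mp a.1.2
  obtain ⟨j, hj⟩ := Subgroup.mem_zpowers_iff.mp a.2.2
  rw [← hi, ← hj] at h1
  have h2 : h * y * h⁻¹ = (h * v * h⁻¹) ^ i * (h * x * h⁻¹) ^ j := by
    rw [conj_zpow, conj_zpow, ← h1]
    group
  rw [h2, hx]
  exact P.mul_mem (P.zpow_mem (hVP hv) i) (P.zpow_mem hxP j)

private theorem b2c [Nonempty Ω] [FaithfulSMul G Ω] [MulAction.IsPretransitive G Ω] (S : St Ω L T)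
    {x v p : G} {P : Subgroup G} (B : Bd L T x v p P) (hV : (Subgroup.zpowers v).Normal)
    {α : Ω} (hα : x • α = α) {z : G} (hz : z ∈ T) (hzα : z • α = α) : z * v = v * z := by
  have hq : (orderOf x).Prime := S.pr x B.xL
  haveI : Fact (orderOf x).Prime := ⟨hq⟩
  have hxT : x ∈ T := S.mem B.xL
  have hxP : x ∈ P := by
    rw [B.eq]
    exact P.mul_mem B.vP B.pP
  have hxv : x * v = v * x := B.Pc x hxP v B.vP
  have hvq : (orderOf v).Prime := by
    rw [B.vo]
    exact hq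
  have hc : ¬ orderOf v ^ 3 ∣ Nat.card G := by
    rw [B.vo]
    refine S.cf _ hq ?_
    have h1 : orderOf (⟨x, hxT⟩ : T) ∣ Nat.card T := orderOf_dvd_natCard _
    rwa [Subgroup.orderOf_mk] at h1
  obtain ⟨M, hM⟩ : ∃ M : Subgroup G, M = T ⊓ MulAction.stabilizer G α ⊓ Subgroup.centralizer {v} :=
    ⟨_, rfl⟩
  have hmem : ∀ m : G, m ∈ M ↔ m ∈ T ∧ m • α = α ∧ m * v = v * m := by
    intro m
    rw [hM, Subgroup.mem_inf, Subgroup.mem_inf, MulAction.mem_stabilizer_iff,
      Subgroup.mem_centralizer_singleton_iff]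
    tauto
  have hn : ¬ orderOf x ^ 2 ∣ Nat.card M := by
    have h1 := no_sq hvq hV hc α M (fun m hm => ((hmem m).mp hm).2.1)
      (fun m hm => ((hmem m).mp hm).2.2)
    rwa [B.vo] at h1
  have hxM : x ∈ M := (hmem x).mpr ⟨hxT, hα, hxv⟩
  have hyM : z * x * z⁻¹ ∈ M := by
    refine (hmem _).mpr ⟨T.mul_mem (T.mul_mem hz hxT) (T.inv_mem hz), ?_, com_conj hV z hxv⟩
    have h1 : z⁻¹ • α = α := by
      rw [inv_smul_eq_iff]
      exact hzα.symm
    rw [mul_smul, mul_smul, h1, hα, hzα]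
  have hyo : orderOf (z * x * z⁻¹) = orderOf x := by
    have h1 := orderOf_injective (MulAut.conj z).toMonoidHom (MulAut.conj z).injective x
    exact h1
  obtain ⟨m, hm, hmz⟩ := exists_conj M hn hxM hyM rfl hyo
  obtain ⟨hmT, -, hmv⟩ := (hmem m).mp hm
  obtain ⟨g, hg⟩ : ∃ g : G, g = m * z := ⟨_, rfl⟩
  have hgT : g ∈ T := by
    rw [hg]
    exact T.mul_mem hmT hz
  have hgx : g * x * g⁻¹ = x := by
    have h1 : m * (z * x * z⁻¹) * m⁻¹ = g * x * g⁻¹ := by
      rw [hg]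
      group
    rw [h1] at hmz
    obtain ⟨i, hi⟩ := Subgroup.mem_zpowers_iff.mp hmz
    have h2 : x ^ (i - 1) ∈ (⁅T, T⁆ : Subgroup G) := by
      have h3 : x ^ (i - 1) = ⁅g, x⁆ := by
        rw [zpow_sub_one, hi, commutatorElement_def]
      rw [h3]
      exact Subgroup.commutator_mem_commutator hgT hxT
    have h3 := pow_mem_D hq rfl B.xD h2
    rw [← hi]
    have h4 : i = (i - 1) + 1 := by ring
    rw [h4, zpow_add, h3, one_mul, zpow_one]
  have hgN : g ∈ Subgroup.normalizer (P : Set G) := by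
    rw [Subgroup.mem_normalizer_iff]
    intro y
    constructor
    · intro hy
      exact P_conj B hq (hV.conj_mem v (Subgroup.mem_zpowers v) g) hgx hy
    · intro hy
      have h1 : g⁻¹ * x * g⁻¹⁻¹ = x := by
        rw [inv_inv]
        calc g⁻¹ * x * g = g⁻¹ * (g * x * g⁻¹) * g := by rw [hgx]
          _ = x := by group
      have h2 := P_conj B hq (hV.conj_mem v (Subgroup.mem_zpowers v) g⁻¹) h1 hy
      have h3 : g⁻¹ * (g * y * g⁻¹) * g⁻¹⁻¹ = y := by group
      rw [h3] at h2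
      exact h2
  have hgp : Commute g p := B.nc g hgT hgN
  have hgx2 : Commute g x := by
    show g * x = x * g
    rw [mul_inv_eq_iff_eq_mul] at hgx
    exact hgx
  have hgv : Commute g v := by
    have h1 : v = x * p⁻¹ := by
      rw [B.eq]
      group
    rw [h1]
    exact hgx2.mul_right hgp.inv_right
  have hmv2 : Commute m v := hmv
  have h1 : z = m⁻¹ * g := by
    rw [hg]
    group
  have h2 : Commute z v := by
    rw [h1]
    exact hmv2.inv_left.mul_left hgv
  exact h2.eq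

theorem b2a [Nonempty Ω] [FaithfulSMul G Ω] [MulAction.IsPretransitive G Ω] (S : St Ω L T)
    {x v p : G} {P : Subgroup G} (B : Bd L T x v p P) (hV : (Subgroup.zpowers v).Normal)
    (hfx : fx Ω x ≠ 0) {z : G} (hz : z ∈ T) (hzv : z * v ≠ v * z) : fx Ω z = 0 := by
  by_contra h
  obtain ⟨β, hβ⟩ := fx_ne h
  obtain ⟨α, hα⟩ := fx_ne hfx
  obtain ⟨g, hg⟩ := MulAction.exists_smul_eq G α β
  have hTn := S.nor
  have h1 : g⁻¹ * z * g⁻¹⁻¹ ∈ T := hTn.conj_mem z hz g⁻¹
  have h2 : (g⁻¹ * z * g⁻¹⁻¹) • α = α := by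
    rw [inv_inv, mul_smul, mul_smul, hg, hβ, inv_smul_eq_iff]
    exact hg.symm
  have h3 := b2c S B hV hα h1 h2
  have h4 := com_conj hV g h3
  apply hzv
  have h5 : g * (g⁻¹ * z * g⁻¹⁻¹) * g⁻¹ = z := by group
  rw [h5] at h4
  exact h4

theorem b2b [Nonempty Ω] [FaithfulSMul G Ω] [MulAction.IsPretransitive G Ω] (S : St Ω L T)
    {x v p : G} {P : Subgroup G} (B : Bd L T x v p P) (hV : (Subgroup.zpowers v).Normal) :
    fx Ω x ≠ 0 ∧ ∃ z ∈ L, z * v ≠ v * z ∧ fx Ω z = 0 ∧ orderOf z ∣ orderOf x - 1 ∧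
      orderOf z < orderOf x ∧
      (fx Ω x : ℝ) * (orderOf z * ((orderOf x : ℝ) - 1)) =
        (Nat.card Ω : ℝ) * ((orderOf x : ℝ) - orderOf z) := by
  have hq : (orderOf x).Prime := S.pr x B.xL
  have hvq : (orderOf v).Prime := by
    rw [B.vo]
    exact hq
  obtain ⟨z, hzL, hzv⟩ : ∃ z ∈ L, z * v ≠ v * z := by
    by_contra hc
    push Not at hc
    obtain ⟨h, hT, -, hne⟩ := B.nv
    apply hne
    have h1 : T ≤ Subgroup.centralizer {v} := by
      rw [S.gen, Subgroup.closure_le]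
      intro y hy
      show y ∈ Subgroup.centralizer {v}
      rw [Subgroup.mem_centralizer_singleton_iff]
      exact hc y hy
    have h2 := h1 hT
    rw [Subgroup.mem_centralizer_singleton_iff] at h2
    exact h2
  have hr : (orderOf z).Prime := S.pr z hzL
  have hdvd : orderOf z ∣ orderOf x - 1 := by
    have h1 := act_dvd hvq hV hr hzv
    rwa [B.vo] at h1
  have hlt : orderOf z < orderOf x := by
    have h1 := hq.two_le
    have h2 := Nat.le_of_dvd (by omega) hdvd
    omega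
  have hn : (0 : ℝ) < (Nat.card Ω : ℝ) := by
    exact_mod_cast Nat.card_pos
  have hqR : (0 : ℝ) < (orderOf x : ℝ) := by
    exact_mod_cast hq.pos
  have hrR : (0 : ℝ) < (orderOf z : ℝ) := by
    exact_mod_cast hr.pos
  have hltR : (orderOf z : ℝ) < (orderOf x : ℝ) := by
    exact_mod_cast hlt
  have hfx : fx Ω x ≠ 0 := by
    intro h0
    have h1 := ix_le S B.xL hr
    unfold ix at h1
    rw [h0, Nat.cast_zero, sub_zero] at h1
    have h2 := le_of_mul_le_mul_left h1 hn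
    have h3 : 1 / (orderOf x : ℝ) < 1 / (orderOf z : ℝ) := one_div_lt_one_div_of_lt hrR hltR
    linarith
  have hfz : fx Ω z = 0 := b2a S B hV hfx (S.mem hzL) hzv
  refine ⟨hfx, z, hzL, hzv, hfz, hdvd, hlt, ?_⟩
  have h1 : ix Ω x = ix Ω z := le_antisymm (S.mn x B.xL z hr) (S.mn z hzL x hq)
  unfold ix at h1
  rw [hfz, Nat.cast_zero, sub_zero] at h1
  field_simp at h1
  linarith

end H12.CF
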