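import Pool.Agent.H12.CF.Mma
import Pool.Agent.H12.CF.Ab
import Pool.Agent.H12.CF.Cyc

/-!
# [H12 CF MM] an element acting nontrivially on a small normal subgroup has few fixed points, 180-260 lines

`n = #Ω`. If `fx s = 0` nothing is to show. `X ≠ ⊥`, `X` is commutative (`dich`; cyclic or of order `t ^ 2`). Call a fixed point `α` of `s` bad if `x⁻¹ (s x s⁻¹) ∈ st X α` for all `x ∈ X`.
CASE 1: no fixed point of `s` is bad: `mma`, `orb` with `c = #X / (q + 1)`: `(q + 1) fx s ≤ n` (from `#X fx s ≤ c n`, `(q + 1) c ≤ #X`).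
CASE 2: `α₀` is bad. `E₂ := st X α₀` contains the commutators `x⁻¹ (s x s⁻¹)`, not all `1` (`hsX`), so `E₂ ≠ ⊥`; `E₂ ≠ X`: otherwise all `st X β = X` (conjugates), contradiction to `hf`, `X ≠ ⊥`. `X` is not cyclic (`cyc_sub`: `E₂` would be normal in `G`, all `st X β = E₂` (`st_smul`), contradiction to `hf`), so `#X = t ^ 2`, exponent `t`, `#E₂ = t`, all `st X β` have order `t`.
`E₁ := {x ∈ X : s x = x s}`, order `t` (the map `x ↦ x⁻¹ (s x s⁻¹)` is an endomorphism of `X` with kernel `E₁` and image in `E₂`, nonzero, so the image is `E₂`, `#E₁ = t`). `E₁ ≠ E₂`: otherwise `s` acts trivially on `E₂` and on `X / E₂`, so `s ^ t` centralises `X` and `s ^ q = 1`, `s` centralises `X`, contradiction.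
(a) if `E = st X β` is normalised by `s` then `E = E₁` or `E = E₂`: if `E ≠ E₂` take `x ∈ E`: `x⁻¹ (s x s⁻¹) ∈ E ⊓ E₂ = ⊥`. (b) a fixed point `α` of `s` has `st X α` normalised by `s`. Let `m := #{β | st X β = E₂}` (all classes have this size, `cls`).
(c) `(q + 1) m ≤ n`: there is `β` with `E₃ := st X β ≠ E₁, E₂`: otherwise take `g` with `g E₂ g⁻¹ ≠ E₂` (exists: otherwise `E₂` is normal), so `g E₂ g⁻¹ = E₁`, and `g E₁ g⁻¹ = E₂` (it is a stabiliser, `E₁` occurs). `s' := g s g⁻¹` centralises `E₂`, and `x⁻¹ (s' x s'⁻¹) ∈ E₁` for `x ∈ X`. In the group `G ⧸ C`, `C` the centraliser of `X`: the images of `s, s'` commute (check on `E₁` and `E₂`, which generate `X`) and generate a group of order `q ^ 2`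
(`s ^ i s' ^ j ∈ C` implies `q ∣ i`, `q ∣ j`: restrict to `E₂`, `E₁`), so `q ^ 2 ∣ C.index ∣ Z.index`: contradiction to `hZ`. The `q` subgroups `s ^ i E₃ s ^ (- i)`, `0 ≤ i < q`, are stabilisers, different (`q` prime, `E₃` not normalised by `s` by (a)) and different from `E₂` (normalised by `s`).
(d) `fx s ≤ m + m / (q + 1)`: the fixed points with `st X α = E₂` are at most `m`; those with `st X α = E₁` are not bad (`E₁ ≠ E₂` and the commutators fill `E₂`): by `mma` and the argument of `orb` restricted to the `X`-stable set `{β | st X β = E₁}` (empty or of size `m`): `(q + 1) · (number) ≤ m`.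
So `(q + 1) ^ 2 fx s ≤ n (q + 2)`, and `(q + 2)(q - 1) < (q + 1) ^ 2`; `n > 0`.
-/

set_option autoImplicit false

namespace H12.CF

variable {G Ω : Type} [Group G] [Finite G] [MulAction G Ω] [Finite Ω]

/-- two commuting automorphisms of order `q` -/
private theorem mm_sq (X : Subgroup G) [X.Normal] {q : ℕ} (hq : q.Prime) (E₁ E₂ : Subgroup G)
    (hE : ∀ f : MulAut X, (∀ x : X, (x : G) ∈ E₁ → f x = x) → (∀ x : X, (x : G) ∈ E₂ → f x = x) → f = 1)
    (s s' : G) (hs : s ^ q = 1) (hs' : s' ^ q = 1) (h1 : ∀ x ∈ E₁, s * x * s⁻¹ = x)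
    (h2 : ∀ x ∈ E₂, s * x * s⁻¹ ∈ E₂) (h1' : ∀ x ∈ E₂, s' * x * s'⁻¹ = x)
    (h2' : ∀ x ∈ E₁, s' * x * s'⁻¹ ∈ E₁) (hn : ∃ x ∈ X, s * x * s⁻¹ ≠ x) (hn' : ∃ x ∈ X, s' * x * s'⁻¹ ≠ x) :
    q ^ 2 ∣ Nat.card (MulAut.conjNormal (H := X) : G →* MulAut X).range := by
  obtain ⟨c, hc⟩ : ∃ c : G →* MulAut X, c = MulAut.conjNormal (H := X) := ⟨_, rfl⟩
  rw [← hc]
  have hcx : ∀ (g : G) (x : X), ((c g x : X) : G) = g * x * g⁻¹ := by
    intro g x
    rw [hc, MulAut.conjNormal_apply]
  have ha1 : ∀ x : X, (x : G) ∈ E₁ → c s x = x := fun x hx => Subtype.ext (by rw [hcx, h1 x hx])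
  have hb1 : ∀ x : X, (x : G) ∈ E₂ → c s' x = x := fun x hx => Subtype.ext (by rw [hcx, h1' x hx])
  have ha2 : ∀ x : X, (x : G) ∈ E₂ → ((c s x : X) : G) ∈ E₂ := fun x hx => by
    rw [hcx]
    exact h2 x hx
  have hb2 : ∀ x : X, (x : G) ∈ E₁ → ((c s' x : X) : G) ∈ E₁ := fun x hx => by
    rw [hcx]
    exact h2' x hx
  have hab : c s * c s' = c s' * c s := by
    have h3 : (c s' * c s)⁻¹ * (c s * c s') = 1 := by
      refine hE _ ?_ ?_
      · intro x hx
        have h4 : (c s * c s') x = (c s' * c s) x := by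
          rw [MulAut.mul_apply, MulAut.mul_apply, ha1 x hx, ha1 _ (hb2 x hx)]
        rw [MulAut.mul_apply, h4, MulAut.inv_apply_self]
      · intro x hx
        have h4 : (c s * c s') x = (c s' * c s) x := by
          rw [MulAut.mul_apply, MulAut.mul_apply, hb1 x hx, hb1 _ (ha2 x hx)]
        rw [MulAut.mul_apply, h4, MulAut.inv_apply_self]
    exact (inv_mul_eq_one.1 h3).symm
  let F : Subgroup G → Subgroup (MulAut X) := fun E =>
    { carrier := {f | ∀ x : X, (x : G) ∈ E → f x = x}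
      one_mem' := fun x _ => rfl
      mul_mem' := by
        intro f g hf hg x hx
        rw [MulAut.mul_apply, hg x hx, hf x hx]
      inv_mem' := by
        intro f hf x hx
        have h3 := hf x hx
        calc f⁻¹ x = f⁻¹ (f x) := by rw [h3]
          _ = x := MulAut.inv_apply_self _ f x }
  have hFa : Subgroup.zpowers (c s) ≤ F E₁ := by
    rw [Subgroup.zpowers_le]
    exact ha1
  have hFb : Subgroup.zpowers (c s') ≤ F E₂ := by
    rw [Subgroup.zpowers_le]
    exact hb1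
  have hdis : Disjoint (Subgroup.zpowers (c s)) (Subgroup.zpowers (c s')) := by
    rw [disjoint_iff, eq_bot_iff]
    intro f hf
    rw [Subgroup.mem_inf] at hf
    rw [Subgroup.mem_bot]
    exact hE f (hFa hf.1) (hFb hf.2)
  have hoa : orderOf (c s) = q := by
    have : Fact q.Prime := ⟨hq⟩
    refine orderOf_eq_prime (by rw [← map_pow, hs, map_one]) ?_
    intro h3
    obtain ⟨x, hx, hx'⟩ := hn
    apply hx'
    have h4 := hcx s ⟨x, hx⟩
    rw [h3] at h4
    exact h4.symm
  have hob : orderOf (c s') = q := by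
    have : Fact q.Prime := ⟨hq⟩
    refine orderOf_eq_prime (by rw [← map_pow, hs', map_one]) ?_
    intro h3
    obtain ⟨x, hx, hx'⟩ := hn'
    apply hx'
    have h4 := hcx s' ⟨x, hx⟩
    rw [h3] at h4
    exact h4.symm
  have hcom : ∀ (m : Subgroup.zpowers (c s)) (n : Subgroup.zpowers (c s')),
      Commute ((Subgroup.zpowers (c s)).subtype m) ((Subgroup.zpowers (c s')).subtype n) := by
    rintro ⟨m, i, rfl⟩ ⟨n, j, rfl⟩
    exact Commute.zpow_zpow hab i j
  obtain ⟨φ, hφ⟩ : ∃ φ : Subgroup.zpowers (c s) × Subgroup.zpowers (c s') →* MulAut X,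
    φ = MonoidHom.noncommCoprod _ _ hcom := ⟨_, rfl⟩
  have hinj : Function.Injective φ := by
    rw [hφ, MonoidHom.noncommCoprod_injective]
    refine ⟨Subtype.val_injective, Subtype.val_injective, ?_⟩
    rw [Subgroup.range_subtype, Subgroup.range_subtype]
    exact hdis
  have hcard : Nat.card φ.range = q ^ 2 := by
    rw [← Nat.card_congr (MonoidHom.ofInjective hinj).toEquiv, Nat.card_prod, Nat.card_zpowers, Nat.card_zpowers,
      hoa, hob, sq]
  have hle : φ.range ≤ c.range := by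
    rintro _ ⟨⟨⟨m, i, rfl⟩, ⟨n, j, rfl⟩⟩, rfl⟩
    rw [hφ, MonoidHom.noncommCoprod_apply]
    refine ⟨s ^ i * s' ^ j, ?_⟩
    rw [map_mul, map_zpow, map_zpow]
    rfl
  rw [← hcard]
  exact Subgroup.card_dvd_of_le hle

/-- two different subgroups of order `t` generate a group of order `t ^ 2` -/
private theorem mm_gen (X : Subgroup G) {t : ℕ} (ht : t.Prime) (hX : Nat.card X = t ^ 2) (E₁ E₂ : Subgroup G)
    (hE₁ : E₁ ≤ X) (hE₂ : E₂ ≤ X) (h1 : Nat.card E₁ = t) (h2 : Nat.card E₂ = t) (hne : E₁ ≠ E₂)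
    (f : MulAut X) (hf1 : ∀ x : X, (x : G) ∈ E₁ → f x = x) (hf2 : ∀ x : X, (x : G) ∈ E₂ → f x = x) : f = 1 := by
  obtain ⟨K, hK⟩ : ∃ K : Subgroup X, ∀ x, x ∈ K ↔ f x = x :=
    ⟨MonoidHom.eqLocus f.toMonoidHom (MonoidHom.id X), fun x => Iff.rfl⟩
  have hK1 : E₁.subgroupOf X ≤ K := by
    intro x hx
    rw [hK]
    exact hf1 x (Subgroup.mem_subgroupOf.1 hx)
  have hK2 : E₂.subgroupOf X ≤ K := by
    intro x hx
    rw [hK]
    exact hf2 x (Subgroup.mem_subgroupOf.1 hx)
  have hc1 : Nat.card (E₁.subgroupOf X) = t := by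
    rw [Nat.card_congr (Subgroup.subgroupOfEquivOfLe hE₁).toEquiv, h1]
  have hc2 : Nat.card (E₂.subgroupOf X) = t := by
    rw [Nat.card_congr (Subgroup.subgroupOfEquivOfLe hE₂).toEquiv, h2]
  have hdv : Nat.card K ∣ t ^ 2 := by
    rw [← hX]
    exact Subgroup.card_subgroup_dvd_card K
  obtain ⟨k, hk, hkk⟩ := (Nat.dvd_prime_pow ht).1 hdv
  have hk2 : k = 2 := by
    by_contra h3
    have h4 : k ≤ 1 := by omega
    have h5 : Nat.card K ≤ t := by
      rw [hkk]
      calc t ^ k ≤ t ^ 1 := Nat.pow_le_pow_right ht.pos h4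
        _ = t := pow_one t
    have h6 := Subgroup.eq_of_le_of_card_ge hK1 (h5.trans hc1.ge)
    have h7 := Subgroup.eq_of_le_of_card_ge hK2 (h5.trans hc2.ge)
    apply hne
    have h8 : E₁.subgroupOf X = E₂.subgroupOf X := h6.trans h7.symm
    rw [Subgroup.subgroupOf_inj, inf_eq_left.2 hE₁, inf_eq_left.2 hE₂] at h8
    exact h8
  have hT : K = ⊤ := Subgroup.eq_top_of_card_eq K (by rw [hkk, hk2, hX])
  ext x
  have h3 : x ∈ K := by
    rw [hT]
    exact Subgroup.mem_top x
  rw [hK] at h3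
  rw [h3]
  rfl

/-- two different subgroups of order `t` -/
private theorem mm_dis {t : ℕ} (ht : t.Prime) (A B : Subgroup G) (hA : Nat.card A = t) (hB : Nat.card B = t)
    (hne : A ≠ B) {x : G} (h1 : x ∈ A) (h2 : x ∈ B) : x = 1 := by
  have h3 : Nat.card (A ⊓ B : Subgroup G) ∣ t := by
    rw [← hA]
    exact Subgroup.card_dvd_of_le inf_le_left
  rcases (Nat.dvd_prime ht).1 h3 with h4 | h4
  · have h5 : (A ⊓ B : Subgroup G) = ⊥ := Subgroup.card_eq_one.1 h4
    have h6 : x ∈ (A ⊓ B : Subgroup G) := Subgroup.mem_inf.2 ⟨h1, h2⟩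
    rw [h5, Subgroup.mem_bot] at h6
    exact h6
  · exfalso
    apply hne
    have h5 : A ⊓ B = A := Subgroup.eq_of_le_of_card_ge inf_le_left (by rw [h4, hA])
    have h6 : A ⊓ B = B := Subgroup.eq_of_le_of_card_ge inf_le_right (by rw [h4, hB])
    rw [← h5, h6]

/-- the commutators with `s` -/
private theorem mm_e1 (X : Subgroup G) [X.Normal] (hab : ∀ x ∈ X, ∀ y ∈ X, x * y = y * x) {t : ℕ} (ht : t.Prime)
    (hX : Nat.card X = t ^ 2) (E₂ : Subgroup G) (h2 : Nat.card E₂ = t) (s : G)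
    (hc : ∀ x ∈ X, x⁻¹ * (s * x * s⁻¹) ∈ E₂) (hn : ∃ x ∈ X, s * x ≠ x * s) :
    Nat.card (X ⊓ Subgroup.centralizer {s} : Subgroup G) = t ∧ ∀ y ∈ E₂, ∃ x ∈ X, x⁻¹ * (s * x * s⁻¹) = y := by
  have hmem : ∀ x ∈ X, s * x * s⁻¹ ∈ X := fun x hx => (inferInstance : X.Normal).conj_mem _ hx s
  let φ : X →* E₂ :=
    { toFun := fun x => ⟨(x : G)⁻¹ * (s * x * s⁻¹), hc x x.2⟩
      map_one' := by
        apply Subtype.ext
        show ((1 : X) : G)⁻¹ * (s * ((1 : X) : G) * s⁻¹) = 1
        rw [Subgroup.coe_one]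
        group
      map_mul' := by
        intro x y
        apply Subtype.ext
        show ((x * y : X) : G)⁻¹ * (s * ((x * y : X) : G) * s⁻¹) =
          ((x : G)⁻¹ * (s * x * s⁻¹)) * ((y : G)⁻¹ * (s * y * s⁻¹))
        rw [Subgroup.coe_mul]
        have h3 : (y : G)⁻¹ * ((x : G)⁻¹ * (s * x * s⁻¹)) = ((x : G)⁻¹ * (s * x * s⁻¹)) * (y : G)⁻¹ :=
          hab _ (X.inv_mem y.2) _ (X.mul_mem (X.inv_mem x.2) (hmem x x.2))
        calc ((x : G) * y)⁻¹ * (s * (x * y) * s⁻¹) =
            ((y : G)⁻¹ * ((x : G)⁻¹ * (s * x * s⁻¹))) * (s * y * s⁻¹) := by group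
          _ = _ := by rw [h3, mul_assoc] }
  have hφ : ∀ x : X, ((φ x : E₂) : G) = (x : G)⁻¹ * (s * x * s⁻¹) := fun x => rfl
  have hrange : φ.range = ⊤ := by
    have h3 : Nat.card φ.range ∣ t := by
      rw [← h2]
      exact Subgroup.card_subgroup_dvd_card _
    rcases (Nat.dvd_prime ht).1 h3 with h4 | h4
    · exfalso
      obtain ⟨x, hx, hx'⟩ := hn
      apply hx'
      have h5 : φ.range = ⊥ := Subgroup.card_eq_one.1 h4
      have h6 : φ ⟨x, hx⟩ ∈ φ.range := ⟨_, rfl⟩
      rw [h5, Subgroup.mem_bot] at h6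
      have h7 := hφ ⟨x, hx⟩
      rw [h6] at h7
      have h8 : s * x * s⁻¹ = x := (inv_mul_eq_one.1 h7.symm).symm
      rw [mul_inv_eq_iff_eq_mul] at h8
      exact h8
    · exact Subgroup.eq_top_of_card_eq _ (by rw [h4, h2])
  have hker : Nat.card φ.ker = t := by
    have h3 := Subgroup.card_mul_index φ.ker
    rw [Subgroup.index_ker, hrange, Subgroup.card_top, h2, hX, sq] at h3
    exact Nat.eq_of_mul_eq_mul_right ht.pos h3
  refine ⟨?_, ?_⟩
  · rw [← hker]
    refine Nat.card_congr ⟨fun x => ⟨⟨x.1, (Subgroup.mem_inf.1 x.2).1⟩, ?_⟩, fun x => ⟨x.1.1, ?_⟩, fun x => rfl,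
      fun x => rfl⟩
    · rw [MonoidHom.mem_ker]
      apply Subtype.ext
      rw [hφ]
      have h3 := (Subgroup.mem_centralizer_singleton_iff.1 (Subgroup.mem_inf.1 x.2).2)
      show (x.1 : G)⁻¹ * (s * x.1 * s⁻¹) = 1
      rw [← h3]
      group
    · refine Subgroup.mem_inf.2 ⟨x.1.2, Subgroup.mem_centralizer_singleton_iff.2 ?_⟩
      have h3 := x.2
      rw [MonoidHom.mem_ker] at h3
      have h4 := hφ x.1
      rw [h3] at h4
      have h5 : s * x.1.1 * s⁻¹ = x.1.1 := (inv_mul_eq_one.1 h4.symm).symm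
      rw [mul_inv_eq_iff_eq_mul] at h5
      exact h5.symm
  · intro y hy
    have h3 : (⟨y, hy⟩ : E₂) ∈ φ.range := by
      rw [hrange]
      exact Subgroup.mem_top _
    obtain ⟨x, hx⟩ := h3
    refine ⟨x, x.2, ?_⟩
    rw [← hφ, hx]

/-- `orb` on a stable part -/
private theorem mm_orb (W : Subgroup G) (s : G) (P : Ω → Prop) (hP : ∀ w ∈ W, ∀ α, P α → P (w • α)) (c : ℕ)
    (h : ∀ α : Ω, s • α = α → P α → Nat.card {w : W // s • ((w : G) • α) = (w : G) • α} ≤ c) :
    Nat.card W * Nat.card {α : Ω // s • α = α ∧ P α} ≤ c * Nat.card {α : Ω // P α} := by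
  classical
  have hΩ : Fintype Ω := Fintype.ofFinite Ω
  have hG : Fintype G := Fintype.ofFinite G
  let f : W × {α : Ω // s • α = α ∧ P α} → {α : Ω // P α} := fun p =>
    ⟨(p.1 : G) • (p.2 : Ω), hP p.1 p.1.2 _ p.2.2.2⟩
  have h1 := Finset.card_le_mul_card_image (f := f) Finset.univ c (by
    intro β hβ
    obtain ⟨⟨w₀, α₀⟩, -, rfl⟩ := Finset.mem_image.1 hβ
    refine le_trans ?_ (h α₀ α₀.2.1 α₀.2.2)
    rw [Nat.card_eq_fintype_card, ← Finset.card_univ]
    have hkey : ∀ p ∈ Finset.univ.filter (fun x : W × {α : Ω // s • α = α ∧ P α} => f x = f (w₀, α₀)),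
        ((p.1⁻¹ * w₀ : W) : G) • (α₀ : Ω) = (p.2 : Ω) := by
      intro p hp
      have h2 : (p.1 : G) • (p.2 : Ω) = (w₀ : G) • (α₀ : Ω) :=
        congrArg Subtype.val (Finset.mem_filter.1 hp).2
      rw [Subgroup.coe_mul, Subgroup.coe_inv, mul_smul, ← h2, inv_smul_smul]
    refine Finset.card_le_card_of_injOn
      (fun p => if hp : s • (((p.1⁻¹ * w₀ : W) : G) • (α₀ : Ω)) = ((p.1⁻¹ * w₀ : W) : G) • (α₀ : Ω)
        then ⟨p.1⁻¹ * w₀, hp⟩ else ⟨1, by
          rw [Subgroup.coe_one, one_smul]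
          exact α₀.2.1⟩) (fun p _ => Finset.mem_univ _) ?_
    intro p hp p' hp' hpp
    have h3 := hkey p hp
    have h4 := hkey p' hp'
    have h5 : s • (((p.1⁻¹ * w₀ : W) : G) • (α₀ : Ω)) = ((p.1⁻¹ * w₀ : W) : G) • (α₀ : Ω) := by
      rw [h3]
      exact p.2.2.1
    have h6 : s • (((p'.1⁻¹ * w₀ : W) : G) • (α₀ : Ω)) = ((p'.1⁻¹ * w₀ : W) : G) • (α₀ : Ω) := by
      rw [h4]
      exact p'.2.2.1
    simp only at hpp
    rw [dif_pos h5, dif_pos h6] at hpp
    have h7 : p.1⁻¹ * w₀ = p'.1⁻¹ * w₀ := congrArg Subtype.val hpp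
    have h8 : p.1 = p'.1 := inv_injective (mul_right_cancel h7)
    refine Prod.ext h8 (Subtype.ext ?_)
    rw [← h3, ← h4, h7])
  rw [Finset.card_univ, Fintype.card_prod] at h1
  rw [Nat.card_eq_fintype_card, Nat.card_eq_fintype_card, Nat.card_eq_fintype_card]
  refine h1.trans (Nat.mul_le_mul_left _ ?_)
  exact Finset.card_le_univ _

/-- a normal stabiliser is trivial -/
private theorem mm_nor [MulAction.IsPretransitive G Ω] (X : Subgroup G) [X.Normal]
    (hf : ∀ x ∈ X, (∀ α : Ω, x • α = α) → x = 1) (α : Ω)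
    (hn : ∀ g : G, ∀ w ∈ st X α, g * w * g⁻¹ ∈ st X α) : ∀ w ∈ st X α, w = 1 := by
  intro w hw
  refine hf w (Subgroup.mem_inf.1 hw).1 fun β => ?_
  obtain ⟨g, rfl⟩ := MulAction.exists_smul_eq G α β
  have h1 : w ∈ st X (g • α) := by
    rw [st_smul]
    have h2 := hn g⁻¹ w hw
    rw [inv_inv] at h2
    exact h2
  exact (Subgroup.mem_inf.1 h1).2

/-- the stabiliser of `g • α` -/
private theorem mm_conj (X : Subgroup G) [X.Normal] (g : G) (α : Ω) :
    st X (g • α) = st X α ↔ g ∈ Subgroup.normalizer (st X α : Set G) := by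
  rw [Subgroup.mem_normalizer_iff]
  constructor
  · intro h w
    have h1 : g⁻¹ * (g * w * g⁻¹) * g = w := by group
    have h2 := st_smul X g (g * w * g⁻¹) α
    rw [h1, h] at h2
    exact h2.symm
  · intro h
    ext w
    rw [st_smul, h]
    have h1 : g * (g⁻¹ * w * g) * g⁻¹ = w := by group
    rw [h1]

/-- counting points by their stabilisers -/
private theorem mm_cnt [MulAction.IsPretransitive G Ω] (X : Subgroup G) [X.Normal] (α₀ : Ω) (q : ℕ)
    (p : Fin q → Ω) (hp : Function.Injective fun i => st X (p i)) (hp0 : ∀ i, st X (p i) ≠ st X α₀) :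
    (q + 1) * Nat.card {β : Ω // st X β = st X α₀} ≤ Nat.card Ω := by
  classical
  have hΩ : Fintype Ω := Fintype.ofFinite Ω
  obtain ⟨m, hm⟩ : ∃ m, m = Nat.card {β : Ω // st X β = st X α₀} := ⟨_, rfl⟩
  rw [← hm]
  let r : Option (Fin q) → Ω := fun i => i.elim α₀ p
  have hr : Function.Injective fun i => st X (r i) := by
    intro i j hij
    cases i with
    | none =>
      cases j with
      | none => rfl
      | some j => exact absurd hij.symm (hp0 j)
    | some i =>
      cases j with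
      | none => exact absurd hij (hp0 i)
      | some j => exact congrArg some (hp hij)
  have h1 : Nat.card (Σ i : Option (Fin q), {β : Ω // st X β = st X (r i)}) ≤ Nat.card Ω := by
    refine Nat.card_le_card_of_injective (fun x => (x.2 : Ω)) ?_
    rintro ⟨i, β, hβ⟩ ⟨j, γ, hγ⟩ h
    have h2 : β = γ := h
    subst h2
    have h3 : i = j := hr (hβ.symm.trans hγ)
    subst h3
    rfl
  rw [Nat.card_sigma] at h1
  have h2 : ∀ i : Option (Fin q), Nat.card {β : Ω // st X β = st X (r i)} = m := by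
    intro i
    rw [hm]
    exact cls X (r i) α₀
  rw [Finset.sum_congr rfl fun i _ => h2 i, Finset.sum_const, Finset.card_univ, Fintype.card_option,
    Fintype.card_fin, smul_eq_mul] at h1
  exact h1

theorem mm [Nonempty Ω] [MulAction.IsPretransitive G Ω] {q t : ℕ} (hq : q.Prime) (ht : t.Prime)
    (hqt : q ≠ t) (X : Subgroup G) [X.Normal] (hX : IsPGroup t X) (hc : ¬ t ^ 3 ∣ Nat.card G)
    (hf : ∀ x ∈ X, (∀ α : Ω, x • α = α) → x = 1) {s : G} (hs : orderOf s = q)
    (hsX : ∃ x ∈ X, s * x ≠ x * s)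
    (hZ : ∃ Z : Subgroup G, (∀ z ∈ Z, ∀ x ∈ X, z * x = x * z) ∧ ¬ q ^ 2 ∣ Z.index) :
    fx Ω s * (q - 1) < Nat.card Ω := by
  have hn0 : 0 < Nat.card Ω := Nat.card_pos
  have hq2 : 2 ≤ q := hq.two_le
  have hsq : s ^ q = 1 := by
    rw [← hs]
    exact pow_orderOf_eq_one s
  have hab : ∀ x ∈ X, ∀ y ∈ X, x * y = y * x := by
    rcases dich ht hc X hX with h | h
    · intro x hx y hy
      obtain ⟨g, hg⟩ := IsCyclic.exists_generator (α := X)
      obtain ⟨i, hi⟩ := hg ⟨x, hx⟩
      obtain ⟨j, hj⟩ := hg ⟨y, hy⟩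
      have h1 : (⟨x, hx⟩ : X) * ⟨y, hy⟩ = ⟨y, hy⟩ * ⟨x, hx⟩ := by
        rw [← hi, ← hj]
        exact (Commute.refl g).zpow_zpow i j
      exact congrArg Subtype.val h1
    · exact h.2.2
  by_cases hcase : ∀ α : Ω, s • α = α → ∃ x ∈ X, x⁻¹ * (s * x * s⁻¹) ∉ st X α
  · have h1 : ∀ α : Ω, s • α = α →
        Nat.card {w : X // s • ((w : G) • α) = (w : G) • α} ≤ Nat.card X / (q + 1) := by
      intro α hα
      rw [Nat.le_div_iff_mul_le (by omega), mul_comm]
      exact mma X hab ht hX hq hqt hsq α hα (hcase α hα)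
    have h2 := orb X s _ h1
    have h3 : Nat.card X * ((q + 1) * fx Ω s) ≤ Nat.card X * Nat.card Ω := by
      calc Nat.card X * ((q + 1) * fx Ω s) = (q + 1) * (Nat.card X * fx Ω s) := by ring
        _ ≤ (q + 1) * (Nat.card X / (q + 1) * Nat.card Ω) := Nat.mul_le_mul_left _ h2
        _ = (q + 1) * (Nat.card X / (q + 1)) * Nat.card Ω := by ring
        _ ≤ Nat.card X * Nat.card Ω := Nat.mul_le_mul_right _ (Nat.mul_div_le _ _)
    have h4 := Nat.le_of_mul_le_mul_left h3 Nat.card_pos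
    obtain ⟨r, rfl⟩ : ∃ r, q = r + 1 := ⟨q - 1, by omega⟩
    rw [Nat.add_sub_cancel]
    nlinarith
  · push Not at hcase
    obtain ⟨α₀, hα₀, hbad⟩ := hcase
    obtain ⟨E₂, hE₂⟩ : ∃ E₂, E₂ = st X α₀ := ⟨_, rfl⟩
    rw [← hE₂] at hbad
    have hE₂X : E₂ ≤ X := by
      rw [hE₂]
      exact inf_le_left
    have hsX' : ∃ x ∈ X, s * x * s⁻¹ ≠ x := by
      obtain ⟨x, hx, hx'⟩ := hsX
      refine ⟨x, hx, fun h => hx' ?_⟩
      rw [mul_inv_eq_iff_eq_mul] at h
      exact h
    have hne : ∃ w ∈ E₂, w ≠ 1 := by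
      obtain ⟨x, hx, hx'⟩ := hsX'
      exact ⟨_, hbad x hx, fun h => hx' (inv_mul_eq_one.1 h).symm⟩
    have hnn : ¬ ∀ g : G, ∀ w ∈ E₂, g * w * g⁻¹ ∈ E₂ := by
      intro h
      obtain ⟨w, hw, hw'⟩ := hne
      rw [hE₂] at h hw
      exact hw' (mm_nor X hf α₀ h w hw)
    have hnc : ¬ IsCyclic X := by
      intro h
      have h1 := cyc_sub X E₂ hE₂X
      exact hnn fun g w hw => h1.conj_mem w hw g
    obtain ⟨hXc, hexp, -⟩ := (dich ht hc X hX).resolve_left hnc
    have hE₂c : Nat.card E₂ = t := by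
      have h1 : Nat.card E₂ ∣ t ^ 2 := by
        rw [← hXc]
        exact Subgroup.card_dvd_of_le hE₂X
      obtain ⟨k, hk, hkk⟩ := (Nat.dvd_prime_pow ht).1 h1
      have hk0 : k ≠ 0 := by
        intro h
        rw [h, pow_zero] at hkk
        obtain ⟨w, hw, hw'⟩ := hne
        rw [Subgroup.card_eq_one.1 hkk, Subgroup.mem_bot] at hw
        exact hw' hw
      have hk2 : k ≠ 2 := by
        intro h
        have h2 : E₂ = X := Subgroup.eq_of_le_of_card_ge hE₂X (by rw [hkk, h, hXc])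
        apply hnn
        rw [h2]
        exact fun g w hw => (inferInstance : X.Normal).conj_mem w hw g
      have hk1 : k = 1 := by omega
      rw [hkk, hk1, pow_one]
    have hst : ∀ β : Ω, Nat.card (st X β) = t := by
      intro β
      rw [st_card X β α₀, ← hE₂, hE₂c]
    obtain ⟨hE₁c, hsur⟩ := mm_e1 X hab ht hXc E₂ hE₂c s hbad hsX
    obtain ⟨E₁, hE₁⟩ : ∃ E₁, E₁ = (X ⊓ Subgroup.centralizer {s} : Subgroup G) := ⟨_, rfl⟩
    rw [← hE₁] at hE₁c
    have hm1 : ∀ x, x ∈ E₁ ↔ x ∈ X ∧ s * x * s⁻¹ = x := by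
      intro x
      rw [hE₁, Subgroup.mem_inf, Subgroup.mem_centralizer_singleton_iff, mul_inv_eq_iff_eq_mul]
      exact and_congr_right fun _ => eq_comm
    have hE₁X : E₁ ≤ X := fun x hx => ((hm1 x).1 hx).1
    have hne12 : E₁ ≠ E₂ := by
      intro h
      obtain ⟨x, hx, hx'⟩ := hsX'
      obtain ⟨d, hd⟩ : ∃ d, d = x⁻¹ * (s * x * s⁻¹) := ⟨_, rfl⟩
      have hdE : d ∈ E₂ := by
        rw [hd]
        exact hbad x hx
      have hds : s * d * s⁻¹ = d := by
        rw [← h] at hdE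
        exact ((hm1 d).1 hdE).2
      have hk : ∀ k : ℕ, s ^ k * x * (s ^ k)⁻¹ = x * d ^ k := by
        intro k
        induction k with
        | zero => simp
        | succ k ih =>
          have h1 : s ^ (k + 1) * x * (s ^ (k + 1))⁻¹ = s * (s ^ k * x * (s ^ k)⁻¹) * s⁻¹ := by
            rw [pow_succ']
            group
          have h2 : s * d ^ k * s⁻¹ = d ^ k := by
            have h3 := map_pow (MulAut.conj s) d k
            rw [MulAut.conj_apply, MulAut.conj_apply, hds] at h3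
            exact h3
          have h3 : s * x * s⁻¹ = x * d := by
            rw [hd, mul_inv_cancel_left]
          rw [h1, ih]
          calc s * (x * d ^ k) * s⁻¹ = (s * x * s⁻¹) * (s * d ^ k * s⁻¹) := by group
            _ = x * d ^ (k + 1) := by rw [h2, h3, pow_succ', mul_assoc]
      have h1 := hk q
      rw [hsq, one_mul, inv_one, mul_one] at h1
      have h2 : d ^ q = 1 := (left_eq_mul.1 h1)
      have h3 : d ^ t = 1 := hexp d (hE₂X hdE)
      have h4 : orderOf d ∣ Nat.gcd q t := Nat.dvd_gcd (orderOf_dvd_of_pow_eq_one h2) (orderOf_dvd_of_pow_eq_one h3)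
      rw [(Nat.coprime_primes hq ht).2 hqt, Nat.dvd_one, orderOf_eq_one_iff] at h4
      apply hx'
      rw [h4] at hd
      exact (inv_mul_eq_one.1 hd.symm).symm
    have hinter : ∀ x, x ∈ E₁ → x ∈ E₂ → x = 1 := fun x h1 h2 => mm_dis ht E₁ E₂ hE₁c hE₂c hne12 h1 h2
    have hA : ∀ β : Ω, s ∈ Subgroup.normalizer (st X β : Set G) → st X β = E₁ ∨ st X β = E₂ := by
      intro β hβ
      by_cases h : st X β = E₂
      · exact Or.inr h
      · refine Or.inl (Subgroup.eq_of_le_of_card_ge ?_ (by rw [hE₁c, hst]))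
        intro x hx
        have hxX : x ∈ X := (Subgroup.mem_inf.1 hx).1
        rw [hm1]
        refine ⟨hxX, ?_⟩
        have h1 := (Subgroup.mem_normalizer_iff.1 hβ x).1 hx
        have h2 : x⁻¹ * (s * x * s⁻¹) ∈ st X β := (st X β).mul_mem ((st X β).inv_mem hx) h1
        have h3 := mm_dis ht (st X β) E₂ (hst β) hE₂c h h2 (hbad x hxX)
        exact (inv_mul_eq_one.1 h3).symm
    have hB : ∀ α : Ω, s • α = α → s ∈ Subgroup.normalizer (st X α : Set G) := by
      intro α hα
      rw [← mm_conj, hα]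
    have hs2 : ∀ x ∈ E₂, s * x * s⁻¹ ∈ E₂ := by
      intro x hx
      rw [hE₂] at hx ⊢
      exact (Subgroup.mem_normalizer_iff.1 (hB α₀ hα₀) x).1 hx
    have hC : ∃ β : Ω, st X β ≠ E₁ ∧ st X β ≠ E₂ := by
      by_contra hall
      push Not at hall
      push Not at hnn
      obtain ⟨g, w, hw, hgw⟩ := hnn
      have h1 : st X (g • α₀) = E₁ := by
        by_contra h
        have h3 := hall (g • α₀) h
        apply hgw
        have h4 : g ∈ Subgroup.normalizer (st X α₀ : Set G) := by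
          rw [← mm_conj, h3, hE₂]
        rw [hE₂] at hw ⊢
        exact (Subgroup.mem_normalizer_iff.1 h4 w).1 hw
      have i1 : ∀ x, x ∈ E₁ ↔ g⁻¹ * x * g ∈ E₂ := by
        intro x
        rw [← h1, st_smul, ← hE₂]
      have h2 : st X (g • (g • α₀)) = E₂ := by
        refine hall _ ?_
        intro h
        apply hne12
        ext v
        have h3 := st_smul X g (g * v * g⁻¹) (g • α₀)
        have h4 : g⁻¹ * (g * v * g⁻¹) * g = v := by group
        rw [h4, h, h1, i1, h4] at h3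
        exact h3.symm
      have i2 : ∀ x, x ∈ E₂ ↔ g⁻¹ * x * g ∈ E₁ := by
        intro x
        rw [← h2, st_smul, h1]
      obtain ⟨Z, hZ1, hZ2⟩ := hZ
      have h5 := mm_sq X hq E₁ E₂ (mm_gen X ht hXc E₁ E₂ hE₁X hE₂X hE₁c hE₂c hne12) s (g * s * g⁻¹) hsq
        (by
          have h6 := map_pow (MulAut.conj g) s q
          rw [MulAut.conj_apply, MulAut.conj_apply, hsq, mul_one, mul_inv_cancel] at h6
          exact h6.symm)
        (fun x hx => ((hm1 x).1 hx).2) hs2
        (by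
          intro x hx
          have h6 := ((hm1 _).1 ((i2 x).1 hx)).2
          calc (g * s * g⁻¹) * x * (g * s * g⁻¹)⁻¹ = g * (s * (g⁻¹ * x * g) * s⁻¹) * g⁻¹ := by group
            _ = x := by
              rw [h6]
              group)
        (by
          intro x hx
          rw [i1]
          have h6 := hs2 _ ((i1 x).1 hx)
          have h7 : g⁻¹ * ((g * s * g⁻¹) * x * (g * s * g⁻¹)⁻¹) * g = s * (g⁻¹ * x * g) * s⁻¹ := by group
          rw [h7]
          exact h6)
        hsX'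
        (by
          obtain ⟨x, hx, hx'⟩ := hsX'
          refine ⟨g * x * g⁻¹, (inferInstance : X.Normal).conj_mem x hx g, fun h => hx' ?_⟩
          have h7 : (g * s * g⁻¹) * (g * x * g⁻¹) * (g * s * g⁻¹)⁻¹ = g * (s * x * s⁻¹) * g⁻¹ := by group
          rw [h7] at h
          exact mul_left_cancel (mul_right_cancel h))
      apply hZ2
      refine h5.trans ?_
      rw [← Subgroup.index_ker]
      refine Subgroup.index_dvd_of_le ?_
      intro z hz
      rw [MonoidHom.mem_ker]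
      ext x
      rw [MulAut.conjNormal_apply, MulAut.one_apply, hZ1 z hz x x.2, mul_inv_cancel_right]
    obtain ⟨β, hβ1, hβ2⟩ := hC
    have hD : ∀ i : ℕ, s ∈ Subgroup.normalizer (st X (s ^ i • β) : Set G) → False := by
      intro i hi
      have h1 : st X β = st X (s ^ i • β) := by
        have h2 := (mm_conj X (s ^ i)⁻¹ (s ^ i • β)).2 (Subgroup.inv_mem _ (Subgroup.pow_mem _ hi i))
        rw [inv_smul_smul] at h2
        exact h2
      rcases hA _ hi with h3 | h3
      · exact hβ1 (h1.trans h3)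
      · exact hβ2 (h1.trans h3)
    obtain ⟨m, hm⟩ : ∃ m, m = Nat.card {γ : Ω // st X γ = st X α₀} := ⟨_, rfl⟩
    have hcm : (q + 1) * m ≤ Nat.card Ω := by
      rw [hm]
      refine mm_cnt X α₀ q (fun i => s ^ (i : ℕ) • β) ?_ ?_
      · have key : ∀ i j : ℕ, i < j → j < q → st X (s ^ i • β) = st X (s ^ j • β) → False := by
          intro i j hij hj h
          apply hD i
          have h1 : s ^ j • β = s ^ (j - i) • (s ^ i • β) := by
            rw [← mul_smul, ← pow_add, Nat.sub_add_cancel hij.le]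
          rw [h1] at h
          have h2 := (mm_conj X (s ^ (j - i)) (s ^ i • β)).1 h.symm
          have h3 : Nat.Coprime (j - i) (orderOf s) := by
            rw [hs]
            exact (Nat.coprime_of_lt_prime (by omega) (by omega) hq).symm
          obtain ⟨l, hl⟩ := exists_pow_eq_self_of_coprime h3
          have h4 := Subgroup.pow_mem _ h2 l
          rw [hl] at h4
          exact h4
        intro i j hij
        rcases lt_trichotomy (i : ℕ) (j : ℕ) with h | h | h
        · exact (key i j h j.2 hij).elim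
        · exact Fin.ext h
        · exact (key j i h i.2 hij.symm).elim
      · intro i h
        apply hD i
        rw [h]
        exact hB α₀ hα₀
    have hF1 : (q + 1) * Nat.card {α : Ω // s • α = α ∧ st X α = E₁} ≤ m := by
      have h1 := mm_orb X s (fun α : Ω => st X α = E₁) (by
        intro w hw α hα
        rw [← hα, mm_conj, Subgroup.mem_normalizer_iff]
        intro v
        constructor
        · intro hv
          rw [hab w hw v (Subgroup.mem_inf.1 hv).1, mul_inv_cancel_right]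
          exact hv
        · intro hv
          have h2 : v ∈ X := by
            have h3 := (inferInstance : X.Normal).conj_mem _ (Subgroup.mem_inf.1 hv).1 w⁻¹
            have h4 : w⁻¹ * (w * v * w⁻¹) * w⁻¹⁻¹ = v := by group
            rwa [h4] at h3
          rw [hab w hw v h2, mul_inv_cancel_right] at hv
          exact hv) (Nat.card X / (q + 1)) (by
        intro α hα hα1
        rw [Nat.le_div_iff_mul_le (by omega), mul_comm]
        refine mma X hab ht hX hq hqt hsq α hα ?_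
        obtain ⟨w, hw, hw'⟩ := hne
        obtain ⟨x, hx, hx'⟩ := hsur w hw
        refine ⟨x, hx, ?_⟩
        rw [hx', hα1]
        exact fun h => hw' (hinter w h hw))
      have h2 : Nat.card {α : Ω // st X α = E₁} ≤ m := by
        by_cases h3 : ∃ α₁ : Ω, st X α₁ = E₁
        · obtain ⟨α₁, hα₁⟩ := h3
          rw [hm, cls X α₀ α₁, hα₁]
        · have h4 : IsEmpty {α : Ω // st X α = E₁} := ⟨fun x => h3 ⟨x.1, x.2⟩⟩
          rw [Nat.card_of_isEmpty]
          exact Nat.zero_le _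
      have h3 : Nat.card X * ((q + 1) * Nat.card {α : Ω // s • α = α ∧ st X α = E₁}) ≤ Nat.card X * m := by
        calc Nat.card X * ((q + 1) * Nat.card {α : Ω // s • α = α ∧ st X α = E₁})
            = (q + 1) * (Nat.card X * Nat.card {α : Ω // s • α = α ∧ st X α = E₁}) := by ring
          _ ≤ (q + 1) * (Nat.card X / (q + 1) * Nat.card {α : Ω // st X α = E₁}) := Nat.mul_le_mul_left _ h1
          _ ≤ (q + 1) * (Nat.card X / (q + 1) * m) := Nat.mul_le_mul_left _ (Nat.mul_le_mul_left _ h2)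
          _ = (q + 1) * (Nat.card X / (q + 1)) * m := by ring
          _ ≤ Nat.card X * m := Nat.mul_le_mul_right _ (Nat.mul_div_le _ _)
      exact Nat.le_of_mul_le_mul_left h3 Nat.card_pos
    have hfx : fx Ω s ≤ Nat.card {α : Ω // s • α = α ∧ st X α = E₁} + m := by
      classical
      rw [hm]
      have h1 : Nat.card ({α : Ω // s • α = α ∧ st X α = E₁} ⊕ {γ : Ω // st X γ = st X α₀}) =
          Nat.card {α : Ω // s • α = α ∧ st X α = E₁} + Nat.card {γ : Ω // st X γ = st X α₀} := Nat.card_sum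
      rw [← h1]
      refine Nat.card_le_card_of_injective (fun x : {α : Ω // s • α = α} =>
        if h : st X (x : Ω) = E₁ then Sum.inl ⟨x, x.2, h⟩ else Sum.inr ⟨x, by
          rw [← hE₂]
          exact (hA x (hB x x.2)).resolve_left h⟩) ?_
      intro x y hxy
      simp only at hxy
      by_cases hx : st X (x : Ω) = E₁
      · by_cases hy : st X (y : Ω) = E₁
        · rw [dif_pos hx, dif_pos hy] at hxy
          exact Subtype.ext (Subtype.mk.inj (Sum.inl.inj hxy))
        · rw [dif_pos hx, dif_neg hy] at hxy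
          exact absurd hxy Sum.inl_ne_inr
      · by_cases hy : st X (y : Ω) = E₁
        · rw [dif_neg hx, dif_pos hy] at hxy
          exact absurd hxy Sum.inr_ne_inl
        · rw [dif_neg hx, dif_neg hy] at hxy
          exact Subtype.ext (Subtype.mk.inj (Sum.inr.inj hxy))
    obtain ⟨F, hF⟩ : ∃ F, F = Nat.card {α : Ω // s • α = α ∧ st X α = E₁} := ⟨_, rfl⟩
    obtain ⟨n, hn⟩ : ∃ n, n = Nat.card Ω := ⟨_, rfl⟩
    obtain ⟨f, hff⟩ : ∃ f, f = fx Ω s := ⟨_, rfl⟩
    rw [← hF] at hF1 hfx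
    rw [← hn] at hcm hn0 ⊢
    rw [← hff] at hfx ⊢
    obtain ⟨r, rfl⟩ : ∃ r, q = r + 1 := ⟨q - 1, by omega⟩
    rw [Nat.add_sub_cancel]
    by_contra hcon
    push Not at hcon
    have e1 : (r + 2) * f ≤ (r + 3) * m := by nlinarith
    have e2 : (r + 2) * ((r + 2) * f) ≤ (r + 3) * n := by nlinarith
    have e3 : (r + 2) * ((r + 2) * n) ≤ r * ((r + 3) * n) := by nlinarith
    nlinarith

end H12.CF
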