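import Pool.Agent.H12.CF.Orb

/-!
# [H12 CF QUO] the orbits of a normal subgroup, 90-130 lines

`quo`: `Ω' := G ⧸ (stabilizer G α₀ ⊔ V)`, `π (g • α₀) = mk g` (well defined), transitive, finite. `π (g α₀) = π (h α₀)` iff `g⁻¹ h ∈ G_α₀ V` iff `h α₀ ∈ g V α₀ = V g α₀`.
`cnt`: `v` fixes no point (`nfix`: `zpowers v` normal, prime order: if `v ^ i` fixes a point and `¬ q ∣ i` then `v` fixes it). The fibres of `π` have `q` elements, so `n = q n'`. The pairs `(s, α)`, `s ∈ J`, `s α = α`, map to `α` with `p π(α) = π(α)` (`s α = v ^ i p α`), injectively: if `s = v ^ i p`, `s' = v ^ j p` fix `α` then `s s'⁻¹ ∈ zpowers v` fixes `α`, so `s = s'`. And `#{α | p • π α = π α} = q fx Ω' p`.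
-/

set_option autoImplicit false

namespace H12.CF

theorem quo {G Ω : Type} [Group G] [Finite G] [MulAction G Ω] [Finite Ω] [Nonempty Ω]
    [MulAction.IsPretransitive G Ω] (V : Subgroup G) [V.Normal] :
    ∃ (Ω' : Type) (_ : MulAction G Ω'), Finite Ω' ∧ Nonempty Ω' ∧ MulAction.IsPretransitive G Ω' ∧
      ∃ π : Ω → Ω', Function.Surjective π ∧ (∀ (g : G) α, π (g • α) = g • π α) ∧
        ∀ α β, π α = π β ↔ ∃ v ∈ V, β = v • α := by
  let r : Setoid Ω :=
    { r := fun α β => ∃ v ∈ V, β = v • α
      iseqv :=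
        { refl := fun α => ⟨1, V.one_mem, (one_smul G α).symm⟩
          symm := by
            rintro α β ⟨v, hv, rfl⟩
            exact ⟨v⁻¹, V.inv_mem hv, (inv_smul_smul v α).symm⟩
          trans := by
            rintro α β γ ⟨v, hv, rfl⟩ ⟨w, hw, rfl⟩
            exact ⟨w * v, V.mul_mem hw hv, (mul_smul w v α).symm⟩ } }
  have hm : ∀ (g : G) (α β : Ω), r.r α β → r.r (g • α) (g • β) := by
    rintro g α β ⟨v, hv, rfl⟩
    refine ⟨g * v * g⁻¹, (inferInstance : V.Normal).conj_mem v hv g, ?_⟩
    rw [← mul_smul, ← mul_smul, inv_mul_cancel_right]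
  let act : MulAction G (Quotient r) :=
    { smul := fun g => Quotient.map (fun α => g • α) (hm g)
      one_smul := by
        intro x
        induction x using Quotient.inductionOn with
        | h α =>
          show Quotient.mk r ((1 : G) • α) = Quotient.mk r α
          rw [one_smul]
      mul_smul := by
        intro g h x
        induction x using Quotient.inductionOn with
        | h α =>
          show Quotient.mk r ((g * h) • α) = Quotient.mk r (g • h • α)
          rw [mul_smul] }
  refine ⟨Quotient r, act, inferInstance, ‹Nonempty Ω›.map (Quotient.mk r), ⟨fun x y => ?_⟩, Quotient.mk r,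
    Quotient.mk_surjective, fun g α => rfl, fun α β => Quotient.eq⟩
  induction x using Quotient.inductionOn with
  | h α =>
    induction y using Quotient.inductionOn with
    | h β =>
      obtain ⟨g, hg⟩ := MulAction.exists_smul_eq G α β
      exact ⟨g, congrArg (Quotient.mk r) hg⟩

/-- no element of a normal subgroup of prime order fixes a point -/
private theorem free {G Ω : Type} [Group G] [Finite G] [MulAction G Ω] [Finite Ω]
    [FaithfulSMul G Ω] [MulAction.IsPretransitive G Ω] {v : G} (hv : (orderOf v).Prime)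
    (hV : (Subgroup.zpowers v).Normal) (w : G) (hw : w ∈ Subgroup.zpowers v) (α : Ω)
    (h : w • α = α) : w = 1 := by
  by_contra hne
  have hle : Subgroup.zpowers w ≤ Subgroup.zpowers v := by
    rw [Subgroup.zpowers_le]
    exact hw
  have hd : orderOf w ∣ orderOf v := by
    rw [← Nat.card_zpowers, ← Nat.card_zpowers]
    exact Subgroup.card_dvd_of_le hle
  have ho : orderOf w = orderOf v := by
    rcases (Nat.dvd_prime hv).1 hd with h1 | h1
    · exact absurd (orderOf_eq_one_iff.1 h1) hne
    · exact h1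
  have heq : Subgroup.zpowers w = Subgroup.zpowers v := by
    refine Subgroup.eq_of_le_of_card_ge hle ?_
    rw [Nat.card_zpowers, Nat.card_zpowers, ho]
  have hb := nfix (Subgroup.zpowers v) α (by
    intro u hu
    rw [← heq] at hu
    have h2 : Subgroup.zpowers w ≤ MulAction.stabilizer G α := by
      rw [Subgroup.zpowers_le]
      exact h
    exact h2 hu)
  rw [hb, Subgroup.mem_bot] at hw
  exact hne hw

theorem cnt {G Ω Ω' : Type} [Group G] [Finite G] [MulAction G Ω] [Finite Ω] [MulAction G Ω']
    [Finite Ω'] [FaithfulSMul G Ω] [MulAction.IsPretransitive G Ω] {v : G}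
    (hv : (orderOf v).Prime) (hV : (Subgroup.zpowers v).Normal) (π : Ω → Ω')
    (hs : Function.Surjective π) (he : ∀ (g : G) α, π (g • α) = g • π α)
    (hπ : ∀ α β, π α = π β ↔ ∃ w ∈ Subgroup.zpowers v, β = w • α) :
    Nat.card Ω = orderOf v * Nat.card Ω' ∧
      ∀ (p : G) (J : Finset G), (∀ s ∈ J, ∃ w ∈ Subgroup.zpowers v, s = w * p) →
        ∑ s ∈ J, fx Ω s ≤ orderOf v * fx Ω' p := by
  classical
  have hπw : ∀ (w : G) (α : Ω), w ∈ Subgroup.zpowers v → π (w • α) = π α := fun w α hw =>
    ((hπ α (w • α)).2 ⟨w, hw, rfl⟩).symm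
  have hπs : ∀ x, π (Function.surjInv hs x) = x := Function.surjInv_eq hs
  let f : Ω' × Subgroup.zpowers v → Ω := fun x => (x.2 : G) • Function.surjInv hs x.1
  have hf1 : ∀ x, π (f x) = x.1 := by
    intro x
    show π ((x.2 : G) • Function.surjInv hs x.1) = x.1
    rw [hπw _ _ x.2.2, hπs]
  have hf : Function.Bijective f := by
    constructor
    · intro x y hxy
      have h1 : x.1 = y.1 := by rw [← hf1 x, ← hf1 y, hxy]
      refine Prod.ext h1 ?_
      have h2 : (x.2 : G) • Function.surjInv hs x.1 = (y.2 : G) • Function.surjInv hs y.1 := hxy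
      rw [← h1] at h2
      have h3 : ((y.2 : G)⁻¹ * (x.2 : G)) • Function.surjInv hs x.1 = Function.surjInv hs x.1 := by
        rw [mul_smul, h2, inv_smul_smul]
      have h4 := free hv hV _ ((Subgroup.zpowers v).mul_mem ((Subgroup.zpowers v).inv_mem y.2.2)
        x.2.2) _ h3
      exact Subtype.ext (inv_mul_eq_one.1 h4).symm
    · intro β
      obtain ⟨w, hw, h⟩ := (hπ (Function.surjInv hs (π β)) β).1 (hπs (π β))
      exact ⟨(π β, ⟨w, hw⟩), h.symm⟩
  constructor
  · rw [← Nat.card_eq_of_bijective f hf, Nat.card_prod, Nat.card_zpowers, mul_comm]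
  · intro p J hJ
    let e := Equiv.ofBijective f hf
    have hfix : ∀ s ∈ J, ∀ α : Ω, s • α = α → p • π α = π α := by
      intro s hsJ α hα
      obtain ⟨w, hw, rfl⟩ := hJ s hsJ
      have h1 : π ((w * p) • α) = p • π α := by
        rw [mul_smul, hπw _ _ hw, he]
      rw [← h1, hα]
    let g : (Σ s : {s // s ∈ J}, {α : Ω // (s : G) • α = α}) →
        {x : Ω' // p • x = x} × Subgroup.zpowers v :=
      fun y => (⟨π y.2.1, hfix y.1.1 y.1.2 y.2.1 y.2.2⟩, (e.symm y.2.1).2)
    have hg : Function.Injective g := by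
      rintro ⟨⟨s, hsJ⟩, α, hα⟩ ⟨⟨s', hsJ'⟩, α', hα'⟩ h
      have h1 : π α = π α' := congrArg (fun z => (z.1 : Ω')) h
      have h2 : (e.symm α).2 = (e.symm α').2 := congrArg (fun z => z.2) h
      have h3 : ∀ β, (e.symm β).1 = π β := by
        intro β
        rw [← hf1 (e.symm β)]
        show π (e (e.symm β)) = π β
        rw [Equiv.apply_symm_apply]
      have h4 : α = α' := by
        apply e.symm.injective
        refine Prod.ext ?_ h2
        rw [h3, h3, h1]
      subst h4
      obtain ⟨w, hw, h5⟩ := hJ s hsJ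
      obtain ⟨w', hw', h6⟩ := hJ s' hsJ'
      have h7 : (w'⁻¹ * w) • (p • α) = p • α := by
        rw [mul_smul, ← mul_smul w p α, ← h5, show s • α = α from hα, inv_smul_eq_iff,
          ← mul_smul, ← h6]
        exact hα'.symm
      have h8 := free hv hV _ ((Subgroup.zpowers v).mul_mem ((Subgroup.zpowers v).inv_mem hw')
        hw) _ h7
      have h9 : s = s' := by
        rw [h5, h6, (inv_mul_eq_one.1 h8)]
      subst h9
      rfl
    have hc := Nat.card_le_card_of_injective g hg
    rw [Nat.card_prod, Nat.card_zpowers, Nat.card_sigma] at hc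
    have hsum : ∑ s ∈ J, fx Ω s = ∑ s : {s // s ∈ J}, Nat.card {α : Ω // (s : G) • α = α} :=
      (Finset.sum_coe_sort J fun s => fx Ω s).symm
    rw [hsum, mul_comm]
    exact hc

end H12.CF
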