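import Pool.Agent.H12.CF.B2
import Pool.Agent.H12.CF.Mm
import Pool.Agent.H12.CF.Quo
import Pool.Agent.H12.CF.Fit

/-!
# [H12 CF B3] the mixed case, `zpowers v` normal: `P` is normal, 160-230 lines

`q = orderOf x`, `V = zpowers v`; `z, r` from `b2b`.
`frt`: every `z ∈ T` is `d h`, `d ∈ D`, `h ∈ T` in the normaliser of `P`: `M := P ⊔ D`, normal in `T` (it contains `⁅T, T⁆`); `z P z⁻¹ ≤ M`, both are Sylow `q`-subgroups of `M` (`#P = q ^ 2`, `¬ q ^ 3 ∣ #G`), conjugate in `M`, `M = D P`.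
`b3a`: `z = d h` by `frt`; `D` centralises `V` (`cyc`), so `h v h⁻¹ = z v z⁻¹ ≠ v`, `h` commutes with `p` (`nc`). `J := {h ^ j x h ^ (- j), j < r}`: `h ^ j x h ^ (-j) = (h ^ j v h ^ (-j)) p`, they are `r` different elements (the automorphism `z` of `V` has order `r`: `z ^ j` commutes with `v` iff `r ∣ j`, `r` prime). `fx = fx x` for all (`fx_conj`). `cnt`: `r fx x ≤ q fx Ω' p`, `n = q n'`.
With `b2b`: `q n' (q - r) = r (q - 1) fx x ≤ (q - 1) q fx Ω' p`, `q - r ≥ 1`: `n' ≤ (q - 1) fx Ω' p`.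
`b3b`: for a normal `t`-subgroup `W ≤ T`: `t = q`: `same` (`p ^ q ^ 1 = 1`, `ab`). `t ≠ q`: suppose `p` does not centralise `W`. `quo` for `V`: `Ω'`, `π`. `mm` for `Ω'`, `X = W`, `s = p` (`orderOf p = q`: `p ≠ 1` since `x ∉ D`, `v ∈ D`): `hf`: `w ∈ W` trivial on `Ω'`: `w • α = v ^ i • α`; `W ⊓ V = ⊥`, both normal, so `w` commutes with `v`; `w ^ t ^ k = 1` gives `v ^ (i t ^ k) • α = α`, so `v ^ (i t ^ k) = 1` (`nfix`), `q ∣ i`, `w • α = α`; faithful.
`hZ`: `Z` = the centraliser of `W`: contains `v` (`W ⊓ V = ⊥`, both normal), so `q ∣ #Z`, `q ^ 2 ∣ Z.index` would give `q ^ 3 ∣ #G`. `¬ t ^ 3 ∣ #G`: `t ∣ #W ∣ #T`, `S.cf`. `mm` contradicts `b3a`.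
`b3`: `fitq` for `p`: a normal `q`-subgroup `W₀` with `p ∈ W₀`. A normal `q`-subgroup is contained in `P` (a Sylow subgroup, `IsPGroup.le_sylow_of_normal`-like). `W₀ ⊔ V ≤ P` contains `v, p`, so it has order `≥ q ^ 2` (`p ∉ V`): `P = W₀ ⊔ V` is normal.
-/

set_option autoImplicit false

open scoped commutatorElement

noncomputable section

namespace H12.CF

variable {G Ω : Type} [Group G] [Finite G] [MulAction G Ω] [Finite Ω] {L : Set G} {T : Subgroup G}

/-- a subgroup of order `q ^ 2` is a Sylow subgroup -/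
private theorem fac2 {H : Type} [Group H] [Finite H] {q : ℕ} (hq : q.Prime) (R : Subgroup H)
    (hR : Nat.card R = q ^ 2) (hc : ¬ q ^ 3 ∣ Nat.card H) :
    Nat.card R = q ^ (Nat.card H).factorization q := by
  have h0 : Nat.card H ≠ 0 := Nat.card_pos.ne'
  have h1 : q ^ 2 ∣ Nat.card H := by
    rw [← hR]
    exact R.card_subgroup_dvd_card
  rw [hq.pow_dvd_iff_le_factorization h0] at h1 hc
  have h2 : (Nat.card H).factorization q = 2 := by omega
  rw [h2, hR]

private theorem xT (S : St Ω L T) {x v p : G} {P : Subgroup G} (B : Bd L T x v p P) :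
    orderOf x ∣ Nat.card T := by
  have h1 : orderOf (⟨x, S.mem B.xL⟩ : T) ∣ Nat.card T := orderOf_dvd_natCard _
  rwa [← Subgroup.orderOf_coe] at h1

private theorem q3 (S : St Ω L T) {x v p : G} {P : Subgroup G} (B : Bd L T x v p P) :
    ¬ orderOf x ^ 3 ∣ Nat.card G := S.cf _ (S.pr x B.xL) (xT S B)

theorem frt (S : St Ω L T) {x v p : G} {P : Subgroup G} (B : Bd L T x v p P) {z : G}
    (hz : z ∈ T) : ∃ d ∈ (⁅T, T⁆ : Subgroup G), ∃ h ∈ T,
      h ∈ Subgroup.normalizer (P : Set G) ∧ z = d * h := by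
  have hq : (orderOf x).Prime := S.pr x B.xL
  have hqf : Fact (orderOf x).Prime := ⟨hq⟩
  have hDn : (⁅T, T⁆ : Subgroup G).Normal := S.dn
  obtain ⟨M, hM⟩ : ∃ M : Subgroup G, M = ⁅T, T⁆ ⊔ P := ⟨_, rfl⟩
  have hPM : P ≤ M := by
    rw [hM]
    exact le_sup_right
  have hDM : ⁅T, T⁆ ≤ M := by
    rw [hM]
    exact le_sup_left
  have hMT : M ≤ T := by
    rw [hM]
    exact sup_le S.dle B.PT
  have hR : ∀ y ∈ P, z * y * z⁻¹ ∈ M := by
    intro y hy
    have h1 : z * y * z⁻¹ = ⁅z, y⁆ * y := by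
      rw [commutatorElement_def]
      group
    rw [h1]
    exact M.mul_mem (hDM (Subgroup.commutator_mem_commutator hz (B.PT hy))) (hPM hy)
  let R : Subgroup G := P.map (MulAut.conj z).toMonoidHom
  have hRM : R ≤ M := by
    rintro _ ⟨y, hy, rfl⟩
    exact hR y hy
  have hRc : Nat.card R = orderOf x ^ 2 := by
    rw [← B.cP]
    exact (Nat.card_congr (P.equivMapOfInjective _ (MulAut.conj z).injective).toEquiv).symm
  have hcM : ¬ orderOf x ^ 3 ∣ Nat.card M := fun h => q3 S B (h.trans M.card_subgroup_dvd_card)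
  have hcard : ∀ H : Subgroup G, H ≤ M → Nat.card H = orderOf x ^ 2 →
      Nat.card (H.subgroupOf M) = orderOf x ^ 2 := by
    intro H hH hHc
    rw [← hHc]
    exact Nat.card_congr (Subgroup.subgroupOfEquivOfLe hH).toEquiv
  let S1 : Sylow (orderOf x) M := Sylow.ofCard (P.subgroupOf M) (fac2 hq _ (hcard P hPM B.cP) hcM)
  let S2 : Sylow (orderOf x) M := Sylow.ofCard (R.subgroupOf M) (fac2 hq _ (hcard R hRM hRc) hcM)
  obtain ⟨m, hm⟩ := MulAction.exists_smul_eq M S2 S1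
  have h1 : ∀ y ∈ P, ((m : G) * z) * y * ((m : G) * z)⁻¹ ∈ P := by
    intro y hy
    have h2 : (⟨z * y * z⁻¹, hR y hy⟩ : M) ∈ (S2 : Subgroup M) := by
      show (⟨z * y * z⁻¹, hR y hy⟩ : M) ∈ R.subgroupOf M
      rw [Subgroup.mem_subgroupOf]
      exact ⟨y, hy, rfl⟩
    have h3 := Subgroup.smul_mem_pointwise_smul _ (MulAut.conj m) (S2 : Subgroup M) h2
    have h4 : MulAut.conj m • (⟨z * y * z⁻¹, hR y hy⟩ : M) ∈ (S1 : Subgroup M) := by
      rw [← hm]
      exact h3
    have h5 : MulAut.conj m • (⟨z * y * z⁻¹, hR y hy⟩ : M) ∈ P.subgroupOf M := h4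
    rw [Subgroup.mem_subgroupOf] at h5
    have h6 : ((MulAut.conj m • (⟨z * y * z⁻¹, hR y hy⟩ : M) : M) : G) =
        ((m : G) * z) * y * ((m : G) * z)⁻¹ := by
      show (m : G) * (z * y * z⁻¹) * (m : G)⁻¹ = _
      group
    rwa [h6] at h5
  have hN : (m : G) * z ∈ Subgroup.normalizer (P : Set G) := Subgroup.mem_normalizer_fintype h1
  have hmi : (m : G)⁻¹ ∈ (⁅T, T⁆ : Subgroup G) ⊔ P := by
    rw [← hM]
    exact M.inv_mem m.2
  obtain ⟨d, hd, p₁, hp₁, he⟩ := (Subgroup.mem_sup_of_normal_left).1 hmi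
  refine ⟨d, hd, p₁ * ((m : G) * z), T.mul_mem (B.PT hp₁) (T.mul_mem (hMT m.2) hz),
    Subgroup.mul_mem _ (Subgroup.le_normalizer hp₁) hN, ?_⟩
  rw [← mul_assoc, he, inv_mul_cancel_left]

/-- the powers of an element which acts as `z` on `zpowers v` -/
private theorem pw {V : Subgroup G} (hV : V.Normal) {h z : G}
    (hh : ∀ w ∈ V, h * w * h⁻¹ = z * w * z⁻¹) (j : ℕ) :
    ∀ w ∈ V, h ^ j * w * (h ^ j)⁻¹ = z ^ j * w * (z ^ j)⁻¹ := by
  induction j with
  | zero =>
    intro w _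
    rw [pow_zero, pow_zero]
  | succ j ih =>
    intro w hw
    have h1 : z ^ j * w * (z ^ j)⁻¹ ∈ V := hV.conj_mem w hw _
    calc h ^ (j + 1) * w * (h ^ (j + 1))⁻¹ = h * (h ^ j * w * (h ^ j)⁻¹) * h⁻¹ := by
          rw [pow_succ']
          group
      _ = z * (z ^ j * w * (z ^ j)⁻¹) * z⁻¹ := by rw [ih w hw, hh _ h1]
      _ = z ^ (j + 1) * w * (z ^ (j + 1))⁻¹ := by
          rw [pow_succ']
          group

/-- powers of `z` below its prime order -/
private theorem npw {z v : G} (hz : (orderOf z).Prime) (hne : z * v ≠ v * z) {j : ℕ} (hj : 0 < j)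
    (hj' : j < orderOf z) : z ^ j * v * (z ^ j)⁻¹ ≠ v := by
  intro h
  apply hne
  have h1 : Commute (z ^ j) v := by
    show z ^ j * v = v * z ^ j
    rwa [mul_inv_eq_iff_eq_mul] at h
  have hco : Nat.Coprime j (orderOf z) :=
    Nat.Coprime.symm ((Nat.Prime.coprime_iff_not_dvd hz).2 fun hd =>
      absurd (Nat.le_of_dvd hj hd) (by omega))
  obtain ⟨k, hk⟩ := exists_pow_eq_self_of_coprime hco
  have h2 : Commute ((z ^ j) ^ k) v := h1.pow_left k
  rw [hk] at h2
  exact h2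

theorem b3a [Nonempty Ω] [FaithfulSMul G Ω] [MulAction.IsPretransitive G Ω] (S : St Ω L T)
    {x v p : G} {P : Subgroup G} (B : Bd L T x v p P) (hV : (Subgroup.zpowers v).Normal)
    {Ω' : Type} [MulAction G Ω'] [Finite Ω'] (π : Ω → Ω') (hs : Function.Surjective π)
    (he : ∀ (g : G) α, π (g • α) = g • π α)
    (hπ : ∀ α β, π α = π β ↔ ∃ w ∈ Subgroup.zpowers v, β = w • α) :
    Nat.card Ω' ≤ fx Ω' p * (orderOf x - 1) := by
  classical
  have hq : (orderOf x).Prime := S.pr x B.xL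
  obtain ⟨-, z, hzL, hzv, -, -, hlt, heq⟩ := b2b S B hV
  obtain ⟨d, hd, h, hhT, hhN, hzd⟩ := frt S B (S.mem hzL)
  have hzp : (orderOf z).Prime := S.pr z hzL
  have hhw : ∀ w ∈ Subgroup.zpowers v, h * w * h⁻¹ = z * w * z⁻¹ := by
    intro w hw
    have h1 : h * w * h⁻¹ ∈ Subgroup.zpowers v := hV.conj_mem w hw h
    have h2 := cyc (Subgroup.zpowers v) T d hd _ h1
    have h3 : z * w * z⁻¹ = d * (h * w * h⁻¹) * d⁻¹ := by
      rw [hzd]
      group
    rw [h3, h2, mul_inv_cancel_right]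
  have hvV : v ∈ Subgroup.zpowers v := Subgroup.mem_zpowers v
  have hhp : Commute h p := B.nc h hhT hhN
  have hf : ∀ j : ℕ, h ^ j * x * (h ^ j)⁻¹ = (h ^ j * v * (h ^ j)⁻¹) * p := by
    intro j
    have h1 : (h ^ j) * p = p * h ^ j := hhp.pow_left j
    calc h ^ j * x * (h ^ j)⁻¹ = h ^ j * v * (p * (h ^ j)⁻¹) := by
          rw [B.eq]
          group
      _ = h ^ j * v * ((h ^ j)⁻¹ * (h ^ j * p) * (h ^ j)⁻¹) := by group
      _ = h ^ j * v * ((h ^ j)⁻¹ * (p * h ^ j) * (h ^ j)⁻¹) := by rw [h1]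
      _ = (h ^ j * v * (h ^ j)⁻¹) * p := by group
  have hinj : ∀ i j : ℕ, i < j → j < orderOf z →
      h ^ i * x * (h ^ i)⁻¹ ≠ h ^ j * x * (h ^ j)⁻¹ := by
    intro i j hij hj h1
    rw [hf i, hf j] at h1
    have h2 := mul_right_cancel h1
    rw [pw hV hhw i v hvV, pw hV hhw j v hvV] at h2
    refine npw hzp hzv (j := j - i) (by omega) (by omega) ?_
    have h3 : z ^ j = z ^ i * z ^ (j - i) := by
      rw [← pow_add]
      congr 1
      omega
    rw [h3] at h2
    have h4 : v = z ^ (j - i) * v * (z ^ (j - i))⁻¹ := by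
      calc v = (z ^ i)⁻¹ * (z ^ i * v * (z ^ i)⁻¹) * z ^ i := by group
        _ = (z ^ i)⁻¹ * (z ^ i * z ^ (j - i) * v * (z ^ i * z ^ (j - i))⁻¹) * z ^ i := by rw [h2]
        _ = z ^ (j - i) * v * (z ^ (j - i))⁻¹ := by group
    exact h4.symm
  have hio : Set.InjOn (fun j : ℕ => h ^ j * x * (h ^ j)⁻¹) (Finset.range (orderOf z)) := by
    intro i hi j hj hij
    rw [Finset.mem_coe, Finset.mem_range] at hi hj
    rcases lt_trichotomy i j with h1 | h1 | h1
    · exact absurd hij (hinj i j h1 hj)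
    · exact h1
    · exact absurd hij.symm (hinj j i h1 hi)
  obtain ⟨hn, hJ⟩ := cnt (v := v) (by
    rw [B.vo]
    exact hq) hV π hs he hπ
  have h1 := hJ p ((Finset.range (orderOf z)).image fun j : ℕ => h ^ j * x * (h ^ j)⁻¹) (by
    intro s hs
    obtain ⟨j, -, rfl⟩ := Finset.mem_image.1 hs
    exact ⟨h ^ j * v * (h ^ j)⁻¹, hV.conj_mem v hvV _, hf j⟩)
  rw [Finset.sum_image hio] at h1
  have h2 : ∑ j ∈ Finset.range (orderOf z), fx Ω (h ^ j * x * (h ^ j)⁻¹) = orderOf z * fx Ω x := by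
    rw [Finset.sum_congr rfl fun j _ => fx_conj (Ω := Ω) (h ^ j) x, Finset.sum_const,
      Finset.card_range, smul_eq_mul]
  rw [h2, B.vo] at h1
  rw [B.vo] at hn
  have hq1 : 1 < orderOf x := hq.one_lt
  obtain ⟨q, hqq⟩ : ∃ q : ℕ, orderOf x = q + 1 := ⟨orderOf x - 1, by omega⟩
  obtain ⟨e, hee⟩ : ∃ e : ℕ, orderOf x = orderOf z + 1 + e := ⟨orderOf x - orderOf z - 1, by omega⟩
  have h3 : fx Ω x * (orderOf z * q) = Nat.card Ω * (1 + e) := by
    have h4 : ((orderOf x : ℕ) : ℝ) - 1 = (q : ℝ) := by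
      rw [hqq]
      push_cast
      ring
    have h5 : ((orderOf x : ℕ) : ℝ) - (orderOf z : ℝ) = ((1 + e : ℕ) : ℝ) := by
      rw [hee]
      push_cast
      ring
    rw [h4, h5] at heq
    exact_mod_cast heq
  have h6 : orderOf x - 1 = q := by omega
  rw [h6]
  have hpos : 0 < orderOf x := hq.pos
  have h7 : orderOf x * (Nat.card Ω' * (1 + e)) ≤ orderOf x * (fx Ω' p * q) := by
    calc orderOf x * (Nat.card Ω' * (1 + e)) = Nat.card Ω * (1 + e) := by
          rw [hn]
          ring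
      _ = (orderOf z * fx Ω x) * q := by
          rw [← h3]
          ring
      _ ≤ (orderOf x * fx Ω' p) * q := Nat.mul_le_mul_right _ h1
      _ = orderOf x * (fx Ω' p * q) := by ring
  have h8 := Nat.le_of_mul_le_mul_left h7 hpos
  calc Nat.card Ω' = Nat.card Ω' * 1 := (mul_one _).symm
    _ ≤ Nat.card Ω' * (1 + e) := Nat.mul_le_mul_left _ (by omega)
    _ ≤ fx Ω' p * q := h8

/-- two normal subgroups of coprime orders commute -/
private theorem ncm {W V : Subgroup G} (hW : W.Normal) (hV : V.Normal)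
    (h : ∀ y ∈ W, y ∈ V → y = 1) : ∀ w ∈ W, ∀ u ∈ V, w * u = u * w := by
  intro w hw u hu
  have h1 : w * u * w⁻¹ * u⁻¹ ∈ W := by
    have h2 : w * u * w⁻¹ * u⁻¹ = w * (u * w⁻¹ * u⁻¹) := by group
    rw [h2]
    exact W.mul_mem hw (hW.conj_mem _ (W.inv_mem hw) u)
  have h2 : w * u * w⁻¹ * u⁻¹ ∈ V := V.mul_mem (hV.conj_mem u hu w) (V.inv_mem hu)
  have h3 := h _ h1 h2
  rw [mul_inv_eq_one, mul_inv_eq_iff_eq_mul] at h3
  exact h3

private theorem p_ord (S : St Ω L T) {x v p : G} {P : Subgroup G} (B : Bd L T x v p P) :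
    orderOf p = orderOf x := by
  have hqf : Fact (orderOf x).Prime := ⟨S.pr x B.xL⟩
  refine orderOf_eq_prime B.po ?_
  intro h
  apply B.xD
  rw [B.eq, h, mul_one]
  exact B.vD

theorem b3b [Nonempty Ω] [FaithfulSMul G Ω] [MulAction.IsPretransitive G Ω] (S : St Ω L T)
    {x v p : G} {P : Subgroup G} (B : Bd L T x v p P) (hV : (Subgroup.zpowers v).Normal) {t : ℕ}
    (ht : t.Prime) (W : Subgroup G) (hWn : W.Normal) (hWT : W ≤ T) (hW : IsPGroup t W) :
    ∀ w ∈ W, p * w = w * p := by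
  have hq : (orderOf x).Prime := S.pr x B.xL
  have hq3 := q3 S B
  by_cases htq : t = orderOf x
  · rw [htq] at hW
    refine same hq (ab hq hq3) W hW (g := p) (k := 1) ?_
    rw [pow_one]
    exact B.po
  by_contra hcon
  push Not at hcon
  obtain ⟨w₁, hw₁, hne⟩ := hcon
  have hvq : (orderOf v).Prime := by
    rw [B.vo]
    exact hq
  have hvp : Fact (orderOf v).Prime := ⟨hvq⟩
  have htf : Fact t.Prime := ⟨ht⟩
  -- orders
  have hWV : ∀ y ∈ W, y ∈ Subgroup.zpowers v → y = 1 := by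
    intro y hy hyV
    obtain ⟨k, hk⟩ := hW ⟨y, hy⟩
    have h1 : y ^ t ^ k = 1 := by
      have h2 := congrArg (Subtype.val : W → G) hk
      simpa using h2
    have h2 : y ^ orderOf v = 1 := by
      obtain ⟨i, rfl⟩ := Subgroup.mem_zpowers_iff.1 hyV
      rw [← zpow_natCast, ← zpow_mul, mul_comm, zpow_mul, zpow_natCast, pow_orderOf_eq_one,
        one_zpow]
    have h3 := orderOf_dvd_of_pow_eq_one h1
    have h4 := orderOf_dvd_of_pow_eq_one h2
    have h5 : Nat.Coprime (t ^ k) (orderOf v) :=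
      Nat.Coprime.pow_left _ ((Nat.coprime_primes ht hvq).2 (by
        rw [B.vo]
        exact htq))
    have h6 := Nat.eq_one_of_dvd_coprimes h5 h3 h4
    exact orderOf_eq_one_iff.1 h6
  have hcm := ncm hWn hV hWV
  have hfree : ∀ u ∈ Subgroup.zpowers v, ∀ α : Ω, u • α = α → u = 1 := by
    intro u hu α hα
    by_contra hu1
    have h1 : Subgroup.zpowers u = Subgroup.zpowers v := by
      refine Subgroup.eq_of_le_of_card_ge ?_ ?_
      · rw [Subgroup.zpowers_le]
        exact hu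
      · rw [Nat.card_zpowers, Nat.card_zpowers]
        have h2 : orderOf u = orderOf v := by
          refine orderOf_eq_prime ?_ hu1
          obtain ⟨i, rfl⟩ := Subgroup.mem_zpowers_iff.1 hu
          rw [← zpow_natCast, ← zpow_mul, mul_comm, zpow_mul, zpow_natCast, pow_orderOf_eq_one,
            one_zpow]
        rw [h2]
    have h2 : Subgroup.zpowers v = ⊥ := by
      refine nfix (Ω := Ω) (Subgroup.zpowers v) α ?_
      intro w hw
      rw [← h1] at hw
      obtain ⟨i, rfl⟩ := Subgroup.mem_zpowers_iff.1 hw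
      have h3 : u ∈ MulAction.stabilizer G α := hα
      exact Subgroup.zpow_mem _ h3 i
    rw [Subgroup.zpowers_eq_bot] at h2
    rw [h2, orderOf_one] at hvq
    exact Nat.not_prime_one hvq
  obtain ⟨Ω', hact, hfin, hnon, htr, π, hs, he, hπ⟩ := quo (Ω := Ω) (Subgroup.zpowers v)
  have hb := b3a S B hV π hs he hπ
  have hw₁1 : w₁ ≠ 1 := by
    intro h
    apply hne
    rw [h, mul_one, one_mul]
  have htT : t ∣ Nat.card T := by
    obtain ⟨k, hk⟩ := IsPGroup.iff_card.1 hW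
    have hk0 : k ≠ 0 := by
      intro h
      rw [h, pow_zero, Subgroup.card_eq_one] at hk
      rw [hk, Subgroup.mem_bot] at hw₁
      exact hw₁1 hw₁
    refine (dvd_pow_self t hk0).trans ?_
    rw [← hk]
    exact Subgroup.card_dvd_of_le hWT
  have hmm := mm (Ω := Ω') hq ht (Ne.symm htq) W hW (S.cf t ht htT) (by
    intro w hw hwα
    refine FaithfulSMul.eq_of_smul_eq_smul (α := Ω) fun α => ?_
    rw [one_smul]
    have h1 : π α = π (w • α) := by rw [he, hwα]
    obtain ⟨u, hu, hwu⟩ := (hπ _ _).1 h1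
    obtain ⟨k, hk⟩ := hW ⟨w, hw⟩
    have hk1 : w ^ t ^ k = 1 := by
      have h2 := congrArg (Subtype.val : W → G) hk
      simpa using h2
    have hc : Commute w u := hcm w hw u hu
    have h2 : ∀ n : ℕ, w ^ n • α = u ^ n • α := by
      intro n
      induction n with
      | zero => rw [pow_zero, pow_zero]
      | succ n ih =>
        have h3 : w * u ^ n = u ^ n * w := hc.pow_right n
        rw [pow_succ', mul_smul, ih, ← mul_smul, h3, mul_smul, hwu, ← mul_smul, ← pow_succ]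
    have h3 := h2 (t ^ k)
    rw [hk1, one_smul] at h3
    have h4 := hfree _ (Subgroup.pow_mem _ hu _) α h3.symm
    have h5 : u ^ orderOf v = 1 := by
      obtain ⟨i, rfl⟩ := Subgroup.mem_zpowers_iff.1 hu
      rw [← zpow_natCast, ← zpow_mul, mul_comm, zpow_mul, zpow_natCast, pow_orderOf_eq_one,
        one_zpow]
    have h6 : Nat.Coprime (t ^ k) (orderOf v) :=
      Nat.Coprime.pow_left _ ((Nat.coprime_primes ht hvq).2 (by
        rw [B.vo]
        exact htq))
    have h7 : u = 1 := orderOf_eq_one_iff.1 (Nat.eq_one_of_dvd_coprimes h6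
      (orderOf_dvd_of_pow_eq_one h4) (orderOf_dvd_of_pow_eq_one h5))
    rw [hwu, h7, one_smul]) (p_ord S B) ⟨w₁, hw₁, hne⟩ (by
    refine ⟨Subgroup.centralizer (W : Set G), ?_, ?_⟩
    · intro z hz y hy
      exact (Subgroup.mem_centralizer_iff.1 hz y hy).symm
    · intro hd
      have hvZ : v ∈ Subgroup.centralizer (W : Set G) := by
        rw [Subgroup.mem_centralizer_iff]
        intro w hw
        exact hcm w hw v (Subgroup.mem_zpowers v)
      have h1 : orderOf x ∣ Nat.card (Subgroup.centralizer (W : Set G)) := by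
        have h2 : orderOf (⟨v, hvZ⟩ : Subgroup.centralizer (W : Set G)) ∣
            Nat.card (Subgroup.centralizer (W : Set G)) := orderOf_dvd_natCard _
        rw [← Subgroup.orderOf_coe] at h2
        rw [← B.vo]
        exact h2
      apply hq3
      rw [← (Subgroup.centralizer (W : Set G)).card_mul_index, pow_succ']
      exact Nat.mul_dvd_mul h1 hd)
  omega

theorem b3 [Nonempty Ω] [FaithfulSMul G Ω] [MulAction.IsPretransitive G Ω] (S : St Ω L T)
    {x v p : G} {P : Subgroup G} (B : Bd L T x v p P) (hV : (Subgroup.zpowers v).Normal) :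
    P.Normal := by
  have hq : (orderOf x).Prime := S.pr x B.xL
  have hqf : Fact (orderOf x).Prime := ⟨hq⟩
  have hTn := S.nor
  have hpo := p_ord S B
  obtain ⟨W, hWn, -, hW, hpW⟩ := fitq T S.sol (fun r hr hrT => ab hr (S.cf r hr hrT)) (B.PT B.pP)
    (by
      rw [hpo]
      exact hq) (fun t ht W hWn hWT hW => b3b S B hV ht W hWn hWT hW)
  rw [hpo] at hW
  let PS : Sylow (orderOf x) G := Sylow.ofCard P (fac2 hq P B.cP (q3 S B))
  have h1 : W ≤ P := hW.le_sylow_of_normal PS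
  have h2 : Subgroup.zpowers v ≤ P := by
    rw [Subgroup.zpowers_le]
    exact B.vP
  have hpV : p ∉ Subgroup.zpowers v := by
    intro h
    apply B.xD
    rw [B.eq]
    refine Subgroup.mul_mem _ B.vD ?_
    have h3 : Subgroup.zpowers v ≤ ⁅T, T⁆ := by
      rw [Subgroup.zpowers_le]
      exact B.vD
    exact h3 h
  have h3 : W ⊔ Subgroup.zpowers v ≤ P := sup_le h1 h2
  have h4 : Nat.card (W ⊔ Subgroup.zpowers v : Subgroup G) ∣ orderOf x ^ 2 := by
    rw [← B.cP]
    exact Subgroup.card_dvd_of_le h3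
  have h5 : orderOf x < Nat.card (W ⊔ Subgroup.zpowers v : Subgroup G) := by
    by_contra hle
    push Not at hle
    have h6 : Subgroup.zpowers v = W ⊔ Subgroup.zpowers v := by
      refine Subgroup.eq_of_le_of_card_ge le_sup_right ?_
      rw [Nat.card_zpowers, B.vo]
      exact hle
    apply hpV
    rw [h6]
    exact (le_sup_left : W ≤ W ⊔ Subgroup.zpowers v) hpW
  have h6 : Nat.card (W ⊔ Subgroup.zpowers v : Subgroup G) = orderOf x ^ 2 := by
    obtain ⟨k, hk, hk2⟩ := (Nat.dvd_prime_pow hq).1 h4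
    have hk3 : k = 2 := by
      by_contra hk4
      have hk5 : k ≤ 1 := by omega
      rw [hk2] at h5
      have h7 : orderOf x ^ k ≤ orderOf x ^ 1 := Nat.pow_le_pow_right hq.pos hk5
      rw [pow_one] at h7
      omega
    rw [hk2, hk3]
  have h7 : W ⊔ Subgroup.zpowers v = P := by
    refine Subgroup.eq_of_le_of_card_ge h3 ?_
    rw [h6, B.cP]
  rw [← h7]
  infer_instance

end H12.CF
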