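import Pool.Agent.H12.CF.B2

/-!
# [H12 CF B4] the mixed case, `P` normal: impossible, 130-190 lines

`q = orderOf x`, `n = #Ω`, `V = zpowers v` normal, `P` normal, commutative, `#P = q ^ 2`, exponent `q` (generated by `v`, `p`). `z, r` from `b2b`: `fx x r (q - 1) = n (q - r)`, `z v ≠ v z`, `z` commutes with `p` (`nc`: `z ∈ T` normalises `P`). `p ≠ 1` (`x ∉ D`). `fx x ≠ 0`: `x` fixes `α`: `st P α` contains `x`, `≠ P` (`nfix`), so `st P α = zpowers x`; all `st P β` have order `q` (`st_card`).
`v` and `p` fix no point: `V` is normal (`nfix`); `P₁ := {y ∈ P : y commutes with all elements of T}` is normal in `G` (`T`, `P` normal), contains `p` (`nc`), not `v`, so `P₁ = zpowers p` (order `q`), normal, `nfix`.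
So every `st P β` is `zpowers (v ^ i * p)` for a unique `i ∈ (ZMod q)ˣ`: `i = f β` (`st P β` has order `q`, is not `V`: contains an element `v ^ i p ^ j`, `j ≠ 0`, a power of it is `v ^ i p`; `i ≠ 0` since it is not `zpowers p`). `I :=` the image of `f` in `(ZMod q)ˣ`. All fibres of `f` have `fx x` elements (`cls`, `cls_fix` for `y = x`): `n = #I fx x`, `#I ≤ q - 1`.
`z v z⁻¹ = v ^ m`, `f (z β) = m f β` (`st_smul`), so `I` is stable under multiplication with `m ≠ 1`, of order `r` in `(ZMod q)ˣ` (`z ^ r = 1`, `r` prime): `I` is a union of cosets of the subgroup of order `r`: `#I = r k`. (`MulAction` of `zpowers m` on `I` is free; or: `IsPGroup.card_modEq_card_fixedPoints` for `zpowers m`, a group of order `r`, without fixed points.)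
So `r k (q - r) = r (q - 1)`, `k (q - r) = q - 1`, `r k ≤ q - 1 = k (q - r)` gives `r ≤ q - r`; `k ≠ 1` (`r ≥ 2`), `k ≥ 2`: `2 (q - r) ≤ q - 1`, so `q + 1 ≤ 2 r ≤ q`: contradiction.
-/

set_option autoImplicit false

open scoped commutatorElement

noncomputable section

namespace H12.CF

variable {G Ω : Type} [Group G] [Finite G] [MulAction G Ω] [Finite Ω] {L : Set G} {T : Subgroup G}

/-- the arithmetic at the end -/
private theorem b4_ar {q r k F : ℕ} (hr : 2 ≤ r) (hrq : r < q) (hF : 0 < F) (hI : r * k ≤ q - 1)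
    (h : (F : ℝ) * (r * ((q : ℝ) - 1)) = ((r * k * F : ℕ) : ℝ) * ((q : ℝ) - r)) : False := by
  obtain ⟨d, rfl⟩ : ∃ d, q = r + d := ⟨q - r, by omega⟩
  have h1 : (F : ℝ) * r * (((r + d : ℕ) : ℝ) - 1 - k * d) = 0 := by
    push_cast at h ⊢
    linear_combination h
  have hF0 : (F : ℝ) ≠ 0 := by
    exact_mod_cast hF.ne'
  have hr0 : (r : ℝ) ≠ 0 := by
    have : r ≠ 0 := by omega
    exact_mod_cast this
  have h2 : ((r + d : ℕ) : ℝ) - 1 - k * d = 0 := by
    rcases mul_eq_zero.1 h1 with h3 | h3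
    · rcases mul_eq_zero.1 h3 with h4 | h4
      · exact absurd h4 hF0
      · exact absurd h4 hr0
    · exact h3
  have h3 : r + d = k * d + 1 := by
    have h4 : ((r + d : ℕ) : ℝ) = ((k * d + 1 : ℕ) : ℝ) := by
      push_cast at h2 ⊢
      linarith
    exact_mod_cast h4
  have h4 : r * k ≤ k * d := by omega
  have hk : 1 < k := by
    rcases Nat.lt_or_ge 1 k with h5 | h5
    · exact h5
    · exfalso
      have h6 : k * d ≤ 1 * d := Nat.mul_le_mul_right d h5
      omega
  have h5 : r ≤ d := by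
    have h6 : k * r ≤ k * d := by
      rw [mul_comm k r]
      exact h4
    exact Nat.le_of_mul_le_mul_left h6 (by omega)
  have h6 : 2 * d ≤ k * d := Nat.mul_le_mul_right d hk
  omega

omit [Finite G] in
private theorem b4_mod {v : G} {q : ℕ} (hv : orderOf v = q) (n : ℕ) : v ^ (n % q) = v ^ n := by
  rw [← hv, pow_mod_orderOf]

omit [Finite G] in
private theorem b4_pow {v : G} {q : ℕ} [NeZero q] (hv : orderOf v = q) (i j : ZMod q) :
    v ^ i.val * v ^ j.val = v ^ (i + j).val := by
  rw [← pow_add, ZMod.val_add, b4_mod hv]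

omit [Finite G] in
private theorem b4_inj {v : G} {q : ℕ} [NeZero q] (hv : orderOf v = q) {i j : ZMod q}
    (h : v ^ i.val = v ^ j.val) : i = j := by
  refine ZMod.val_injective q ?_
  refine pow_injOn_Iio_orderOf ?_ ?_ h
  · rw [Set.mem_Iio, hv]
    exact ZMod.val_lt i
  · rw [Set.mem_Iio, hv]
    exact ZMod.val_lt j

omit [Finite G] in
private theorem b4_mul {v : G} {q : ℕ} [NeZero q] (hv : orderOf v = q) (i j : ZMod q) :
    (v ^ i.val) ^ j.val = v ^ (i * j).val := by
  rw [← pow_mul, ZMod.val_mul, b4_mod hv]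

private theorem b4_gen {v w : G} {q : ℕ} [NeZero q] (hv : orderOf v = q)
    (hw : w ∈ Subgroup.zpowers v) : ∃ i : ZMod q, v ^ i.val = w := by
  obtain ⟨n, hn⟩ := Submonoid.mem_powers_iff _ _ |>.1 (mem_powers_iff_mem_zpowers.2 hw)
  refine ⟨(n : ZMod q), ?_⟩
  rw [ZMod.val_natCast, b4_mod hv, hn]

/-- the number of the classes: a set `I` without `0`, stable under multiplication with `m` -/
private theorem b4_dvd {q r : ℕ} [Fact q.Prime] (hr : r.Prime) (m : ZMod q) (hm : m ≠ 1)
    (hmr : m ^ r = 1) (I : Finset (ZMod q)) (h0 : (0 : ZMod q) ∉ I) (hI : ∀ i ∈ I, m * i ∈ I) :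
    r ∣ I.card := by
  classical
  have : Fact r.Prime := ⟨hr⟩
  let f : Function.End {i // i ∈ I} := fun i => ⟨m * i.1, hI i.1 i.2⟩
  have hf : ∀ (k : ℕ) (i : {i // i ∈ I}), ((f ^ k) i).1 = m ^ k * i.1 := by
    intro k
    induction k with
    | zero =>
      intro i
      rw [pow_zero, pow_zero, one_mul]
      rfl
    | succ k ih =>
      intro i
      rw [pow_succ']
      show m * ((f ^ k) i).1 = _
      rw [ih i, pow_succ', mul_assoc]
  have h1 : f ^ r ^ 1 = 1 := by
    rw [pow_one]
    funext i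
    refine Subtype.ext ?_
    rw [hf, hmr, one_mul]
    rfl
  have h2 := Equiv.Perm.card_fixedPoints_modEq h1
  have h3 : Fintype.card (Function.fixedPoints f) = 0 := by
    rw [Fintype.card_eq_zero_iff]
    refine ⟨fun i => ?_⟩
    have h4 : f i.1 = i.1 := i.2
    have h5 : m * i.1.1 = i.1.1 := congrArg Subtype.val h4
    have h6 : (m - 1) * i.1.1 = 0 := by
      rw [sub_mul, one_mul, h5, sub_self]
    rcases mul_eq_zero.1 h6 with h7 | h7
    · exact hm (sub_eq_zero.1 h7)
    · exact h0 (h7 ▸ i.1.2)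
  rw [h3, Fintype.card_coe] at h2
  exact (Nat.modEq_zero_iff_dvd).1 h2

theorem b4 [Nonempty Ω] [FaithfulSMul G Ω] [MulAction.IsPretransitive G Ω] (S : St Ω L T)
    {x v p : G} {P : Subgroup G} (B : Bd L T x v p P) (hV : (Subgroup.zpowers v).Normal)
    (hP : P.Normal) : False := by
  classical
  have hq : (orderOf x).Prime := S.pr x B.xL
  have : Fact (orderOf x).Prime := ⟨hq⟩
  have : NeZero (orderOf x) := ⟨hq.ne_zero⟩
  have := hV
  have := hP
  have := S.nor
  have hΩ : Fintype Ω := Fintype.ofFinite Ω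
  obtain ⟨hfx, z, hzL, hzv, -, -, hrq, heq⟩ := b2b S B hV
  have hr : (orderOf z).Prime := S.pr z hzL
  have hpc : ∀ g ∈ T, g * p = p * g := by
    intro g hg
    refine B.nc g hg ?_
    rw [Subgroup.normalizer_eq_top]
    exact Subgroup.mem_top g
  have hvD : Subgroup.zpowers v ≤ (⁅T, T⁆ : Subgroup G) := by
    rw [Subgroup.zpowers_le]
    exact B.vD
  have hpV : p ∉ Subgroup.zpowers v := by
    intro h
    refine B.xD ?_
    rw [B.eq]
    exact Subgroup.mul_mem _ B.vD (hvD h)
  have hp1 : p ≠ 1 := by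
    rintro rfl
    exact hpV (Subgroup.one_mem _)
  have hv1 : v ≠ 1 := by
    rintro rfl
    have := B.vo
    rw [orderOf_one] at this
    exact hq.one_lt.ne this
  have hvq : v ^ orderOf x = 1 := by
    rw [← B.vo, pow_orderOf_eq_one]
  have hxP : x ∈ P := by
    rw [B.eq]
    exact P.mul_mem B.vP B.pP
  have hx1 : x ≠ 1 := by
    rintro rfl
    rw [orderOf_one] at hq
    exact Nat.not_prime_one hq
  have hPne : P ≠ ⊥ := by
    intro h
    rw [h, Subgroup.mem_bot] at hxP
    exact hx1 hxP
  -- all stabilisers in `P` have order `q`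
  obtain ⟨α, hα⟩ := fx_ne hfx
  have hca : Nat.card (st P α) = orderOf x := by
    have h1 : Nat.card (st P α) ∣ orderOf x ^ 2 := by
      rw [← B.cP]
      exact Subgroup.card_dvd_of_le inf_le_left
    obtain ⟨k, hk, hk2⟩ := (Nat.dvd_prime_pow hq).1 h1
    have hk0 : k ≠ 0 := by
      rintro rfl
      rw [pow_zero] at hk2
      have h2 : st P α = ⊥ := Subgroup.card_eq_one.1 hk2
      have h3 : x ∈ st P α := Subgroup.mem_inf.2 ⟨hxP, hα⟩
      rw [h2, Subgroup.mem_bot] at h3
      exact hx1 h3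
    have hk1 : k ≠ 2 := by
      rintro rfl
      refine hPne (nfix P α fun w hw => ?_)
      have h2 : st P α = P := by
        refine Subgroup.eq_of_le_of_card_ge inf_le_left ?_
        rw [hk2, B.cP]
      have h3 : w ∈ st P α := by
        rw [h2]
        exact hw
      exact (Subgroup.mem_inf.1 h3).2
    have hk3 : k = 1 := by omega
    rw [hk2, hk3, pow_one]
  have hcst : ∀ β : Ω, Nat.card (st P β) = orderOf x := fun β => by rw [st_card P β α, hca]
  -- `v` and its powers fix no point
  have hvf : ∀ β : Ω, ∀ i : ZMod (orderOf x), (v ^ i.val) • β = β → i = 0 := by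
    intro β i hi
    by_contra hne
    have h1 : Subgroup.zpowers v ≠ ⊥ := by
      rw [Ne, Subgroup.zpowers_eq_bot]
      exact hv1
    refine h1 (nfix _ β fun w hw => ?_)
    have h2 : Subgroup.zpowers (v ^ i.val) = Subgroup.zpowers v := by
      refine Subgroup.eq_of_le_of_card_ge ?_ ?_
      · rw [Subgroup.zpowers_le]
        exact Subgroup.pow_mem _ (Subgroup.mem_zpowers v) _
      · rw [Nat.card_zpowers, Nat.card_zpowers, B.vo]
        have h3 : orderOf (v ^ i.val) = orderOf x := by
          refine orderOf_eq_prime ?_ ?_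
          · rw [← pow_mul, mul_comm, pow_mul, hvq, one_pow]
          · intro h4
            refine hne (b4_inj B.vo ?_)
            rw [h4, ZMod.val_zero, pow_zero]
        rw [h3]
    have h3 : Subgroup.zpowers v ≤ MulAction.stabilizer G β := by
      rw [← h2, Subgroup.zpowers_le]
      exact hi
    exact h3 hw
  -- `p` fixes no point
  have hpf : ∀ β : Ω, p • β ≠ β := by
    intro β hβ
    let P₁ : Subgroup G := P ⊓ Subgroup.centralizer (T : Set G)
    have hN : P₁.Normal := by
      refine ⟨fun y hy g => Subgroup.mem_inf.2 ⟨hP.conj_mem y hy.1 g, ?_⟩⟩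
      rw [Subgroup.mem_centralizer_iff]
      intro t ht
      have h1 : g⁻¹ * t * g ∈ T := by
        have h2 := S.nor.conj_mem t ht g⁻¹
        rwa [inv_inv] at h2
      have h2 := Subgroup.mem_centralizer_iff.1 hy.2 _ h1
      calc t * (g * y * g⁻¹) = g * ((g⁻¹ * t * g) * y) * g⁻¹ := by group
        _ = g * (y * (g⁻¹ * t * g)) * g⁻¹ := by rw [h2]
        _ = g * y * g⁻¹ * t := by group
    have hpP₁ : p ∈ P₁ := by
      refine Subgroup.mem_inf.2 ⟨B.pP, ?_⟩
      rw [Subgroup.mem_centralizer_iff]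
      exact hpc
    have hvP₁ : v ∉ P₁ := by
      intro h
      obtain ⟨g, hg, -, hgv⟩ := B.nv
      exact hgv (Subgroup.mem_centralizer_iff.1 h.2 g hg)
    have hop : orderOf p = orderOf x := orderOf_eq_prime B.po hp1
    have h1 : Subgroup.zpowers p = P₁ := by
      refine Subgroup.eq_of_le_of_card_ge ?_ ?_
      · rw [Subgroup.zpowers_le]
        exact hpP₁
      · rw [Nat.card_zpowers, hop]
        have h2 : Nat.card P₁ ∣ orderOf x ^ 2 := by
          rw [← B.cP]
          exact Subgroup.card_dvd_of_le inf_le_left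
        obtain ⟨k, hk, hk2⟩ := (Nat.dvd_prime_pow hq).1 h2
        have hk1 : k ≠ 2 := by
          rintro rfl
          have h3 : P₁ = P := by
            refine Subgroup.eq_of_le_of_card_ge inf_le_left ?_
            rw [hk2, B.cP]
          exact hvP₁ (h3 ▸ B.vP)
        rw [hk2]
        calc orderOf x ^ k ≤ orderOf x ^ 1 := Nat.pow_le_pow_right hq.pos (by omega)
          _ = orderOf x := pow_one _
    have := hN
    have h2 : P₁ = ⊥ := by
      refine nfix P₁ β fun w hw => ?_
      have h3 : Subgroup.zpowers p ≤ MulAction.stabilizer G β := by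
        rw [Subgroup.zpowers_le]
        exact hβ
      rw [← h1] at hw
      exact h3 hw
    rw [h2, Subgroup.mem_bot] at hpP₁
    exact hp1 hpP₁
  -- the class of a point
  have hex : ∀ β : Ω, ∃ i : ZMod (orderOf x), (v ^ i.val * p) • β = β := by
    intro β
    let φ : Subgroup.zpowers v × st P β → P := fun w =>
      ⟨(w.1 : G) * (w.2 : G), P.mul_mem ((Subgroup.zpowers_le.2 B.vP) w.1.2) w.2.2.1⟩
    have hφ : Function.Injective φ := by
      intro w w' hw
      have h1 : (w.1 : G) * (w.2 : G) = (w'.1 : G) * (w'.2 : G) := congrArg Subtype.val hw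
      have h2 : (w'.1 : G)⁻¹ * (w.1 : G) = (w'.2 : G) * (w.2 : G)⁻¹ := by
        rw [inv_mul_eq_iff_eq_mul, ← mul_assoc, eq_mul_inv_iff_mul_eq]
        exact h1
      have h3 : (w'.1 : G)⁻¹ * (w.1 : G) ∈ Subgroup.zpowers v :=
        Subgroup.mul_mem _ (Subgroup.inv_mem _ w'.1.2) w.1.2
      have h4 : (w'.1 : G)⁻¹ * (w.1 : G) ∈ MulAction.stabilizer G β := by
        rw [h2]
        exact Subgroup.mul_mem _ w'.2.2.2 (Subgroup.inv_mem _ w.2.2.2)
      have h5 : (w'.1 : G)⁻¹ * (w.1 : G) = 1 := by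
        obtain ⟨i, hi⟩ := b4_gen B.vo h3
        rw [← hi] at h4
        have h8 : i = 0 := hvf β i h4
        rw [← hi, h8, ZMod.val_zero, pow_zero]
      have h6 : (w.1 : G) = (w'.1 : G) := (inv_mul_eq_one.1 h5).symm
      have h7 : (w.2 : G) = (w'.2 : G) := by
        rw [h6] at h1
        exact mul_left_cancel h1
      exact Prod.ext (Subtype.ext h6) (Subtype.ext h7)
    have hb : Function.Bijective φ := by
      refine hφ.bijective_of_nat_card_le ?_
      rw [Nat.card_prod, Nat.card_zpowers, hcst, B.vo, B.cP, sq]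
    obtain ⟨⟨a, b⟩, hab⟩ := hb.2 ⟨p, B.pP⟩
    have h1 : (a : G) * (b : G) = p := congrArg Subtype.val hab
    obtain ⟨i, hi⟩ := b4_gen B.vo a.2
    refine ⟨-i, ?_⟩
    have h2 : v ^ (-i).val * v ^ i.val = 1 := by
      rw [b4_pow B.vo, neg_add_cancel, ZMod.val_zero, pow_zero]
    have h3 : v ^ (-i).val * p = b := by
      rw [← h1, ← hi, ← mul_assoc, h2, one_mul]
    rw [h3]
    exact b.2.2
  have huq : ∀ (β : Ω) (i j : ZMod (orderOf x)), (v ^ i.val * p) • β = β →
      (v ^ j.val * p) • β = β → i = j := by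
    intro β i j hi hj
    have h1 : v ^ i.val * p = v ^ (i - j).val * (v ^ j.val * p) := by
      rw [← mul_assoc, b4_pow B.vo, sub_add_cancel]
    have h2 : (v ^ (i - j).val) • β = β := by
      rw [h1, mul_smul, hj] at hi
      exact hi
    exact sub_eq_zero.1 (hvf β _ h2)
  choose f hf using hex
  have hff : ∀ (β : Ω) (i : ZMod (orderOf x)), (v ^ i.val * p) • β = β ↔ f β = i := by
    intro β i
    constructor
    · intro h
      exact huq β _ _ (hf β) h
    · rintro rfl
      exact hf β
  let I : Finset (ZMod (orderOf x)) := Finset.univ.image f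
  have h0I : (0 : ZMod (orderOf x)) ∉ I := by
    intro h
    obtain ⟨β, -, hβ⟩ := Finset.mem_image.1 h
    have h1 := hf β
    rw [hβ, ZMod.val_zero, pow_zero, one_mul] at h1
    exact hpf β h1
  have hIc : I.card ≤ orderOf x - 1 := by
    have h1 : I ⊆ Finset.univ.erase 0 := by
      intro i hi
      refine Finset.mem_erase.2 ⟨?_, Finset.mem_univ _⟩
      rintro rfl
      exact h0I hi
    have h2 := Finset.card_le_card h1
    rw [Finset.card_erase_of_mem (Finset.mem_univ _), Finset.card_univ, ZMod.card] at h2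
    exact h2
  -- all fibres have `fx x` elements
  have hfib : ∀ i ∈ I, (Finset.univ.filter fun β : Ω => f β = i).card = fx Ω x := by
    intro i hi
    obtain ⟨β, -, hβ⟩ := Finset.mem_image.1 hi
    have hy : v ^ i.val * p ∈ P := P.mul_mem (P.pow_mem B.vP _) B.pP
    have hoy : orderOf (v ^ i.val * p) = orderOf x := by
      refine orderOf_eq_prime ?_ ?_
      · have h1 : Commute (v ^ i.val) p := (B.Pc _ (P.pow_mem B.vP _) _ B.pP : _)
        rw [h1.mul_pow, B.po, mul_one, ← pow_mul, mul_comm, pow_mul, hvq, one_pow]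
      · intro h1
        refine hpV ?_
        have h2 : p = (v ^ i.val)⁻¹ := (inv_eq_of_mul_eq_one_right h1).symm
        rw [h2]
        exact Subgroup.inv_mem _ (Subgroup.pow_mem _ (Subgroup.mem_zpowers v) _)
    have h1 : (v ^ i.val * p) • β = β := (hff β i).2 hβ
    have h2 := cls_fix P hy (by rw [hoy]; exact hq) (fun γ => by rw [hcst, hoy]) β h1
    have h3 := cls_fix P hxP hq hcst α hα
    rw [h3, cls P α β, ← h2]
    unfold fx
    rw [Nat.card_eq_fintype_card, Fintype.card_subtype]
    refine congrArg Finset.card (Finset.filter_congr fun γ _ => ?_)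
    exact (hff γ i).symm
  have hn : Nat.card Ω = I.card * fx Ω x := by
    rw [Nat.card_eq_fintype_card, ← Finset.card_univ,
      Finset.card_eq_sum_card_image f Finset.univ, Finset.sum_const_nat hfib]
  -- the action of `z`
  obtain ⟨m, hm⟩ := b4_gen (w := z * v * z⁻¹) B.vo (hV.conj_mem v (Subgroup.mem_zpowers v) z)
  have hzp : z * p * z⁻¹ = p := by
    rw [hpc z (S.mem hzL), mul_inv_cancel_right]
  have hzi : ∀ i : ZMod (orderOf x), z * v ^ i.val * z⁻¹ = v ^ (m * i).val := by
    intro i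
    rw [← conj_pow, ← hm, b4_mul B.vo]
  have hIm : ∀ i ∈ I, m * i ∈ I := by
    intro i hi
    obtain ⟨β, -, hβ⟩ := Finset.mem_image.1 hi
    refine Finset.mem_image.2 ⟨z • β, Finset.mem_univ _, ?_⟩
    refine (hff _ _).1 ?_
    have h1 : v ^ (m * i).val * p = z * (v ^ i.val * p) * z⁻¹ := by
      calc v ^ (m * i).val * p = (z * v ^ i.val * z⁻¹) * (z * p * z⁻¹) := by rw [hzi, hzp]
        _ = z * (v ^ i.val * p) * z⁻¹ := by group
    rw [h1, mul_smul, mul_smul, inv_smul_smul, (hff β i).2 hβ]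
  have hv1' : v ^ (1 : ZMod (orderOf x)).val = v := by
    have : Fact (1 < orderOf x) := ⟨hq.one_lt⟩
    rw [ZMod.val_one, pow_one]
  have hm1 : m ≠ 1 := by
    rintro rfl
    refine hzv ?_
    rw [hv1'] at hm
    exact mul_inv_eq_iff_eq_mul.1 hm.symm
  have hmr : m ^ orderOf z = 1 := by
    have h1 : ∀ k : ℕ, z ^ k * v * (z ^ k)⁻¹ = v ^ (m ^ k).val := by
      intro k
      induction k with
      | zero => rw [pow_zero, pow_zero, one_mul, inv_one, mul_one, hv1']
      | succ k ih =>
        have h2 : z ^ (k + 1) * v * (z ^ (k + 1))⁻¹ = z * (z ^ k * v * (z ^ k)⁻¹) * z⁻¹ := by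
          rw [pow_succ']
          group
        rw [h2, ih, hzi, pow_succ']
    have h2 := h1 (orderOf z)
    rw [pow_orderOf_eq_one, one_mul, inv_one, mul_one] at h2
    refine b4_inj B.vo ?_
    rw [← h2, hv1']
  obtain ⟨k, hk⟩ := b4_dvd hr m hm1 hmr I h0I hIm
  refine b4_ar hr.two_le hrq (Nat.pos_of_ne_zero hfx) (k := k) (by rw [← hk]; exact hIc) ?_
  rw [← hk, ← hn]
  exact heq

end H12.CF
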