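import Pool.Agent.H12.CF.S2

/-!
# [H12 CF NU] the decomposition of the derived group, 110-160 lines

`D = ⁅T, T⁆`. For `y ∈ L ⊓ D` let `W_y` be as in `s1`. `N := ⨆` of all the `W_y` (or the closure of the union): normal (`sup` of normal subgroups), `≤ D`, commutes with all of `D` (closure induction), so it is commutative; `x ^ m = 1` for `x ∈ N` with `m` the product of the primes `orderOf y`, `y ∈ L ⊓ D` (a `Finset` of primes, squarefree: `Finset.prod` of distinct primes; closure induction in a commutative setting).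
`Nat.Coprime #N N.index`: a prime `p ∣ #N` divides `m` (an element of order `p`), `p = orderOf y`, `W_y ≤ N`, `#W_y = p ^ 2`, `¬ p ^ 3 ∣ #G` (`S.cf`), so `¬ p ∣ W_y.index` (`ntd`), `N.index ∣ W_y.index`.
`U`: `N.subgroupOf D` is normal in `D` of coprime index: a complement `K` (`Subgroup.exists_right_complement'_of_coprime`). `U := {d ∈ D | d ^ #K = 1}`: for `d = n k`, `n ∈ N` (central in `D`), `k ∈ K`: `d ^ #K = n ^ #K = 1` iff `n = 1` (coprime orders): so it is the image of `K`, a subgroup, and it is normal in `G` (`D` is normal).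
-/

set_option autoImplicit false

open scoped commutatorElement

noncomputable section

namespace H12.CF

open H71.GT

variable {G Ω : Type} [Group G] [Finite G] [MulAction G Ω] [Finite Ω] {L : Set G} {T : Subgroup G}

/-- the decomposition of the derived group -/
structure Nu {G : Type} [Group G] (L : Set G) (T N U : Subgroup G) : Prop where
  nN : N.Normal
  nU : U.Normal
  sup : N ⊔ U = ⁅T, T⁆
  inf : N ⊓ U = ⊥
  cen : ∀ d ∈ (⁅T, T⁆ : Subgroup G), ∀ w ∈ N, d * w = w * d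
  cop : Nat.Coprime (Nat.card N) N.index
  sqf : ∃ m : ℕ, Squarefree m ∧ ∀ x ∈ N, x ^ m = 1
  typ : ∀ y ∈ L, y ∈ (⁅T, T⁆ : Subgroup G) → y ∈ N

/-- an element killed by coprime powers -/
private theorem nu_one {G : Type} [Group G] {x : G} {a b : ℕ} (h : Nat.Coprime a b) (ha : x ^ a = 1)
    (hb : x ^ b = 1) : x = 1 := by
  have h1 := Nat.dvd_gcd (orderOf_dvd_of_pow_eq_one ha) (orderOf_dvd_of_pow_eq_one hb)
  rw [Nat.Coprime.gcd_eq_one h, Nat.dvd_one] at h1
  exact orderOf_eq_one_iff.1 h1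

/-- the typed part -/
private theorem nu_n [Nonempty Ω] [FaithfulSMul G Ω] [MulAction.IsPretransitive G Ω]
    (S : St Ω L T) : ∃ N : Subgroup G, N.Normal ∧ N ≤ ⁅T, T⁆ ∧
      (∀ d ∈ (⁅T, T⁆ : Subgroup G), ∀ w ∈ N, d * w = w * d) ∧
      Nat.Coprime (Nat.card N) N.index ∧ (∃ m : ℕ, Squarefree m ∧ ∀ x ∈ N, x ^ m = 1) ∧
      ∀ y ∈ L, y ∈ (⁅T, T⁆ : Subgroup G) → y ∈ N := by
  classical
  have hch := fun y : {y : G // y ∈ L ∧ y ∈ (⁅T, T⁆ : Subgroup G)} => s1 S y.2.1 y.2.2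
  choose W hWn hWD hWc hWe hyW hcom using hch
  obtain ⟨N, hN⟩ : ∃ N : Subgroup G, N = ⨆ y, W y := ⟨_, rfl⟩
  have hWN : ∀ y, W y ≤ N := fun y => hN ▸ le_iSup W y
  have hle : ∀ K : Subgroup G, (∀ y, W y ≤ K) → N ≤ K := fun K hK => hN ▸ iSup_le hK
  have hND : N ≤ ⁅T, T⁆ := hle _ hWD
  have hcen : ∀ d ∈ (⁅T, T⁆ : Subgroup G), ∀ w ∈ N, d * w = w * d := by
    intro d hd w hw
    have h1 : N ≤ Subgroup.centralizer ((⁅T, T⁆ : Subgroup G) : Set G) := by
      refine hle _ fun y w hw => ?_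
      rw [Subgroup.mem_centralizer_iff]
      exact fun d hd => hcom y d hd w hw
    exact Subgroup.mem_centralizer_iff.1 (h1 hw) d hd
  have hNn : N.Normal := by
    refine ⟨fun n hn g => ?_⟩
    have h1 : N ≤ N.comap (MulAut.conj g).toMonoidHom := by
      refine hle _ fun y w hw => ?_
      rw [Subgroup.mem_comap]
      exact hWN y ((hWn y).conj_mem w hw g)
    exact h1 hn
  obtain ⟨P, hP⟩ : ∃ P : Finset ℕ, ∀ p, p ∈ P ↔
      ∃ y : {y : G // y ∈ L ∧ y ∈ (⁅T, T⁆ : Subgroup G)}, orderOf (y : G) = p := by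
    have hf : (Set.range fun y : {y : G // y ∈ L ∧ y ∈ (⁅T, T⁆ : Subgroup G)} =>
        orderOf (y : G)).Finite := Set.finite_range _
    exact ⟨hf.toFinset, fun p => by rw [Set.Finite.mem_toFinset]; exact Iff.rfl⟩
  have hPp : ∀ p ∈ P, p.Prime := by
    intro p hp
    obtain ⟨y, rfl⟩ := (hP p).1 hp
    exact S.pr y y.2.1
  have hm : ∀ x ∈ N, x ^ (∏ p ∈ P, p) = 1 := by
    obtain ⟨K, hK⟩ : ∃ K : Subgroup G, ∀ x, x ∈ K ↔ x ∈ N ∧ x ^ (∏ p ∈ P, p) = 1 :=
      ⟨{ carrier := {x | x ∈ N ∧ x ^ (∏ p ∈ P, p) = 1}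
         mul_mem' := by
           rintro a b ⟨ha, ha1⟩ ⟨hb, hb1⟩
           refine ⟨N.mul_mem ha hb, ?_⟩
           have h1 : Commute a b := hcen a (hND ha) b hb
           rw [h1.mul_pow, ha1, hb1, mul_one]
         one_mem' := ⟨N.one_mem, one_pow _⟩
         inv_mem' := by
           rintro a ⟨ha, ha1⟩
           exact ⟨N.inv_mem ha, by rw [inv_pow, ha1, inv_one]⟩ }, fun x => Iff.rfl⟩
    have h1 : N ≤ K := by
      refine hle _ fun y w hw => ?_
      rw [hK]
      refine ⟨hWN y hw, ?_⟩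
      obtain ⟨c, hc⟩ : orderOf (y : G) ∣ ∏ p ∈ P, p :=
        Finset.dvd_prod_of_mem (fun p => p) ((hP _).2 ⟨y, rfl⟩)
      rw [hc, pow_mul, hWe y w hw, one_pow]
    exact fun x hx => ((hK x).1 (h1 hx)).2
  refine ⟨N, hNn, hND, hcen, ?_, ⟨∏ p ∈ P, p, ?_, hm⟩, fun y hy hyD => hWN ⟨y, hy, hyD⟩ (hyW ⟨y, hy, hyD⟩)⟩
  · by_contra hcop
    obtain ⟨p, hp, h1, h2⟩ := Nat.Prime.not_coprime_iff_dvd.1 hcop
    have : Fact p.Prime := ⟨hp⟩
    obtain ⟨x, hx⟩ := exists_prime_orderOf_dvd_card' p h1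
    have h3 : (x : G) ^ (∏ p ∈ P, p) = 1 := hm x x.2
    have h4 : p ∣ ∏ p ∈ P, p := by
      rw [← hx, ← Subgroup.orderOf_coe]
      exact orderOf_dvd_of_pow_eq_one h3
    obtain ⟨q, hq, hpq⟩ := (Prime.dvd_finsetProd_iff hp.prime _).1 h4
    have h5 : p = q := (Nat.prime_dvd_prime_iff_eq hp (hPp q hq)).1 hpq
    obtain ⟨y, hy⟩ := (hP q).1 hq
    have hyT : (y : G) ∈ T := S.mem y.2.1
    have hpT : p ∣ Nat.card T := by
      have h6 := orderOf_dvd_natCard (⟨y, hyT⟩ : T)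
      rw [← Subgroup.orderOf_coe] at h6
      rw [h5, ← hy]
      exact h6
    have h7 : Nat.card (W y) = p ^ 2 := by
      rw [hWc, hy, h5]
    exact ntd hp (S.cf p hp hpT) (W y) N h7 (hWN y) h2
  · refine Finset.squarefree_prod_of_pairwise_isCoprime (fun p hp q hq hpq => ?_)
      fun p hp => (hPp p hp).squarefree
    rw [Function.onFun, ← Nat.coprime_iff_isRelPrime]
    exact (Nat.coprime_primes (hPp p hp) (hPp q hq)).2 hpq

theorem exists_nu [Nonempty Ω] [FaithfulSMul G Ω] [MulAction.IsPretransitive G Ω]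
    (S : St Ω L T) : ∃ N U : Subgroup G, Nu L T N U := by
  obtain ⟨N, hNn, hND, hcen, hcop, hsqf, htyp⟩ := nu_n S
  have hDn : (⁅T, T⁆ : Subgroup G).Normal := S.dn
  obtain ⟨D, hD⟩ : ∃ D : Subgroup G, D = ⁅T, T⁆ := ⟨_, rfl⟩
  rw [← hD] at hDn hND hcen
  have hN'n : (N.subgroupOf D).Normal := inferInstance
  have hc1 : Nat.card (N.subgroupOf D) = Nat.card N :=
    Nat.card_congr (Subgroup.subgroupOfEquivOfLe hND).toEquiv
  have hc2 : Nat.Coprime (Nat.card (N.subgroupOf D)) (N.subgroupOf D).index := by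
    rw [hc1]
    exact Nat.Coprime.coprime_dvd_right (Subgroup.relIndex_dvd_index_of_normal N D) hcop
  obtain ⟨K, hK⟩ := Subgroup.exists_right_complement'_of_coprime hc2
  have hc3 : Nat.Coprime (Nat.card N) (Nat.card K) := by
    rw [← hc1]
    rwa [hK.symm.index_eq_card] at hc2
  have hKp : ∀ k ∈ K, k ^ Nat.card K = 1 := by
    intro k hk
    have h1 : (⟨k, hk⟩ : K) ^ Nat.card K = 1 := pow_card_eq_one'
    exact congrArg Subtype.val h1
  have hNp : ∀ n ∈ N, n ^ Nat.card N = 1 := by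
    intro n hn
    have h1 : (⟨n, hn⟩ : N) ^ Nat.card N = 1 := pow_card_eq_one'
    exact congrArg Subtype.val h1
  have hU : ∀ x, x ∈ K.map D.subtype ↔ x ∈ D ∧ x ^ Nat.card K = 1 := by
    intro x
    constructor
    · rintro ⟨k, hk, rfl⟩
      refine ⟨k.2, ?_⟩
      rw [← map_pow, hKp k hk, map_one]
    · rintro ⟨hx, hxp⟩
      have h1 : (⟨x, hx⟩ : D) ∈ N.subgroupOf D ⊔ K := by
        rw [hK.sup_eq_top]
        trivial
      obtain ⟨n, hn, k, hk, hnk⟩ := Subgroup.mem_sup_of_normal_left.1 h1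
      have hn' : (n : G) ∈ N := Subgroup.mem_subgroupOf.1 hn
      have hnk' : (n : G) * (k : G) = x := congrArg Subtype.val hnk
      have h2 : Commute (n : G) (k : G) := (hcen k k.2 n hn').symm
      have h3 : (k : G) ^ Nat.card K = 1 := by
        have h4 := congrArg Subtype.val (hKp k hk)
        exact h4
      have h5 : (n : G) ^ Nat.card K = 1 := by
        rw [← hnk', h2.mul_pow, h3, mul_one] at hxp
        exact hxp
      have h6 : (n : G) = 1 := nu_one hc3 (hNp n hn') h5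
      refine ⟨k, hk, ?_⟩
      rw [← hnk', h6, one_mul]
      rfl
  refine ⟨N, K.map D.subtype, hNn, ?_, ?_, ?_, ?_, hcop, hsqf, htyp⟩
  · refine ⟨fun u hu g => ?_⟩
    rw [hU] at hu ⊢
    refine ⟨hDn.conj_mem u hu.1 g, ?_⟩
    rw [conj_pow, hu.2, mul_one, mul_inv_cancel]
  · rw [← hD]
    apply le_antisymm
    · refine sup_le hND ?_
      rintro x hx
      exact ((hU x).1 hx).1
    · intro x hx
      have h1 : (⟨x, hx⟩ : D) ∈ N.subgroupOf D ⊔ K := by
        rw [hK.sup_eq_top]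
        trivial
      obtain ⟨n, hn, k, hk, hnk⟩ := Subgroup.mem_sup_of_normal_left.1 h1
      have hn' : (n : G) ∈ N := Subgroup.mem_subgroupOf.1 hn
      have hnk' : (n : G) * (k : G) = x := congrArg Subtype.val hnk
      rw [← hnk']
      exact Subgroup.mul_mem_sup hn' (Subgroup.mem_map_of_mem _ hk)
  · rw [eq_bot_iff]
    rintro x ⟨hx, hxU⟩
    rw [Subgroup.mem_bot]
    exact nu_one hc3 (hNp x hx) ((hU x).1 hxU).2
  · rw [← hD]
    exact hcen

end H12.CF
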