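import Pool.Agent.H12.CF.Cls
import Pool.Agent.H12.CF.Nu
import Pool.Agent.H71.KA.Fn2

/-!
# [H12 CF BAR] the group `G ⧸ U`, 100-150 lines

`H71.KA.base_of2` for `G ⧸ U`, `C = Im L U`, `N.map (QuotientGroup.mk' U)`, `mk (g i)`:
* orders: `x ∈ L`, `x ∉ U` (otherwise `x ∈ ⁅T, T⁆` (`H.sup`), `x ∈ N` (`H.typ`), `x ∈ N ⊓ U = ⊥`), so `orderOf (mk x) ∣ orderOf x` is not `1`: it is the prime `orderOf x`.
* conjugation: `S.cj`. `N` commutative (`H.cen`), exponent (`H.sqf`). `⁅mk x, mk y⁆ = mk ⁅x, y⁆`, `⁅x, y⁆ ∈ ⁅T, T⁆ = N ⊔ U` (`S.mem`), so in the image of `N`. The order of the image of `N` divides `#N`, the index divides `N.index` (`Subgroup.index_map_dvd`).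
* `uni`: `mk (g i)`, `mk (g j)` conjugate: `x := y (g i) y⁻¹ ∈ L`, `x' := g j ∈ L`, `x⁻¹ x' ∈ U ≤ ⁅T, T⁆`. If `x ∉ ⁅T, T⁆`: `cl1`. Otherwise `x, x' ∈ N` (`H.typ`), `x⁻¹ x' ∈ N ⊓ U = ⊥`. So `g i`, `g j` are conjugate, `i = j`.
* `hI`: `mk x` conjugate to `mk (g i)` is the image of a conjugate of `g i`.
-/

set_option autoImplicit false

open scoped commutatorElement

noncomputable section

namespace H12.CF

open H71.KA H88.LH H35.SN

variable {G Ω : Type} [Group G] [Finite G] [MulAction G Ω] [Finite Ω] {L : Set G} {T : Subgroup G}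

theorem bar (hst : STP) (hk : K2C) [Nonempty Ω] [FaithfulSMul G Ω]
    [MulAction.IsPretransitive G Ω] (S : St Ω L T) {N U : Subgroup G} [U.Normal] (H : Nu L T N U)
    (r : ℕ) (hr : 1 ≤ r) (g : Fin r → G) (uni : ∀ i j, IsConj (g i) (g j) → i = j)
    (hI : ∀ x, x ∈ L ↔ ∃ i, IsConj x (g i)) : BASE (Im L U) r := by
  have hNn := H.nN
  have hUD : U ≤ ⁅T, T⁆ := by rw [← H.sup]; exact le_sup_right
  have hND : N ≤ ⁅T, T⁆ := by rw [← H.sup]; exact le_sup_left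
  have hinf : ∀ x, x ∈ N → x ∈ U → x = 1 := by
    intro x h1 h2
    have h3 : x ∈ N ⊓ U := ⟨h1, h2⟩
    rw [H.inf] at h3
    exact Subgroup.mem_bot.1 h3
  have hxU : ∀ x ∈ L, x ∉ U := by
    intro x hx h1
    have h2 := hinf x (H.typ x hx (hUD h1)) h1
    have h3 := S.pr x hx
    rw [h2, orderOf_one] at h3
    exact Nat.not_prime_one h3
  have hsur : Function.Surjective (QuotientGroup.mk' U) := QuotientGroup.mk'_surjective U
  have hN'n : (N.map (QuotientGroup.mk' U)).Normal := Subgroup.Normal.map hNn _ hsur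
  obtain ⟨m, hm, hNm⟩ := H.sqf
  have hgL : ∀ i, g i ∈ L := fun i => (hI (g i)).2 ⟨i, IsConj.refl _⟩
  refine base_of2 hst hk (Im L U) ?_ ?_ (N.map (QuotientGroup.mk' U)) ?_ hm ?_ ?_ ?_ r hr
    (fun i => (QuotientGroup.mk (g i) : G ⧸ U)) ?_ ?_
  · rintro _ ⟨x, hx, rfl⟩
    have h1 : orderOf (QuotientGroup.mk x : G ⧸ U) ∣ orderOf x := orderOf_map_dvd (QuotientGroup.mk' U) x
    rcases (Nat.dvd_prime (S.pr x hx)).1 h1 with h2 | h2
    · exfalso
      rw [orderOf_eq_one_iff, QuotientGroup.eq_one_iff] at h2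
      exact hxU x hx h2
    · rw [h2]
      exact S.pr x hx
  · rintro _ ⟨x, hx, rfl⟩ k
    obtain ⟨k, rfl⟩ := QuotientGroup.mk_surjective k
    exact ⟨k * x * k⁻¹, S.cj x hx k, rfl⟩
  · rintro _ ⟨x, hx, rfl⟩ _ ⟨y, hy, rfl⟩
    rw [← map_mul, ← map_mul, H.cen x (hND hx) y hy]
  · rintro _ ⟨x, hx, rfl⟩
    rw [← map_pow, hNm x hx, map_one]
  · rintro _ ⟨x, hx, rfl⟩ _ ⟨y, hy, rfl⟩
    have h1 : ⁅x, y⁆ ∈ (⁅T, T⁆ : Subgroup G) := Subgroup.commutator_mem_commutator (S.mem hx) (S.mem hy)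
    rw [← H.sup] at h1
    obtain ⟨n, hn, u, hu, e⟩ := Subgroup.mem_sup_of_normal_left.1 h1
    refine ⟨n, hn, ?_⟩
    have h2 : (QuotientGroup.mk u : G ⧸ U) = 1 := (QuotientGroup.eq_one_iff u).2 hu
    have h3 : (⁅(QuotientGroup.mk x : G ⧸ U), QuotientGroup.mk y⁆) = QuotientGroup.mk ⁅x, y⁆ :=
      (map_commutatorElement (QuotientGroup.mk' U) x y).symm
    rw [h3, ← e, QuotientGroup.mk_mul, h2, mul_one]
    rfl
  · have h1 : Nat.card (N.map (QuotientGroup.mk' U)) ∣ Nat.card N := Subgroup.card_map_dvd N _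
    have h2 : (N.map (QuotientGroup.mk' U)).index ∣ N.index := Subgroup.index_map_dvd N hsur
    exact Nat.Coprime.coprime_dvd_left h1 (Nat.Coprime.coprime_dvd_right h2 H.cop)
  · intro i j hij
    obtain ⟨y, hy⟩ := isConj_iff.1 hij
    obtain ⟨y, rfl⟩ := QuotientGroup.mk_surjective y
    have hy2 : (QuotientGroup.mk (y * g i * y⁻¹) : G ⧸ U) = QuotientGroup.mk (g j) := hy
    have hU : (y * g i * y⁻¹)⁻¹ * g j ∈ U := QuotientGroup.eq.1 hy2
    have hx := S.cj (g i) (hgL i) y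
    have hx' := hgL j
    apply uni
    by_cases hD : y * g i * y⁻¹ ∈ (⁅T, T⁆ : Subgroup G)
    · have h1 : g j ∈ (⁅T, T⁆ : Subgroup G) := by
        have h2 := Subgroup.mul_mem _ hD (hUD hU)
        rwa [mul_inv_cancel_left] at h2
      have h3 := H.typ _ hx hD
      have h4 := H.typ _ hx' h1
      have h5 := hinf _ (Subgroup.mul_mem _ (Subgroup.inv_mem _ h3) h4) hU
      rw [isConj_iff]
      refine ⟨y, ?_⟩
      exact inv_mul_eq_one.1 h5
    · obtain ⟨t, _, ht⟩ := cl1 S hx hx' hD (hUD hU)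
      rw [isConj_iff]
      refine ⟨t * y, ?_⟩
      rw [← ht]
      group
  · intro q
    constructor
    · rintro ⟨x, hx, rfl⟩
      obtain ⟨i, hi⟩ := (hI x).1 hx
      obtain ⟨c, hc⟩ := isConj_iff.1 hi
      refine ⟨i, isConj_iff.2 ⟨QuotientGroup.mk c, ?_⟩⟩
      rw [← hc]
      rfl
    · rintro ⟨i, hi⟩
      obtain ⟨c, hc⟩ := isConj_iff.1 hi.symm
      obtain ⟨c, rfl⟩ := QuotientGroup.mk_surjective c
      exact ⟨c * g i * c⁻¹, S.cj _ (hgL i) c, hc⟩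

end H12.CF
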