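import Pool.Agent.H12.CF.Ab

/-!
# [H12 CF PST] the Sylow subgroups in the mixed case, 60-90 lines

`x ∈ T`, `x ∉ D := ⁅T, T⁆`, `orderOf x = q` divides `#D`: so `q ^ 2 ∣ #T` (`q ∣ #D`, and `q ∣ [T : D]` because the image of `x` in `T / D` has order `q`), and `¬ q ^ 3 ∣ #G`. `P` a Sylow `q`-subgroup of `G`: `#P = q ^ 2`, `P ≤ T` (`[G : T]` is prime to `q`, `T` normal: all elements of order a power of `q` are in `T`). `P ⊓ D` is a Sylow `q`-subgroup of the normal subgroup `D`: its order is the `q`-part of `#D`: `q ∣ #D`, `¬ q ^ 2 ∣ #D` (otherwise `q ^ 3 ∣ #T`).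
`exists_pst`: `zpowers x` is contained in a Sylow subgroup.
-/

set_option autoImplicit false

open scoped commutatorElement

namespace H12.CF

open H71.GT

variable {G : Type} [Group G] [Finite G] {q : ℕ}

omit [Finite G] in
private theorem pst_cop {H : Subgroup G} [H.Normal] {y : G} {n : ℕ} (hn : y ^ n = 1)
    (hc : Nat.Coprime n H.index) : y ∈ H := by
  have h1 : y ^ H.index ∈ H := H.pow_index_mem y
  have h2 : ((y : G) : G ⧸ H) ^ H.index = 1 := by
    rw [← QuotientGroup.mk_pow]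
    exact (QuotientGroup.eq_one_iff _).2 h1
  have h3 : ((y : G) : G ⧸ H) ^ n = 1 := by
    rw [← QuotientGroup.mk_pow, hn]
    rfl
  have h4 := orderOf_dvd_of_pow_eq_one h2
  have h5 := orderOf_dvd_of_pow_eq_one h3
  have h6 : orderOf ((y : G) : G ⧸ H) = 1 := Nat.eq_one_of_dvd_coprimes hc h5 h4
  rw [orderOf_eq_one_iff] at h6
  exact (QuotientGroup.eq_one_iff _).1 h6

omit [Finite G] in
private theorem pst_mul {H K : Subgroup G} (h : H ≤ K) :
    Nat.card H * H.relIndex K = Nat.card K := by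
  have h1 := Subgroup.relIndex_mul_relIndex ⊥ H K bot_le h
  rw [Subgroup.relIndex_bot_left, Subgroup.relIndex_bot_left] at h1
  exact h1

theorem pst [Fact q.Prime] (hc : ¬ q ^ 3 ∣ Nat.card G) (T : Subgroup G) [T.Normal] {x : G}
    (hx : x ∈ T) (hxD : x ∉ (⁅T, T⁆ : Subgroup G)) (hxq : orderOf x = q)
    (hq : q ∣ Nat.card (⁅T, T⁆ : Subgroup G)) (P : Sylow q G) :
    (P : Subgroup G) ≤ T ∧ Nat.card P = q ^ 2 ∧
      Nat.card ((P : Subgroup G) ⊓ ⁅T, T⁆ : Subgroup G) = q := by
  have hqp : q.Prime := Fact.out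
  obtain ⟨D, hD⟩ : ∃ D : Subgroup G, D = ⁅T, T⁆ := ⟨_, rfl⟩
  have hDn : D.Normal := by
    rw [hD]
    infer_instance
  have hDT : D ≤ T := by
    rw [hD]
    exact Subgroup.commutator_le_right T T
  rw [← hD] at hxD hq ⊢
  have h1 : q ∣ D.relIndex T := by
    by_contra h
    have hn : (D.subgroupOf T).Normal := Subgroup.normal_subgroupOf
    have h2 : (⟨x, hx⟩ : T) ∈ D.subgroupOf T := by
      refine pst_cop (n := q) ?_ ((Nat.Prime.coprime_iff_not_dvd hqp).2 h)
      apply Subtype.ext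
      show x ^ q = 1
      rw [← hxq]
      exact pow_orderOf_eq_one x
    exact hxD h2
  have h2 : Nat.card D * D.relIndex T = Nat.card T := pst_mul hDT
  have h3 : q ^ 2 ∣ Nat.card T := by
    rw [← h2, pow_two]
    exact Nat.mul_dvd_mul hq h1
  have h4 : Nat.card T * T.index = Nat.card G := T.card_mul_index
  have h5 : ¬ q ∣ T.index := by
    intro h
    apply hc
    rw [← h4, pow_succ]
    exact Nat.mul_dvd_mul h3 h
  have h6 : q ^ 2 ∣ Nat.card G := h3.trans (Dvd.intro _ h4)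
  have hG0 : Nat.card G ≠ 0 := Nat.card_pos.ne'
  have h7 : Nat.card P = q ^ 2 := by
    rw [P.card_eq_multiplicity]
    have h8 : 2 ≤ (Nat.card G).factorization q :=
      (hqp.pow_dvd_iff_le_factorization hG0).1 h6
    have h9 : ¬ 3 ≤ (Nat.card G).factorization q := fun h =>
      hc ((hqp.pow_dvd_iff_le_factorization hG0).2 h)
    have h10 : (Nat.card G).factorization q = 2 := by omega
    rw [h10]
  have h8 : (P : Subgroup G) ≤ T := by
    intro y hy
    refine pst_cop (n := q ^ 2) ?_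
      (Nat.Coprime.pow_left 2 ((Nat.Prime.coprime_iff_not_dvd hqp).2 h5))
    have h9 := pow_card_eq_one' (x := (⟨y, hy⟩ : (P : Subgroup G)))
    have h10 : Nat.card (P : Subgroup G) = q ^ 2 := h7
    rw [h10] at h9
    exact congrArg (fun z : (P : Subgroup G) => (z : G)) h9
  refine ⟨h8, h7, ?_⟩
  have h9 : Nat.card ((P : Subgroup G) ⊓ D : Subgroup G) ∣ q ^ 2 := by
    rw [← h7]
    exact Subgroup.card_dvd_of_le inf_le_left
  have h10 : Nat.card ((P : Subgroup G) ⊓ D : Subgroup G) ∣ Nat.card D :=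
    Subgroup.card_dvd_of_le inf_le_right
  have h11 : ¬ q ^ 2 ∣ Nat.card D := by
    intro h
    apply hc
    refine dvd_trans ?_ (Dvd.intro _ h4)
    rw [← h2, pow_succ]
    exact Nat.mul_dvd_mul h h1
  obtain ⟨k, hk, hk2⟩ := (Nat.dvd_prime_pow hqp).1 h9
  have hk1 : k ≠ 2 := by
    intro h
    rw [hk2, h] at h10
    exact h11 h10
  have hk0 : k ≠ 0 := by
    intro h
    rw [h, pow_zero] at hk2
    have h12 : (P : Subgroup G) ⊓ D = ⊥ := Subgroup.card_eq_one.1 hk2
    have h13 : D.relIndex (P : Subgroup G) = q ^ 2 := by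
      rw [← Subgroup.inf_relIndex_right, inf_comm, h12, Subgroup.relIndex_bot_left]
      exact h7
    have h14 : D.relIndex ((P : Subgroup G) ⊔ D) = q ^ 2 := by
      rw [Subgroup.relIndex_sup_right, h13]
    have h15 : Nat.card D * D.relIndex ((P : Subgroup G) ⊔ D) =
        Nat.card ((P : Subgroup G) ⊔ D : Subgroup G) := pst_mul le_sup_right
    apply hc
    refine dvd_trans ?_ (Subgroup.card_subgroup_dvd_card ((P : Subgroup G) ⊔ D))
    rw [← h15, h14, pow_succ, mul_comm]
    exact Nat.mul_dvd_mul hq (dvd_refl _)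
  have hk3 : k = 1 := by omega
  rw [hk2, hk3, pow_one]

theorem exists_pst [Fact q.Prime] {x : G} (hxq : orderOf x = q) :
    ∃ P : Sylow q G, x ∈ (P : Subgroup G) := by
  have h1 : IsPGroup q (Subgroup.zpowers x) := by
    apply IsPGroup.of_card (n := 1)
    rw [Nat.card_zpowers, hxq, pow_one]
  obtain ⟨P, hP⟩ := h1.exists_le_sylow
  exact ⟨P, hP (Subgroup.mem_zpowers x)⟩

end H12.CF
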