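import Pool.Agent.H12.CF.Foc
import Pool.Agent.H12.CF.Pst

/-!
# [H12 CF BD] the data of the mixed case, 60-100 lines

* `Bd L T x v p P`: `x = v p`, `v` of order `q = orderOf x` in the derived group, `p` centralised by the normaliser of the Sylow subgroup `P` in `T`.
`bd_of`: `pst`, `dec`: `x = v p`; if `v = 1` then `x = p` is centralised. Otherwise `orderOf v = q`; `Pc`: `AbS`. `nv`: if all `h ∈ T ⊓ N(P)` commute with `v` then `foc` gives `v = 1`. `PD`: `P ⊓ D` has order `q` and contains `v ≠ 1`.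
-/

set_option autoImplicit false

open scoped commutatorElement

namespace H12.CF

open H71.GT

/-- the data of the mixed case -/
structure Bd {G : Type} [Group G] (L : Set G) (T : Subgroup G) (x v p : G) (P : Subgroup G) :
    Prop where
  xL : x ∈ L
  xD : x ∉ (⁅T, T⁆ : Subgroup G)
  eq : x = v * p
  vD : v ∈ (⁅T, T⁆ : Subgroup G)
  vo : orderOf v = orderOf x
  po : p ^ orderOf x = 1
  PT : P ≤ T
  vP : v ∈ P
  pP : p ∈ P
  nc : ∀ g ∈ T, g ∈ Subgroup.normalizer (P : Set G) → g * p = p * g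
  cP : Nat.card P = orderOf x ^ 2
  nv : ∃ h ∈ T, h ∈ Subgroup.normalizer (P : Set G) ∧ h * v ≠ v * h
  PD : ∀ y ∈ P, y ∈ (⁅T, T⁆ : Subgroup G) → y ∈ Subgroup.zpowers v
  Pc : ∀ y ∈ P, ∀ z ∈ P, y * z = z * y

variable {G : Type} [Group G] [Finite G] {L : Set G}

theorem bd_of {x : G} (hx : x ∈ L) [Fact (orderOf x).Prime] (T : Subgroup G) [T.Normal]
    (hc : ¬ orderOf x ^ 3 ∣ Nat.card G) (hxT : x ∈ T) (hxD : x ∉ (⁅T, T⁆ : Subgroup G))
    (hq : orderOf x ∣ Nat.card (⁅T, T⁆ : Subgroup G)) (P : Sylow (orderOf x) G)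
    (hxP : x ∈ (P : Subgroup G)) :
    (∀ g ∈ T, g ∈ Subgroup.normalizer ((P : Subgroup G) : Set G) → g * x = x * g) ∨
      ∃ v p : G, Bd L T x v p P := by
  have hqp : (orderOf x).Prime := Fact.out
  have hab : AbS (orderOf x) G := ab hqp hc
  obtain ⟨hPT, hcP, hPD⟩ := pst hc T hxT hxD rfl hq P
  obtain ⟨v, p, h1, hvD, hvP, hpP, hv, hp, hpc⟩ := dec hab T P hPT hxP (pow_orderOf_eq_one x)
  by_cases hv1 : v = 1
  · left
    intro g hg hgN
    have h2 : x = p := by
      rw [hv1, one_mul] at h1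
      exact h1
    have h3 := hpc g hg hgN
    calc g * x = g * p := congrArg (fun t => g * t) h2
      _ = p * g := h3
      _ = x * g := (congrArg (fun t => t * g) h2).symm
  right
  have hvo : orderOf v = orderOf x := orderOf_eq_prime hv hv1
  refine ⟨v, p, ⟨hx, hxD, h1, hvD, hvo, hp, hPT, hvP, hpP, hpc, hcP, ?_, ?_, ?_⟩⟩
  · by_contra hcon
    refine hv1 (foc hab T P hPT hvP hvD fun g hg hgN => ?_)
    by_contra h2
    exact hcon ⟨g, hg, hgN, h2⟩
  · intro y hy hyD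
    have h2 : Subgroup.zpowers v ≤ (P : Subgroup G) ⊓ ⁅T, T⁆ := by
      rw [Subgroup.zpowers_le]
      exact ⟨hvP, hvD⟩
    have h3 : Subgroup.zpowers v = (P : Subgroup G) ⊓ ⁅T, T⁆ := by
      apply Subgroup.eq_of_le_of_card_ge h2
      rw [hPD, Nat.card_zpowers, hvo]
    rw [h3]
    exact ⟨hy, hyD⟩
  · intro y hy z hz
    exact hab P P.2 y hy z hz

end H12.CF
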