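import Pool.Agent.H71.GT.Ab
import Mathlib.GroupTheory.Solvable
import Mathlib.LinearAlgebra.Matrix.GeneralLinearGroup.Defs
import Mathlib.Data.Real.Basic

/-!
# [H12 CF DEF] MP_b39724_nt, theorem K2, cube-free orders: definitions (complete)

`G` a finite group which acts faithfully and transitively on the finite set `Ω`.
* `fx Ω g`: the number of fixed points. `ix Ω g`: the index of an element of prime order: `(n - fx g) (1 - 1 / q)`.
* `St Ω L T`: the setting: `L` a set of elements of prime order and of least index, closed under conjugation, `T` the subgroup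
  generated by `L`, solvable, and no cube of a prime divisor of `#T` divides `#G`.
* `st W α`: the stabiliser of `α` in `W`.
* `Rp t W`: a representation of `G` of degree 2 over the field with `t` elements on the normal subgroup `W` of order `t ^ 2`.
* `Im L U`: the image of `L` in `G ⧸ U`.
* `TwL L U`: a tower of `U` with abelian factors on which `G` acts through groups of coprime order, with complements which contain
  conjugates of all elements of `L`.
-/

set_option autoImplicit false

open scoped commutatorElement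

noncomputable section

namespace H12.CF

/-- the number of fixed points -/
def fx (Ω : Type) {G : Type} [Group G] [MulAction G Ω] (g : G) : ℕ := Nat.card {α : Ω // g • α = α}

/-- the index of an element of prime order -/
def ix (Ω : Type) {G : Type} [Group G] [MulAction G Ω] (g : G) : ℝ :=
  ((Nat.card Ω : ℝ) - fx Ω g) * (1 - 1 / (orderOf g : ℝ))

/-- the setting -/
structure St (Ω : Type) {G : Type} [Group G] [MulAction G Ω] (L : Set G) (T : Subgroup G) : Prop where
  pr : ∀ x ∈ L, (orderOf x).Prime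
  cj : ∀ x ∈ L, ∀ g : G, g * x * g⁻¹ ∈ L
  mn : ∀ x ∈ L, ∀ y : G, (orderOf y).Prime → ix Ω x ≤ ix Ω y
  gen : T = Subgroup.closure L
  sol : Group.IsSolvable T
  cf : ∀ q : ℕ, q.Prime → q ∣ Nat.card T → ¬ q ^ 3 ∣ Nat.card G

/-- the stabiliser of `α` in `W` -/
def st {Ω G : Type} [Group G] [MulAction G Ω] (W : Subgroup G) (α : Ω) : Subgroup G :=
  W ⊓ MulAction.stabilizer G α

/-- a representation of degree 2 on `W` -/
structure Rp (t : ℕ) {G : Type} [Group G] (W : Subgroup G) where
  ρ : G →* Matrix.GeneralLinearGroup (Fin 2) (ZMod t)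
  e : W ≃ (Fin 2 → ZMod t)
  add : ∀ x y, e (x * y) = e x + e y
  act : ∀ (g : G) (w w' : W), (w' : G) = g * w * g⁻¹ →
    e w' = Matrix.mulVec (ρ g : Matrix (Fin 2) (Fin 2) (ZMod t)) (e w)

/-- the image of `L` in `G ⧸ U` -/
def Im {G : Type} [Group G] (L : Set G) (U : Subgroup G) [U.Normal] : Set (G ⧸ U) :=
  {y | ∃ x ∈ L, (QuotientGroup.mk x : G ⧸ U) = y}

/-- the tower of the untyped part -/
def TwL {G : Type} [Group G] (L : Set G) (U : Subgroup G) : Prop :=
  ∃ (k : ℕ) (F : ℕ → Subgroup G), F 0 = U ∧ F k = ⊥ ∧ ∀ i < k, F (i + 1) ≤ F i ∧ (F i).Normal ∧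
    (F (i + 1)).Normal ∧ ⁅F i, F i⁆ ≤ F (i + 1) ∧ ∃ C : Subgroup G, C ⊔ F i = ⊤ ∧ C ⊓ F i = F (i + 1) ∧
      (∃ Z : Subgroup G, (∀ g ∈ Z, ∀ x ∈ F i, g * x * g⁻¹ * x⁻¹ ∈ F (i + 1)) ∧
        Nat.Coprime Z.index ((F (i + 1)).relIndex (F i))) ∧
      ∀ x ∈ L, ∃ g : G, g * x * g⁻¹ ∈ C

variable {G Ω : Type} [Group G] [MulAction G Ω] {L : Set G} {T : Subgroup G}

theorem St.mem (S : St Ω L T) {x : G} (hx : x ∈ L) : x ∈ T := by
  rw [S.gen]
  exact Subgroup.subset_closure hx

theorem St.nor (S : St Ω L T) : T.Normal := by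
  refine ⟨fun t ht g => ?_⟩
  rw [S.gen] at ht ⊢
  induction ht using Subgroup.closure_induction with
  | mem x hx => exact Subgroup.subset_closure (S.cj x hx g)
  | one =>
    rw [mul_one, mul_inv_cancel]
    exact Subgroup.one_mem _
  | mul x y _ _ ihx ihy =>
    have h1 : g * (x * y) * g⁻¹ = (g * x * g⁻¹) * (g * y * g⁻¹) := by group
    rw [h1]
    exact Subgroup.mul_mem _ ihx ihy
  | inv x _ ih =>
    have h1 : g * x⁻¹ * g⁻¹ = (g * x * g⁻¹)⁻¹ := by group
    rw [h1]
    exact Subgroup.inv_mem _ ih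

theorem St.dn (S : St Ω L T) : (⁅T, T⁆ : Subgroup G).Normal := by
  have := S.nor
  infer_instance

theorem St.dle (_ : St Ω L T) : (⁅T, T⁆ : Subgroup G) ≤ T := Subgroup.commutator_le_self T

end H12.CF
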