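import Pool.Agent.H12.CF.Lf0
import Pool.Agent.H12.CF.Def
import Pool.Agent.H38.ML.LowChain2

/-!
# [H12 CF CHN] the tower, 120-170 lines

`lc3_split`: copy the proof of `H38.ML.lc2_split` (H38/ML/LowChain2.lean), keep `hs`.
`step0`: `π : G ⧸ P' → G ⧸ P` (`QuotientGroup.map`), kernel commutative, `Nat.card π.ker = P'.relIndex P` (as in `low_chain2_aux`), `lc3_split`, `lf0_step`, `base0_lf0` with `Cb = Im L P`, `C = Im L P'`: for `x ∈ L` there is `g` with `g x g⁻¹ ∈ C`, so `s (mk (g x g⁻¹)) = mk (g x g⁻¹)` and `s (mk x) = y (mk (g x g⁻¹)) y⁻¹`, `y = s (mk g)⁻¹ = mk h`: it is the image of `h (g x g⁻¹) h⁻¹ ∈ L`.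
`chain0`: `TwL`: from `F 0 = U` to `F k = ⊥` by `step0`; the last step: `G ⧸ ⊥ ≃* G` (`QuotientGroup.quotientBot`): `base0_lf0` with `π` = the isomorphism `G → G ⧸ ⊥`, `LF0` by composition (kernel trivial, `m = 1`; as `lfs_iso`).
(`BASE0 (Im L P)` for `P = F i`: use `obtain ⟨P, hP⟩ : ∃ P, P = F i` as in `low_chain2_aux`.)
-/

set_option autoImplicit false

open scoped NumberField commutatorElement
open IsDedekindDomain H38.ML

noncomputable section

namespace H12.CF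

theorem lc3_split {G : Type} [Group G] (P P' : Subgroup G) [P.Normal] [P'.Normal]
    (hle : P' ≤ P) (π : G ⧸ P' →* G ⧸ P) (hπmk : ∀ g : G, π (g : G ⧸ P') = (g : G ⧸ P))
    (hab : ∀ a b : G ⧸ P', π a = 1 → π b = 1 → a * b = b * a)
    (C : Subgroup G) (hC : C ⊔ P = ⊤) (hC' : C ⊓ P = P') (Z : Subgroup G)
    (hZ : ∀ g ∈ Z, ∀ x ∈ P, g * x * g⁻¹ * x⁻¹ ∈ P') :
    ∃ (s : G ⧸ P →* G ⧸ P') (Z' : Subgroup (G ⧸ P)), Z'.Normal ∧ (∀ h, π (s h) = h) ∧
      (∀ z ∈ Z', ∀ a : G ⧸ P', π a = 1 → s z * a = a * s z) ∧ Z'.index ∣ Z.index ∧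
      ∀ c ∈ C, s (c : G ⧸ P) = (c : G ⧸ P') := by
  let f : C →* G ⧸ P := (QuotientGroup.mk' P).comp C.subtype
  let g : C →* G ⧸ P' := (QuotientGroup.mk' P').comp C.subtype
  have hdec : ∀ x : G, ∃ c ∈ C, ∃ y ∈ P, c * y = x := by
    intro x
    have h1 : x ∈ (↑(C ⊔ P) : Set G) := by rw [hC]; trivial
    rw [Subgroup.mul_normal] at h1
    obtain ⟨c, hc, y, hy, hcy⟩ := h1
    exact ⟨c, hc, y, hy, hcy⟩
  have hmkcy : ∀ c : G, ∀ y ∈ P, ((c * y : G) : G ⧸ P) = (c : G ⧸ P) := by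
    intro c y hy
    rw [QuotientGroup.mk_mul, (QuotientGroup.eq_one_iff y).2 hy, mul_one]
  have hf : Function.Surjective f := by
    intro q
    obtain ⟨x, rfl⟩ := QuotientGroup.mk_surjective q
    obtain ⟨c, hc, y, hy, rfl⟩ := hdec x
    exact ⟨⟨c, hc⟩, (hmkcy c y hy).symm⟩
  have hker : f.ker ≤ g.ker := by
    intro c hc
    have h1 : ((c : G) : G ⧸ P) = 1 := hc
    rw [QuotientGroup.eq_one_iff] at h1
    have h2 : (c : G) ∈ P' := by
      rw [← hC']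
      exact ⟨c.2, h1⟩
    exact (QuotientGroup.eq_one_iff (c : G)).2 h2
  let s : G ⧸ P →* G ⧸ P' := f.liftOfSurjective hf ⟨g, hker⟩
  have hs : ∀ c : C, s ((c : G) : G ⧸ P) = ((c : G) : G ⧸ P') := fun c =>
    f.liftOfRightInverse_comp_apply _ (Function.rightInverse_surjInv hf) ⟨g, hker⟩ c
  have hsec : ∀ h, π (s h) = h := by
    intro h
    obtain ⟨c, rfl⟩ := hf h
    change π (s ((c : G) : G ⧸ P)) = ((c : G) : G ⧸ P)
    rw [hs, hπmk]
  let Z' : Subgroup (G ⧸ P) := (Subgroup.centralizer (π.ker : Set (G ⧸ P'))).comap s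
  have hZ'n : Z'.Normal := by
    have h1 : (Subgroup.centralizer (π.ker : Set (G ⧸ P'))).Normal := inferInstance
    exact Subgroup.Normal.comap h1 s
  refine ⟨s, Z', hZ'n, hsec, ?_, ?_, fun c hc => hs ⟨c, hc⟩⟩
  · intro z hz a ha
    have h1 : s z ∈ Subgroup.centralizer (π.ker : Set (G ⧸ P')) := hz
    rw [Subgroup.mem_centralizer_iff] at h1
    exact (h1 a ha).symm
  · have hle' : Z.map (QuotientGroup.mk' P) ≤ Z' := by
      rintro _ ⟨x, hx, rfl⟩
      change s (x : G ⧸ P) ∈ Subgroup.centralizer (π.ker : Set (G ⧸ P'))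
      rw [Subgroup.mem_centralizer_iff]
      intro a ha
      obtain ⟨y, rfl⟩ := QuotientGroup.mk_surjective a
      have hy : y ∈ P := by
        have h2 : π (y : G ⧸ P') = 1 := ha
        rw [hπmk, QuotientGroup.eq_one_iff] at h2
        exact h2
      obtain ⟨c, hc, w, hw, rfl⟩ := hdec x
      rw [hmkcy c w hw]
      have h3 : s (c : G ⧸ P) = (c : G ⧸ P') := hs ⟨c, hc⟩
      rw [h3]
      have h4 : (w : G ⧸ P') * (y : G ⧸ P') = (y : G ⧸ P') * (w : G ⧸ P') :=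
        hab _ _ (by rw [hπmk, QuotientGroup.eq_one_iff]; exact hw) ha
      have h5 : ((c * w : G) : G ⧸ P') * (y : G ⧸ P') = (y : G ⧸ P') * ((c * w : G) : G ⧸ P') := by
        have h6 := (QuotientGroup.eq_one_iff (N := P') _).2 (hZ _ hx y hy)
        rw [QuotientGroup.mk_mul, QuotientGroup.mk_mul, QuotientGroup.mk_mul,
          QuotientGroup.mk_inv, QuotientGroup.mk_inv, mul_inv_eq_one, mul_inv_eq_iff_eq_mul] at h6
        exact h6
      rw [QuotientGroup.mk_mul] at h5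
      have h7 : (c : G ⧸ P') * (y : G ⧸ P') * (w : G ⧸ P') =
          (y : G ⧸ P') * (c : G ⧸ P') * (w : G ⧸ P') := by
        rw [mul_assoc, ← h4, ← mul_assoc, h5, mul_assoc]
      exact (mul_right_cancel h7).symm
    exact (Subgroup.index_dvd_of_le hle').trans
      (Subgroup.index_map_dvd Z (QuotientGroup.mk'_surjective P))

theorem step0 {G : Type} [Group G] [Finite G] {L : Set G} (hcc : ∀ x ∈ L, ∀ g : G, g * x * g⁻¹ ∈ L)
    (P P' : Subgroup G) [P.Normal] [P'.Normal] (hle : P' ≤ P) (hcomm : ⁅P, P⁆ ≤ P')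
    (C : Subgroup G) (hC : C ⊔ P = ⊤) (hC' : C ⊓ P = P') (Z : Subgroup G)
    (hZ : ∀ g ∈ Z, ∀ x ∈ P, g * x * g⁻¹ * x⁻¹ ∈ P')
    (hcop : Nat.Coprime Z.index (P'.relIndex P)) (hL : ∀ x ∈ L, ∃ g : G, g * x * g⁻¹ ∈ C)
    {r : ℕ} (h : BASE0 (Im L P) r) : BASE0 (Im L P') r := by
  let π : G ⧸ P' →* G ⧸ P := QuotientGroup.map P' P (MonoidHom.id G) (by
    rw [Subgroup.comap_id]; exact hle)
  have hπmk : ∀ g : G, π (g : G ⧸ P') = (g : G ⧸ P) := fun g => rfl
  have hπ : Function.Surjective π := by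
    intro y
    obtain ⟨g, rfl⟩ := QuotientGroup.mk_surjective y
    exact ⟨(g : G ⧸ P'), rfl⟩
  have hab : ∀ a b : G ⧸ P', π a = 1 → π b = 1 → a * b = b * a := by
    intro a b
    obtain ⟨x, rfl⟩ := QuotientGroup.mk_surjective a
    obtain ⟨y, rfl⟩ := QuotientGroup.mk_surjective b
    intro hx hy
    rw [hπmk, QuotientGroup.eq_one_iff] at hx hy
    rw [← QuotientGroup.mk_mul, ← QuotientGroup.mk_mul, QuotientGroup.eq]
    apply hcomm
    have h1 : (x * y)⁻¹ * (y * x) = ⁅y⁻¹, x⁻¹⁆ := by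
      rw [commutatorElement_def]
      group
    rw [h1]
    exact Subgroup.commutator_mem_commutator (P.inv_mem hy) (P.inv_mem hx)
  have hcard : Nat.card π.ker = P'.relIndex P := by
    have h1 := Subgroup.card_mul_index π.ker
    rw [Subgroup.index_ker, MonoidHom.range_eq_top.2 hπ, Subgroup.card_top] at h1
    have h2 := Subgroup.relIndex_mul_index hle
    have h3 : Nat.card (G ⧸ P) = P.index := rfl
    have h4 : Nat.card (G ⧸ P') = P'.index := rfl
    rw [h3, h4, ← h2] at h1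
    exact Nat.eq_of_mul_eq_mul_right (Nat.pos_of_ne_zero P.index_ne_zero_of_finite) h1
  obtain ⟨s, Z', -, hsec, hZ', hdv, hsc⟩ := lc3_split P P' hle π hπmk hab C hC hC' Z hZ
  have hS := lf0_step π hπ hab s hsec Z' hZ' (by
    rw [hcard]
    exact Nat.Coprime.coprime_dvd_left hdv hcop)
  refine base0_lf0 hS hπ (Im L P') (Im L P) ?_ ?_ h
  · rintro _ ⟨x, hx, rfl⟩
    obtain ⟨g, hg⟩ := hL x hx
    have h1 := hsc _ hg
    obtain ⟨y, hy⟩ := QuotientGroup.mk_surjective (s (g : G ⧸ P))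
    refine ⟨y⁻¹ * (g * x * g⁻¹) * y, ?_, ?_⟩
    · have h2 := hcc _ (hcc x hx g) y⁻¹
      rwa [inv_inv] at h2
    · rw [QuotientGroup.mk_mul, QuotientGroup.mk_mul, QuotientGroup.mk_inv, hy, ← h1, ← map_inv,
        ← map_mul, ← map_mul, ← QuotientGroup.mk_inv, ← QuotientGroup.mk_mul, ← QuotientGroup.mk_mul]
      congr 2
      group
  · rintro _ ⟨x, hx, rfl⟩ q
    obtain ⟨g, rfl⟩ := QuotientGroup.mk_surjective q
    exact ⟨g * x * g⁻¹, hcc x hx g, rfl⟩

private theorem lf0_iso {G Gb : Type} [Group G] [Group Gb] (e : G ≃* Gb) :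
    LF0 e.toMonoidHom e.symm.toMonoidHom := by
  refine ⟨⊥, NumberField.of_module_finite ℚ _, fun K _ _ φ hs hφ Q => ?_⟩
  refine ⟨e.symm.toMonoidHom.comp φ, ft_comp _ _ hφ, e.symm.surjective.comp hs,
    fun σ => e.apply_symm_apply _, fun v _ => ⟨1, one_mem _, fun τ _ => ?_⟩⟩
  rw [one_mul, inv_one, mul_one]
  rfl

theorem chain0 {G : Type} [Group G] [Finite G] {L : Set G} (hcc : ∀ x ∈ L, ∀ g : G, g * x * g⁻¹ ∈ L)
    (U : Subgroup G) [U.Normal] (hT : TwL L U) {r : ℕ} (h : BASE0 (Im L U) r) : BASE0 L r := by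
  obtain ⟨k, F, hF0, hFk, hF⟩ := hT
  have key : ∀ i ≤ k, ∀ (P : Subgroup G) [P.Normal], P = F i → BASE0 (Im L P) r := by
    intro i
    induction i with
    | zero =>
      intro _ P hPn hP
      rw [hF0] at hP
      subst hP
      exact h
    | succ i ih =>
      intro hi P' hPn' hP'
      obtain ⟨hle, hn, -, hcomm, C, hC, hC', ⟨Z, hZ, hcop⟩, hL⟩ := hF i (by omega)
      obtain ⟨P, hP⟩ : ∃ P, P = F i := ⟨_, rfl⟩
      rw [← hP, ← hP'] at hle hcomm hC' hcop hZ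
      rw [← hP] at hn hC
      exact step0 hcc P P' hle hcomm C hC hC' Z hZ hcop hL (ih (by omega) P hP)
  have hb := key k le_rfl ⊥ hFk.symm
  let e : G ≃* G ⧸ (⊥ : Subgroup G) := (QuotientGroup.quotientBot (G := G)).symm
  refine base0_lf0 (lf0_iso e) e.surjective L (Im L ⊥) ?_ hcc hb
  rintro _ ⟨x, hx, rfl⟩
  exact hx

end H12.CF
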