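import Pool.Agent.H12.CF.S2

/-!
# [H12 CF CLS] conjugacy of the elements of `L` outside the derived group, 90-130 lines

`D = ⁅T, T⁆`, `q = orderOf x`. The image of `x` in `G ⧸ D` is not `1` and has order `q`, it is the image of `x'`, so `orderOf x' = q` (a prime which is a multiple of `q`).
CASE `q ∤ #D`: `M := D ⊔ zpowers x = D ⊔ zpowers x'`, `#M = q #D`: `zpowers x`, `zpowers x'` are Sylow `q`-subgroups of `M` (or of `D ⊔ zpowers x`), conjugate by some `g ∈ M ≤ T`: `g x g⁻¹ = x' ^ i`; modulo `D` (`g x g⁻¹ x⁻¹ ∈ D`): `x ≡ x' ^ i ≡ x ^ i`, so `x ^ (i - 1) ∈ D`, `q ∣ i - 1`, `x' ^ i = x'`.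
CASE `q ∣ #D`: Sylow subgroups `P ∋ x`, `P' ∋ x'` (`exists_pst`), contained in `T` (`pst`), conjugate by some `g`; choose `g ∈ T`: both are Sylow subgroups of `T` (`Sylow.subtype`). So `x'' := g x' g⁻¹ ∈ P`, `x'' ∈ L`, `x'' ∉ D`, `w := x⁻¹ x'' ∈ P`, `∈ D` (`g x' g⁻¹ x'⁻¹ ∈ D`). `s2` for `x` and `x''` (`subst` with `orderOf x'' = orderOf x`): the normaliser of `P` in `T` centralises `x`, `x''`, so `w`; `foc` (`ab`, `S.cf`): `w = 1`, `x'' = x`.
-/

set_option autoImplicit false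

open scoped commutatorElement

noncomputable section

namespace H12.CF

open H71.GT

variable {G Ω : Type} [Group G] [Finite G] [MulAction G Ω] [Finite Ω] {L : Set G} {T : Subgroup G}

private theorem cls_s2 [Nonempty Ω] [FaithfulSMul G Ω] [MulAction.IsPretransitive G Ω] (S : St Ω L T) {x : G}
    (hx : x ∈ L) {q : ℕ} [Fact q.Prime] (hxq : orderOf x = q) (hxD : x ∉ (⁅T, T⁆ : Subgroup G))
    (hq : q ∣ Nat.card (⁅T, T⁆ : Subgroup G)) (P : Sylow q G)
    (hxP : x ∈ (P : Subgroup G)) :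
    ∀ g ∈ T, g ∈ Subgroup.normalizer ((P : Subgroup G) : Set G) → g * x = x * g := by
  subst hxq
  exact s2 S hx hxD hq P hxP

omit [Finite G] in
/-- a power of `x'` in `D` -/
private theorem cls_pow {D : Subgroup G} {x' : G} {q : ℕ} (hq : q.Prime) (h' : orderOf x' = q) (hD : x' ∉ D) {i : ℤ}
    (hi : x' ^ i ∈ D) : x' ^ i = 1 := by
  by_contra h1
  apply hD
  have h2 : ¬ (q : ℤ) ∣ i := by
    intro h2
    apply h1
    rw [← h'] at h2
    exact orderOf_dvd_iff_zpow_eq_one.1 h2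
  have h3 : IsCoprime (q : ℤ) i := (Nat.prime_iff_prime_int.1 hq).coprime_iff_not_dvd.2 h2
  obtain ⟨a, b, hab⟩ := h3
  have h4 : x' = (x' ^ i) ^ b := by
    have h5 : x' ^ (a * q + b * i) = x' := by rw [hab, zpow_one]
    rw [zpow_add, mul_comm a, zpow_mul, zpow_natCast, ← h', pow_orderOf_eq_one, one_zpow, one_mul, mul_comm b,
      zpow_mul] at h5
    exact h5.symm
  rw [h4]
  exact D.zpow_mem hi b

/-- a `q`-subgroup which contains an element of order `q`, in a group whose order is not divisible by `q ^ 2` -/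
private theorem cls_syl {M : Type} [Group M] [Finite M] {q : ℕ} [Fact q.Prime] (hM : ¬ q ^ 2 ∣ Nat.card M)
    (P : Sylow q M) {x : M} (hx : orderOf x = q) (hxP : x ∈ (P : Subgroup M)) :
    (P : Subgroup M) = Subgroup.zpowers x := by
  have hqp : q.Prime := Fact.out
  symm
  refine Subgroup.eq_of_le_of_card_ge ?_ ?_
  · rwa [Subgroup.zpowers_le]
  · rw [Nat.card_zpowers, hx]
    obtain ⟨k, hk⟩ := (IsPGroup.iff_card (p := q)).1 P.2
    have h1 : k < 2 := by
      by_contra h2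
      apply hM
      refine dvd_trans (pow_dvd_pow q (not_lt.1 h2)) ?_
      rw [← hk]
      exact Subgroup.card_subgroup_dvd_card _
    have hk' : Nat.card (P : Subgroup M) = q ^ k := hk
    rw [hk']
    calc q ^ k ≤ q ^ 1 := Nat.pow_le_pow_right hqp.pos (by omega)
      _ = q := pow_one q

theorem cl1 [Nonempty Ω] [FaithfulSMul G Ω] [MulAction.IsPretransitive G Ω] (S : St Ω L T)
    {x x' : G} (hx : x ∈ L) (hx' : x' ∈ L) (hxD : x ∉ (⁅T, T⁆ : Subgroup G))
    (h : x⁻¹ * x' ∈ (⁅T, T⁆ : Subgroup G)) : ∃ g ∈ T, g * x * g⁻¹ = x' := by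
  have hTn := S.nor
  have hDn := S.dn
  obtain ⟨q, hq⟩ : ∃ q, orderOf x = q := ⟨_, rfl⟩
  have hqp : q.Prime := hq ▸ S.pr x hx
  have : Fact q.Prime := ⟨hqp⟩
  have hxT := S.mem hx
  have hxT' := S.mem hx'
  have hmk : (QuotientGroup.mk x : G ⧸ ⁅T, T⁆) = QuotientGroup.mk x' := QuotientGroup.eq.2 h
  have hxD' : x' ∉ (⁅T, T⁆ : Subgroup G) := by
    intro h1
    apply hxD
    rw [← QuotientGroup.eq_one_iff] at h1 ⊢
    rw [hmk, h1]
  have hcomm : ∀ g ∈ T, ∀ y ∈ T, (QuotientGroup.mk (g * y * g⁻¹) : G ⧸ ⁅T, T⁆) = QuotientGroup.mk y := by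
    intro g hg y hy
    rw [eq_comm, QuotientGroup.eq]
    have h1 := Subgroup.commutator_mem_commutator (T.inv_mem hy) hg
    rw [commutatorElement_def, inv_inv] at h1
    have h2 : y⁻¹ * (g * y * g⁻¹) = y⁻¹ * g * y * g⁻¹ := by group
    rw [h2]
    exact h1
  have hq' : orderOf x' = q := by
    have hp' := S.pr x' hx'
    by_contra h1
    have h2 : Nat.Coprime (orderOf x') q := (Nat.coprime_primes hp' hqp).2 h1
    have h3 : (QuotientGroup.mk x' : G ⧸ ⁅T, T⁆) ^ orderOf x' = 1 := by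
      rw [← QuotientGroup.mk_pow, pow_orderOf_eq_one]
      rfl
    have h4 : (QuotientGroup.mk x' : G ⧸ ⁅T, T⁆) ^ q = 1 := by
      rw [← hmk, ← QuotientGroup.mk_pow, ← hq, pow_orderOf_eq_one]
      rfl
    have h5 : orderOf (QuotientGroup.mk x' : G ⧸ ⁅T, T⁆) ∣ 1 := by
      rw [← h2]
      exact Nat.dvd_gcd (orderOf_dvd_of_pow_eq_one h3) (orderOf_dvd_of_pow_eq_one h4)
    rw [Nat.dvd_one, orderOf_eq_one_iff, QuotientGroup.eq_one_iff] at h5
    exact hxD' h5
  by_cases hcase : q ∣ Nat.card (⁅T, T⁆ : Subgroup G)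
  · -- second case
    have hqT : q ∣ Nat.card T := hcase.trans (Subgroup.card_dvd_of_le S.dle)
    have hc := S.cf q hqp hqT
    have hab : AbS q G := ab hqp hc
    obtain ⟨P, hP⟩ := exists_pst hq
    obtain ⟨P', hP'⟩ := exists_pst hq'
    have hPT := (pst hc T hxT hxD hq hcase P).1
    have hPT' := (pst hc T hxT' hxD' hq' hcase P').1
    obtain ⟨g, hg⟩ := MulAction.exists_smul_eq T (P'.subtype hPT') (P.subtype hPT)
    have hg1 : (g : G) * x' * (g : G)⁻¹ ∈ (P : Subgroup G) := by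
      have h1 : (⟨x', hxT'⟩ : T) ∈ (P'.subtype hPT' : Subgroup T) := hP'
      have h2 := Subgroup.smul_mem_pointwise_smul _ (MulAut.conj g) ((P'.subtype hPT' : Sylow q T) : Subgroup T) h1
      have h3 : MulAut.conj g • (⟨x', hxT'⟩ : T) ∈ ((P.subtype hPT : Sylow q T) : Subgroup T) := by
        rw [← hg]
        exact h2
      exact h3
    have hL : (g : G) * x' * (g : G)⁻¹ ∈ L := S.cj x' hx' g
    have hmk2 := hcomm g g.2 x' hxT'
    have hD2 : (g : G) * x' * (g : G)⁻¹ ∉ (⁅T, T⁆ : Subgroup G) := by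
      intro h1
      apply hxD'
      rw [← QuotientGroup.eq_one_iff] at h1 ⊢
      rw [← hmk2, h1]
    have ho2 : orderOf ((g : G) * x' * (g : G)⁻¹) = q := by
      rw [← hq']
      exact orderOf_injective (MulAut.conj (g : G)).toMonoidHom (MulAut.conj (g : G)).injective x'
    have hw : x⁻¹ * ((g : G) * x' * (g : G)⁻¹) = 1 := by
      refine foc hab T P hPT ((P : Subgroup G).mul_mem ((P : Subgroup G).inv_mem hP) hg1) ?_ ?_
      · rw [← QuotientGroup.eq, hmk2, hmk]
      · intro k hkT hkN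
        have h1 := cls_s2 S hx hq hxD hcase P hP k hkT hkN
        have h2 := cls_s2 S hL ho2 hD2 hcase P hg1 k hkT hkN
        exact (Commute.mul_right (Commute.inv_right h1) h2)
    refine ⟨(g : G)⁻¹, T.inv_mem g.2, ?_⟩
    rw [inv_mul_eq_one] at hw
    rw [hw]
    group
  · -- first case
    obtain ⟨M, hM⟩ : ∃ M : Subgroup G, M = ⁅T, T⁆ ⊔ Subgroup.zpowers x := ⟨_, rfl⟩
    have hDM : (⁅T, T⁆ : Subgroup G) ≤ M := hM ▸ le_sup_left
    have hxM : x ∈ M := by
      rw [hM]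
      exact (le_sup_right : Subgroup.zpowers x ≤ _) (Subgroup.mem_zpowers x)
    have hxM' : x' ∈ M := by
      have h1 : x' = x * (x⁻¹ * x') := by rw [mul_inv_cancel_left]
      rw [h1]
      exact M.mul_mem hxM (hDM h)
    have hMT : M ≤ T := by
      rw [hM]
      refine sup_le S.dle ?_
      rwa [Subgroup.zpowers_le]
    have hcard : ¬ q ^ 2 ∣ Nat.card M := by
      intro h1
      have h2 : Nat.card (⁅T, T⁆ : Subgroup G) * (⁅T, T⁆ : Subgroup G).relIndex M = Nat.card M := by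
        have h3 := Subgroup.relIndex_mul_relIndex ⊥ (⁅T, T⁆ : Subgroup G) M bot_le hDM
        rw [Subgroup.relIndex_bot_left, Subgroup.relIndex_bot_left] at h3
        exact h3
      have h3 : (⁅T, T⁆ : Subgroup G).relIndex M ∣ q := by
        have h4 : (⁅T, T⁆ : Subgroup G).relIndex M = (⁅T, T⁆ : Subgroup G).relIndex (Subgroup.zpowers x) := by
          rw [hM]
          exact Subgroup.relIndex_sup_left _ _
        rw [h4]
        have h5 : Nat.card (Subgroup.zpowers x) = q := by rw [Nat.card_zpowers, hq]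
        have h6 := Subgroup.relIndex_dvd_card (⁅T, T⁆ : Subgroup G) (Subgroup.zpowers x)
        rwa [h5] at h6
      have h4 : q ^ 2 ∣ Nat.card (⁅T, T⁆ : Subgroup G) * q := by
        refine h1.trans ?_
        rw [← h2]
        exact mul_dvd_mul_left _ h3
      rw [pow_two] at h4
      exact hcase (Nat.dvd_of_mul_dvd_mul_right hqp.pos h4)
    have ho : orderOf (⟨x, hxM⟩ : M) = q := by
      rw [← hq]
      exact (Subgroup.orderOf_coe (⟨x, hxM⟩ : M)).symm
    have ho' : orderOf (⟨x', hxM'⟩ : M) = q := by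
      rw [← hq']
      exact (Subgroup.orderOf_coe (⟨x', hxM'⟩ : M)).symm
    obtain ⟨P, hP⟩ := exists_pst ho
    obtain ⟨P', hP'⟩ := exists_pst ho'
    obtain ⟨g, hg⟩ := MulAction.exists_smul_eq M P P'
    have hz := cls_syl hcard P' ho' hP'
    have h1 : g * (⟨x, hxM⟩ : M) * g⁻¹ ∈ Subgroup.zpowers (⟨x', hxM'⟩ : M) := by
      rw [← hz, ← hg]
      exact Subgroup.smul_mem_pointwise_smul _ (MulAut.conj g) (P : Subgroup M) hP
    obtain ⟨i, hi⟩ := h1
    have hi' : x' ^ i = (g : G) * x * (g : G)⁻¹ := congrArg Subtype.val hi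
    refine ⟨g, hMT g.2, ?_⟩
    rw [← hi']
    have h2 : x' ^ (i - 1) ∈ (⁅T, T⁆ : Subgroup G) := by
      rw [zpow_sub_one, hi', ← QuotientGroup.eq_one_iff, QuotientGroup.mk_mul, hcomm g (hMT g.2) x hxT, hmk,
        ← QuotientGroup.mk_mul, mul_inv_cancel]
      rfl
    have h3 := cls_pow hqp hq' hxD' h2
    rw [zpow_sub_one, mul_inv_eq_one] at h3
    exact h3

end H12.CF
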