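import Pool.Agent.H12.CF.Def
import Pool.Agent.H38.ML.Prime
import Pool.Agent.H38.BG.PIdx
import Pool.Agent.H88.LB.Spec

/-!
# [H12 CF IDX] the index and the setting, 70-100 lines

`ix_ind`: for an element of prime order `q` with `f` fixed points: `q * ind g = (q - 1) (n - f)`: copy the private lemmas `sq_burnside`, `sq_ind` of H51/AG/Sq.lean. (`g • i = (g : Equiv.Perm (Fin n)) i`; `Subgroup.orderOf_coe`.)
`st_lst`: `pr`: `H38.ML.prime_of_least`; `cj`, `mn`: `H38.BG.pidx_pos` (an element of prime order is not `1`) and `ix_ind`.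
-/

set_option autoImplicit false

noncomputable section

namespace H12.CF

open H38.ML.Spec H88.LB

/-- Burnside for a group of prime order (compare `pidx_burnside` in H38/BG/PIdx.lean) -/
private theorem sq_burnside {n : ℕ} (g : Equiv.Perm (Fin n)) (hq : (orderOf g).Prime) :
    H38.ML.orbs (Subgroup.zpowers g) * orderOf g =
      n + (orderOf g - 1) * Nat.card {x : Fin n // g x = x} := by
  classical
  have : Fintype (Subgroup.zpowers g) := Fintype.ofFinite _
  have : Fintype (Quotient (MulAction.orbitRel (Subgroup.zpowers g) (Fin n))) :=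
    Fintype.ofFinite _
  have h := MulAction.sum_card_fixedBy_eq_card_orbits_mul_card_group (Subgroup.zpowers g) (Fin n)
  have hc : Fintype.card (Subgroup.zpowers g) = orderOf g := by
    rw [← Nat.card_eq_fintype_card, Nat.card_zpowers]
  have ho : H38.ML.orbs (Subgroup.zpowers g) =
      Fintype.card (Quotient (MulAction.orbitRel (Subgroup.zpowers g) (Fin n))) := by
    unfold H38.ML.orbs
    rw [← Nat.card_eq_fintype_card]
  rw [ho, ← hc, ← h, ← Finset.add_sum_erase _ _ (Finset.mem_univ (1 : Subgroup.zpowers g))]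
  congr 1
  · have : MulAction.fixedBy (Fin n) (1 : Subgroup.zpowers g) = Set.univ := by
      ext x
      simp
    rw [← Nat.card_eq_fintype_card, this, Nat.card_univ, Nat.card_fin]
  · have h1 : ∀ a ∈ (Finset.univ : Finset (Subgroup.zpowers g)).erase 1,
        Fintype.card (MulAction.fixedBy (Fin n) a) = Nat.card {x : Fin n // g x = x} := by
      intro a ha
      rw [← Nat.card_eq_fintype_card]
      have ha1 : a ≠ 1 := Finset.ne_of_mem_erase ha
      obtain ⟨a, haz⟩ := a
      obtain ⟨k, rfl⟩ := Subgroup.mem_zpowers_iff.1 haz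
      have hk : ¬ ((orderOf g : ℕ) : ℤ) ∣ k := by
        intro hd
        apply ha1
        apply Subtype.ext
        exact orderOf_dvd_iff_zpow_eq_one.1 hd
      have hco : IsCoprime k ((orderOf g : ℕ) : ℤ) :=
        ((Prime.coprime_iff_not_dvd (Nat.prime_iff_prime_int.1 hq)).2 hk).symm
      obtain ⟨u, v, huv⟩ := hco
      refine Nat.card_congr (Equiv.subtypeEquivRight fun x => ?_)
      constructor
      · intro hx
        have hx' : (g ^ k) x = x := hx
        have h2 : g = (g ^ k) ^ u * (g ^ (orderOf g)) ^ v := by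
          rw [← zpow_natCast g, ← zpow_mul, ← zpow_mul, ← zpow_add]
          conv_lhs => rw [← zpow_one g, ← huv]
          congr 1
          ring
        rw [h2, pow_orderOf_eq_one, one_zpow, mul_one]
        exact Equiv.Perm.zpow_apply_eq_self_of_apply_eq_self hx' _
      · intro hx
        change (g ^ k) x = x
        exact Equiv.Perm.zpow_apply_eq_self_of_apply_eq_self hx _
    rw [Finset.sum_congr rfl h1, Finset.sum_const, smul_eq_mul,
      Finset.card_erase_of_mem (Finset.mem_univ _), Finset.card_univ]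

/-- `q * ind g = (q - 1) * (n - F)` -/
private theorem sq_ind {n : ℕ} (g : Equiv.Perm (Fin n)) (hq : (orderOf g).Prime) :
    orderOf g * ind g = (orderOf g - 1) * (n - Nat.card {x : Fin n // g x = x}) ∧
      Nat.card {x : Fin n // g x = x} ≤ n := by
  have hb := sq_burnside g hq
  have hFn : Nat.card {x : Fin n // g x = x} ≤ n := by
    have := Nat.card_le_card_of_injective
      (fun x : {x : Fin n // g x = x} => (x : Fin n)) Subtype.val_injective
    rwa [Nat.card_fin] at this
  have horb : H38.ML.orbs (Subgroup.zpowers g) ≤ n := by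
    have h2 := Nat.card_le_card_of_surjective _ (Quotient.mk_surjective
      (s := MulAction.orbitRel (Subgroup.zpowers g) (Fin n)))
    rw [Nat.card_fin] at h2
    exact h2
  refine ⟨?_, hFn⟩
  change orderOf g * (n - H38.ML.orbs (Subgroup.zpowers g)) = _
  have hq1 : 1 ≤ orderOf g := hq.one_lt.le
  zify [horb, hFn, hq1]
  zify [hq1] at hb
  linear_combination -hb

theorem ix_ind {n : ℕ} (G : Subgroup (Equiv.Perm (Fin n))) (g : G) (hg : (orderOf g).Prime) :
    ix (Fin n) g = (ind (g : Equiv.Perm (Fin n)) : ℝ) := by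
  have hg' : (orderOf (g : Equiv.Perm (Fin n))).Prime := by
    rw [Subgroup.orderOf_coe]
    exact hg
  obtain ⟨h1, h2⟩ := sq_ind (g : Equiv.Perm (Fin n)) hg'
  rw [Subgroup.orderOf_coe] at h1
  have hf : fx (Fin n) g = Nat.card {x : Fin n // (g : Equiv.Perm (Fin n)) x = x} := rfl
  unfold ix
  rw [hf, Nat.card_fin]
  have hq : (0 : ℝ) < (orderOf g : ℝ) := by exact_mod_cast hg.pos
  have hq1 : 1 ≤ orderOf g := hg.one_lt.le
  have h3 : (orderOf g : ℝ) * (ind (g : Equiv.Perm (Fin n)) : ℝ) =
      ((orderOf g : ℝ) - 1) * ((n : ℝ) - (Nat.card {x : Fin n // (g : Equiv.Perm (Fin n)) x = x} : ℝ)) := by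
    have := congrArg (fun m : ℕ => (m : ℝ)) h1
    push_cast [Nat.cast_sub hq1, Nat.cast_sub h2] at this
    exact this
  field_simp
  linarith

theorem st_lst {n : ℕ} (hn : 2 ≤ n) (G : Subgroup (Equiv.Perm (Fin n)))
    (hG : MulAction.IsPretransitive G (Fin n))
    (hs : Group.IsSolvable (Subgroup.closure (Lst G)))
    (hc : ∀ q : ℕ, q.Prime → q ∣ Nat.card (Subgroup.closure (Lst G)) → ¬ q ^ 3 ∣ Nat.card G) :
    St (Fin n) (Lst G) (Subgroup.closure (Lst G)) := by
  obtain ⟨-, -, hle, hcj, -⟩ := H38.BG.pidx_pos hn G hG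
  have hpr : ∀ x ∈ Lst G, (orderOf x).Prime := by
    rintro x ⟨hx, hxi⟩
    exact H38.ML.prime_of_least G x hx hxi
  refine ⟨hpr, ?_, ?_, rfl, hs, hc⟩
  · rintro x ⟨hx, hxi⟩ g
    refine ⟨?_, hcj x g hx hxi⟩
    intro h
    apply hx
    have h1 : x = g⁻¹ * (g * x * g⁻¹) * g := by group
    rw [h1, h]
    group
  · rintro x hx y hy
    rw [ix_ind G x (hpr x hx), ix_ind G y hy]
    have hy1 : y ≠ 1 := by
      rintro rfl
      rw [orderOf_one] at hy
      exact Nat.not_prime_one hy
    have h1 := hle y hy1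
    have h2 : ind (x : Equiv.Perm (Fin n)) = indG G := hx.2
    rw [h2]
    exact_mod_cast h1

end H12.CF
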