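import Pool.Agent.H12.CF.Foc
import Pool.Agent.H71.KA.Zas

/-!
# [H12 CF XIN] typed elements and complements of `q`-sections, 130-180 lines

`E / R` a `q`-group, `C` a complement of `E` modulo `R`. In `Ḡ = G ⧸ R`: `Ē ⊓ C̄ = ⊥`, `Ē C̄ = ⊤`, `Ē` is commutative (`AbS.quot`).
`xcop`: `H71.KA.conj_compl` in `Ḡ` for the image of `x` (`x ^ r = 1`, `r` prime to `q`, so to the order of `Ē`, a power of `q`).
`xin`: `P̄ = P R / R` is a Sylow `q`-subgroup of `Ḡ` (`Sylow.mapSurjective`), `≤ T̄`, `Ē ≤ P̄` (normal `q`-subgroup), commutative. (*) an element `ḡ` of `T̄` which normalises `P̄` is the image of an element of `T` which normalises `P`: `g P g⁻¹ ≤ P R`, both are Sylow subgroups of `P ⊔ R`, conjugate by an element of `P R`, so by some `b ∈ R` (`R ≤ T` normal): `b⁻¹ g` or so normalises `P`. Hence `ḡ` commutes with `x̄`.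
Write `x̄ = c̄ d̄`, `c̄ ∈ C̄`, `d̄ ∈ Ē`. Let `ḡ ∈ T̄` normalise `P̄`; `ḡ = c₁ d₁`, `d₁ ∈ Ē ≤ P̄`, so `c₁ ∈ C̄` is in `T̄` and normalises `P̄`, commutes with `x̄`: `(c₁ c̄ c₁⁻¹)(c₁ d̄ c₁⁻¹) = c̄ d̄`, first factors in `C̄`, second in `Ē`, so `c₁ d̄ c₁⁻¹ = d̄`; `d₁` commutes with `d̄`. So the normaliser of `P̄` in `T̄` centralises `d̄ ∈ Ē ≤ ⁅T̄, T̄⁆` (`Subgroup.map_commutator`), `d̄ ∈ P̄`; `foc` in `Ḡ`: `d̄ = 1`, `x̄ ∈ C̄`, `x ∈ C R = C` (`R ≤ C`).
-/

set_option autoImplicit false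

open scoped commutatorElement

noncomputable section

namespace H12.CF

open H71.GT

variable {G : Type} [Group G] [Finite G] {q : ℕ}

omit [Finite G] in
private theorem bar_p (E R : Subgroup G) [R.Normal] (hE : ∀ e ∈ E, ∃ k : ℕ, e ^ q ^ k ∈ R) :
    IsPGroup q (E.map (QuotientGroup.mk' R)) := by
  rintro ⟨_, e, he, rfl⟩
  obtain ⟨k, hk⟩ := hE e he
  refine ⟨k, ?_⟩
  apply Subtype.ext
  show (QuotientGroup.mk' R e) ^ q ^ k = 1
  rw [← map_pow]
  exact (QuotientGroup.eq_one_iff _).2 hk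

omit [Finite G] in
private theorem bar_mem (R C : Subgroup G) [R.Normal] (hRC : R ≤ C) {x : G}
    (h : QuotientGroup.mk' R x ∈ C.map (QuotientGroup.mk' R)) : x ∈ C := by
  obtain ⟨c, hc, e⟩ := h
  have h1 : c⁻¹ * x ∈ R := QuotientGroup.eq.1 e
  have h2 : x = c * (c⁻¹ * x) := by group
  rw [h2]
  exact C.mul_mem hc (hRC h1)

omit [Finite G] in
private theorem bar_inf (E R C : Subgroup G) [R.Normal] (hC2 : C ⊓ E = R) :
    E.map (QuotientGroup.mk' R) ⊓ C.map (QuotientGroup.mk' R) = ⊥ := by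
  have hRC : R ≤ C := by
    rw [← hC2]
    exact inf_le_left
  rw [eq_bot_iff]
  rintro _ ⟨⟨e, he, rfl⟩, h2⟩
  rw [Subgroup.mem_bot]
  have h3 : e ∈ C ⊓ E := ⟨bar_mem R C hRC h2, he⟩
  rw [hC2] at h3
  exact (QuotientGroup.eq_one_iff _).2 h3

omit [Finite G] in
private theorem bar_sup (E R C : Subgroup G) [R.Normal] (hC1 : C ⊔ E = ⊤) :
    C.map (QuotientGroup.mk' R) ⊔ E.map (QuotientGroup.mk' R) = ⊤ := by
  rw [← Subgroup.map_sup, hC1]
  exact Subgroup.map_top_of_surjective _ (QuotientGroup.mk'_surjective R)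

/-- the elements which normalise the image of the Sylow subgroup -/
private theorem lift_norm [Fact q.Prime] (T R : Subgroup G) [R.Normal] (hRT : R ≤ T) (P : Sylow q G) {g : G}
    (hg : g ∈ T) (hn : QuotientGroup.mk' R g ∈
      Subgroup.normalizer (((P : Subgroup G).map (QuotientGroup.mk' R) : Subgroup (G ⧸ R)) : Set (G ⧸ R))) :
    ∃ b ∈ R, b * g ∈ T ∧ b * g ∈ Subgroup.normalizer ((P : Subgroup G) : Set G) := by
  let H : Subgroup G := R ⊔ (P : Subgroup G)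
  have hPH : (P : Subgroup G) ≤ H := le_sup_right
  have hgP : ((g • P : Sylow q G) : Subgroup G) ≤ H := by
    intro y hy
    have h1 : g⁻¹ * y * g ∈ (P : Subgroup G) := by
      obtain ⟨z, hz, hzy⟩ := hy
      have h3 : g * z * g⁻¹ = y := hzy
      rw [← h3]
      have h4 : g⁻¹ * (g * z * g⁻¹) * g = z := by group
      rw [h4]
      exact hz
    have h2 : QuotientGroup.mk' R y ∈ (P : Subgroup G).map (QuotientGroup.mk' R) := by
      have h3 := (Subgroup.mem_normalizer_iff.1 hn (QuotientGroup.mk' R (g⁻¹ * y * g))).1 ⟨_, h1, rfl⟩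
      rw [← map_inv, ← map_mul, ← map_mul] at h3
      have h4 : g * (g⁻¹ * y * g) * g⁻¹ = y := by group
      rwa [h4] at h3
    obtain ⟨z, hz, hzy⟩ := h2
    have h3 : z⁻¹ * y ∈ R := QuotientGroup.eq.1 hzy
    have h4 : y = z * (z⁻¹ * y) := by group
    rw [h4]
    exact H.mul_mem (hPH hz) ((le_sup_left : R ≤ H) h3)
  obtain ⟨h, hh⟩ := MulAction.exists_smul_eq H (P.subtype hPH) ((g • P : Sylow q G).subtype hgP)
  rw [Sylow.smul_subtype] at hh
  have h1 : h • P = g • P := Sylow.subtype_injective hh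
  have h2 : (h : G) • P = g • P := h1
  obtain ⟨r, hr, p, hp, hrp⟩ := Subgroup.mem_sup_of_normal_left.1 h.2
  have hnP : (P : Subgroup G) ≤ Subgroup.normalizer ((P : Subgroup G) : Set G) := Subgroup.le_normalizer
  have h3 : p • P = P := Sylow.smul_eq_iff_mem_normalizer.2 (hnP hp)
  rw [← hrp, mul_smul, h3] at h2
  have h4 : (r⁻¹ * g) • P = P := by
    rw [mul_smul, ← h2, inv_smul_smul]
  exact ⟨r⁻¹, R.inv_mem hr, T.mul_mem (T.inv_mem (hRT hr)) hg, Sylow.smul_eq_iff_mem_normalizer.1 h4⟩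

theorem xcop [Fact q.Prime] (hab : AbS q G) (E R C : Subgroup G) [E.Normal] [R.Normal]
    (hRE : R ≤ E) (hE : ∀ e ∈ E, ∃ k : ℕ, e ^ q ^ k ∈ R) (hC1 : C ⊔ E = ⊤) (hC2 : C ⊓ E = R)
    {x : G} (hx : (orderOf x).Prime) (hxq : orderOf x ≠ q) : ∃ g : G, g * x * g⁻¹ ∈ C := by
  have hRC : R ≤ C := by
    rw [← hC2]
    exact inf_le_left
  have hp := bar_p E R hE
  have hab' : AbS q (G ⧸ R) := hab.quot R
  have hEn : (E.map (QuotientGroup.mk' R)).Normal :=
    (inferInstance : E.Normal).map _ (QuotientGroup.mk'_surjective R)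
  have hsup := bar_sup E R C hC1
  have hco : Nat.Coprime (orderOf x) (Nat.card (E.map (QuotientGroup.mk' R))) := by
    obtain ⟨k, hk⟩ := IsPGroup.iff_card.1 hp
    rw [hk]
    exact ((Nat.coprime_primes hx Fact.out).2 hxq).pow_right k
  obtain ⟨s, hs, a, ha, -, hxs⟩ := H71.KA.conj_compl (E.map (QuotientGroup.mk' R)) (C.map (QuotientGroup.mk' R))
    (hab' _ hp) (by
      intro g
      have h1 : g ∈ E.map (QuotientGroup.mk' R) ⊔ C.map (QuotientGroup.mk' R) := by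
        rw [sup_comm, hsup]
        exact Subgroup.mem_top g
      obtain ⟨n, hn, c, hc, e⟩ := Subgroup.mem_sup_of_normal_left.1 h1
      exact ⟨n, hn, c, hc, e.symm⟩) (bar_inf E R C hC2) (x := QuotientGroup.mk' R x) (by
      rw [← map_pow, pow_orderOf_eq_one, map_one]) hco
  obtain ⟨e, he, rfl⟩ := hs
  refine ⟨e⁻¹, bar_mem R C hRC ?_⟩
  rw [map_mul, map_mul, inv_inv, map_inv, hxs]
  have h1 : (QuotientGroup.mk' R e)⁻¹ * (QuotientGroup.mk' R e * a * (QuotientGroup.mk' R e)⁻¹) * QuotientGroup.mk' R e = a := by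
    group
  rw [h1]
  exact ha

theorem xin [Fact q.Prime] (hab : AbS q G) (T : Subgroup G) [T.Normal] (E R C : Subgroup G)
    [E.Normal] [R.Normal] (hRE : R ≤ E) (hET : E ≤ ⁅T, T⁆) (hE : ∀ e ∈ E, ∃ k : ℕ, e ^ q ^ k ∈ R)
    (hC1 : C ⊔ E = ⊤) (hC2 : C ⊓ E = R) (P : Sylow q G) (hPT : (P : Subgroup G) ≤ T) {x : G}
    (hx : x ∈ (P : Subgroup G))
    (hN : ∀ g ∈ T, g ∈ Subgroup.normalizer ((P : Subgroup G) : Set G) → g * x = x * g) :
    x ∈ C := by
  have hRC : R ≤ C := by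
    rw [← hC2]
    exact inf_le_left
  have hp := bar_p E R hE
  have hab' : AbS q (G ⧸ R) := hab.quot R
  have hEn : (E.map (QuotientGroup.mk' R)).Normal :=
    (inferInstance : E.Normal).map _ (QuotientGroup.mk'_surjective R)
  have hTn : (T.map (QuotientGroup.mk' R)).Normal :=
    (inferInstance : T.Normal).map _ (QuotientGroup.mk'_surjective R)
  have hsup := bar_sup E R C hC1
  have hinf := bar_inf E R C hC2
  have hDT : (⁅T, T⁆ : Subgroup G) ≤ T := Subgroup.commutator_le_self T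
  have hETT : E ≤ T := hET.trans hDT
  have hRT : R ≤ T := hRE.trans hETT
  obtain ⟨Q, hQ⟩ : ∃ Q : Sylow q (G ⧸ R), (Q : Subgroup (G ⧸ R)) = (P : Subgroup G).map (QuotientGroup.mk' R) :=
    ⟨P.mapSurjective (QuotientGroup.mk'_surjective R), rfl⟩
  have hQT : (Q : Subgroup (G ⧸ R)) ≤ T.map (QuotientGroup.mk' R) := by
    rw [hQ]
    exact Subgroup.map_mono hPT
  have hEQ : E.map (QuotientGroup.mk' R) ≤ (Q : Subgroup (G ⧸ R)) := by
    have h1 := Q.is_maximal' (hp.to_sup_of_normal_left Q.isPGroup') le_sup_right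
    rw [← h1]
    exact le_sup_left
  have hEc := hab' _ hp
  -- (*)
  have hstar : ∀ g ∈ T.map (QuotientGroup.mk' R),
      g ∈ Subgroup.normalizer ((Q : Subgroup (G ⧸ R)) : Set (G ⧸ R)) →
      g * QuotientGroup.mk' R x = QuotientGroup.mk' R x * g := by
    rintro _ ⟨g, hg, rfl⟩ hn
    rw [hQ] at hn
    obtain ⟨b, hb, h1, h2⟩ := lift_norm T R hRT P hg hn
    have h3 := congrArg (QuotientGroup.mk' R) (hN _ h1 h2)
    have h4 : QuotientGroup.mk' R b = 1 := (QuotientGroup.eq_one_iff b).2 hb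
    rw [map_mul, map_mul, map_mul, map_mul, h4, one_mul] at h3
    exact h3
  have hx1 : QuotientGroup.mk' R x ∈ C.map (QuotientGroup.mk' R) ⊔ E.map (QuotientGroup.mk' R) := by
    rw [hsup]
    exact Subgroup.mem_top _
  obtain ⟨c, hc, d, hd, hcd⟩ := Subgroup.mem_sup_of_normal_right.1 hx1
  have hd1 : d = 1 := by
    refine foc hab' (T.map (QuotientGroup.mk' R)) Q hQT (hEQ hd) ?_ ?_
    · rw [← Subgroup.map_commutator]
      exact Subgroup.map_mono hET hd
    · intro g hg hn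
      have hg1 : g ∈ C.map (QuotientGroup.mk' R) ⊔ E.map (QuotientGroup.mk' R) := by
        rw [hsup]
        exact Subgroup.mem_top _
      obtain ⟨c₁, hc₁, d₁, hd₁, rfl⟩ := Subgroup.mem_sup_of_normal_right.1 hg1
      have hET' : E.map (QuotientGroup.mk' R) ≤ T.map (QuotientGroup.mk' R) := Subgroup.map_mono hETT
      have h1 : c₁ ∈ T.map (QuotientGroup.mk' R) := by
        have h2 := Subgroup.mul_mem _ hg (Subgroup.inv_mem _ (hET' hd₁))
        rwa [mul_inv_cancel_right] at h2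
      have h2 : c₁ ∈ Subgroup.normalizer ((Q : Subgroup (G ⧸ R)) : Set (G ⧸ R)) := by
        have h3 := Subgroup.mul_mem _ hn (Subgroup.inv_mem _ (Subgroup.le_normalizer (hEQ hd₁)))
        rwa [mul_inv_cancel_right] at h3
      have h3 := hstar c₁ h1 h2
      rw [← hcd] at h3
      have h4 : c₁ * d * c₁⁻¹ ∈ E.map (QuotientGroup.mk' R) := hEn.conj_mem d hd c₁
      have h5 : c⁻¹ * (c₁ * c * c₁⁻¹) = d * (c₁ * d * c₁⁻¹)⁻¹ := by
        have h6 : (c₁ * c * c₁⁻¹) * (c₁ * d * c₁⁻¹) = c * d := by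
          have h7 : (c₁ * c * c₁⁻¹) * (c₁ * d * c₁⁻¹) = (c₁ * (c * d)) * c₁⁻¹ := by group
          rw [h7, h3, mul_inv_cancel_right]
        rw [eq_mul_inv_iff_mul_eq, mul_assoc, h6, inv_mul_cancel_left]
      have h6 : d * (c₁ * d * c₁⁻¹)⁻¹ ∈ E.map (QuotientGroup.mk' R) ⊓ C.map (QuotientGroup.mk' R) := by
        refine Subgroup.mem_inf.2 ⟨Subgroup.mul_mem _ hd (Subgroup.inv_mem _ h4), ?_⟩
        rw [← h5]
        exact Subgroup.mul_mem _ (Subgroup.inv_mem _ hc)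
          (Subgroup.mul_mem _ (Subgroup.mul_mem _ hc₁ hc) (Subgroup.inv_mem _ hc₁))
      rw [hinf, Subgroup.mem_bot, mul_inv_eq_one] at h6
      have h7 : c₁ * d = d * c₁ := by
        rw [eq_comm, ← eq_mul_inv_iff_mul_eq]
        exact h6
      have h8 : d₁ * d = d * d₁ := hEc d₁ hd₁ d hd
      rw [mul_assoc, h8, ← mul_assoc, h7, mul_assoc]
  rw [hd1, mul_one] at hcd
  refine bar_mem R C hRC ?_
  rw [← hcd]
  exact hc

end H12.CF
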