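import Pool.Agent.H12.CF.Nu
import Pool.Agent.H12.CF.Xin
import Pool.Agent.H71.GT.Tow

/-!
# [H12 CF TOW] the tower of the untyped part, 150-220 lines

`typ`: if `¬ q ∣ #E` then `R = E` (`e` is a power of `e ^ q ^ k`), `E ≤ C`, `C = ⊤`. So let `q ∣ #E`, then `q ∣ #D`, `q ∣ #T` (`E ≤ D := ⁅T, T⁆ ≤ T`), `AbS q G` (`ab`, `S.cf`). `orderOf x ≠ q`: `xcop`. `orderOf x = q`: `x ∉ D` (`h`); a Sylow subgroup `P ∋ x` (`exists_pst`), `P ≤ T` (`pst`), `s2`, `xin` with `g = 1`.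
`twl_cons`: as `gt_cons` (H71/GT/Tow.lean).
`tow`: as `goodTower_comm` in H71/GT/Tow.lean (copy). `D = ⁅T, T⁆`. For `M` normal in `G`, `M = T` or `M ≤ D`: `TwL L (U ⊓ ⁅M, M⁆)` by strong induction on `#M`; the end `M = T`: `U ≤ D`. Every `x ∈ ⁅M, M⁆` is `n u`, `n ∈ N ⊓ ⁅M, M⁆`, `u ∈ U`: for `M = T` by `H.sup`, for `M ≤ D`: `⁅M, M⁆ ≤ ⁅D, D⁆ ≤ U` (`D = N U`, `N` commutes with `D`: a commutator of `n u`, `n' u'` is a commutator of `u, u'`).
Layers `F s = U ⊓ Ls ⁅M, M⁆ s`, `s` a `Finset` of primes, from `s = ∅` (`F = U ⊓ ⁅M, M⁆`) to `s` the prime factors of `#⁅M, M⁆` (`Ls_primeFactors`: `F = U ⊓ ⁅⁅M, M⁆, ⁅M, M⁆⁆`, the induction hypothesis for `⁅M, M⁆ ≤ D`, smaller if `⁅M, M⁆ ≠ ⊥`). The step `q ∉ s`: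
if `q ∣ #N`: `F (insert q s) = F s`: `u ∈ U` has order prime to `q` (`#U ∣ N.index`: `#N #U = #D` divides `#G = #N N.index`; `H.cop`), so `u ∈ Rq _ q`. If `¬ q ∣ #N`: `C` from `exists_compl hq hab M`, `Z` from `exists_cent`; `N ⊓ ⁅M, M⁆ ≤ Rq ⁅M, M⁆ q ≤ C`; `C ⊔ F s = ⊤`: as in `gt_layer`, `x ^ n = n' u`, `n' ∈ N ⊓ ⁅M, M⁆ ≤ C`, `u ∈ F s`: for `r ∈ s`, `r ∣ #N`: `u` has order prime to `r`; `¬ r ∣ #N`: `n' ∈ Rq _ r`. The rest (`C ⊓ F s`, `Z`, the order of the factor) as in `gt_layer`, intersected with `U`.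
The condition for `x ∈ L`: `typ` with `E = ⁅M, M⁆`, `R = Rq ⁅M, M⁆ q` (`pow_mem_Rq`); if `x ∈ D` has order `q` then `x ∈ N` (`H.typ`), `q ∣ #N`: excluded. (`AbS q G` for `q ∣ #⁅M, M⁆`, `s` consists of divisors of `#⁅M, M⁆`.)
-/

set_option autoImplicit false

open scoped commutatorElement

noncomputable section

namespace H12.CF

open H71.GT

variable {G Ω : Type} [Group G] [Finite G] [MulAction G Ω] [Finite Ω] {L : Set G} {T : Subgroup G}

omit [Finite G] in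
private theorem twl_bot : TwL L (⊥ : Subgroup G) :=
  ⟨0, fun _ => ⊥, rfl, rfl, fun _ hi => absurd hi (Nat.not_lt_zero _)⟩

omit [Finite G] in
private theorem twl_cons {F F' : Subgroup G} (h1 : F' ≤ F) (hF : F.Normal) (hF' : F'.Normal)
    (hc : ⁅F, F⁆ ≤ F') (h : ∃ C : Subgroup G, C ⊔ F = ⊤ ∧ C ⊓ F = F' ∧
      (∃ Z : Subgroup G, (∀ g ∈ Z, ∀ x ∈ F, g * x * g⁻¹ * x⁻¹ ∈ F') ∧
        Nat.Coprime Z.index (F'.relIndex F)) ∧ ∀ x ∈ L, ∃ g : G, g * x * g⁻¹ ∈ C)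
    (hT : TwL L F') : TwL L F := by
  obtain ⟨k, A, h0, h2, h3⟩ := hT
  subst h0
  refine ⟨k + 1, fun i => Nat.casesOn i F A, rfl, h2, fun i hi => ?_⟩
  cases i with
  | zero => exact ⟨h1, hF, hF', hc, h⟩
  | succ i => exact h3 i (by omega)

omit [Finite G] in
private theorem mem_of_cop {H : Subgroup G} {e : G} {m n : ℕ} (hm : e ^ m ∈ H) (hn : e ^ n ∈ H)
    (h : Nat.Coprime m n) : e ∈ H := by
  obtain ⟨a, b, hab⟩ := Nat.isCoprime_iff_coprime.2 h
  have h6 : e = (e ^ m) ^ a * (e ^ n) ^ b := by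
    rw [← zpow_natCast, ← zpow_natCast, ← zpow_mul, ← zpow_mul, ← zpow_add, mul_comm _ a,
      mul_comm _ b, hab, zpow_one]
  rw [h6]
  exact H.mul_mem (H.zpow_mem hm _) (H.zpow_mem hn _)

omit [Finite G] in
private theorem pow_cd {H : Subgroup G} {e : G} (he : e ∈ H) : e ^ Nat.card H = 1 :=
  congrArg Subtype.val (pow_card_eq_one' (x := (⟨e, he⟩ : H)))

omit [Finite G] in
private theorem rq_of (E : Subgroup G) [E.Normal] {y : G} (hy : y ∈ E) {H : Subgroup G}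
    (hyH : y ∈ H) {r : ℕ} (hr : r.Prime) (h : ¬ r ∣ Nat.card H) : y ∈ Rq E r := by
  refine ⟨hy, Nat.card H, ?_, ?_⟩
  · rw [Nat.coprime_comm]
    exact (Nat.Prime.coprime_iff_not_dvd hr).2 h
  · rw [pow_cd hyH]
    exact Subgroup.one_mem _

theorem typ [Nonempty Ω] [FaithfulSMul G Ω] [MulAction.IsPretransitive G Ω] (S : St Ω L T) {q : ℕ}
    (hq : q.Prime) (E R C : Subgroup G) [E.Normal] [R.Normal] (hRE : R ≤ E)
    (hED : E ≤ ⁅T, T⁆) (hE : ∀ e ∈ E, ∃ k : ℕ, e ^ q ^ k ∈ R) (hC1 : C ⊔ E = ⊤)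
    (hC2 : C ⊓ E = R) {x : G} (hx : x ∈ L)
    (h : x ∈ (⁅T, T⁆ : Subgroup G) → orderOf x = q → ¬ q ∣ Nat.card E) :
    ∃ g : G, g * x * g⁻¹ ∈ C := by
  by_cases hqE : q ∣ Nat.card E
  · have hqD : q ∣ Nat.card (⁅T, T⁆ : Subgroup G) := hqE.trans (Subgroup.card_dvd_of_le hED)
    have hqT : q ∣ Nat.card T := hqD.trans (Subgroup.card_dvd_of_le S.dle)
    have hab : AbS q G := ab hq (S.cf q hq hqT)
    have : Fact q.Prime := ⟨hq⟩
    by_cases hxq : orderOf x = q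
    · have hTn : T.Normal := S.nor
      have hxD : x ∉ (⁅T, T⁆ : Subgroup G) := fun hxD => h hxD hxq hqE
      obtain ⟨P, hxP⟩ := exists_pst (q := q) hxq
      have hPT := (pst (S.cf q hq hqT) T (S.mem hx) hxD hxq hqD P).1
      subst hxq
      refine ⟨1, ?_⟩
      rw [one_mul, inv_one, mul_one]
      exact xin hab T E R C hRE hED hE hC1 hC2 P hPT hxP (s2 S hx hxD hqD P hxP)
    · exact xcop hab E R C hRE hE hC1 hC2 (S.pr x hx) hxq
  · have hER : E ≤ R := by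
      intro e he
      obtain ⟨k, hk⟩ := hE e he
      refine mem_of_cop hk (n := Nat.card E) ?_
        (Nat.Coprime.pow_left k ((Nat.Prime.coprime_iff_not_dvd hq).2 hqE))
      rw [pow_cd he]
      exact R.one_mem
    have hRC : R ≤ C := by
      rw [← hC2]
      exact inf_le_left
    have hC : C = ⊤ := by
      rw [← hC1]
      exact (sup_eq_left.2 (hER.trans hRC)).symm
    refine ⟨1, ?_⟩
    rw [hC]
    exact Subgroup.mem_top _

omit [Finite G] in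
/-- `U` has order prime to the prime divisors of the order of `N` -/
private theorem nu_cop {N U : Subgroup G} (H : Nu L T N U) {r : ℕ} (hr : r.Prime)
    (h : r ∣ Nat.card N) : ¬ r ∣ Nat.card U := by
  intro h1
  have hN := H.nN
  have h2 : N.relIndex U = Nat.card U := by
    rw [← Subgroup.inf_relIndex_right, H.inf, Subgroup.relIndex_bot_left]
  have h3 : Nat.card U ∣ N.index := by
    rw [← h2]
    exact Subgroup.relIndex_dvd_index_of_normal N U
  have h4 : r ∣ Nat.gcd (Nat.card N) N.index := Nat.dvd_gcd h (h1.trans h3)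
  rw [H.cop] at h4
  exact hr.one_lt.ne' (Nat.dvd_one.1 h4)

omit [Finite G] in
private theorem nu_comm {N U : Subgroup G} (H : Nu L T N U) :
    (⁅(⁅T, T⁆ : Subgroup G), (⁅T, T⁆ : Subgroup G)⁆ : Subgroup G) ≤ U := by
  have hN := H.nN
  have hU := H.nU
  have hND : N ≤ ⁅T, T⁆ := by
    rw [← H.sup]
    exact le_sup_left
  rw [Subgroup.commutator_le]
  intro g hg g' hg'
  rw [← H.sup] at hg hg'
  obtain ⟨n, hn, u, hu, rfl⟩ := Subgroup.mem_sup_of_normal_left.1 hg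
  obtain ⟨n', hn', u', hu', rfl⟩ := Subgroup.mem_sup_of_normal_left.1 hg'
  rw [← QuotientGroup.eq_one_iff]
  have h1 : ∀ a b : G, b ∈ U → QuotientGroup.mk' U (a * b) = QuotientGroup.mk' U a := by
    intro a b hb
    rw [map_mul]
    have h2 : QuotientGroup.mk' U b = 1 := (QuotientGroup.eq_one_iff b).2 hb
    rw [h2, mul_one]
  show QuotientGroup.mk' U ⁅n * u, n' * u'⁆ = 1
  rw [map_commutatorElement, h1 _ _ hu, h1 _ _ hu', ← map_commutatorElement,
    commutatorElement_eq_one_iff_mul_comm.2 (H.cen n (hND hn) n' hn'), map_one]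

private theorem twl_layer [Nonempty Ω] [FaithfulSMul G Ω] [MulAction.IsPretransitive G Ω]
    (S : St Ω L T) {N U : Subgroup G} (H : Nu L T N U) (M : Subgroup G) [M.Normal] (hMT : M ≤ T)
    (hdec : ∀ x ∈ (⁅M, M⁆ : Subgroup G), ∃ n u : G, n ∈ N ∧ n ∈ (⁅M, M⁆ : Subgroup G) ∧ u ∈ U ∧
      u ∈ (⁅M, M⁆ : Subgroup G) ∧ x = n * u)
    {s : Finset ℕ} (hs : ∀ r ∈ s, r.Prime) {q : ℕ} (hq : q.Prime) (hqs : q ∉ s)
    (hqE : q ∣ Nat.card (⁅M, M⁆ : Subgroup G))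
    (h : TwL L (U ⊓ Ls ⁅M, M⁆ (insert q s))) : TwL L (U ⊓ Ls ⁅M, M⁆ s) := by
  have : Fact q.Prime := ⟨hq⟩
  have hU := H.nU
  have hED : (⁅M, M⁆ : Subgroup G) ≤ ⁅T, T⁆ := Subgroup.commutator_mono hMT hMT
  have hqT : q ∣ Nat.card T := hqE.trans (Subgroup.card_dvd_of_le (hED.trans S.dle))
  have hab : AbS q G := ab hq (S.cf q hq hqT)
  have hle : Ls ⁅M, M⁆ (insert q s) ≤ Ls ⁅M, M⁆ s := fun x hx =>
    mem_Ls.2 ⟨(mem_Ls.1 hx).1, fun r hr => (mem_Ls.1 hx).2 r (Finset.mem_insert_of_mem hr)⟩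
  have hLD : Ls ⁅M, M⁆ s ≤ ⁅M, M⁆ := fun x hx => (mem_Ls.1 hx).1
  by_cases hqN : q ∣ Nat.card N
  · have h1 : U ⊓ Ls ⁅M, M⁆ (insert q s) = U ⊓ Ls ⁅M, M⁆ s := by
      refine le_antisymm (inf_le_inf_left U hle) ?_
      intro u hu
      refine ⟨hu.1, mem_Ls.2 ⟨hLD hu.2, fun r hr => ?_⟩⟩
      rcases Finset.mem_insert.1 hr with rfl | hr
      · exact rq_of _ (hLD hu.2) hu.1 hq (nu_cop H hq hqN)
      · exact (mem_Ls.1 hu.2).2 r hr
    rwa [h1] at h
  obtain ⟨C, hC1, hC2⟩ := exists_compl hq hab M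
  obtain ⟨Z, hZ1, hZ2⟩ := exists_cent hq hab ⁅M, M⁆
  have hRC : Rq ⁅M, M⁆ q ≤ C := by
    rw [← hC2]
    exact inf_le_left
  refine twl_cons (inf_le_inf_left U hle) inferInstance inferInstance ?_
    ⟨C, ?_, ?_, ⟨Z, ?_, ?_⟩, ?_⟩ h
  · refine le_inf ?_ ?_
    · exact (Subgroup.commutator_mono inf_le_left inf_le_left).trans
        (Subgroup.commutator_le_self U)
    · exact (Subgroup.commutator_mono (inf_le_right.trans hLD) (inf_le_right.trans hLD)).trans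
        (comm_le_Ls _ _)
  · rw [eq_top_iff, ← hC1]
    refine sup_le le_sup_left fun x hx => ?_
    obtain ⟨k, n, hn, h1, h2⟩ := pow_mem_Rq ⁅M, M⁆ hq hx
    refine mem_of_cop (m := q ^ k) (n := n) (Subgroup.mem_sup_left (hRC h1)) ?_
      (Nat.Coprime.pow_left _ hn.symm)
    obtain ⟨y, u, hyN, hyE, huU, huE, hyu⟩ := hdec _ (Subgroup.pow_mem _ hx n)
    have h3 : y ∈ C := hRC (rq_of _ hyE hyN hq hqN)
    have h4 : u ∈ U ⊓ Ls ⁅M, M⁆ s := by
      refine ⟨huU, mem_Ls.2 ⟨huE, fun r hr => ?_⟩⟩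
      have hrp := hs r hr
      by_cases hrN : r ∣ Nat.card N
      · exact rq_of _ huE huU hrp (nu_cop H hrp hrN)
      · have h5 : y ∈ Rq ⁅M, M⁆ r := rq_of _ hyE hyN hrp hrN
        have h6 : x ^ n ∈ Rq ⁅M, M⁆ r := by
          refine ⟨Subgroup.pow_mem _ hx n, q ^ k, ?_, ?_⟩
          · refine Nat.Coprime.pow_left _ ((Nat.coprime_primes hq hrp).2 ?_)
            rintro rfl
            exact hqs hr
          · rw [← pow_mul, mul_comm]
            exact h2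
        have h7 : u = y⁻¹ * x ^ n := by
          rw [hyu, inv_mul_cancel_left]
        rw [h7]
        exact Subgroup.mul_mem _ (Subgroup.inv_mem _ h5) h6
    rw [hyu]
    exact Subgroup.mul_mem _ (Subgroup.mem_sup_left h3) (Subgroup.mem_sup_right h4)
  · apply le_antisymm
    · rintro x ⟨hx, hx1, hx2⟩
      have h1 : x ∈ C ⊓ ⁅M, M⁆ := ⟨hx, hLD hx2⟩
      rw [hC2] at h1
      refine ⟨hx1, ?_⟩
      refine mem_Ls.2 ⟨hLD hx2, fun r hr => ?_⟩
      rcases Finset.mem_insert.1 hr with rfl | hr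
      · exact h1
      · exact (mem_Ls.1 hx2).2 r hr
    · intro x hx
      have h1 : x ∈ C ⊓ ⁅M, M⁆ := by
        rw [hC2]
        exact (mem_Ls.1 hx.2).2 q (Finset.mem_insert_self _ _)
      exact ⟨h1.1, hx.1, hle hx.2⟩
  · intro g hg x hx
    have h1 := hZ1 g hg x (hLD hx.2)
    have h2 : g * x * g⁻¹ * x⁻¹ ∈ Ls ⁅M, M⁆ s :=
      Subgroup.mul_mem _ ((Ls_normal ⁅M, M⁆ s).conj_mem x hx.2 g) (Subgroup.inv_mem _ hx.2)
    refine ⟨Subgroup.mul_mem _ (hU.conj_mem x hx.1 g) (Subgroup.inv_mem _ hx.1), ?_⟩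
    refine mem_Ls.2 ⟨(mem_Ls.1 h2).1, fun r hr => ?_⟩
    rcases Finset.mem_insert.1 hr with rfl | hr
    · exact h1
    · exact (mem_Ls.1 h2).2 r hr
  · -- the order of the factor is a power of `q`
    have h1 : IsPGroup q (↥(U ⊓ Ls ⁅M, M⁆ s) ⧸
        (U ⊓ Ls ⁅M, M⁆ (insert q s)).subgroupOf (U ⊓ Ls ⁅M, M⁆ s)) := by
      intro y
      obtain ⟨x, rfl⟩ := QuotientGroup.mk_surjective y
      obtain ⟨k, n, hn, h1, h2⟩ := pow_mem_Rq ⁅M, M⁆ hq (hLD x.2.2)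
      refine ⟨k, ?_⟩
      rw [← QuotientGroup.mk_pow, QuotientGroup.eq_one_iff, Subgroup.mem_subgroupOf]
      refine ⟨(x ^ q ^ k).2.1, mem_Ls.2 ⟨hLD (x ^ q ^ k).2.2, fun r hr => ?_⟩⟩
      rcases Finset.mem_insert.1 hr with rfl | hr
      · exact h1
      · exact (mem_Ls.1 (x ^ q ^ k).2.2).2 r hr
    obtain ⟨i, hi⟩ := IsPGroup.iff_card.1 h1
    have h2 : (U ⊓ Ls ⁅M, M⁆ (insert q s)).relIndex (U ⊓ Ls ⁅M, M⁆ s) = q ^ i := hi
    rw [h2]
    exact Nat.Coprime.pow_right _ (((Nat.Prime.coprime_iff_not_dvd hq).2 hZ2).symm)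
  · intro x hx
    refine typ S hq ⁅M, M⁆ (Rq ⁅M, M⁆ q) C (fun y hy => hy.1) hED (fun e he => ?_) hC1 hC2 hx ?_
    · obtain ⟨k, n, hn, h1, h2⟩ := pow_mem_Rq ⁅M, M⁆ hq he
      exact ⟨k, h1⟩
    · intro hxD hxq
      exfalso
      apply hqN
      have h1 := orderOf_dvd_natCard (⟨x, H.typ x hx hxD⟩ : N)
      rwa [← Subgroup.orderOf_coe, hxq] at h1

private theorem twl_finset [Nonempty Ω] [FaithfulSMul G Ω] [MulAction.IsPretransitive G Ω]
    (S : St Ω L T) {N U : Subgroup G} (H : Nu L T N U) (M : Subgroup G) [M.Normal] (hMT : M ≤ T)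
    (hdec : ∀ x ∈ (⁅M, M⁆ : Subgroup G), ∃ n u : G, n ∈ N ∧ n ∈ (⁅M, M⁆ : Subgroup G) ∧ u ∈ U ∧
      u ∈ (⁅M, M⁆ : Subgroup G) ∧ x = n * u)
    (s : Finset ℕ) (hs : ∀ r ∈ s, r.Prime ∧ r ∣ Nat.card (⁅M, M⁆ : Subgroup G))
    (h : TwL L (U ⊓ Ls ⁅M, M⁆ s)) : TwL L (U ⊓ ⁅M, M⁆) := by
  induction s using Finset.induction_on with
  | empty =>
    have h1 : Ls ⁅M, M⁆ ∅ = ⁅M, M⁆ := by
      ext x
      rw [mem_Ls]
      exact ⟨fun h => h.1, fun h => ⟨h, fun q hq => absurd hq (Finset.notMem_empty q)⟩⟩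
    rwa [h1] at h
  | insert q s hq ih =>
    refine ih (fun r hr => hs r (Finset.mem_insert_of_mem hr)) ?_
    exact twl_layer S H M hMT hdec (fun r hr => (hs r (Finset.mem_insert_of_mem hr)).1)
      (hs q (Finset.mem_insert_self _ _)).1 hq (hs q (Finset.mem_insert_self _ _)).2 h

theorem tow [Nonempty Ω] [FaithfulSMul G Ω] [MulAction.IsPretransitive G Ω] (S : St Ω L T)
    {N U : Subgroup G} (H : Nu L T N U) : TwL L U := by
  have hTn : T.Normal := S.nor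
  have hUD : U ≤ ⁅T, T⁆ := by
    rw [← H.sup]
    exact le_sup_right
  have hND : N ≤ ⁅T, T⁆ := by
    rw [← H.sup]
    exact le_sup_left
  have key : ∀ (n : ℕ) (M : Subgroup G), M.Normal → (M = T ∨ M ≤ ⁅T, T⁆) → Nat.card M = n →
      TwL L (U ⊓ ⁅M, M⁆) := by
    intro n
    induction n using Nat.strong_induction_on with
    | _ n ih =>
      intro M hM hMD hn
      by_cases hE : (⁅M, M⁆ : Subgroup G) = ⊥
      · rw [hE, inf_bot_eq]
        exact twl_bot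
      have hMT : M ≤ T := by
        rcases hMD with rfl | h
        · exact le_refl _
        · exact h.trans S.dle
      have hM0 : M ≠ ⊥ := by
        rintro rfl
        exact hE (le_bot_iff.1 (Subgroup.commutator_le_left _ _))
      have hsM : Group.IsSolvable M := by
        have := S.sol
        exact Group.isSolvable_of_isSolvable_injective (Subgroup.inclusion_injective hMT)
      have hlt : (⁅M, M⁆ : Subgroup G) < M := by
        have h1 : commutator M < ⊤ := by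
          have : Nontrivial M := (Subgroup.nontrivial_iff_ne_bot _).2 hM0
          exact Group.IsSolvable.commutator_lt_top_of_nontrivial M
        have h2 : (commutator M).map M.subtype < (⊤ : Subgroup M).map M.subtype :=
          Subgroup.map_subtype_lt_map_subtype.2 h1
        rw [commutator_def, Subgroup.map_commutator, ← MonoidHom.range_eq_map,
          Subgroup.range_subtype] at h2
        exact h2
      have hcard : Nat.card (⁅M, M⁆ : Subgroup G) < n := by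
        rw [← hn]
        exact Set.ncard_lt_ncard (SetLike.coe_ssubset_coe.2 hlt) (Set.toFinite _)
      have hED : (⁅M, M⁆ : Subgroup G) ≤ ⁅T, T⁆ := Subgroup.commutator_mono hMT hMT
      have h3 : TwL L (U ⊓ ⁅(⁅M, M⁆ : Subgroup G), (⁅M, M⁆ : Subgroup G)⁆) :=
        ih _ hcard ⁅M, M⁆ inferInstance (Or.inr hED) rfl
      refine twl_finset S H M hMT ?_ (Nat.card (⁅M, M⁆ : Subgroup G)).primeFactors ?_ ?_
      · intro x hx
        rcases hMD with rfl | h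
        · have hN := H.nN
          have h4 : x ∈ N ⊔ U := by
            rw [H.sup]
            exact hx
          obtain ⟨y, hy, u, hu, e⟩ := Subgroup.mem_sup_of_normal_left.1 h4
          exact ⟨y, u, hy, hND hy, hu, hUD hu, e.symm⟩
        · have h4 : x ∈ U := nu_comm H (Subgroup.commutator_mono h h hx)
          exact ⟨1, x, N.one_mem, Subgroup.one_mem _, h4, hx, (one_mul x).symm⟩
      · intro q hq
        have h4 := Nat.mem_primeFactors.1 hq
        exact ⟨h4.1, h4.2.1⟩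
      · rw [Ls_primeFactors]
        exact h3
  have h1 := key _ T hTn (Or.inl rfl) rfl
  rwa [inf_eq_left.2 hUD] at h1

end H12.CF
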