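import Pool.Agent.H12.CF.Bar
import Pool.Agent.H12.CF.Tow
import Pool.Agent.H12.CF.Chn
import Pool.Agent.H12.CF.Idx

/-!
# [H12 CF FIN] theorem K2 for the cube-free case

`low_of_base0`: as `H71.KA.low_of_base` (H71/KA/Fn2.lean) with `BASE0`: `cfm` with `S' = ∅`.
`low_cf`: `low_of_base0`: `S` from `st_lst`, `Nu` from `exists_nu`, `bar`, `base_base0`, `tow`, `chain0`.
`low_cfs`: all solvable groups of cube-free order.
-/

set_option autoImplicit false

open scoped NumberField commutatorElement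
open IsDedekindDomain H38.ML
open scoped Classical

noncomputable section

namespace H12.CF

open H63.MA H38.BB H38.BG H77.PC3 H88.LH H35.SN H77.GN H77.AB H71.KA

theorem low_of_base0 (n : ℕ) (hn : 2 ≤ n) (G : Subgroup (Equiv.Perm (Fin n)))
    (hG : MulAction.IsPretransitive G (Fin n))
    (hb : ∀ (r : ℕ), 1 ≤ r → ∀ g : Fin r → G, (∀ i j, IsConj (g i) (g j) → i = j) →
      (∀ x, x ∈ H88.LB.Lst G ↔ ∃ i, IsConj x (g i)) → BASE0 (H88.LB.Lst G) r) :
    H88.LB.Low G := by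
  obtain ⟨ha, ⟨g₀, hg₀, hg₀'⟩, hmin, hcj, hJ⟩ := pidx_pos hn G hG
  obtain ⟨r, g, hgΛ, uni, hI⟩ := ncl G {h : G | h ≠ 1 ∧ ind (h : Equiv.Perm (Fin n)) = indG G}
    (fun h hh => hh.1) (by
      rintro h ⟨h1, h2⟩ k hk
      refine ⟨?_, ?_⟩
      · intro hk1
        rw [hk1] at hk
        exact h1 (isConj_one_left.1 hk)
      · obtain ⟨x, rfl⟩ := isConj_iff.1 hk
        exact hcj h x h1 h2)
  have hr : 1 ≤ r := by
    obtain ⟨i, -⟩ := (hI g₀).1 ⟨hg₀, hg₀'⟩
    exact Nat.one_le_iff_ne_zero.2 fun h => by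
      subst h
      exact i.elim0
  have hbase : BASE0 {h : G | h ≠ 1 ∧ ind (h : Equiv.Perm (Fin n)) = indG G} r :=
    hb r hr g uni hI
  obtain ⟨K₁, hK₁, h⟩ := hbase
  obtain ⟨K₂, hK₂, h2⟩ := akn G
  have hK₁' : FiniteDimensional ℚ K₁ := hK₁.to_finiteDimensional
  have hK₂' : FiniteDimensional ℚ K₂ := hK₂.to_finiteDimensional
  have hfd' : FiniteDimensional ℚ ↥(K₁ ⊔ K₂) := IntermediateField.finiteDimensional_sup K₁ K₂
  refine ⟨K₁ ⊔ K₂, NumberField.of_module_finite ℚ _, fun K hK hle => ?_⟩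
  obtain ⟨-, ⟨z, hz⟩, -⟩ := h2 K (le_trans le_sup_right hle) hK
  obtain ⟨Q, S₀, c', Y₀, hc', h3, h7⟩ := h K hK (le_trans le_sup_left hle) ∅
  have hβ : Spec.betaAll K QBar G = r := lbet G K z hz g uni fun h => hI h
  unfold H88.LB.LowK
  rw [hβ]
  exact cfm hn G hG ha K Q S₀ ∅ _ (fun h hh => hh.2) r c' Y₀ hc' h7

/-- THEOREM K2, the case of solvable `⟨L⟩` without cubes -/
theorem low_cf (hst : STP) (hk : K2C) (n : ℕ) (hn : 2 ≤ n) (G : Subgroup (Equiv.Perm (Fin n)))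
    (hG : MulAction.IsPretransitive G (Fin n))
    (hs : Group.IsSolvable (Subgroup.closure (H88.LB.Lst G)))
    (hc : ∀ q : ℕ, q.Prime → q ∣ Nat.card (Subgroup.closure (H88.LB.Lst G)) →
      ¬ q ^ 3 ∣ Nat.card G) : H88.LB.Low G := by
  have S := st_lst hn G hG hs hc
  have : Nonempty (Fin n) := ⟨⟨0, by omega⟩⟩
  have hf : FaithfulSMul G (Fin n) := inferInstance
  obtain ⟨N, U, H⟩ := exists_nu S
  have hU : U.Normal := H.nU
  refine low_of_base0 n hn G hG fun r hr g uni hI => ?_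
  exact chain0 S.cj U (tow S H) (base_base0 (bar hst hk S H r hr g uni hI))

/-- all solvable groups of cube-free order -/
theorem low_cfs (hst : STP) (hk : K2C) (n : ℕ) (hn : 2 ≤ n) (G : Subgroup (Equiv.Perm (Fin n)))
    (hG : MulAction.IsPretransitive G (Fin n)) (hs : Group.IsSolvable G)
    (hc : ∀ q : ℕ, q.Prime → ¬ q ^ 3 ∣ Nat.card G) : H88.LB.Low G :=
  low_cf hst hk n hn G hG
    (Group.isSolvable_of_isSolvable_injective (Subgroup.subtype_injective _)) fun q hq _ => hc q hq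

end H12.CF
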