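import Pool.Agent.H12.CF.Ab
import Mathlib.GroupTheory.Transfer

/-!
# [H12 CF FOC] abelian Sylow subgroups and the normaliser, 140-200 lines

`P` a Sylow `q`-subgroup of `G`, commutative (`AbS q G`), contained in the normal subgroup `T` (so it is a Sylow subgroup of `T`: `Sylow.subtype`).
`fus` (Burnside): if `z, g z g⁻¹ ∈ P`, `g ∈ T`, then `g z g⁻¹ = h z h⁻¹` with `h ∈ T`, `h` in the normaliser of `P`: `P` and `g⁻¹ P g` are Sylow subgroups of the centraliser of `z` in `T`. (See `Sylow.conj_eq_normalizer_conj_of_mem_centralizer` or similar in Mathlib, Transfer/Sylow.)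
`foc`: the transfer `T → P` (as in `H71.GT.cen` in H71/GT/Ab.lean and `MonoidHom.transfer_eq_pow`): for `z ∈ P` centralised by `N_T(P)`, if `g⁻¹ z ^ k g ∈ P`, `g ∈ T`, then `g⁻¹ z ^ k g = z ^ k` by `fus`. So the transfer of `z` is `z ^ [T : P]`; it is `1` for `z ∈ ⁅T, T⁆`; the index is prime to `q`, `z` has order a power of `q`.
`dec`: `N := T ⊓ N(P)`, `C := C_N(P) ≥ P`: `m = [N : C]` is prime to `q`. For `x ∈ P` let `y = ∏ c x c⁻¹`, `c` representatives of `N / C` (well defined in `P`, commutative), centralised by `N`; `u m = 1` modulo `q`, `p = y ^ u`, `v = x p⁻¹ = ∏ (x (c x c⁻¹)⁻¹) ^ u` (as `x ^ (u m) = x`), in `⁅T, T⁆`.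
-/

set_option autoImplicit false

open scoped commutatorElement IsMulCommutative

namespace H12.CF

open H71.GT

variable {G : Type} [Group G] [Finite G] {q : ℕ}

private theorem icm (hab : AbS q G) (P : Sylow q G) : IsMulCommutative (P : Subgroup G) :=
  ⟨⟨fun x y => Subtype.ext (hab P P.2 x x.2 y y.2)⟩⟩

private theorem icmT (hab : AbS q G) (T : Subgroup G) (P : Sylow q G)
    (hPT : (P : Subgroup G) ≤ T) : IsMulCommutative (P.subtype hPT : Subgroup T) := by
  have h1 := AbS.sub hab T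
  exact icm h1 (P.subtype hPT)

private theorem nrm (T : Subgroup G) (P : Sylow q G) (hPT : (P : Subgroup G) ≤ T) {n : T}
    (hn : n ∈ Subgroup.normalizer ((P.subtype hPT : Subgroup T) : Set T)) :
    (n : G) ∈ Subgroup.normalizer ((P : Subgroup G) : Set G) := by
  rw [Subgroup.mem_normalizer_iff] at hn ⊢
  intro h
  constructor
  · intro hh
    exact (hn ⟨h, hPT hh⟩).1 hh
  · intro hh
    have h1 : h ∈ T := by
      have h2 : (n : G) * h * (n : G)⁻¹ ∈ T := hPT hh
      have h3 : h = (n : G)⁻¹ * ((n : G) * h * (n : G)⁻¹) * (n : G) := by group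
      rw [h3]
      exact T.mul_mem (T.mul_mem (T.inv_mem n.2) h2) n.2
    exact (hn ⟨h, h1⟩).2 hh

theorem fus [Fact q.Prime] (hab : AbS q G) (T : Subgroup G) [T.Normal] (P : Sylow q G)
    (hPT : (P : Subgroup G) ≤ T) {z g : G} (hz : z ∈ (P : Subgroup G)) (hg : g ∈ T)
    (hgz : g * z * g⁻¹ ∈ (P : Subgroup G)) :
    ∃ h ∈ T, h ∈ Subgroup.normalizer ((P : Subgroup G) : Set G) ∧ g * z * g⁻¹ = h * z * h⁻¹ := by
  have hic := icmT hab T P hPT
  obtain ⟨x, hx⟩ : ∃ x : T, (x : G) = z := ⟨⟨z, hPT hz⟩, rfl⟩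
  obtain ⟨a, ha⟩ : ∃ a : T, (a : G) = g := ⟨⟨g, hg⟩, rfl⟩
  have h1 : x ∈ P.subtype hPT := by
    show (x : G) ∈ (P : Subgroup G)
    rw [hx]
    exact hz
  have h2 : (a⁻¹)⁻¹ * x * a⁻¹ ∈ P.subtype hPT := by
    show (((a⁻¹)⁻¹ * x * a⁻¹ : T) : G) ∈ (P : Subgroup G)
    rw [inv_inv, Subgroup.coe_mul, Subgroup.coe_mul, Subgroup.coe_inv, hx, ha]
    exact hgz
  obtain ⟨n, hn, h3⟩ := (P.subtype hPT).conj_eq_normalizer_conj_of_mem x a⁻¹ h1 h2
  refine ⟨((n⁻¹ : T) : G), (n⁻¹).2, nrm T P hPT (Subgroup.inv_mem _ hn), ?_⟩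
  have h4 := congrArg (fun t : T => (t : G)) h3
  simp only [inv_inv, Subgroup.coe_mul, Subgroup.coe_inv, hx, ha] at h4
  rw [h4, Subgroup.coe_inv, inv_inv]

theorem foc [Fact q.Prime] (hab : AbS q G) (T : Subgroup G) [T.Normal] (P : Sylow q G)
    (hPT : (P : Subgroup G) ≤ T) {z : G} (hz : z ∈ (P : Subgroup G)) (hzD : z ∈ ⁅T, T⁆)
    (hN : ∀ g ∈ T, g ∈ Subgroup.normalizer ((P : Subgroup G) : Set G) → g * z = z * g) : z = 1 := by
  have hic := icmT hab T P hPT
  obtain ⟨x, hx⟩ : ∃ x : T, (x : G) = z := ⟨⟨z, hPT hz⟩, rfl⟩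
  have hxP : x ∈ P.subtype hPT := by
    show (x : G) ∈ (P : Subgroup G)
    rw [hx]
    exact hz
  have hxc : x ∈ commutator T := by
    rw [← Subgroup.map_subtype_commutator] at hzD
    obtain ⟨y, hy, hyz⟩ := hzD
    have h1 : y = x := by
      apply Subtype.ext
      rw [hx]
      exact hyz
    rw [← h1]
    exact hy
  have key : ∀ (k : ℕ) (g₀ : T), g₀⁻¹ * x ^ k * g₀ ∈ (P.subtype hPT : Subgroup T) →
      g₀⁻¹ * x ^ k * g₀ = x ^ k := by
    intro k g₀ h1
    obtain ⟨n, hn, h2⟩ := (P.subtype hPT).conj_eq_normalizer_conj_of_mem (x ^ k) g₀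
      (Subgroup.pow_mem _ hxP k) h1
    rw [h2]
    have h3 : n * x = x * n := by
      apply Subtype.ext
      rw [Subgroup.coe_mul, Subgroup.coe_mul, hx]
      exact hN n n.2 (nrm T P hPT hn)
    have h4 : n * x ^ k = x ^ k * n := (show Commute n x from h3).pow_right k
    rw [mul_assoc, ← h4, inv_mul_cancel_left]
  have h2 := MonoidHom.transfer_eq_pow (MonoidHom.id (P.subtype hPT : Subgroup T)) x key
  have h3 : MonoidHom.transfer (MonoidHom.id (P.subtype hPT : Subgroup T)) x = 1 :=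
    Abelianization.commutator_subset_ker _ hxc
  rw [h3] at h2
  have h4 : x ^ (P.subtype hPT : Subgroup T).index = 1 := (congrArg Subtype.val h2).symm
  obtain ⟨k, hk⟩ := (P.subtype hPT).2 ⟨x, hxP⟩
  have hk2 : x ^ q ^ k = 1 := congrArg Subtype.val hk
  have h5 : Nat.Coprime (q ^ k) (P.subtype hPT : Subgroup T).index :=
    Nat.Coprime.pow_left _ ((Nat.Prime.coprime_iff_not_dvd Fact.out).2 (P.subtype hPT).not_dvd_index)
  have h6 : orderOf x ∣ Nat.gcd (q ^ k) (P.subtype hPT : Subgroup T).index :=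
    Nat.dvd_gcd (orderOf_dvd_of_pow_eq_one hk2) (orderOf_dvd_of_pow_eq_one h4)
  rw [h5, Nat.dvd_one, orderOf_eq_one_iff] at h6
  rw [← hx, h6]
  rfl

theorem dec [Fact q.Prime] (hab : AbS q G) (T : Subgroup G) [T.Normal] (P : Sylow q G)
    (hPT : (P : Subgroup G) ≤ T) {x : G} (hx : x ∈ (P : Subgroup G)) (hxq : x ^ q = 1) :
    ∃ v p : G, x = v * p ∧ v ∈ ⁅T, T⁆ ∧ v ∈ (P : Subgroup G) ∧ p ∈ (P : Subgroup G) ∧ v ^ q = 1 ∧
      p ^ q = 1 ∧
      ∀ g ∈ T, g ∈ Subgroup.normalizer ((P : Subgroup G) : Set G) → g * p = p * g := by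
  have hic := icm hab P
  obtain ⟨N, hN⟩ : ∃ N : Subgroup G, N = T ⊓ Subgroup.normalizer ((P : Subgroup G) : Set G) := ⟨_, rfl⟩
  have hPN : (P : Subgroup G) ≤ N := by
    rw [hN]
    exact le_inf hPT Subgroup.le_normalizer
  have hcj : ∀ (n : N) (y : (P : Subgroup G)), (n : G) * y * (n : G)⁻¹ ∈ (P : Subgroup G) := by
    intro n y
    have h1 : (n : G) ∈ T ⊓ Subgroup.normalizer ((P : Subgroup G) : Set G) := by
      rw [← hN]
      exact n.2
    exact (Subgroup.mem_normalizer_iff.1 h1.2 y).1 y.2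
  obtain ⟨X, hX⟩ : ∃ X : (P : Subgroup G), (X : G) = x := ⟨⟨x, hx⟩, rfl⟩
  have hXq : X ^ q = 1 := by
    apply Subtype.ext
    rw [Subgroup.coe_pow, hX, hxq]
    rfl
  obtain ⟨c, hc⟩ : ∃ c : N → (P : Subgroup G) →* (P : Subgroup G),
      ∀ n y, ((c n y : (P : Subgroup G)) : G) = (n : G) * y * (n : G)⁻¹ := by
    refine ⟨fun n => ⟨⟨fun y => ⟨(n : G) * y * (n : G)⁻¹, hcj n y⟩, ?_⟩, ?_⟩, fun n y => rfl⟩
    · apply Subtype.ext
      show (n : G) * 1 * (n : G)⁻¹ = 1
      rw [mul_one, mul_inv_cancel]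
    · intro y z
      apply Subtype.ext
      show (n : G) * (y * z) * (n : G)⁻¹ = (n : G) * y * (n : G)⁻¹ * ((n : G) * z * (n : G)⁻¹)
      group
  have hcm : ∀ n m y, c (n * m) y = c n (c m y) := by
    intro n m y
    apply Subtype.ext
    rw [hc, hc, hc, Subgroup.coe_mul]
    group
  have hc1 : ∀ n : N, (n : G) ∈ (P : Subgroup G) → ∀ y, c n y = y := by
    intro n hn y
    apply Subtype.ext
    rw [hc, hab P P.2 n hn y y.2, mul_inv_cancel_right]
  obtain ⟨W, hW⟩ : ∃ W : Subgroup N, W = (P : Subgroup G).subgroupOf N := ⟨_, rfl⟩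
  have hout : ∀ n : N, c ((QuotientGroup.mk n : N ⧸ W)).out X = c n X := by
    intro n
    obtain ⟨w, hw⟩ := QuotientGroup.mk_out_eq_mul W n
    rw [hw, hcm]
    have h1 : ∀ a : N, a ∈ W → (a : G) ∈ (P : Subgroup G) := by
      intro a ha
      rw [hW] at ha
      exact ha
    rw [hc1 w (h1 w w.2)]
  have hfin : Finite (N ⧸ W) := inferInstance
  have hft : Fintype (N ⧸ W) := Fintype.ofFinite _
  obtain ⟨y, hy⟩ : ∃ y : (P : Subgroup G), y = ∏ r : N ⧸ W, c r.out X := ⟨_, rfl⟩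
  have hcy : ∀ n : N, c n y = y := by
    intro n
    calc c n y = ∏ r : N ⧸ W, c (n * r.out) X := by
          rw [hy, map_prod]
          exact Finset.prod_congr rfl fun r _ => (hcm _ _ _).symm
      _ = ∏ r : N ⧸ W, c (n • r).out X := by
          refine Finset.prod_congr rfl fun r _ => ?_
          rw [← hout (n * r.out)]
          have h1 : (QuotientGroup.mk (n * r.out) : N ⧸ W) = n • r := by
            have h2 : (QuotientGroup.mk r.out : N ⧸ W) = r := QuotientGroup.out_eq' r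
            calc (QuotientGroup.mk (n * r.out) : N ⧸ W) = n • (QuotientGroup.mk r.out : N ⧸ W) := rfl
              _ = n • r := by rw [h2]
          rw [h1]
      _ = y := by
          rw [hy]
          exact Equiv.prod_comp (MulAction.toPerm n) fun r : N ⧸ W => c r.out X
  have hm : Nat.Coprime q (Fintype.card (N ⧸ W)) := by
    have h1 : Fintype.card (N ⧸ W) = W.index := by
      rw [← Nat.card_eq_fintype_card]
      rfl
    rw [h1]
    have h2 := (P.subtype hPN).not_dvd_index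
    have h3 : ((P.subtype hPN : Sylow q N) : Subgroup N) = W := by
      rw [hW]
      rfl
    rw [h3] at h2
    exact (Nat.Prime.coprime_iff_not_dvd Fact.out).2 h2
  obtain ⟨u, hu⟩ : ∃ u : ℕ, (Fintype.card (N ⧸ W)) * u % q = 1 := by
    obtain ⟨u, -, hu⟩ := Nat.exists_mul_mod_eq_one_of_coprime hm.symm (Nat.Prime.one_lt Fact.out)
    exact ⟨u, hu⟩
  have hXu : (X ^ Fintype.card (N ⧸ W)) ^ u = X := by
    rw [← pow_mul, ← Nat.div_add_mod (Fintype.card (N ⧸ W) * u) q, pow_add, pow_mul, hXq, one_pow,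
      one_mul, hu, pow_one]
  have hyq : y ^ q = 1 := by
    rw [hy, ← Finset.prod_pow]
    refine Finset.prod_eq_one fun r _ => ?_
    rw [← map_pow, hXq, map_one]
  have hv : X * (y ^ u)⁻¹ = (∏ r : N ⧸ W, (X * (c r.out X)⁻¹)) ^ u := by
    rw [Finset.prod_mul_distrib, Finset.prod_const, Finset.card_univ, Finset.prod_inv_distrib, ← hy,
      mul_pow, hXu, inv_pow]
  have hpq : (y ^ u) ^ q = 1 := by
    rw [← pow_mul, mul_comm u q, pow_mul, hyq, one_pow]
  refine ⟨((X * (y ^ u)⁻¹ : (P : Subgroup G)) : G), ((y ^ u : (P : Subgroup G)) : G), ?_, ?_,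
    Subtype.prop _, Subtype.prop _, ?_, ?_, ?_⟩
  · rw [← Subgroup.coe_mul, inv_mul_cancel_right, hX]
  · have h1 : (X * (y ^ u)⁻¹ : (P : Subgroup G)) ∈ (⁅T, T⁆ : Subgroup G).subgroupOf (P : Subgroup G) := by
      rw [hv]
      refine Subgroup.pow_mem _ (Subgroup.prod_mem _ fun r _ => ?_) u
      show (((X * (c r.out X)⁻¹ : (P : Subgroup G))) : G) ∈ (⁅T, T⁆ : Subgroup G)
      rw [Subgroup.coe_mul, Subgroup.coe_inv, hc]
      have h2 : (X : G) * (((r.out : N) : G) * X * ((r.out : N) : G)⁻¹)⁻¹ = ⁅(X : G), ((r.out : N) : G)⁆ := by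
        rw [commutatorElement_def]
        group
      rw [h2]
      refine Subgroup.commutator_mem_commutator (hPT X.2) ?_
      have h3 : ((r.out : N) : G) ∈ T ⊓ Subgroup.normalizer ((P : Subgroup G) : Set G) := by
        rw [← hN]
        exact (r.out : N).2
      exact h3.1
    exact h1
  · have h1 : (X * (y ^ u)⁻¹) ^ q = 1 := by
      rw [mul_pow, hXq, inv_pow, hpq, inv_one, one_mul]
    have h2 := congrArg (fun t : (P : Subgroup G) => (t : G)) h1
    simp only [Subgroup.coe_pow] at h2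
    rw [h2]
    rfl
  · have h2 := congrArg (fun t : (P : Subgroup G) => (t : G)) hpq
    simp only [Subgroup.coe_pow] at h2 ⊢
    rw [h2]
    rfl
  · intro g hgT hgN
    have h1 : g ∈ N := by
      rw [hN]
      exact ⟨hgT, hgN⟩
    have h2 : c ⟨g, h1⟩ (y ^ u) = y ^ u := by
      rw [map_pow, hcy]
    have h3 : ((c ⟨g, h1⟩ (y ^ u) : (P : Subgroup G)) : G) = ((y ^ u : (P : Subgroup G)) : G) :=
      congrArg (fun t : (P : Subgroup G) => (t : G)) h2
    rw [hc] at h3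
    exact mul_inv_eq_iff_eq_mul.1 h3

end H12.CF
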