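import Pool.Agent.H12.CF.Mat
import Pool.Agent.H12.CF.Ab

/-!
# [H12 CF GL2] nonabelian subgroups of `GL 2` of order prime to the characteristic, 140-200 lines

`M := ρ.range` (finite, solvable, order prime to `t`). `scal`: an element `ρ f`, `f ∈ commutator H`, which is scalar `c`: `c ^ 2 = det = 1`, `c = ± 1` (a field); if `c = - 1`, `ρ f ≠ 1`: then `ρ f` is central in `M`, in the commutator subgroup of `M`, of order 2: `H71.GT.cen` for `M` (`AbS 2 M`: `M ≃ H ⧸ ker`, `AbS.quot`; transport) gives `ρ f = 1`, contradiction.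
(i) the commutator subgroup `M'` is abelian: let `B` be the last nontrivial term of the derived series of `M` (solvable), if `M' ≠ 1`: `B ≤ M'` is abelian and normal in `M`; `1 ≠ b ∈ B` is not scalar (`scal`), has determinant 1, order prime to `t`. For `g ∈ M` the conjugate `g b g⁻¹ ∈ B` commutes with `b`, same trace and determinant: `m_inv`: it is `b` or `b⁻¹`. So conjugation with a commutator fixes `b`: `M'` commutes with `b`, `m_cc`: `M'` is commutative.
(ii) so for `f`: nonscalar, `M'` commutes with `ρ f`, `ρ (g f g⁻¹) ∈ M'`: `m_inv` again. (iii) `ρ f` is not central in `M` (`cen`: `ρ f` has finite order; apply it to powers: if `ρ f` is central then for a prime `q` dividing its order a power of `ρ f` of order `q` is central and in `M'`: for this use `AbS q M` .. NOT available for all `q`: use instead: if `ρ f` is central then `ρ f` commutes with everything and is nonscalar, so `M` is commutative by `m_cc`, `M' = 1`, contradiction to `ρ f ≠ 1`).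
So `ρ` of the generators `L` do not all commute with `ρ f`: there is `z ∈ L` with `ρ (z f z⁻¹) = (ρ f)⁻¹ ≠ ρ f`; `z ^ 2` commutes with `ρ f`; if `orderOf z` is odd then `z` is a power of `z ^ 2`: contradiction; a prime which is not odd is 2.
-/

set_option autoImplicit false

noncomputable section

namespace H12.CF

open H71.GT

variable {t : ℕ} [Fact t.Prime] {H : Type} [Group H]

private theorem gDet (ρ : H →* Matrix.GeneralLinearGroup (Fin 2) (ZMod t)) {f : H} (hf : f ∈ commutator H) :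
    (ρ f : Matrix (Fin 2) (Fin 2) (ZMod t)).det = 1 := by
  have h1 : f ∈ (Matrix.GeneralLinearGroup.det.comp ρ).ker :=
    Abelianization.commutator_subset_ker (Matrix.GeneralLinearGroup.det.comp ρ) hf
  have h2 : Matrix.GeneralLinearGroup.det (ρ f) = 1 := h1
  rw [← Matrix.GeneralLinearGroup.val_det_apply, h2, Units.val_one]

private theorem gCh (A : Matrix (Fin 2) (Fin 2) (ZMod t)) : A * A = A.trace • A - A.det • 1 := by
  ext i j
  fin_cases i <;> fin_cases j <;>
    simp [Matrix.mul_apply, Fin.sum_univ_two, Matrix.det_fin_two, Matrix.trace_fin_two] <;> ring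

private theorem gTwo (ht : t ≠ 2) : (2 : ZMod t) ≠ 0 := by
  intro h
  have h1 : ((2 : ℕ) : ZMod t) = 0 := by exact_mod_cast h
  rw [ZMod.natCast_eq_zero_iff] at h1
  exact ht ((Nat.prime_dvd_prime_iff_eq Fact.out Nat.prime_two).1 h1)

private theorem gScal [Finite H] (hab : AbS 2 H)
    (ρ : H →* Matrix.GeneralLinearGroup (Fin 2) (ZMod t)) {f : H} (hf : f ∈ commutator H) (hf1 : ρ f ≠ 1)
    (c : ZMod t) : (ρ f : Matrix (Fin 2) (Fin 2) (ZMod t)) ≠ c • 1 := by
  intro hc
  have hd := gDet ρ hf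
  have hcc : c * c = 1 := by
    rw [hc, Matrix.det_smul, Matrix.det_one, mul_one, Fintype.card_fin, pow_two] at hd
    exact hd
  have hcom : ∀ g : H, ρ g * ρ f = ρ f * ρ g := by
    intro g
    apply Units.ext
    rw [Units.val_mul, Units.val_mul, hc, mul_smul_comm, smul_mul_assoc, mul_one, one_mul]
  have hsq : ρ f * ρ f = 1 := by
    apply Units.ext
    rw [Units.val_mul, hc, mul_smul_comm, mul_one, smul_smul, hcc, one_smul, Units.val_one]
  have hq := hab.quot ρ.ker
  have h1 : (QuotientGroup.mk f : H ⧸ ρ.ker) = 1 := by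
    refine cen (k := 1) hq ?_ ?_ ?_
    · intro g
      obtain ⟨g, rfl⟩ := QuotientGroup.mk_surjective g
      rw [← QuotientGroup.mk_mul, ← QuotientGroup.mk_mul, QuotientGroup.eq, MonoidHom.mem_ker, map_mul, map_inv,
        map_mul, map_mul, hcom g]
      group
    · have h2 : (commutator H).map (QuotientGroup.mk' ρ.ker) ≤ commutator (H ⧸ ρ.ker) := by
        rw [commutator_def, commutator_def, Subgroup.map_commutator]
        exact Subgroup.commutator_mono le_top le_top
      exact h2 (Subgroup.mem_map_of_mem (QuotientGroup.mk' ρ.ker) hf)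
    · rw [pow_one, ← QuotientGroup.mk_pow, QuotientGroup.eq_one_iff, MonoidHom.mem_ker, map_pow, pow_two, hsq]
  rw [QuotientGroup.eq_one_iff, MonoidHom.mem_ker] at h1
  exact hf1 h1

private theorem gInv [Finite H] (ht : t ≠ 2) (hab : AbS 2 H)
    (ρ : H →* Matrix.GeneralLinearGroup (Fin 2) (ZMod t)) (hco : ¬ t ∣ Nat.card ρ.range) {f : H}
    (hf : f ∈ commutator H) (hf1 : ρ f ≠ 1) (g : H) (hg : ρ f * ρ (g * f * g⁻¹) = ρ (g * f * g⁻¹) * ρ f) :
    ρ (g * f * g⁻¹) = ρ f ∨ ρ (g * f * g⁻¹) = (ρ f)⁻¹ := by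
  have hgf : g * f * g⁻¹ ∈ commutator H := (inferInstance : (commutator H).Normal).conj_mem f hf g
  have hm : ((Nat.card ρ.range : ℕ) : ZMod t) ≠ 0 := fun h => hco ((ZMod.natCast_eq_zero_iff _ _).1 h)
  have hpow : ρ f ^ Nat.card ρ.range = 1 := by
    have h1 : (⟨ρ f, ⟨f, rfl⟩⟩ : ρ.range) ^ Nat.card ρ.range = 1 := pow_card_eq_one'
    exact congrArg Subtype.val h1
  have h2 := m_inv (ρ f : Matrix (Fin 2) (Fin 2) (ZMod t)) (ρ (g * f * g⁻¹) : Matrix (Fin 2) (Fin 2) (ZMod t))
    (gScal hab ρ hf hf1) (gDet ρ hf) (gDet ρ hgf) (by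
      rw [map_mul, map_mul, map_inv, Units.val_mul, Units.val_mul]
      exact Matrix.trace_units_conj (ρ g) _) (by rw [← Units.val_mul, hg, Units.val_mul]) (gTwo ht)
    (Nat.card ρ.range) hm (by rw [← Units.val_pow_eq_pow_val, hpow, Units.val_one])
  rcases h2 with h2 | h2
  · left
    exact Units.ext h2
  · right
    rw [← Units.val_mul] at h2
    have h3 : ρ f * ρ (g * f * g⁻¹) = 1 := Units.ext h2
    exact (inv_eq_of_mul_eq_one_right h3).symm

/-- conjugation by a commutator -/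
private theorem gCom {Γ : Type} [Group Γ] {x y b : Γ} (hx : x * b * x⁻¹ = b ∨ x * b * x⁻¹ = b⁻¹)
    (hy : y * b * y⁻¹ = b ∨ y * b * y⁻¹ = b⁻¹) : (x * y * x⁻¹ * y⁻¹) * b = b * (x * y * x⁻¹ * y⁻¹) := by
  have key : ∀ z : Γ, (z * b * z⁻¹ = b ∨ z * b * z⁻¹ = b⁻¹) → (SemiconjBy z b b ∧ SemiconjBy z⁻¹ b b ∧
      SemiconjBy z b⁻¹ b⁻¹ ∧ SemiconjBy z⁻¹ b⁻¹ b⁻¹) ∨ (SemiconjBy z b b⁻¹ ∧ SemiconjBy z⁻¹ b b⁻¹ ∧
      SemiconjBy z b⁻¹ b ∧ SemiconjBy z⁻¹ b⁻¹ b) := by
    rintro z (hz | hz)
    · left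
      have h1 : SemiconjBy z b b := by
        show z * b = b * z
        exact mul_inv_eq_iff_eq_mul.1 hz
      exact ⟨h1, h1.inv_symm_left, h1.inv_right, h1.inv_symm_left.inv_right⟩
    · right
      have h1 : SemiconjBy z b b⁻¹ := by
        show z * b = b⁻¹ * z
        rw [← hz, inv_mul_cancel_right]
      have h2 : SemiconjBy z b⁻¹ b := by
        have := h1.inv_right
        rwa [inv_inv] at this
      exact ⟨h1, h2.inv_symm_left, h2, h1.inv_symm_left⟩
  show SemiconjBy (x * y * x⁻¹ * y⁻¹) b b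
  rcases key x hx with ⟨a1, a2, a3, a4⟩ | ⟨a1, a2, a3, a4⟩ <;>
    rcases key y hy with ⟨b1, b2, b3, b4⟩ | ⟨b1, b2, b3, b4⟩
  · exact ((a1.mul_left b1).mul_left a2).mul_left b2
  · exact ((a1.mul_left b3).mul_left a4).mul_left b2
  · exact ((a3.mul_left b3).mul_left a2).mul_left b2
  · exact ((a3.mul_left b1).mul_left a4).mul_left b2

private theorem gAb [Finite H] (ht : t ≠ 2) (hs : Group.IsSolvable H) (hab : AbS 2 H)
    (ρ : H →* Matrix.GeneralLinearGroup (Fin 2) (ZMod t)) (hco : ¬ t ∣ Nat.card ρ.range) {g h : H}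
    (hg : g ∈ commutator H) (hh : h ∈ commutator H) : ρ g * ρ h = ρ h * ρ g := by
  classical
  obtain ⟨N, hN⟩ := hs.solvable
  have hex : ∃ n, ∀ x ∈ derivedSeries H n, ρ x = 1 := ⟨N, fun x hx => by
    rw [hN, Subgroup.mem_bot] at hx
    rw [hx, map_one]⟩
  by_cases h0 : ∀ x ∈ commutator H, ρ x = 1
  · rw [h0 g hg, h0 h hh]
  · have hk := Nat.find_spec hex
    obtain ⟨k, hk'⟩ : ∃ k, Nat.find hex = k + 2 := by
      rcases hn : Nat.find hex with _ | _ | k
      · rw [hn] at hk
        exact absurd (fun x _ => hk x (by rw [derivedSeries_zero]; exact Subgroup.mem_top x)) h0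
      · rw [hn] at hk
        exact absurd (fun x hx => hk x (by rw [zero_add, derivedSeries_one]; exact hx)) h0
      · exact ⟨k, rfl⟩
    rw [hk'] at hk
    have hmin : ¬ ∀ x ∈ derivedSeries H (k + 1), ρ x = 1 := Nat.find_min hex (by omega)
    rw [not_forall] at hmin
    obtain ⟨b, hb⟩ := hmin
    rw [Classical.not_imp] at hb
    obtain ⟨hb1, hb2⟩ := hb
    have hbc : b ∈ commutator H := by
      rw [← derivedSeries_one]
      exact derivedSeries_antitone H (show 1 ≤ k + 1 by omega) hb1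
    have hcomm : ∀ x ∈ derivedSeries H (k + 1), ∀ y ∈ derivedSeries H (k + 1), ρ x * ρ y = ρ y * ρ x := by
      intro x hx y hy
      have h0 := Subgroup.commutator_mem_commutator hx hy
      rw [← derivedSeries_succ] at h0
      have h1 := hk _ h0
      rw [commutatorElement_def, map_mul, map_mul, map_mul, map_inv, map_inv] at h1
      have h2 := mul_inv_eq_one.1 h1
      rw [mul_inv_eq_iff_eq_mul] at h2
      exact h2
    have hconj : ∀ x : H, ρ x * ρ b * (ρ x)⁻¹ = ρ b ∨ ρ x * ρ b * (ρ x)⁻¹ = (ρ b)⁻¹ := by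
      intro x
      have h1 : x * b * x⁻¹ ∈ derivedSeries H (k + 1) := (derivedSeries_normal H (k + 1)).conj_mem b hb1 x
      have h2 := gInv ht hab ρ hco hbc hb2 x (hcomm b hb1 _ h1)
      rwa [map_mul, map_mul, map_inv] at h2
    have hcb : ∀ x ∈ commutator H, ρ x * ρ b = ρ b * ρ x := by
      intro x hx
      have h1 : commutator H ≤ (Subgroup.centralizer {ρ b}).comap ρ := by
        rw [commutator_def, Subgroup.commutator_le]
        intro x _ y _
        rw [Subgroup.mem_comap, Subgroup.mem_centralizer_iff]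
        intro z hz
        rw [Set.mem_singleton_iff] at hz
        rw [hz, commutatorElement_def, map_mul, map_mul, map_mul, map_inv, map_inv]
        exact (gCom (hconj x) (hconj y)).symm
      have h2 := h1 hx
      rw [Subgroup.mem_comap, Subgroup.mem_centralizer_iff] at h2
      exact (h2 (ρ b) rfl).symm
    apply Units.ext
    rw [Units.val_mul, Units.val_mul]
    refine m_cc (ρ b : Matrix (Fin 2) (Fin 2) (ZMod t)) _ _ (gScal hab ρ hbc hb2) ?_ ?_
    · rw [← Units.val_mul, ← Units.val_mul, hcb g hg]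
    · rw [← Units.val_mul, ← Units.val_mul, hcb h hh]


theorem gl2 {t : ℕ} [Fact t.Prime] (ht : t ≠ 2) {H : Type} [Group H] [Finite H]
    (hs : Group.IsSolvable H) (hab : AbS 2 H)
    (ρ : H →* Matrix.GeneralLinearGroup (Fin 2) (ZMod t)) (hco : ¬ t ∣ Nat.card ρ.range)
    (L : Set H) (hL : Subgroup.closure L = ⊤) (hp : ∀ x ∈ L, (orderOf x).Prime) {f : H}
    (hf : f ∈ commutator H) (hf1 : ρ f ≠ 1) :
    (∀ c : ZMod t, (ρ f : Matrix (Fin 2) (Fin 2) (ZMod t)) ≠ c • 1) ∧
      (∀ g ∈ commutator H, ρ g * ρ f = ρ f * ρ g) ∧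
      (∀ g, ρ (g * f * g⁻¹) = ρ f ∨ ρ (g * f * g⁻¹) = (ρ f)⁻¹) ∧ (ρ f)⁻¹ ≠ ρ f ∧
      ∃ z ∈ L, orderOf z = 2 ∧ ρ (z * f * z⁻¹) = (ρ f)⁻¹ := by
  have hsc := gScal hab ρ hf hf1
  have hb : ∀ g ∈ commutator H, ρ g * ρ f = ρ f * ρ g := fun g hg => gAb ht hs hab ρ hco hg hf
  have hc : ∀ g, ρ (g * f * g⁻¹) = ρ f ∨ ρ (g * f * g⁻¹) = (ρ f)⁻¹ := by
    intro g
    have hgf : g * f * g⁻¹ ∈ commutator H := (inferInstance : (commutator H).Normal).conj_mem f hf g
    exact gInv ht hab ρ hco hf hf1 g (hb _ hgf).symm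
  have hne : (ρ f)⁻¹ ≠ ρ f := by
    intro h
    have h1 : (ρ f : Matrix (Fin 2) (Fin 2) (ZMod t)) * (ρ f : Matrix (Fin 2) (Fin 2) (ZMod t)) = 1 := by
      rw [← Units.val_mul]
      nth_rw 1 [← h]
      rw [inv_mul_cancel, Units.val_one]
    rw [gCh, gDet ρ hf, one_smul, sub_eq_iff_eq_add] at h1
    by_cases h2 : (ρ f : Matrix (Fin 2) (Fin 2) (ZMod t)).trace = 0
    · rw [h2, zero_smul] at h1
      have h3 := congrFun (congrFun h1 0) 0
      rw [Matrix.zero_apply, Matrix.add_apply, Matrix.one_apply_eq] at h3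
      exact gTwo ht (by rw [← one_add_one_eq_two, ← h3])
    · refine hsc ((ρ f : Matrix (Fin 2) (Fin 2) (ZMod t)).trace⁻¹ * 2) ?_
      rw [mul_smul, two_smul, ← h1, smul_smul, inv_mul_cancel₀ h2, one_smul]
  refine ⟨hsc, hb, hc, hne, ?_⟩
  by_cases hall : ∀ z ∈ L, ρ z * ρ f = ρ f * ρ z
  · exfalso
    have h1 : ∀ g : H, ρ g * ρ f = ρ f * ρ g := by
      intro g
      have h2 : g ∈ Subgroup.closure L := by rw [hL]; exact Subgroup.mem_top g
      induction h2 using Subgroup.closure_induction with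
      | mem x hx => exact hall x hx
      | one => rw [map_one, one_mul, mul_one]
      | mul x y _ _ hx hy => rw [map_mul, mul_assoc, hy, ← mul_assoc, hx, mul_assoc]
      | inv x _ hx =>
        rw [map_inv, inv_mul_eq_iff_eq_mul, ← mul_assoc, hx, mul_inv_cancel_right]
    have h2 : ∀ g h : H, ρ g * ρ h = ρ h * ρ g := by
      intro g h
      apply Units.ext
      rw [Units.val_mul, Units.val_mul]
      refine m_cc (ρ f : Matrix (Fin 2) (Fin 2) (ZMod t)) _ _ hsc ?_ ?_
      · rw [← Units.val_mul, ← Units.val_mul, h1 g]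
      · rw [← Units.val_mul, ← Units.val_mul, h1 h]
    have h3 : commutator H ≤ ρ.ker := by
      rw [commutator_def, Subgroup.commutator_le]
      intro x _ y _
      rw [MonoidHom.mem_ker, commutatorElement_def, map_mul, map_mul, map_mul, map_inv, map_inv, h2 x y,
        mul_inv_cancel_right, mul_inv_cancel]
    exact hf1 (h3 hf)
  · rw [not_forall] at hall
    obtain ⟨z, hz⟩ := hall
    rw [Classical.not_imp] at hz
    obtain ⟨hz1, hz2⟩ := hz
    have h1 : ρ (z * f * z⁻¹) = (ρ f)⁻¹ := by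
      rcases hc z with h | h
      · exfalso
        rw [map_mul, map_mul, map_inv, mul_inv_eq_iff_eq_mul] at h
        exact hz2 h
      · exact h
    refine ⟨z, hz1, ?_, h1⟩
    rcases (hp z hz1).eq_two_or_odd with h2 | h2
    · exact h2
    · exfalso
      rw [map_mul, map_mul, map_inv] at h1
      have h3 : SemiconjBy (ρ z) (ρ f) (ρ f)⁻¹ := by
        show ρ z * ρ f = (ρ f)⁻¹ * ρ z
        rw [← h1, inv_mul_cancel_right]
      have h4 : SemiconjBy (ρ z) (ρ f)⁻¹ (ρ f) := by
        have h5 := h3.inv_right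
        rwa [inv_inv] at h5
      have h5 : Commute (ρ (z * z)) (ρ f) := by
        rw [map_mul]
        exact h4.mul_left h3
      have h6 : (z * z) ^ ((orderOf z + 1) / 2) = z := by
        rw [← pow_two, ← pow_mul, Nat.mul_div_cancel' (by omega), pow_succ, pow_orderOf_eq_one, one_mul]
      have h7 := (h5.pow_left ((orderOf z + 1) / 2))
      rw [← map_pow, h6] at h7
      exact hz2 h7

/-- the group `GL 2` over the field with two elements: subgroups of odd order are commutative -/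
theorem gl22 {H : Type} [Group H] [Finite H]
    (ρ : H →* Matrix.GeneralLinearGroup (Fin 2) (ZMod 2)) (hco : ¬ 2 ∣ Nat.card ρ.range) (g h : H) :
    ρ g * ρ h = ρ h * ρ g := by
  have hcard : Nat.card ρ.range ∣ 6 := by
    have h1 := Subgroup.card_subgroup_dvd_card ρ.range
    rw [Matrix.card_GL_field] at h1
    rwa [show (∏ i : Fin 2, (Fintype.card (ZMod 2) ^ 2 - Fintype.card (ZMod 2) ^ (i : ℕ))) = 6 by
      rw [Fin.prod_univ_two, ZMod.card]
      rfl] at h1
  have hle := Nat.le_of_dvd (by norm_num) hcard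
  have hcyc : IsCyclic ρ.range := by
    have h1 : Nat.card ρ.range = 1 ∨ Nat.card ρ.range = 3 := by
      generalize Nat.card ρ.range = m at hco hcard hle
      interval_cases m <;> omega
    rcases h1 with h1 | h1
    · have : Subsingleton ρ.range := (Nat.card_eq_one_iff_unique.1 h1).1
      infer_instance
    · have : Fact (Nat.Prime 3) := ⟨Nat.prime_three⟩
      exact isCyclic_of_prime_card h1
  have h2 : (⟨ρ g, ⟨g, rfl⟩⟩ : ρ.range) * ⟨ρ h, ⟨h, rfl⟩⟩ = ⟨ρ h, ⟨h, rfl⟩⟩ * ⟨ρ g, ⟨g, rfl⟩⟩ :=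
    (IsCyclic.commGroup (α := ρ.range)).mul_comm _ _
  exact congrArg Subtype.val h2

end H12.CF
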