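import Pool.Agent.H12.CF.St3
import Pool.Agent.H71.KA.Lft
import Pool.Agent.H35.SN.Cob
import Pool.Agent.H38.ML.Base

/-!
# [H12 CF LF0] lifting by units, with a given section on the inertia groups, 150-220 lines

`base_base0`: `s = 0`.
`lf0_step`: `Zm :=` the kernel of the action `act` of `Gb` on `π.ker` by conjugation through `s` (as in `lfs_step`, H71/KA/Lft.lean): normal, `Z ≤ Zm`, so `Zm.index ∣ Z.index` is prime to `#π.ker`. `K₀` from `H38.ML.base_field (Nat.card π.ker) (2 * Nat.card G + 1)`. `φ'` from `low_step3` for `Zm`.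
For `v` with `¬ Above (Nat.card π.ker) v` put `𝔓 := Q.P v` (prime, over `v`, so `Nat.card π.ker ∉ 𝔓`). On `I := 𝔓.inertia` put `f τ := φ' τ * (s (φ τ))⁻¹ ∈ π.ker`: `f (τ τ') = f τ * act (φ τ) (f τ')`, and `f τ = 1` if `act (φ τ) = 1` (`φ τ ∈ Zm`).
`H35.SN.cob` with `A := act.range` (finite, `Nat.card A = Zm.index`), `θ := x ↦ x ^ u`, `u * Nat.card A ≡ 1` modulo `Nat.card π.ker` (so `∏ᶠ a, a (θ (a⁻¹ x)) = x ^ (u * Nat.card A) = x`): `f τ = x / act (φ τ) x`, so `φ' τ = x * s (φ τ) * x⁻¹` (`π.ker` is commutative: give it the instance `CommGroup` as in `low_step2`).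
`base0_lf0`: as `base_lfs` in H71/KA/Lft.lean, without `S'`, with `Sl` the places above `Nat.card π.ker` (`above_fin`), `K₁ ⊔ K₂` with `K₂` from `LF0`.
-/

set_option autoImplicit false

open scoped NumberField
open IsDedekindDomain H38.ML
open scoped Classical IsMulCommutative

noncomputable section

namespace H12.CF

open H63.MA H88.LH H77.PC3 H35.SN H71.KA

/-- `BASE` without the places at which the homomorphisms are trivial -/
def BASE0 {G : Type} [Group G] (C : Set G) (N : ℕ) : Prop :=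
  ∃ K₀ : IntermediateField ℚ QBar, NumberField K₀ ∧
    ∀ K : IntermediateField ℚ QBar, ∀ _ : NumberField K, K₀ ≤ K →
      ∀ S₁ : Finset (Pl K), ∃ (Q : DP K QBar) (S₀ : Finset (Pl K)) (c Y₀ : ℝ),
        0 < c ∧ S₁ ⊆ S₀ ∧ ∀ Y : ℝ, Y₀ ≤ Y → Bh C N Q S₀ ∅ c Y

/-- homomorphisms lift along `π`, with the section `s` on the inertia groups, over large fields -/
def LF0 {G Gb : Type} [Group G] [Group Gb] (π : G →* Gb) (s : Gb →* G) : Prop :=
  ∃ K₀ : IntermediateField ℚ QBar, NumberField K₀ ∧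
    ∀ K : IntermediateField ℚ QBar, ∀ _ : NumberField K, K₀ ≤ K →
      ∀ φ : Gal(QBar/K) →* Gb, Function.Surjective φ → FT φ → ∀ Q : DP K QBar,
        ∃ φ' : Gal(QBar/K) →* G, FT φ' ∧ Function.Surjective φ' ∧ (∀ σ, π (φ' σ) = φ σ) ∧
          ∀ v, ¬ Above (Nat.card π.ker) v → ∃ m ∈ π.ker, ∀ τ ∈ (Q.P v).inertia Gal(QBar/K),
            φ' τ = m * s (φ τ) * m⁻¹

theorem base_base0 {G : Type} [Group G] {C : Set G} {N : ℕ} (h : BASE C N) : BASE0 C N := by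
  obtain ⟨K₀, hK₀, h⟩ := h
  refine ⟨K₀, hK₀, fun K hK hle S₁ => ?_⟩
  obtain ⟨Q, S₀, S', c, Y₀, hc, h1, h2, h3, h4, h5⟩ := h K hK hle 0 S₁
  rw [Finset.card_eq_zero] at h4
  subst h4
  exact ⟨Q, S₀, c, Y₀, hc, h1, h5⟩

theorem lf0_step {G Gb : Type} [Group G] [Finite G] [Group Gb] (π : G →* Gb)
    (hπ : Function.Surjective π) (hab : ∀ a b : G, π a = 1 → π b = 1 → a * b = b * a)
    (s : Gb →* G) (hsec : ∀ h, π (s h) = h) (Z : Subgroup Gb)
    (hZ : ∀ z ∈ Z, ∀ a : G, π a = 1 → s z * a = a * s z)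
    (hcop : Nat.Coprime Z.index (Nat.card π.ker)) : LF0 π s := by
  have hfb : Finite Gb := Finite.of_surjective π hπ
  have hcom : IsMulCommutative π.ker := ⟨⟨fun x y => Subtype.ext (hab x y x.2 y.2)⟩⟩
  have hn0 : 0 < Nat.card π.ker := Nat.card_pos
  obtain ⟨act, hact⟩ : ∃ act : Gb →* MulAut π.ker,
      act = (MulAut.conjNormal : G →* MulAut π.ker).comp s := ⟨_, rfl⟩
  have hap : ∀ (h : Gb) (x : π.ker), ((act h x : π.ker) : G) = s h * x * (s h)⁻¹ := by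
    intro h x
    rw [hact]
    show (((MulAut.conjNormal : G →* MulAut π.ker) (s h) x : π.ker) : G) = _
    rw [MulAut.conjNormal_apply]
  have hZm : Z ≤ act.ker := by
    intro z hz
    rw [MonoidHom.mem_ker]
    refine MulEquiv.ext fun x => Subtype.ext ?_
    rw [hap, hZ z hz x x.2, mul_inv_cancel_right]
    rfl
  have hcopm : Nat.Coprime act.ker.index (Nat.card π.ker) :=
    Nat.Coprime.coprime_dvd_left (Subgroup.index_dvd_of_le hZm) hcop
  have hZ' : ∀ z ∈ act.ker, ∀ a : G, π a = 1 → s z * a = a * s z := by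
    intro z hz a ha
    rw [MonoidHom.mem_ker] at hz
    have h1 := hap z ⟨a, ha⟩
    rw [hz] at h1
    have h2 : a = s z * a * (s z)⁻¹ := h1
    rw [eq_mul_inv_iff_mul_eq] at h2
    exact h2.symm
  obtain ⟨K₀, hK₀, hb⟩ := base_field (Nat.card π.ker) (2 * Nat.card G + 1) hn0
  refine ⟨K₀, NumberField.of_module_finite ℚ _, fun K hK hle φ hs hφ Q => ?_⟩
  obtain ⟨⟨ζ, hζ⟩, htc, hinf⟩ := hb K hK hle
  obtain ⟨φ', h1, h2, h3, h4⟩ := low_step3 π hπ hab s hsec act.ker hZ' hcopm htc hinf ζ hζ φ hs hφ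
  refine ⟨φ', h2, h1, h3, fun v hv => ?_⟩
  have hQ1 : (Q.P v).IsPrime := Q.prime v
  have hQ2 : ((Nat.card π.ker : ℕ) : 𝓞 QBar) ∉ Q.P v := by
    intro h5
    apply hv
    have h6 := Q.under v
    show ((Nat.card π.ker : ℕ) : 𝓞 K) ∈ v.asIdeal
    rw [← h6, Ideal.under_def, Ideal.mem_comap, map_natCast]
    exact h5
  have hin := h4 (Q.P v) hQ1 hQ2
  -- the cocycle
  have hmem : ∀ τ : Gal(QBar/K), φ' τ * (s (φ τ))⁻¹ ∈ π.ker := by
    intro τ
    rw [MonoidHom.mem_ker, map_mul, map_inv, hsec, h3, mul_inv_cancel]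
  obtain ⟨u, hu⟩ : ∃ u : ℕ, (Nat.card act.range * u : ℕ) ≡ 1 [MOD Nat.card π.ker] := by
    have h5 : Nat.Coprime (Nat.card act.range) (Nat.card π.ker) := by
      rw [← Subgroup.index_ker]
      exact hcopm
    rcases Nat.lt_or_ge 1 (Nat.card π.ker) with h6 | h6
    · obtain ⟨u, -, hu⟩ := Nat.exists_mul_mod_eq_one_of_coprime h5 h6
      refine ⟨u, ?_⟩
      show _ % _ = _ % _
      rw [hu, Nat.mod_eq_of_lt h6]
    · have h7 : Nat.card π.ker = 1 := by omega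
      rw [h7]
      exact ⟨0, Nat.modEq_one⟩
  obtain ⟨x, hx⟩ := cob (V := π.ker) act.range (powMonoidHom u) (by
    intro x
    have h5 : ∀ a : act.range, (a : MulAut π.ker) (powMonoidHom u ((a : MulAut π.ker)⁻¹ x)) = x ^ u := by
      intro a
      rw [powMonoidHom_apply, map_pow, MulAut.apply_inv_self]
    have := Fintype.ofFinite act.range
    rw [finprod_eq_prod_of_fintype, Finset.prod_congr rfl fun a _ => h5 a, Finset.prod_const, Finset.card_univ,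
      ← Nat.card_eq_fintype_card, ← pow_mul, mul_comm u]
    have h6 := pow_eq_pow_mod (Nat.card act.range * u) (pow_card_eq_one' (x := x))
    rw [h6, hu, ← pow_eq_pow_mod 1 (pow_card_eq_one' (x := x)), pow_one])
    (act.comp (φ.comp ((Q.P v).inertia Gal(QBar/K)).subtype)) (fun i => ⟨_, rfl⟩)
    (fun τ => ⟨φ' τ * (s (φ τ))⁻¹, hmem τ⟩) (by
    intro i j
    apply Subtype.ext
    show φ' ((i : Gal(QBar/K)) * j) * (s (φ ((i : Gal(QBar/K)) * j)))⁻¹ =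
      φ' i * (s (φ i))⁻¹ * ((act (φ i) ⟨φ' j * (s (φ j))⁻¹, hmem j⟩ : π.ker) : G)
    rw [hap, map_mul, map_mul, map_mul]
    group) (by
    intro i hi
    apply Subtype.ext
    show φ' i * (s (φ i))⁻¹ = 1
    rw [hin i i.2 (MonoidHom.mem_ker.2 hi), mul_inv_cancel])
  refine ⟨x, x.2, fun τ hτ => ?_⟩
  have h5 := congrArg Subtype.val (hx ⟨τ, hτ⟩)
  have h6 : φ' τ * (s (φ τ))⁻¹ = (x : G) / ((act (φ τ) x : π.ker) : G) := h5
  rw [hap, div_eq_mul_inv, mul_inv_eq_iff_eq_mul] at h6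
  rw [h6]
  group

theorem base0_lf0 {N : ℕ} {G Gb : Type} [Group G] [Finite G] [Group Gb] {π : G →* Gb}
    {s : Gb →* G} (S : LF0 π s) (hsur : Function.Surjective π) (C : Set G) (Cb : Set Gb)
    (hC : ∀ y ∈ Cb, s y ∈ C) (hcc : ∀ x ∈ C, ∀ g : G, g * x * g⁻¹ ∈ C)
    (h : BASE0 Cb N) : BASE0 C N := by
  have hfb : Finite Gb := Finite.of_surjective π hsur
  have hl0 : 0 < Nat.card π.ker := Nat.card_pos
  obtain ⟨K₁, hK₁, h⟩ := h
  obtain ⟨K₂, hK₂, h2⟩ := S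
  have hK₁' : FiniteDimensional ℚ K₁ := hK₁.to_finiteDimensional
  have hK₂' : FiniteDimensional ℚ K₂ := hK₂.to_finiteDimensional
  have hfd' : FiniteDimensional ℚ ↥(K₁ ⊔ K₂) := IntermediateField.finiteDimensional_sup K₁ K₂
  refine ⟨K₁ ⊔ K₂, NumberField.of_module_finite ℚ _, fun K hK hle S₁ => ?_⟩
  obtain ⟨Sl, hSl⟩ : ∃ Sl : Finset (Pl K), ∀ w, w ∈ Sl ↔ Above (Nat.card π.ker) w :=
    ⟨(above_fin hl0).toFinset, fun w => by rw [Set.Finite.mem_toFinset]; rfl⟩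
  obtain ⟨Q, S₀, c, Y₀, hc, h3, h7⟩ := h K hK (le_trans le_sup_left hle) (S₁ ∪ Sl)
  refine ⟨Q, S₀, c, Y₀, hc, Finset.union_subset_left h3, fun Y hY => ?_⟩
  obtain ⟨Rs, hRs, h8⟩ := h7 Y hY
  have hex : ∀ φb : Gal(QBar/K) →* Gb, ∃ φ : Gal(QBar/K) →* G, φb ∈ Rs → FT φ ∧
      Function.Surjective φ ∧ (∀ σ, π (φ σ) = φb σ) ∧
      ∀ v, ¬ Above (Nat.card π.ker) v → ∃ m ∈ π.ker, ∀ τ ∈ (Q.P v).inertia Gal(QBar/K),
        φ τ = m * s (φb τ) * m⁻¹ := by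
    intro φb
    by_cases hφb : φb ∈ Rs
    · obtain ⟨g1, g2, -, -⟩ := h8 φb hφb
      obtain ⟨φ, q2⟩ := h2 K hK (le_trans le_sup_right hle) φb g2 g1 Q
      exact ⟨φ, fun _ => q2⟩
    · exact ⟨1, fun h => absurd h hφb⟩
  choose lf hlf using hex
  have hinj : Set.InjOn lf (Rs : Set (Gal(QBar/K) →* Gb)) := by
    intro θ₁ h9 θ₂ h10 he
    obtain ⟨-, -, q1, -⟩ := hlf θ₁ h9
    obtain ⟨-, -, q2, -⟩ := hlf θ₂ h10
    refine MonoidHom.ext fun σ => ?_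
    rw [← q1 σ, ← q2 σ, he]
  refine ⟨Rs.image lf, ?_, ?_⟩
  · rw [Finset.card_image_of_injOn hinj]
    exact hRs
  intro φ hφ
  obtain ⟨φb, hφb, rfl⟩ := Finset.mem_image.1 hφ
  obtain ⟨q2, q3, q4, q6⟩ := hlf φb hφb
  obtain ⟨g1, g2, g3, T, k, t1, t2, t3, t4⟩ := h8 φb hφb
  have hin : ∀ w, w ∉ S₀ → ∃ m ∈ π.ker, ∀ τ ∈ (Q.P w).inertia Gal(QBar/K),
      lf φb τ = m * s (φb τ) * m⁻¹ := fun w hw =>
    q6 w fun h9 => hw (h3 (Finset.mem_union_right _ ((hSl w).2 h9)))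
  refine ⟨q2, q3, fun v hv => absurd hv (Finset.notMem_empty v), T, k, t1, t2, fun v hv => ?_,
    fun v hv hv2 τ hτ => ?_⟩
  · obtain ⟨x, hx, hx2⟩ := t3 v hv
    obtain ⟨m, hm, h9⟩ := hin v (t1 v hv)
    refine ⟨m * s x * m⁻¹, ?_, fun τ hτ => ?_⟩
    · refine pk_map (f := (MulAut.conj m).toMonoidHom.comp s) ?_ hx
      intro y hy
      exact hcc _ (hC _ hy) m
    · obtain ⟨j, hj⟩ := Subgroup.mem_zpowers_iff.1 (hx2 τ hτ)
      rw [h9 τ hτ, ← hj, map_zpow]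
      exact ⟨j, conj_zpow⟩
  · obtain ⟨m, hm, h9⟩ := hin v hv
    rw [h9 τ hτ, t4 v hv hv2 τ hτ, map_one, mul_one, mul_inv_cancel]

end H12.CF
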