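import Mathlib.LinearAlgebra.Matrix.Charpoly.Coeff
import Mathlib.LinearAlgebra.Matrix.Adjugate
import Mathlib.LinearAlgebra.Matrix.NonsingularInverse
import Mathlib.LinearAlgebra.Matrix.ToLin

/-!
# [H12 CF MAT] 2 x 2 matrices, 100-160 lines

Everything with entries (`Matrix.det_fin_two`, `Matrix.trace_fin_two`, `Matrix.ext`, `Fin.forall_fin_two`, `Matrix.mul_apply`, `Fin.sum_univ_two`; `A ^ 2 - tr A • A + det A • 1 = 0`).
`uni`: `(A - 1) ^ 2 = 0` gives `A ^ m = 1 + m • (A - 1)` (induction).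
`m_one`: `det (A - 1) = 0` (nonzero vector in the kernel, `Matrix.exists_mulVec_eq_zero_iff`), `= 1 - tr A + det A`, so `tr A = 2` and `(A - 1) ^ 2 = 0`; `uni`.
`m_com`: `A` not scalar: an off-diagonal entry is not `0` or the diagonal entries are different; compare the entries of `A B = B A`.
`m_inv`: `B = a + b A` (`m_com`); `tr`, `det` give `2 a = τ (1 - b)` and `(1 - b ^ 2) (1 - τ ^ 2 / 4) = 0` (`τ = tr A`, `det A = 1`; if `A` is not scalar also `B` is not scalar). If `τ ^ 2 = 4` then `A = ε (1 + N)`, `N ^ 2 = 0`, `ε = ± 1`: `(ε A) ^ (2 m) = 1`, so `ε A = 1` by `uni`, contradiction. `b = 1`: `B = A`. `b = - 1`: `B = τ - A`, `A B = τ A - A ^ 2 = 1`.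
`m_thr`: eigenvectors `u, v, w`, pairwise not proportional: `w = a u + b v`, `a, b ≠ 0`, so the three eigenvalues are equal and `A` is scalar (`u`, `v` a basis).
`m_eig`: `A u = c u`, `c ^ 2 = 1` (`c = ± 1`): `det A = 1`, so the trace is `c + c⁻¹ = 2 c`, `(A - c) ^ 2 = 0`, as before `A = c`, contradiction.
-/

set_option autoImplicit false

namespace H12.CF

variable {K : Type} [Field K]

private theorem matCh (A : Matrix (Fin 2) (Fin 2) K) : A * A = A.trace • A - A.det • 1 := by
  ext i j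
  fin_cases i <;> fin_cases j <;>
    simp [Matrix.mul_apply, Fin.sum_univ_two, Matrix.det_fin_two, Matrix.trace_fin_two] <;> ring

private theorem matPow (A : Matrix (Fin 2) (Fin 2) K) (h : (A - 1) * (A - 1) = 0) (m : ℕ) :
    A ^ m = 1 + (m : K) • (A - 1) := by
  induction m with
  | zero => simp
  | succ m ih =>
    have h1 : A = 1 + (A - 1) := by abel
    rw [pow_succ, ih]
    nth_rw 2 [h1]
    rw [add_mul, mul_add, mul_add, one_mul, one_mul, mul_one, smul_mul_assoc, h, smul_zero, add_zero,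
      Nat.cast_succ, add_smul, one_smul]
    abel

theorem uni (A : Matrix (Fin 2) (Fin 2) K) (h : (A - 1) * (A - 1) = 0) (m : ℕ) (hm : (m : K) ≠ 0)
    (hA : A ^ m = 1) : A = 1 := by
  have h1 := matPow A h m
  rw [hA] at h1
  have h2 : (m : K) • (A - 1) = 0 := by
    have h3 : (1 : Matrix (Fin 2) (Fin 2) K) + 0 = 1 + (m : K) • (A - 1) := by rw [add_zero]; exact h1
    exact (add_left_cancel h3).symm
  rcases smul_eq_zero.1 h2 with h3 | h3
  · exact absurd h3 hm
  · exact sub_eq_zero.1 h3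

private theorem matDet (A : Matrix (Fin 2) (Fin 2) K) (c : K) (v : Fin 2 → K) (hv : v ≠ 0)
    (hAv : A.mulVec v = c • v) : c * c - c * A.trace + A.det = 0 := by
  have h0 : A 0 0 * v 0 + A 0 1 * v 1 = c * v 0 := by
    have h := congrFun hAv 0
    simpa [Matrix.mulVec, dotProduct, Fin.sum_univ_two] using h
  have h1 : A 1 0 * v 0 + A 1 1 * v 1 = c * v 1 := by
    have h := congrFun hAv 1
    simpa [Matrix.mulVec, dotProduct, Fin.sum_univ_two] using h
  have h2 : v 0 ≠ 0 ∨ v 1 ≠ 0 := by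
    by_contra hc
    rw [not_or, not_not, not_not] at hc
    apply hv
    funext i
    fin_cases i
    · exact hc.1
    · exact hc.2
  rw [Matrix.det_fin_two, Matrix.trace_fin_two]
  rcases h2 with h2 | h2
  · apply mul_right_cancel₀ h2
    linear_combination (A 1 1 - c) * h0 - A 0 1 * h1
  · apply mul_right_cancel₀ h2
    linear_combination (A 0 0 - c) * h1 - A 1 0 * h0

/-- `A` with trace `2 c`, `c ^ 2 = 1`, determinant 1 and finite order prime to the characteristic is scalar -/
private theorem matSc (A : Matrix (Fin 2) (Fin 2) K) (hd : A.det = 1) (c : K) (hc : c * c = 1)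
    (ht : A.trace = 2 * c) (k : ℕ) (hk : ((2 * k : ℕ) : K) ≠ 0) (hA : A ^ k = 1) : A = c • 1 := by
  have h1 : (c • A - 1) * (c • A - 1) = 0 := by
    have h2 : (c • A - 1) * (c • A - 1) = (c * c) • (A * A) - (2 * c) • A + 1 := by
      rw [sub_mul, mul_sub, one_mul, mul_one, smul_mul_smul_comm, two_mul, add_smul]
      abel
    rw [h2, hc, one_smul, matCh A, ht, hd, one_smul]
    abel
  have h3 : (c • A) ^ (2 * k) = 1 := by
    rw [smul_pow, mul_comm 2 k, pow_mul A k 2, hA, one_pow, mul_comm k 2, pow_mul c 2 k, pow_two, hc, one_pow,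
      one_smul]
  have h4 := uni (c • A) h1 (2 * k) hk h3
  calc A = (c * c) • A := by rw [hc, one_smul]
    _ = c • (c • A) := by rw [mul_smul]
    _ = c • 1 := by rw [h4]

theorem m_one (A : Matrix (Fin 2) (Fin 2) K) (hd : A.det = 1) (v : Fin 2 → K) (hv : v ≠ 0)
    (hAv : A.mulVec v = v) (m : ℕ) (hm : (m : K) ≠ 0) (hA : A ^ m = 1) : A = 1 := by
  have h1 := matDet A 1 v hv (by rw [one_smul]; exact hAv)
  have h2 : A.trace = 2 := by
    rw [hd] at h1
    linear_combination -h1
  refine uni A ?_ m hm hA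
  have h3 : (A - 1) * (A - 1) = A * A - (2 : K) • A + 1 := by
    rw [sub_mul, mul_sub, one_mul, mul_one, two_smul]
    abel
  rw [h3, matCh A, h2, hd, one_smul]
  abel

theorem m_com (A B : Matrix (Fin 2) (Fin 2) K) (hA : ∀ c : K, A ≠ c • 1) (h : A * B = B * A) :
    ∃ a b : K, B = a • 1 + b • A := by
  have e1 : A 0 0 * B 0 0 + A 0 1 * B 1 0 = B 0 0 * A 0 0 + B 0 1 * A 1 0 := by
    have := congrFun (congrFun h 0) 0
    simpa [Matrix.mul_apply, Fin.sum_univ_two] using this
  have e2 : A 0 0 * B 0 1 + A 0 1 * B 1 1 = B 0 0 * A 0 1 + B 0 1 * A 1 1 := by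
    have := congrFun (congrFun h 0) 1
    simpa [Matrix.mul_apply, Fin.sum_univ_two] using this
  have e3 : A 1 0 * B 0 0 + A 1 1 * B 1 0 = B 1 0 * A 0 0 + B 1 1 * A 1 0 := by
    have := congrFun (congrFun h 1) 0
    simpa [Matrix.mul_apply, Fin.sum_univ_two] using this
  have key : ∀ a b : K, B 0 0 = a + b * A 0 0 → B 0 1 = b * A 0 1 → B 1 0 = b * A 1 0 →
      B 1 1 = a + b * A 1 1 → B = a • 1 + b • A := by
    intro a b h1 h2 h3 h4
    ext i j
    fin_cases i <;> fin_cases j <;> simp [h1, h2, h3, h4]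
  by_cases h1 : A 0 1 = 0
  · by_cases h2 : A 1 0 = 0
    · have h3 : A 0 0 - A 1 1 ≠ 0 := by
        intro h4
        apply hA (A 0 0)
        ext i j
        fin_cases i <;> fin_cases j <;> simp [h1, h2, (sub_eq_zero.1 h4).symm]
      refine ⟨B 0 0 - (B 0 0 - B 1 1) / (A 0 0 - A 1 1) * A 0 0, (B 0 0 - B 1 1) / (A 0 0 - A 1 1),
        key _ _ ?_ ?_ ?_ ?_⟩
      · ring
      · rw [div_mul_eq_mul_div, eq_div_iff h3]
        linear_combination e2
      · rw [div_mul_eq_mul_div, eq_div_iff h3]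
        linear_combination -e3
      · have h5 : (B 0 0 - B 1 1) / (A 0 0 - A 1 1) * (A 0 0 - A 1 1) = B 0 0 - B 1 1 :=
          div_mul_cancel₀ _ h3
        linear_combination h5
    · refine ⟨B 0 0 - B 1 0 / A 1 0 * A 0 0, B 1 0 / A 1 0, key _ _ ?_ ?_ ?_ ?_⟩
      · ring
      · rw [div_mul_eq_mul_div, eq_div_iff h2]
        linear_combination -e1
      · rw [div_mul_cancel₀ _ h2]
      · have h5 : B 1 0 / A 1 0 * A 1 0 = B 1 0 := div_mul_cancel₀ _ h2
        apply mul_right_cancel₀ h2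
        linear_combination -e3 + (A 0 0 - A 1 1) * h5
  · refine ⟨B 0 0 - B 0 1 / A 0 1 * A 0 0, B 0 1 / A 0 1, key _ _ ?_ ?_ ?_ ?_⟩
    · ring
    · rw [div_mul_cancel₀ _ h1]
    · rw [div_mul_eq_mul_div, eq_div_iff h1]
      linear_combination e1
    · have h5 : B 0 1 / A 0 1 * A 0 1 = B 0 1 := div_mul_cancel₀ _ h1
      apply mul_right_cancel₀ h1
      linear_combination e2 + (A 0 0 - A 1 1) * h5

theorem m_cc (A B C : Matrix (Fin 2) (Fin 2) K) (hA : ∀ c : K, A ≠ c • 1) (h : A * B = B * A)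
    (h' : A * C = C * A) : B * C = C * B := by
  obtain ⟨a, b, rfl⟩ := m_com A B hA h
  obtain ⟨c, d, rfl⟩ := m_com A C hA h'
  simp only [add_mul, mul_add, smul_mul_assoc, mul_smul_comm, one_mul, mul_one, smul_smul, smul_add]
  rw [mul_comm a c, mul_comm a d, mul_comm b c, mul_comm b d]
  abel

theorem m_inv (A B : Matrix (Fin 2) (Fin 2) K) (hA : ∀ c : K, A ≠ c • 1) (hd : A.det = 1)
    (hB : B.det = 1) (ht : B.trace = A.trace) (h : A * B = B * A) (h2 : (2 : K) ≠ 0) (m : ℕ)
    (hm : (m : K) ≠ 0) (hAm : A ^ m = 1) : B = A ∨ A * B = 1 := by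
  obtain ⟨a, b, rfl⟩ := m_com A B hA h
  have h3 : (a • (1 : Matrix (Fin 2) (Fin 2) K) + b • A).trace = 2 * a + b * A.trace := by
    rw [Matrix.trace_add, Matrix.trace_smul, Matrix.trace_smul, Matrix.trace_one, smul_eq_mul, smul_eq_mul,
      Fintype.card_fin]
    push_cast
    ring
  have h4 : (a • (1 : Matrix (Fin 2) (Fin 2) K) + b • A).det =
      a * a + a * b * A.trace + b * b * A.det := by
    rw [Matrix.det_fin_two, Matrix.det_fin_two, Matrix.trace_fin_two]
    simp
    ring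
  rw [h3] at ht
  rw [h4, hd] at hB
  have h5 : (1 - b * b) * (A.trace * A.trace - 4) = 0 := by
    linear_combination 4 * hB - (2 * a - b * A.trace + A.trace + 2 * b * A.trace) * ht
  rcases mul_eq_zero.1 h5 with h6 | h6
  · have h7 : (1 - b) * (1 + b) = 0 := by linear_combination h6
    rcases mul_eq_zero.1 h7 with h8 | h8
    · left
      have h9 : b = 1 := by linear_combination -h8
      rw [h9] at ht ⊢
      have h10 : a = 0 := by
        have : 2 * a = 0 := by linear_combination ht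
        exact (mul_eq_zero.1 this).resolve_left h2
      rw [h10, zero_smul, one_smul, zero_add]
    · right
      have h9 : b = -1 := by linear_combination h8
      rw [h9] at ht ⊢
      have h10 : a = A.trace := by
        have : 2 * (a - A.trace) = 0 := by linear_combination ht
        exact sub_eq_zero.1 ((mul_eq_zero.1 this).resolve_left h2)
      rw [h10, mul_add, mul_smul_comm, mul_smul_comm, mul_one, matCh A, hd, one_smul, neg_one_smul]
      abel
  · exfalso
    have h7 : (A.trace - 2) * (A.trace + 2) = 0 := by linear_combination h6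
    have h8 : ((2 * m : ℕ) : K) ≠ 0 := by
      rw [Nat.cast_mul]
      exact mul_ne_zero (by exact_mod_cast h2) hm
    rcases mul_eq_zero.1 h7 with h9 | h9
    · exact hA 1 (matSc A hd 1 (one_mul 1) (by linear_combination h9) m h8 hAm)
    · exact hA (-1) (matSc A hd (-1) (by ring) (by linear_combination h9) m h8 hAm)

theorem m_thr (A : Matrix (Fin 2) (Fin 2) K) (hA : ∀ c : K, A ≠ c • 1) (u v w : Fin 2 → K)
    (a b c : K) (hu : A.mulVec u = a • u) (hv : A.mulVec v = b • v) (hw : A.mulVec w = c • w)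
    (hu0 : u ≠ 0) (hv0 : v ≠ 0) (hw0 : w ≠ 0) : (∃ k : K, v = k • u) ∨ (∃ k : K, w = k • u) ∨
      ∃ k : K, w = k • v := by
  have mv : ∀ (x : Fin 2 → K) (e : K), A.mulVec x = e • x →
      A 0 0 * x 0 + A 0 1 * x 1 = e * x 0 ∧ A 1 0 * x 0 + A 1 1 * x 1 = e * x 1 := by
    intro x e hx
    have h0 := congrFun hx 0
    have h1 := congrFun hx 1
    constructor
    · simpa [Matrix.mulVec, dotProduct, Fin.sum_univ_two] using h0
    · simpa [Matrix.mulVec, dotProduct, Fin.sum_univ_two] using h1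
  have par : ∀ x y : Fin 2 → K, x ≠ 0 → x 0 * y 1 - x 1 * y 0 = 0 → ∃ k : K, y = k • x := by
    intro x y hx hxy
    by_cases h0 : x 0 = 0
    · have h1 : x 1 ≠ 0 := by
        intro h1
        apply hx
        funext i
        fin_cases i
        · exact h0
        · exact h1
      refine ⟨y 1 / x 1, ?_⟩
      have h2 : y 0 = 0 := by
        rw [h0, zero_mul, zero_sub, neg_eq_zero] at hxy
        exact (mul_eq_zero.1 hxy).resolve_left h1
      funext i
      fin_cases i
      · show y 0 = y 1 / x 1 * x 0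
        rw [h0, h2, mul_zero]
      · show y 1 = y 1 / x 1 * x 1
        rw [div_mul_cancel₀ _ h1]
    · refine ⟨y 0 / x 0, ?_⟩
      funext i
      fin_cases i
      · show y 0 = y 0 / x 0 * x 0
        rw [div_mul_cancel₀ _ h0]
      · show y 1 = y 0 / x 0 * x 1
        rw [div_mul_eq_mul_div, eq_div_iff h0]
        linear_combination hxy
  by_contra hcon
  rw [not_or, not_or] at hcon
  obtain ⟨c1, c2, c3⟩ := hcon
  have d1 : u 0 * v 1 - u 1 * v 0 ≠ 0 := fun h => c1 (par u v hu0 h)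
  have d2 : u 0 * w 1 - u 1 * w 0 ≠ 0 := fun h => c2 (par u w hu0 h)
  have d3 : v 0 * w 1 - v 1 * w 0 ≠ 0 := fun h => c3 (par v w hv0 h)
  obtain ⟨u1, u2⟩ := mv u a hu
  obtain ⟨v1, v2⟩ := mv v b hv
  obtain ⟨w1, w2⟩ := mv w c hw
  have t1 : a + b = A 0 0 + A 1 1 := by
    apply mul_right_cancel₀ d1
    linear_combination -(v 1) * u1 + v 0 * u2 + u 1 * v1 - u 0 * v2
  have t2 : a + c = A 0 0 + A 1 1 := by
    apply mul_right_cancel₀ d2
    linear_combination -(w 1) * u1 + w 0 * u2 + u 1 * w1 - u 0 * w2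
  have t3 : b + c = A 0 0 + A 1 1 := by
    apply mul_right_cancel₀ d3
    linear_combination -(w 1) * v1 + w 0 * v2 + v 1 * w1 - v 0 * w2
  have hab : b = a := by linear_combination t3 - t2
  rw [hab] at v1 v2
  apply hA a
  have z1 : A 0 0 = a := by
    apply mul_right_cancel₀ d1
    linear_combination v 1 * u1 - u 1 * v1
  have z2 : A 0 1 = 0 := by
    apply (mul_eq_zero.1 (_ : A 0 1 * (u 0 * v 1 - u 1 * v 0) = 0)).resolve_right d1
    linear_combination u 0 * v1 - v 0 * u1
  have z3 : A 1 0 = 0 := by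
    apply (mul_eq_zero.1 (_ : A 1 0 * (u 0 * v 1 - u 1 * v 0) = 0)).resolve_right d1
    linear_combination v 1 * u2 - u 1 * v2
  have z4 : A 1 1 = a := by
    apply mul_right_cancel₀ d1
    linear_combination u 0 * v2 - v 0 * u2
  ext i j
  fin_cases i <;> fin_cases j <;> simp [z1, z2, z3, z4]

theorem m_eig (A : Matrix (Fin 2) (Fin 2) K) (hA : ∀ c : K, A ≠ c • 1) (hd : A.det = 1)
    (h2 : (2 : K) ≠ 0) (m : ℕ) (hm : (m : K) ≠ 0) (hAm : A ^ m = 1) (u : Fin 2 → K) (hu : u ≠ 0)
    (c : K) (hAu : A.mulVec u = c • u) : c * c ≠ 1 := by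
  intro hc
  have h1 := matDet A c u hu hAu
  have h3 : A.trace = 2 * c := by
    rw [hd] at h1
    linear_combination -c * h1 + (c - A.trace) * hc
  have h8 : ((2 * m : ℕ) : K) ≠ 0 := by
    rw [Nat.cast_mul]
    exact mul_ne_zero (by exact_mod_cast h2) hm
  exact hA c (matSc A hd c hc h3 m h8 hAm)

end H12.CF
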