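import Pool.Agent.H12.CF.Orb
import Mathlib.GroupTheory.PGroup

/-!
# [H12 CF MMA] fixed points in one orbit of a normal abelian subgroup, 80-120 lines

`A := {w : X | w⁻¹ * (s * w * s⁻¹) ∈ st X α}` is a subgroup of `X` (`X` commutative, `s` normalises `X` and `st X α` as `s • α = α`), it is `{w : X | s • w • α = w • α}`, it contains `st X α` and is not `X` (`hbad`). `s` acts on the finite set `Y = X ⧸ st X α` (`w ↦ s w s⁻¹`) through a group of order `1` or `q` (`zpowers s`, a `q`-group) with `#A / #(st X α)` fixed points: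
`IsPGroup.card_modEq_card_fixedPoints`: `#Y = [X : st X α] ≡ [A : st X α]` modulo `q`, so `[A : st X α] ([X : A] - 1) ≡ 0`; `[A : st X α]` is a power of `t ≠ q`, so `q ∣ [X : A] - 1`, `[X : A] ≠ 1`: `[X : A] ≥ q + 1`. (Without quotients: count the pairs or use the action on the cosets as a `Quotient`; or apply the congruence to the action of `zpowers s` on the set of cosets `{w st X α}` as a set of sets.)
-/

set_option autoImplicit false

namespace H12.CF

variable {G Ω : Type} [Group G] [Finite G] [MulAction G Ω] [Finite Ω]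

omit [Finite G] [Finite Ω] in
private theorem st_sub (A : Subgroup G) (α : Ω) : (MulAction.stabilizer G α).subgroupOf A = MulAction.stabilizer A α := by
  ext w
  rfl

omit [Finite G] [Finite Ω] in
private theorem zfix {s : G} {β : Ω} (h : s • β = β) (g : Subgroup.zpowers s) : (g : G) • β = β := by
  have h1 : Subgroup.zpowers s ≤ MulAction.stabilizer G β := by
    rw [Subgroup.zpowers_le]
    exact h
  exact h1 g.2

theorem mma (X : Subgroup G) [X.Normal] (hX : ∀ x ∈ X, ∀ y ∈ X, x * y = y * x) {t q : ℕ}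
    (ht : t.Prime) (hXt : IsPGroup t X) (hq : q.Prime) (hqt : q ≠ t) {s : G} (hs : s ^ q = 1) (α : Ω)
    (hα : s • α = α) (hbad : ∃ x ∈ X, x⁻¹ * (s * x * s⁻¹) ∉ st X α) :
    (q + 1) * Nat.card {w : X // s • ((w : G) • α) = (w : G) • α} ≤ Nat.card X := by
  have hqf : Fact q.Prime := ⟨hq⟩
  have hcj : ∀ x ∈ X, s * x * s⁻¹ ∈ X := fun x hx => (inferInstance : X.Normal).conj_mem x hx s
  have hs1 : ∀ x : G, s • (x • α) = (s * x * s⁻¹) • α := by
    intro x
    have h1 : s⁻¹ • α = α := by
      rw [inv_smul_eq_iff]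
      exact hα.symm
    rw [mul_smul, mul_smul, h1]
  let A : Subgroup G :=
    { carrier := {w | w ∈ X ∧ s • (w • α) = w • α}
      mul_mem' := by
        rintro w w' ⟨hw, h1⟩ ⟨hw', h2⟩
        refine ⟨X.mul_mem hw hw', ?_⟩
        have h3 : s • ((w * w') • α) = (s * w * s⁻¹) • (s • (w' • α)) := by
          rw [← mul_smul, ← mul_smul, ← mul_smul]
          congr 1
          group
        rw [h3, h2, ← mul_smul, hX _ (hcj w hw) _ hw', mul_smul, ← hs1, h1, ← mul_smul, hX _ hw' _ hw]
      one_mem' := ⟨X.one_mem, by rw [one_smul, hα]⟩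
      inv_mem' := by
        rintro w ⟨hw, h1⟩
        refine ⟨X.inv_mem hw, ?_⟩
        have h2 : s * w⁻¹ * s⁻¹ = (s * w * s⁻¹)⁻¹ := by group
        rw [hs1, h2, inv_smul_eq_iff, ← mul_smul, hX _ (hcj w hw) _ (X.inv_mem hw), mul_smul, ← hs1, h1, inv_smul_smul] }
  have hA : ∀ w : G, w ∈ A ↔ w ∈ X ∧ s • (w • α) = w • α := fun w => Iff.rfl
  have hAX : A ≤ X := fun w hw => hw.1
  have hcard : Nat.card {w : X // s • ((w : G) • α) = (w : G) • α} = Nat.card A :=
    Nat.card_congr
      { toFun := fun w => ⟨w.1.1, w.1.2, w.2⟩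
        invFun := fun w => ⟨⟨w.1, w.2.1⟩, w.2.2⟩
        left_inv := fun _ => rfl
        right_inv := fun _ => rfl }
  rw [hcard]
  -- the orbit of `X`
  let W : SubMulAction (Subgroup.zpowers s) Ω :=
    { carrier := MulAction.orbit X α
      smul_mem' := by
        rintro g _ ⟨x, rfl⟩
        have h1 : (g : G) * x * (g : G)⁻¹ ∈ X := (inferInstance : X.Normal).conj_mem x x.2 g
        refine ⟨⟨_, h1⟩, ?_⟩
        show ((g : G) * (x : G) * (g : G)⁻¹) • α = (g : G) • ((x : G) • α)
        rw [mul_smul, mul_smul]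
        have h2 := zfix hα g⁻¹
        rw [Subgroup.coe_inv] at h2
        rw [h2] }
  have hZ : IsPGroup q (Subgroup.zpowers s) := by
    intro g
    refine ⟨1, ?_⟩
    obtain ⟨g, k, rfl⟩ := g
    apply Subtype.ext
    show (s ^ k) ^ q ^ 1 = 1
    rw [pow_one, ← zpow_natCast, ← zpow_mul, mul_comm, zpow_mul, zpow_natCast, hs, one_zpow]
  have hmod := hZ.card_modEq_card_fixedPoints W
  have hY : Nat.card W = (MulAction.stabilizer G α).relIndex X := by
    have h1 := MulAction.index_stabilizer (G := X) α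
    rw [Subgroup.relIndex, st_sub, h1]
    rfl
  have hF : Nat.card (MulAction.fixedPoints (Subgroup.zpowers s) W) = (MulAction.stabilizer G α).relIndex A := by
    have h1 := MulAction.index_stabilizer (G := A) α
    rw [Subgroup.relIndex, st_sub, h1, ← Nat.card_coe_set_eq]
    have hto : ∀ β : MulAction.fixedPoints (Subgroup.zpowers s) W, ((β.1 : W) : Ω) ∈ MulAction.orbit A α := by
      rintro ⟨⟨β, x, rfl⟩, h2⟩
      have h3 := congrArg (fun z : W => (z : Ω)) (h2 ⟨s, Subgroup.mem_zpowers s⟩)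
      exact ⟨⟨x, x.2, h3⟩, rfl⟩
    have hinv : ∀ β : MulAction.orbit A α, (β : Ω) ∈ W := by
      rintro ⟨β, x, rfl⟩
      exact ⟨⟨x, x.2.1⟩, rfl⟩
    have hfx : ∀ β : MulAction.orbit A α, (⟨(β : Ω), hinv β⟩ : W) ∈ MulAction.fixedPoints (Subgroup.zpowers s) W := by
      intro β g
      apply Subtype.ext
      show (g : G) • (β : Ω) = (β : Ω)
      obtain ⟨x, hx⟩ := β.2
      apply zfix
      rw [← hx]
      exact x.2.2
    exact Nat.card_congr
      { toFun := fun β => ⟨_, hto β⟩
        invFun := fun β => ⟨⟨_, hinv β⟩, hfx β⟩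
        left_inv := fun _ => rfl
        right_inv := fun _ => rfl }
  rw [hY, hF] at hmod
  have hstA : (MulAction.stabilizer G α).relIndex X = (MulAction.stabilizer G α).relIndex A * A.relIndex X := by
    have hle : MulAction.stabilizer G α ⊓ X ≤ A := by
      rintro w ⟨h1, h2⟩
      refine ⟨h2, ?_⟩
      have h3 : w • α = α := h1
      rw [h3, hα]
    have h1 := Subgroup.relIndex_mul_relIndex (MulAction.stabilizer G α ⊓ X) A X hle hAX
    have h2 : (MulAction.stabilizer G α ⊓ X).relIndex A = (MulAction.stabilizer G α).relIndex A := by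
      rw [← Subgroup.inf_relIndex_right (MulAction.stabilizer G α ⊓ X), inf_assoc, inf_eq_right.2 hAX,
        Subgroup.inf_relIndex_right]
    rw [h2, Subgroup.inf_relIndex_right] at h1
    exact h1.symm
  have hdvd : (MulAction.stabilizer G α).relIndex A ∣ Nat.card A := Subgroup.index_dvd_card _
  have hcop : Nat.Coprime q ((MulAction.stabilizer G α).relIndex A) := by
    have htf : Fact t.Prime := ⟨ht⟩
    obtain ⟨k, hk⟩ := IsPGroup.iff_card.1 (hXt.to_le hAX)
    rw [hk] at hdvd
    obtain ⟨j, -, hj⟩ := (Nat.dvd_prime_pow ht).1 hdvd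
    rw [hj]
    exact ((Nat.coprime_primes hq ht).2 hqt).pow_right j
  rw [hstA] at hmod
  have hi : A.relIndex X ≡ 1 [MOD q] := by
    refine Nat.ModEq.cancel_left_of_coprime hcop ?_
    rw [mul_one]
    exact hmod
  have hi1 : A.relIndex X ≠ 1 := by
    intro h1
    rw [Subgroup.relIndex_eq_one] at h1
    obtain ⟨x, hx, hx'⟩ := hbad
    apply hx'
    refine Subgroup.mem_inf.2 ⟨X.mul_mem (X.inv_mem hx) (hcj x hx), ?_⟩
    rw [MulAction.mem_stabilizer_iff, mul_smul, ← hs1, (h1 hx).2, inv_smul_smul]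
  have hi0 : A.relIndex X ≠ 0 := Subgroup.index_ne_zero_of_finite
  have hge : q + 1 ≤ A.relIndex X := by
    have h1 : q ∣ A.relIndex X - 1 := (Nat.modEq_iff_dvd' (by omega)).1 hi.symm
    have h2 := Nat.le_of_dvd (by omega) h1
    omega
  have hXA : Nat.card A * A.relIndex X = Nat.card X := by
    have h1 := Subgroup.card_mul_index (A.subgroupOf X)
    have h2 : Nat.card (A.subgroupOf X) = Nat.card A := Nat.card_congr (Subgroup.subgroupOfEquivOfLe hAX).toEquiv
    rw [h2] at h1
    exact h1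
  rw [← hXA, mul_comm (q + 1)]
  exact Nat.mul_le_mul_left _ hge

end H12.CF
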