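import Pool.Agent.H12.CF.B1
import Pool.Agent.H12.CF.B3
import Pool.Agent.H12.CF.B4
import Pool.Agent.H12.CF.A2
import Pool.Agent.H12.CF.A3

/-!
# [H12 CF S2] the structure theorem, 50-80 lines

`s1`: `a2` and `a3`.
`s2`: `bd_of` (`S.nor`, `S.mem`, `S.cf` with `orderOf x ∣ #T`, `orderOf_dvd_natCard`-like); in the second case: `fitq` for `v` (order `orderOf x`, `B.vo`; `v ∈ T`; `AbS` from `ab`, `S.cf`; the hypothesis is `b1`) gives a normal `q`-subgroup `W ≤ T`, `v ∈ W`. `W ≤ P` (`P` a Sylow subgroup, `W` normal: `P ⊔ W = P` as in `spl` in H71/GT/Spl.lean, `P.is_maximal'`, `IsPGroup.to_sup_of_normal_right`).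
`W ⊓ ⁅T, T⁆ = zpowers v` (`B.PD`, `B.vD`), so `zpowers v` is normal; `b3`, `b4`: `False`.
-/

set_option autoImplicit false

open scoped commutatorElement

noncomputable section

namespace H12.CF

open H71.GT

variable {G Ω : Type} [Group G] [Finite G] [MulAction G Ω] [Finite Ω] {L : Set G} {T : Subgroup G}

theorem s1 [Nonempty Ω] [FaithfulSMul G Ω] [MulAction.IsPretransitive G Ω] (S : St Ω L T) {y : G}
    (hy : y ∈ L) (hyD : y ∈ (⁅T, T⁆ : Subgroup G)) :
    ∃ W : Subgroup G, W.Normal ∧ W ≤ ⁅T, T⁆ ∧ Nat.card W = (orderOf y) ^ 2 ∧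
      (∀ w ∈ W, w ^ orderOf y = 1) ∧ y ∈ W ∧
      ∀ d ∈ (⁅T, T⁆ : Subgroup G), ∀ w ∈ W, d * w = w * d := by
  obtain ⟨W, hWn, hWD, hW, hWe, hWc, hyW⟩ := a2 S hy hyD
  exact ⟨W, hWn, hWD, hW, hWe, hyW, a3 S hy W hWD hW hWe hWc hyW⟩

theorem s2 [Nonempty Ω] [FaithfulSMul G Ω] [MulAction.IsPretransitive G Ω] (S : St Ω L T) {x : G}
    (hx : x ∈ L) [Fact (orderOf x).Prime] (hxD : x ∉ (⁅T, T⁆ : Subgroup G))
    (hq : orderOf x ∣ Nat.card (⁅T, T⁆ : Subgroup G)) (P : Sylow (orderOf x) G)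
    (hxP : x ∈ (P : Subgroup G)) :
    ∀ g ∈ T, g ∈ Subgroup.normalizer ((P : Subgroup G) : Set G) → g * x = x * g := by
  have hTn : T.Normal := S.nor
  have hDn : (⁅T, T⁆ : Subgroup G).Normal := S.dn
  have hxT : x ∈ T := S.mem hx
  have hxp : (orderOf x).Prime := S.pr x hx
  have hxdT : orderOf x ∣ Nat.card T := by
    have h := orderOf_dvd_natCard (⟨x, hxT⟩ : T)
    rwa [← Subgroup.orderOf_coe] at h
  have hab : ∀ p : ℕ, p.Prime → p ∣ Nat.card T → AbS p G := fun p hp hpT => ab hp (S.cf p hp hpT)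
  rcases bd_of hx T (S.cf _ hxp hxdT) hxT hxD hq P hxP with h | ⟨v, p, B⟩
  · exact h
  · exfalso
    have hvT : v ∈ T := S.dle B.vD
    have hvp : (orderOf v).Prime := by
      rw [B.vo]
      exact hxp
    obtain ⟨W, hWn, hWT, hWp, hvW⟩ := fitq T S.sol hab hvT hvp
      (fun t ht W hWn hWT hWp => b1 S B ht W hWT hWp)
    rw [B.vo] at hWp
    have hWP : W ≤ (P : Subgroup G) := by
      have h1 : IsPGroup (orderOf x) ((P : Subgroup G) ⊔ W : Subgroup G) :=
        IsPGroup.to_sup_of_normal_right P.isPGroup' hWp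
      have h2 := P.is_maximal' h1 le_sup_left
      rw [← h2]
      exact le_sup_right
    have h3 : (W ⊓ ⁅T, T⁆ : Subgroup G) = Subgroup.zpowers v := by
      apply le_antisymm
      · intro y hy
        exact B.PD y (hWP hy.1) hy.2
      · rw [Subgroup.zpowers_le]
        exact ⟨hvW, B.vD⟩
    have hV : (Subgroup.zpowers v).Normal := by
      rw [← h3]
      infer_instance
    exact b4 S B hV (b3 S B hV)

end H12.CF
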